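import Mathlib

set_option linter.unusedSectionVars false

namespace Pool.Agent.Helper713.BrSplit

open Matrix Finset

variable {S T : Type*} [Fintype S] [Fintype T] [DecidableEq S] [DecidableEq T]

/-- derivative of the determinant -/
theorem sum_cramer (M D : Matrix S S ℝ) :
    ∑ u, (M.cramer (fun i => (D * M) i u)) u = D.trace * M.det := by
  have h : ∑ u, (M.cramer (fun i => (D * M) i u)) u = (M.adjugate * (D * M)).trace := by
    simp only [Matrix.trace, Matrix.diag]
    refine Finset.sum_congr rfl fun u _ => ?_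
    rw [Matrix.cramer_eq_adjugate_mulVec]
    rfl
  rw [h, ← Matrix.mul_assoc, Matrix.trace_mul_comm, ← Matrix.mul_assoc, Matrix.mul_adjugate,
    Matrix.smul_mul, Matrix.one_mul, Matrix.trace_smul, smul_eq_mul, mul_comm]

/-- the matrix with columns `y_u - y_{f u}` -/
def W (y : S ⊕ T → S → ℝ) (f : S → T) : Matrix S S ℝ :=
  Matrix.of fun i u => y (Sum.inl u) i - y (Sum.inr (f u)) i

theorem cramer_self (y : S ⊕ T → S → ℝ) (f : S → T) (u : S) (t : T) :
    (W y f).cramer (fun i => y (Sum.inl u) i - y (Sum.inr t) i) u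
      = (W y (Function.update f u t)).det := by
  rw [Matrix.cramer_apply]
  congr 1
  ext i j
  by_cases h : j = u
  · subst h; simp [W]
  · simp [W, Matrix.updateCol_ne h, Function.update_of_ne h]

theorem cramer_other (y : S ⊕ T → S → ℝ) (f : S → T) (u u' : S) (h : u' ≠ u) :
    (W y f).cramer (fun i => y (Sum.inl u') i - y (Sum.inr (f u')) i) u = 0 := by
  have := Matrix.cramer_row_self (A := W y f) (b := fun i => y (Sum.inl u') i - y (Sum.inr (f u')) i)
    (i := u') (by intro j; simp [W])
  rw [this]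
  simp [h.symm]

/-- transition rate -/
def rate (B : S → T → ℝ) (f : S → T) (u : S) (t' : T) : ℝ :=
  (∑ u' ∈ Finset.univ.erase u, if f u' = t' then (1 - B u' (f u)) else 0) + B u t'
    + (if t' = f u then ∑ u', B u' (f u) else 0)

theorem rate_nonneg (B : S → T → ℝ) (h0 : ∀ u t, 0 ≤ B u t) (h1 : ∀ u t, B u t ≤ 1)
    (f : S → T) (u : S) (t' : T) : 0 ≤ rate B f u t' := by
  unfold rate
  have a1 : 0 ≤ ∑ u' ∈ Finset.univ.erase u, if f u' = t' then (1 - B u' (f u)) else 0 := by
    refine Finset.sum_nonneg fun i _ => ?_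
    split_ifs
    · linarith [h1 i (f u)]
    · exact le_rfl
  have a2 : 0 ≤ (if t' = f u then ∑ u', B u' (f u) else 0) := by
    split_ifs
    · exact Finset.sum_nonneg fun i _ => h0 _ _
    · exact le_rfl
  linarith [h0 u t']

theorem sum_rate (B : S → T → ℝ) (f : S → T) (u : S) :
    ∑ t', rate B f u t' = ((Fintype.card S : ℝ) - 1) + ∑ t', B u t' + B u (f u) := by
  unfold rate
  rw [Finset.sum_add_distrib, Finset.sum_add_distrib, Finset.sum_comm]
  have e1 : ∀ u' : S, ∑ t' : T, (if f u' = t' then (1 - B u' (f u)) else 0) = 1 - B u' (f u) := by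
    intro u'; simp
  simp only [e1]
  have e2 : ∑ t' : T, (if t' = f u then ∑ u', B u' (f u) else 0) = ∑ u', B u' (f u) := by
    simp
  rw [e2]
  rw [Finset.sum_sub_distrib]
  have e3 : ∑ u' ∈ Finset.univ.erase u, B u' (f u) = (∑ u', B u' (f u)) - B u (f u) := by
    rw [← Finset.add_sum_erase _ _ (Finset.mem_univ u)]; ring
  have e4 : ∑ _x ∈ (Finset.univ : Finset S).erase u, (1:ℝ) = (Fintype.card S : ℝ) - 1 := by
    have := Finset.add_sum_erase (Finset.univ : Finset S) (fun _ => (1:ℝ)) (Finset.mem_univ u)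
    simp only [Finset.sum_const, Finset.card_univ, nsmul_eq_mul, mul_one] at this
    simp only [Finset.sum_const, nsmul_eq_mul, mul_one]
    linarith
  rw [e3, e4]
  ring

/-- the vector identity -/
theorem col_identity (B : S → T → ℝ) (y : S ⊕ T → S → ℝ) (f : S → T) (u : S) (i : S) :
    ((∑ u', (y (Sum.inl u) i - y (Sum.inl u') i)) + ∑ t, B u t * (y (Sum.inl u) i - y (Sum.inr t) i))
      - (∑ u', B u' (f u) * (y (Sum.inr (f u)) i - y (Sum.inl u') i))
    = (∑ t', rate B f u t' * (y (Sum.inl u) i - y (Sum.inr t') i))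
      + ∑ u' ∈ Finset.univ.erase u, (B u' (f u) - 1) * (y (Sum.inl u') i - y (Sum.inr (f u')) i) := by
  set yu := y (Sum.inl u) i with hyu
  set t := f u with ht
  have E1 : (∑ t', rate B f u t' * (yu - y (Sum.inr t') i))
      = (∑ u' ∈ Finset.univ.erase u, (1 - B u' t) * (yu - y (Sum.inr (f u')) i))
        + (∑ t', B u t' * (yu - y (Sum.inr t') i))
        + (∑ u', B u' t) * (yu - y (Sum.inr t) i) := by
    unfold rate
    rw [← ht]
    simp only [add_mul, Finset.sum_add_distrib]
    congr 1
    · congr 1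
      simp only [Finset.sum_mul]
      rw [Finset.sum_comm]
      refine Finset.sum_congr rfl fun u' _ => ?_
      rw [Finset.sum_eq_single (f u')]
      · simp
      · intro b _ hb
        rw [if_neg (Ne.symm hb)]; ring
      · intro h; exact absurd (Finset.mem_univ _) h
    · rw [Finset.sum_eq_single t]
      · simp
      · intro b _ hb
        rw [if_neg hb]; ring
      · intro h; exact absurd (Finset.mem_univ _) h
  rw [E1]
  have E2 : ∑ u', (yu - y (Sum.inl u') i)
      = ∑ u' ∈ Finset.univ.erase u, (yu - y (Sum.inl u') i) := by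
    rw [← Finset.add_sum_erase _ _ (Finset.mem_univ u)]
    rw [← hyu]; ring
  have E3 : (∑ u', B u' t) * (yu - y (Sum.inr t) i)
      = (∑ u' ∈ Finset.univ.erase u, B u' t * (yu - y (Sum.inr t) i)) + B u t * (yu - y (Sum.inr t) i) := by
    rw [Finset.sum_mul, ← Finset.add_sum_erase _ _ (Finset.mem_univ u)]; ring
  have E4 : (∑ u', B u' t * (y (Sum.inr t) i - y (Sum.inl u') i))
      = (∑ u' ∈ Finset.univ.erase u, B u' t * (y (Sum.inr t) i - y (Sum.inl u') i))
        + B u t * (y (Sum.inr t) i - yu) := by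
    rw [← Finset.add_sum_erase _ _ (Finset.mem_univ u)]
    rw [← hyu]; ring
  rw [E2, E3, E4]
  have E5 : (∑ u' ∈ Finset.univ.erase u, (yu - y (Sum.inl u') i))
      - (∑ u' ∈ Finset.univ.erase u, B u' t * (y (Sum.inr t) i - y (Sum.inl u') i))
      = (∑ u' ∈ Finset.univ.erase u, (1 - B u' t) * (yu - y (Sum.inr (f u')) i))
        + (∑ u' ∈ Finset.univ.erase u, B u' t * (yu - y (Sum.inr t) i))
        + ∑ u' ∈ Finset.univ.erase u, (B u' t - 1) * (y (Sum.inl u') i - y (Sum.inr (f u')) i) := by
    rw [← Finset.sum_sub_distrib, ← Finset.sum_add_distrib, ← Finset.sum_add_distrib]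
    refine Finset.sum_congr rfl fun u' _ => ?_
    ring
  linarith [E5]

theorem main_rel (B : S → T → ℝ) (v : S → S ⊕ T → ℝ) (a : S → ℝ)
    (hS : ∀ i u, a i * v i (Sum.inl u) = (∑ u', (v i (Sum.inl u) - v i (Sum.inl u')))
      + ∑ t, B u t * (v i (Sum.inl u) - v i (Sum.inr t)))
    (hT : ∀ i t, a i * v i (Sum.inr t) = ∑ u, B u t * (v i (Sum.inr t) - v i (Sum.inl u)))
    (f : S → T) :
    (∑ i, a i) * (W (fun j i => v i j) f).det
      = ∑ u, ∑ t', rate B f u t' * (W (fun j i => v i j) (Function.update f u t')).det := by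
  set y : S ⊕ T → S → ℝ := fun j i => v i j with hy
  have h1 := sum_cramer (W y f) (Matrix.diagonal a)
  rw [Matrix.trace_diagonal] at h1
  rw [← h1]
  refine Finset.sum_congr rfl fun u _ => ?_
  have hc : (fun i => (Matrix.diagonal a * W y f) i u)
      = (∑ t', rate B f u t' • (fun i => y (Sum.inl u) i - y (Sum.inr t') i))
      + ∑ u' ∈ Finset.univ.erase u, (B u' (f u) - 1) • (fun i => y (Sum.inl u') i - y (Sum.inr (f u')) i) := by
    funext i
    have hid := col_identity B y f u i
    simp only [Pi.add_apply, Finset.sum_apply, Pi.smul_apply, smul_eq_mul]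
    rw [← hid, Matrix.diagonal_mul]
    simp only [W, Matrix.of_apply, hy]
    rw [mul_sub, hS i u, hT i (f u)]
  rw [hc, map_add, map_sum, map_sum, Pi.add_apply, Finset.sum_apply, Finset.sum_apply]
  have z : ∑ c ∈ Finset.univ.erase u, (W y f).cramer
      ((B c (f u) - 1) • (fun i => y (Sum.inl c) i - y (Sum.inr (f c)) i)) u = 0 := by
    refine Finset.sum_eq_zero fun c hc => ?_
    rw [map_smul, Pi.smul_apply, cramer_other y f u c (Finset.ne_of_mem_erase hc), smul_zero]
  rw [z, add_zero]
  refine Finset.sum_congr rfl fun t' _ => ?_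
  rw [map_smul, Pi.smul_apply, cramer_self, smul_eq_mul]

theorem sum_le_of_det_ne_zero (B : S → T → ℝ) (h0 : ∀ u t, 0 ≤ B u t) (hb1 : ∀ u t, B u t ≤ 1)
    (v : S → S ⊕ T → ℝ) (a : S → ℝ)
    (hS : ∀ i u, a i * v i (Sum.inl u) = (∑ u', (v i (Sum.inl u) - v i (Sum.inl u')))
      + ∑ t, B u t * (v i (Sum.inl u) - v i (Sum.inr t)))
    (hT : ∀ i t, a i * v i (Sum.inr t) = ∑ u, B u t * (v i (Sum.inr t) - v i (Sum.inl u)))
    (hne : ∃ f : S → T, (W (fun j i => v i j) f).det ≠ 0) :
    ∑ i, a i ≤ (Fintype.card S : ℝ) ^ 2 + ∑ u, ∑ t, B u t := by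
  classical
  obtain ⟨f0, hf0⟩ := hne
  obtain ⟨f, -, hf⟩ := Finset.exists_max_image (Finset.univ : Finset (S → T))
    (fun f => |(W (fun j i => v i j) f).det|) ⟨f0, Finset.mem_univ _⟩
  have hpos : 0 < |(W (fun j i => v i j) f).det| :=
    lt_of_lt_of_le (abs_pos.mpr hf0) (hf f0 (Finset.mem_univ _))
  set X := |(W (fun j i => v i j) f).det| with hX
  have key : (∑ i, a i) * X ≤ ((Fintype.card S : ℝ) ^ 2 + ∑ u, ∑ t, B u t) * X := by
    have h1 : (∑ i, a i) * X ≤ |(∑ i, a i) * (W (fun j i => v i j) f).det| := by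
      rw [abs_mul]
      exact mul_le_mul_of_nonneg_right (le_abs_self _) (abs_nonneg _)
    refine h1.trans ?_
    rw [main_rel B v a hS hT f]
    refine (Finset.abs_sum_le_sum_abs _ _).trans ?_
    have h2 : ∀ u, |∑ t', rate B f u t' * (W (fun j i => v i j) (Function.update f u t')).det|
        ≤ (((Fintype.card S : ℝ) - 1) + ∑ t', B u t' + B u (f u)) * X := by
      intro u
      refine (Finset.abs_sum_le_sum_abs _ _).trans ?_
      rw [← sum_rate B f u, Finset.sum_mul]
      refine Finset.sum_le_sum fun t' _ => ?_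
      rw [abs_mul, abs_of_nonneg (rate_nonneg B h0 hb1 f u t')]
      exact mul_le_mul_of_nonneg_left (hf _ (Finset.mem_univ _)) (rate_nonneg B h0 hb1 f u t')
    refine (Finset.sum_le_sum fun u _ => h2 u).trans ?_
    rw [← Finset.sum_mul]
    refine mul_le_mul_of_nonneg_right ?_ (abs_nonneg _)
    have h3 : ∀ u, (((Fintype.card S : ℝ) - 1) + ∑ t', B u t' + B u (f u))
        ≤ (Fintype.card S : ℝ) + ∑ t', B u t' := by
      intro u; linarith [hb1 u (f u)]
    refine (Finset.sum_le_sum fun u _ => h3 u).trans ?_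
    rw [Finset.sum_add_distrib]
    simp only [Finset.sum_const, Finset.card_univ, nsmul_eq_mul]
    apply le_of_eq
    ring
  exact le_of_mul_le_mul_right key hpos

/-- greedy choice -/
theorem exists_indep (v : S → S ⊕ T → ℝ) (hv : LinearIndependent ℝ v)
    (hsum : ∀ i, ∑ j, v i j = 0) (t0 : T) (U : Finset S) :
    ∃ f : S → T, LinearIndepOn ℝ (fun u : S => fun i => v i (Sum.inl u) - v i (Sum.inr (f u))) (U : Set S) := by
  classical
  induction U using Finset.induction_on with
  | empty => exact ⟨fun _ => t0, by simp⟩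
  | insert u U hu ih =>
    obtain ⟨f, hf⟩ := ih
    by_contra hcon
    push Not at hcon
    set g : S → S → ℝ := fun u => fun i => v i (Sum.inl u) - v i (Sum.inr (f u)) with hg
    -- every choice for `u` fails
    have hmem : ∀ t : T, (fun i => v i (Sum.inl u) - v i (Sum.inr t)) ∈ Submodule.span ℝ (g '' (U : Set S)) := by
      intro t
      by_contra hnot
      refine hcon (Function.update f u t) ?_
      have hUeq : ∀ w ∈ (U : Set S), (fun i => v i (Sum.inl w) - v i (Sum.inr (Function.update f u t w)))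
          = g w := by
        intro w hw
        have : w ≠ u := by rintro rfl; exact hu hw
        simp [g, Function.update_of_ne this]
      rw [Finset.coe_insert, linearIndepOn_insert (by simpa using hu)]
      refine ⟨?_, ?_⟩
      · exact (linearIndepOn_congr hUeq).mpr hf
      · rw [Set.image_congr hUeq]
        simpa using hnot
    set K := Submodule.span ℝ (g '' (U : Set S)) with hK
    -- a functional killing everything
    set G : Finset (S → ℝ) := (U.image g) ∪
      ((Finset.univ \ insert u U).image (fun w => fun i => v i (Sum.inl w) - v i (Sum.inr t0))) with hG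
    have hcard : G.card < Fintype.card S := by
      have c1 : G.card ≤ U.card + (Finset.univ \ insert u U).card :=
        (Finset.card_union_le _ _).trans (add_le_add Finset.card_image_le Finset.card_image_le)
      have c2 : (Finset.univ \ insert u U).card = Fintype.card S - (U.card + 1) := by
        rw [Finset.card_sdiff_of_subset (Finset.subset_univ _), Finset.card_insert_of_notMem hu,
          Finset.card_univ]
      have c3 : U.card + 1 ≤ Fintype.card S := by
        rw [← Finset.card_insert_of_notMem hu, ← Finset.card_univ]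
        exact Finset.card_le_card (Finset.subset_univ _)
      omega
    have hKG : K ≤ Submodule.span ℝ (G : Set (S → ℝ)) := by
      refine Submodule.span_mono ?_
      intro x hx
      obtain ⟨w, hw, rfl⟩ := hx
      simp only [hG, Finset.coe_union, Finset.coe_image]
      exact Or.inl ⟨w, hw, rfl⟩
    have hTT : ∀ t : T, (fun i => v i (Sum.inr t) - v i (Sum.inr t0)) ∈ K := by
      intro t
      have := K.sub_mem (hmem t0) (hmem t)
      convert this using 1
      funext i; simp
    have hall : ∀ j : S ⊕ T, (fun i => v i j - v i (Sum.inr t0)) ∈ Submodule.span ℝ (G : Set (S → ℝ)) := by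
      rintro (w | t)
      · by_cases hw : w ∈ U
        · have h1 : g w ∈ K := Submodule.subset_span ⟨w, hw, rfl⟩
          have := K.add_mem h1 (hTT (f w))
          refine hKG ?_
          convert this using 1
          funext i; simp [g]
        · by_cases hwu : w = u
          · subst hwu; exact hKG (hmem t0)
          · refine Submodule.subset_span ?_
            simp only [hG, Finset.coe_union, Finset.coe_image]
            exact Or.inr ⟨w, by simp [hw, hwu], rfl⟩
      · exact hKG (hTT t)
    have hlt : Module.finrank ℝ (Submodule.span ℝ (G : Set (S → ℝ))) < Module.finrank ℝ (S → ℝ) := by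
      rw [Module.finrank_fintype_fun_eq_card]
      exact lt_of_le_of_lt (finrank_span_finset_le_card G) hcard
    have hne : Submodule.span ℝ (G : Set (S → ℝ)) ≠ ⊤ := by
      intro h
      rw [h, finrank_top] at hlt
      exact lt_irrefl _ hlt
    obtain ⟨φ, hφ0, hφ⟩ := Submodule.exists_le_ker_of_lt_top _ (lt_top_iff_ne_top.mpr hne)
    -- φ is given by a vector c
    set c : S → ℝ := fun i => φ (Pi.single i 1) with hc
    have hφc : ∀ x : S → ℝ, φ x = ∑ i, c i * x i := by
      intro x
      have : x = ∑ i, x i • (Pi.single i (1:ℝ) : S → ℝ) := by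
        funext k; simp [Finset.sum_apply, Pi.single_apply]
      conv_lhs => rw [this]
      rw [map_sum]
      refine Finset.sum_congr rfl fun i _ => ?_
      rw [map_smul, smul_eq_mul, mul_comm]
    have hconst : ∀ j, ∑ i, c i * v i j = ∑ i, c i * v i (Sum.inr t0) := by
      intro j
      have h1 : φ (fun i => v i j - v i (Sum.inr t0)) = 0 := hφ (hall j)
      rw [hφc] at h1
      simp only [mul_sub, Finset.sum_sub_distrib] at h1
      linarith
    have hz : ∑ j, ∑ i, c i * v i j = 0 := by
      rw [Finset.sum_comm]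
      refine Finset.sum_eq_zero fun i _ => ?_
      rw [← Finset.mul_sum, hsum i, mul_zero]
    have hval : ∑ i, c i * v i (Sum.inr t0) = 0 := by
      rw [Finset.sum_congr rfl fun j _ => hconst j, Finset.sum_const, Finset.card_univ, nsmul_eq_mul] at hz
      have hcp : (Fintype.card (S ⊕ T) : ℝ) ≠ 0 := by
        have : 0 < Fintype.card (S ⊕ T) := Fintype.card_pos_iff.mpr ⟨Sum.inr t0⟩
        exact_mod_cast this.ne'
      exact (mul_eq_zero.mp hz).resolve_left hcp
    have hc0 : ∀ i, c i = 0 := by
      have := Fintype.linearIndependent_iff.mp hv c (by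
        funext j
        simp only [Finset.sum_apply, Pi.smul_apply, smul_eq_mul, Pi.zero_apply]
        rw [hconst j, hval])
      exact this
    apply hφ0
    apply LinearMap.ext
    intro x
    rw [hφc]
    simp [hc0]

theorem exists_det_ne_zero (v : S → S ⊕ T → ℝ) (hv : LinearIndependent ℝ v)
    (hsum : ∀ i, ∑ j, v i j = 0) [Nonempty T] :
    ∃ f : S → T, (W (fun j i => v i j) f).det ≠ 0 := by
  obtain ⟨t0⟩ := ‹Nonempty T›
  obtain ⟨f, hf⟩ := exists_indep v hv hsum t0 Finset.univ
  refine ⟨f, ?_⟩
  rw [Finset.coe_univ, linearIndepOn_univ_iff] at hf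
  have h2 : LinearIndependent ℝ (W (fun j i => v i j) f).col := hf
  rw [Matrix.linearIndependent_cols_iff_isUnit, Matrix.isUnit_iff_isUnit_det] at h2
  exact h2.ne_zero

/-- **Step (a)**: the sum of `|S|` eigenvalues (with independent eigenvectors of entry sum zero) of
the Laplacian of a weighted split graph (clique on `S`, weights `B u t ∈ [0,1]` between `S` and the
independent set `T`) is at most `|S|^2 + ∑ B`. -/
theorem split_main [Nonempty T] (B : S → T → ℝ) (h0 : ∀ u t, 0 ≤ B u t) (hb1 : ∀ u t, B u t ≤ 1)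
    (v : S → S ⊕ T → ℝ) (hv : LinearIndependent ℝ v) (hsum : ∀ i, ∑ j, v i j = 0) (a : S → ℝ)
    (hS : ∀ i u, a i * v i (Sum.inl u) = (∑ u', (v i (Sum.inl u) - v i (Sum.inl u')))
      + ∑ t, B u t * (v i (Sum.inl u) - v i (Sum.inr t)))
    (hT : ∀ i t, a i * v i (Sum.inr t) = ∑ u, B u t * (v i (Sum.inr t) - v i (Sum.inl u))) :
    ∑ i, a i ≤ (Fintype.card S : ℝ) ^ 2 + ∑ u, ∑ t, B u t :=
  sum_le_of_det_ne_zero B h0 hb1 v a hS hT (exists_det_ne_zero v hv hsum)

/-- helper244's form of the main case -/
theorem mainA {S T : Type} [Fintype S] [DecidableEq S] [Fintype T] [DecidableEq T] [Nonempty T]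
    (B : Matrix S T ℝ) (hB0 : ∀ u w, 0 ≤ B u w) (hB1 : ∀ u w, B u w ≤ 1)
    (X : Matrix S S ℝ) (Y : Matrix S T ℝ) (a : S → ℝ)
    (horth : X * Xᵀ + Y * Yᵀ = 1)
    (hsum : ∀ i, ∑ u, X i u + ∑ w, Y i w = 0)
    (heig1 : ∀ i u, ((Fintype.card S : ℝ) + ∑ w, B u w) * X i u - ∑ u', X i u'
      - ∑ w, B u w * Y i w = a i * X i u)
    (heig2 : ∀ i w, (∑ u, B u w) * Y i w - ∑ u, B u w * X i u = a i * Y i w) :
    ∑ i, a i ≤ (Fintype.card S : ℝ) ^ 2 + ∑ u, ∑ w, B u w := by
  set v : S → S ⊕ T → ℝ := fun i => Sum.elim (X i) (Y i) with hv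
  have hind : LinearIndependent ℝ v := by
    rw [Fintype.linearIndependent_iff]
    intro g hg i
    have hX : ∀ u, ∑ k, g k * X k u = 0 := by
      intro u
      have := congrFun hg (Sum.inl u)
      simpa [hv, Finset.sum_apply] using this
    have hY : ∀ w, ∑ k, g k * Y k w = 0 := by
      intro w
      have := congrFun hg (Sum.inr w)
      simpa [hv, Finset.sum_apply] using this
    have h1 : Matrix.vecMul g (X * Xᵀ + Y * Yᵀ) = 0 := by
      rw [Matrix.vecMul_add, ← Matrix.vecMul_vecMul, ← Matrix.vecMul_vecMul]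
      have e1 : Matrix.vecMul g X = 0 := by
        funext u; simpa [Matrix.vecMul, dotProduct] using hX u
      have e2 : Matrix.vecMul g Y = 0 := by
        funext u; simpa [Matrix.vecMul, dotProduct] using hY u
      rw [e1, e2]; simp
    rw [horth, Matrix.vecMul_one] at h1
    exact congrFun h1 i
  refine split_main (B := fun u w => B u w) hB0 hB1 v hind ?_ a ?_ ?_
  · intro i
    rw [Fintype.sum_sum_type]
    simpa [hv] using hsum i
  · intro i u
    have := heig1 i u
    simp only [hv, Sum.elim_inl, Sum.elim_inr]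
    rw [← this, Finset.sum_sub_distrib]
    simp only [mul_sub, Finset.sum_sub_distrib, Finset.sum_const, Finset.card_univ, nsmul_eq_mul,
      ← Finset.sum_mul]
    ring
  · intro i w
    have := heig2 i w
    simp only [hv, Sum.elim_inl, Sum.elim_inr]
    rw [← this]
    simp only [mul_sub, Finset.sum_sub_distrib, ← Finset.sum_mul]

end Pool.Agent.Helper713.BrSplit
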