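import Mathlib

set_option autoImplicit false
set_option linter.deprecated false

open MeasureTheory ProbabilityTheory

namespace Pool.Agent.Helper713

/-- Bernoulli product measure on a family of bits. -/
noncomputable def mu (E : Type) (p : NNReal) (hp : p ≤ 1) : Measure (E → Bool) :=
  Measure.infinitePi (fun _ : E => (PMF.bernoulli p hp).toMeasure)

instance (E : Type) (p : NNReal) (hp : p ≤ 1) : IsProbabilityMeasure (mu E p hp) := by
  unfold mu; infer_instance

/-- sigma-algebra generated by the coordinates in `I`. -/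
@[reducible] def cs {E : Type} (I : Set E) : MeasurableSpace (E → Bool) :=
  ⨆ i ∈ I, MeasurableSpace.comap (fun ω : E → Bool => ω i) inferInstance

theorem cs_le {E : Type} (I : Set E) : cs I ≤ (MeasurableSpace.pi : MeasurableSpace (E → Bool)) := by
  refine iSup₂_le fun i _ => ?_
  exact (measurable_pi_apply i).comap_le

theorem cs_mono {E : Type} {I J : Set E} (h : I ⊆ J) : cs I ≤ cs J :=
  biSup_mono (fun _ hi => h hi)

theorem cs_coord {E : Type} {I : Set E} {e : E} (he : e ∈ I) (b : Bool) :
    MeasurableSet[cs I] {ω : E → Bool | ω e = b} := by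
  have h : MeasurableSpace.comap (fun ω : E → Bool => ω e) inferInstance ≤ cs I :=
    le_iSup₂_of_le e he le_rfl
  apply h
  exact ⟨{b}, MeasurableSet.singleton b, by ext; simp⟩

theorem iIndep_coord (E : Type) (p : NNReal) (hp : p ≤ 1) :
    iIndep (fun i : E => MeasurableSpace.comap (fun ω : E → Bool => ω i) inferInstance)
      (mu E p hp) := by
  have := iIndepFun_infinitePi (ι := E) (Ω := fun _ => Bool)
    (P := fun _ => (PMF.bernoulli p hp).toMeasure) (X := fun _ b => b) (by fun_prop)
  exact this

theorem indep_cs {E : Type} (p : NNReal) (hp : p ≤ 1) {I J : Set E} (h : Disjoint I J) :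
    Indep (cs I) (cs J) (mu E p hp) :=
  indep_iSup_of_disjoint (fun i => (measurable_pi_apply i).comap_le) (iIndep_coord E p hp) h

theorem mu_inter {E : Type} (p : NNReal) (hp : p ≤ 1) {I J : Set E} (h : Disjoint I J)
    {A B : Set (E → Bool)} (hA : MeasurableSet[cs I] A) (hB : MeasurableSet[cs J] B) :
    mu E p hp (A ∩ B) = mu E p hp A * mu E p hp B :=
  (Indep_iff _ _ _).1 (indep_cs p hp h) A B hA hB

theorem mu_coord {E : Type} (p : NNReal) (hp : p ≤ 1) (e : E) :
    mu E p hp {ω | ω e = true} = p := by
  have h := Measure.infinitePi_map_eval (fun _ : E => (PMF.bernoulli p hp).toMeasure) e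
  have h2 : mu E p hp {ω | ω e = true} = ((mu E p hp).map (fun x => x e)) {true} := by
    rw [Measure.map_apply (measurable_pi_apply e) (MeasurableSet.singleton _)]
    rfl
  rw [h2]
  unfold mu
  rw [h, PMF.toMeasure_apply_singleton _ _ (MeasurableSet.singleton _), PMF.bernoulli_apply]
  simp

theorem mu_coord_false {E : Type} (p : NNReal) (hp : p ≤ 1) (e : E) :
    mu E p hp {ω | ω e = false} = 1 - p := by
  have h1 : {ω : E → Bool | ω e = false} = {ω | ω e = true}ᶜ := by
    ext ω; simp
  rw [h1, prob_compl_eq_one_sub, mu_coord]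
  exact (cs_le _) _ (cs_coord (Set.mem_singleton e) true)

/-- For a finite family of events that live on pairwise disjoint sets of coordinates, the
probability that all of them fail is the product. -/
theorem mu_biInter {E : Type} (p : NNReal) (hp : p ≤ 1) {ι : Type} (s : Finset ι)
    (I : ι → Set E) (hI : Set.PairwiseDisjoint (s : Set ι) I)
    (A : ι → Set (E → Bool)) (hA : ∀ i ∈ s, MeasurableSet[cs (I i)] (A i)) :
    MeasurableSet[cs (⋃ i ∈ s, I i)] (⋂ i ∈ s, A i) ∧
    mu E p hp (⋂ i ∈ s, A i) = ∏ i ∈ s, mu E p hp (A i) := by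
  classical
  induction s using Finset.induction_on with
  | empty => simp
  | insert a s ha ih =>
    have ih' := ih (hI.subset (by simp)) (fun i hi => hA i (Finset.mem_insert_of_mem hi))
    have h1 : MeasurableSet[cs (⋃ i ∈ insert a s, I i)] (A a) := by
      refine cs_mono ?_ _ (hA a (Finset.mem_insert_self _ _))
      exact Set.subset_biUnion_of_mem (u := I) (Finset.mem_insert_self _ _)
    have h2 : MeasurableSet[cs (⋃ i ∈ insert a s, I i)] (⋂ i ∈ s, A i) := by
      refine cs_mono ?_ _ ih'.1
      exact Set.biUnion_subset_biUnion_left (by intro x hx; exact Finset.mem_insert_of_mem hx)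
    rw [Finset.set_biInter_insert]
    refine ⟨h1.inter h2, ?_⟩
    rw [Finset.prod_insert ha, ← ih'.2]
    refine mu_inter p hp ?_ (hA a (Finset.mem_insert_self _ _)) ih'.1
    rw [Set.disjoint_iUnion₂_right]
    intro i hi
    refine hI (by simp) (by simp [hi]) ?_
    rintro rfl
    exact ha hi

end Pool.Agent.Helper713
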