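import Mathlib
import Pool.Agent.Helper713.Perc

set_option autoImplicit false
set_option linter.deprecated false

open MeasureTheory ProbabilityTheory

namespace Pool.Agent.Helper713

/-- the open subgraph -/
def openGraph {W : Type} (H : SimpleGraph W) (ω : Sym2 W → Bool) : SimpleGraph W :=
  SimpleGraph.fromEdgeSet {e : Sym2 W | e ∈ H.edgeSet ∧ ω e = true}

theorem openGraph_adj {W : Type} (H : SimpleGraph W) (ω : Sym2 W → Bool) (x y : W) :
    (openGraph H ω).Adj x y ↔ H.Adj x y ∧ ω s(x, y) = true := by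
  unfold openGraph
  rw [SimpleGraph.fromEdgeSet_adj]
  constructor
  · rintro ⟨⟨h1, h2⟩, h3⟩
    exact ⟨h1, h2⟩
  · rintro ⟨h1, h2⟩
    exact ⟨⟨h1, h2⟩, h1.ne⟩

/-- event: there is an open self-avoiding path of length `n` from `x` to `y` avoiding `F`. -/
def pathEv {W : Type} (H : SimpleGraph W) : ℕ → W → W → Set W → Set (Sym2 W → Bool)
  | 0, x, y, _ => {_ω | x = y}
  | n+1, x, y, F => ⋃ z ∈ {z | H.Adj x z ∧ z ∉ insert x F},
      ({ω | ω s(x, z) = true} ∩ pathEv H n z y (insert x F))

/-- edges not touching `F` -/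
def offE {W : Type} (F : Set W) : Set (Sym2 W) := {e | ∀ v ∈ e, v ∉ F}

theorem pathEv_meas {W : Type} [Countable W] (H : SimpleGraph W) (n : ℕ) :
    ∀ (x y : W) (F : Set W), x ∉ F → MeasurableSet[cs (offE F)] (pathEv H n x y F) := by
  induction n with
  | zero =>
    intro x y F hx
    unfold pathEv
    exact MeasurableSet.const _
  | succ n ih =>
    intro x y F hx
    unfold pathEv
    refine MeasurableSet.biUnion (Set.to_countable _) ?_
    intro z hz
    refine MeasurableSet.inter ?_ ?_
    · refine cs_coord ?_ true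
      intro v hv
      rw [Sym2.mem_iff] at hv
      rcases hv with rfl | rfl
      · exact hx
      · exact fun h => hz.2 (Set.mem_insert_of_mem _ h)
    · refine cs_mono ?_ _ (ih z y (insert x F) hz.2)
      intro e he v hv h
      exact he v hv (Set.mem_insert_of_mem _ h)

theorem pathEv_bound {W : Type} [Countable W] (H : SimpleGraph W) (p : NNReal) (hp : p ≤ 1)
    (N : W → Finset W) (hN : ∀ x z, H.Adj x z → z ∈ N x) (h : W → ENNReal) (K : ENNReal)
    (hK : ∀ x, ∑ z ∈ N x, h z ≤ K * h x) (n : ℕ) :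
    ∀ (x y : W) (F : Set W), x ∉ F →
      mu (Sym2 W) p hp (pathEv H n x y F) * h y ≤ (p * K) ^ n * h x := by
  classical
  induction n with
  | zero =>
    intro x y F hx
    unfold pathEv
    by_cases hxy : x = y
    · subst hxy
      simp
    · simp [hxy]
  | succ n ih =>
    intro x y F hx
    unfold pathEv
    have hsub : (⋃ z ∈ {z | H.Adj x z ∧ z ∉ insert x F},
      ({ω | ω s(x, z) = true} ∩ pathEv H n z y (insert x F))) ⊆
      ⋃ z ∈ ((N x).filter (fun z => H.Adj x z ∧ z ∉ insert x F) : Finset W),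
      ({ω | ω s(x, z) = true} ∩ pathEv H n z y (insert x F)) := by
      intro ω hω
      simp only [Set.mem_iUnion] at hω ⊢
      obtain ⟨z, hz, hω⟩ := hω
      refine ⟨z, ?_, hω⟩
      rw [Finset.mem_filter]
      exact ⟨hN _ _ hz.1, hz⟩
    have h1 : mu (Sym2 W) p hp (⋃ z ∈ {z | H.Adj x z ∧ z ∉ insert x F},
      ({ω | ω s(x, z) = true} ∩ pathEv H n z y (insert x F))) ≤
      ∑ z ∈ ((N x).filter (fun z => H.Adj x z ∧ z ∉ insert x F) : Finset W),
        p * mu (Sym2 W) p hp (pathEv H n z y (insert x F)) := by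
      refine (measure_mono hsub).trans ((measure_biUnion_finset_le _ _).trans ?_)
      refine Finset.sum_le_sum fun z hz => ?_
      rw [Finset.mem_filter] at hz
      rw [mu_inter p hp (I := {s(x, z)}) (J := offE (insert x F)) ?_
        (cs_coord (Set.mem_singleton _) true) (pathEv_meas H n z y _ hz.2.2), mu_coord]
      rw [Set.disjoint_singleton_left]
      intro hmem
      exact hmem x (Sym2.mem_mk_left _ _) (Set.mem_insert _ _)
    calc _ ≤ (∑ z ∈ ((N x).filter (fun z => H.Adj x z ∧ z ∉ insert x F) : Finset W),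
        p * mu (Sym2 W) p hp (pathEv H n z y (insert x F))) * h y := by gcongr
      _ = ∑ z ∈ ((N x).filter (fun z => H.Adj x z ∧ z ∉ insert x F) : Finset W),
        p * (mu (Sym2 W) p hp (pathEv H n z y (insert x F)) * h y) := by
          rw [Finset.sum_mul]
          refine Finset.sum_congr rfl fun z _ => by ring
      _ ≤ ∑ z ∈ ((N x).filter (fun z => H.Adj x z ∧ z ∉ insert x F) : Finset W),
        p * ((p * K) ^ n * h z) := by
          refine Finset.sum_le_sum fun z hz => ?_
          rw [Finset.mem_filter] at hz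
          exact mul_le_mul' le_rfl (ih z y _ hz.2.2)
      _ ≤ ∑ z ∈ N x, p * ((p * K) ^ n * h z) :=
          Finset.sum_le_sum_of_subset (Finset.filter_subset _ _)
      _ = p * (p * K) ^ n * ∑ z ∈ N x, h z := by
          rw [Finset.mul_sum]
          refine Finset.sum_congr rfl fun z _ => by ring
      _ ≤ p * (p * K) ^ n * (K * h x) := by gcongr; exact hK x
      _ = (p * K) ^ (n + 1) * h x := by ring

theorem mem_pathEv_of_path {W : Type} (H : SimpleGraph W) (ω : Sym2 W → Bool) {x y : W}
    (w : (openGraph H ω).Walk x y) :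
    ∀ (F : Set W), w.IsPath → (∀ v ∈ w.support, v ∉ F) → ω ∈ pathEv H w.length x y F := by
  induction w with
  | nil =>
    intro F _ _
    simp [pathEv]
  | @cons u v t huv w ih =>
    intro F hw hF
    rw [SimpleGraph.Walk.cons_isPath_iff] at hw
    rw [openGraph_adj] at huv
    simp only [SimpleGraph.Walk.length_cons]
    unfold pathEv
    simp only [Set.mem_iUnion]
    refine ⟨v, ?_, huv.2, ih _ hw.1 ?_⟩
    · refine ⟨huv.1, ?_⟩
      intro hmem
      rcases hmem with h1 | h1
      · exact huv.1.ne h1.symm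
      · exact hF v (by simp) h1
    · intro z hz hmem
      rcases hmem with h1 | h1
      · subst h1
        exact hw.2 hz
      · exact hF z (by simp [hz]) h1

theorem reach_subset {W : Type} (H : SimpleGraph W) (x y : W) :
    {ω | (openGraph H ω).Reachable x y} ⊆ ⋃ n, pathEv H n x y ∅ := by
  classical
  intro ω hω
  obtain ⟨w⟩ := hω
  rw [Set.mem_iUnion]
  refine ⟨w.toPath.1.length, mem_pathEv_of_path H ω w.toPath.1 ∅ w.toPath.2 (by simp)⟩

theorem reach_bound {W : Type} [Countable W] (H : SimpleGraph W) (p : NNReal) (hp : p ≤ 1)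
    (N : W → Finset W) (hN : ∀ x z, H.Adj x z → z ∈ N x) (h : W → ENNReal) (K : ENNReal)
    (hK : ∀ x, ∑ z ∈ N x, h z ≤ K * h x) (x y : W) :
    mu (Sym2 W) p hp {ω | (openGraph H ω).Reachable x y} * h y ≤ (1 - p * K)⁻¹ * h x := by
  calc _ ≤ (∑' n, mu (Sym2 W) p hp (pathEv H n x y ∅)) * h y := by
        gcongr
        exact (measure_mono (reach_subset H x y)).trans (measure_iUnion_le _)
    _ = ∑' n, mu (Sym2 W) p hp (pathEv H n x y ∅) * h y := by rw [ENNReal.tsum_mul_right]
    _ ≤ ∑' n, (p * K) ^ n * h x := by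
        refine ENNReal.tsum_le_tsum fun n => ?_
        exact pathEv_bound H p hp N hN h K hK n x y ∅ (by simp)
    _ = (1 - p * K)⁻¹ * h x := by rw [ENNReal.tsum_mul_right, ENNReal.tsum_geometric]

end Pool.Agent.Helper713
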