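import Mathlib
import Pool.Agent.Helper713.PathBound

set_option autoImplicit false
set_option linter.deprecated false

open MeasureTheory ProbabilityTheory

namespace Pool.Agent.Helper713

/-- connection event -/
def cn {W : Type} (H : SimpleGraph W) (x y : W) : Set (Sym2 W → Bool) :=
  {ω | (openGraph H ω).Reachable x y}

theorem pathEv_meas' {W : Type} [Countable W] (H : SimpleGraph W) (n : ℕ) :
    ∀ (x y : W) (F : Set W), MeasurableSet[cs H.edgeSet] (pathEv H n x y F) := by
  induction n with
  | zero =>
    intro x y F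
    unfold pathEv
    exact MeasurableSet.const _
  | succ n ih =>
    intro x y F
    unfold pathEv
    refine MeasurableSet.biUnion (Set.to_countable _) ?_
    intro z hz
    exact MeasurableSet.inter (cs_coord (show s(x, z) ∈ H.edgeSet from hz.1) true)
      (ih z y (insert x F))

theorem pathEv_reach {W : Type} (H : SimpleGraph W) (n : ℕ) :
    ∀ (x y : W) (F : Set W), pathEv H n x y F ⊆ cn H x y := by
  induction n with
  | zero =>
    intro x y F ω hω
    unfold pathEv at hω
    have : x = y := hω
    subst this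
    exact SimpleGraph.Reachable.refl _
  | succ n ih =>
    intro x y F ω hω
    unfold pathEv at hω
    simp only [Set.mem_iUnion] at hω
    obtain ⟨z, hz, h1, h2⟩ := hω
    refine SimpleGraph.Reachable.trans ?_ (ih z y _ h2)
    apply SimpleGraph.Adj.reachable
    rw [openGraph_adj]
    exact ⟨hz.1, h1⟩

theorem cn_eq {W : Type} (H : SimpleGraph W) (x y : W) : cn H x y = ⋃ n, pathEv H n x y ∅ :=
  Set.Subset.antisymm (reach_subset H x y) (Set.iUnion_subset fun n => pathEv_reach H n x y ∅)

theorem cn_meas {W : Type} [Countable W] (H : SimpleGraph W) (x y : W) :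
    MeasurableSet[cs H.edgeSet] (cn H x y) := by
  rw [cn_eq]
  exact MeasurableSet.iUnion fun n => pathEv_meas' H n x y ∅

theorem cn_meas0 {W : Type} [Countable W] (H : SimpleGraph W) (x y : W) :
    MeasurableSet (cn H x y) := cs_le _ _ (cn_meas H x y)

theorem openGraph_mono {W : Type} {H H' : SimpleGraph W} (h : H ≤ H') (ω : Sym2 W → Bool) :
    openGraph H ω ≤ openGraph H' ω := by
  intro x y hxy
  rw [openGraph_adj] at hxy ⊢
  exact ⟨h hxy.1, hxy.2⟩

theorem cn_mono {W : Type} {H H' : SimpleGraph W} (h : H ≤ H') (x y : W) :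
    cn H x y ⊆ cn H' x y := fun ω hω => SimpleGraph.Reachable.mono (openGraph_mono h ω) hω

/-- pull back an event along a map of vertices -/
def pull {W W' : Type} (f : W → W') (A : Set (Sym2 W → Bool)) : Set (Sym2 W' → Bool) :=
  {ω | (fun e => ω (Sym2.map f e)) ∈ A}

theorem pull_meas {W W' : Type} (f : W → W') {I : Set (Sym2 W)} {A : Set (Sym2 W → Bool)}
    (hA : MeasurableSet[cs I] A) : MeasurableSet[cs (Sym2.map f '' I)] (pull f A) := by
  have h : @Measurable _ _ (cs (Sym2.map f '' I)) (cs I)
      (fun (ω : Sym2 W' → Bool) (e : Sym2 W) => ω (Sym2.map f e)) := by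
    rw [measurable_iff_comap_le]
    unfold cs
    simp only [MeasurableSpace.comap_iSup, MeasurableSpace.comap_comp]
    refine iSup₂_le fun i hi => ?_
    exact le_iSup₂_of_le (Sym2.map f i) (Set.mem_image_of_mem _ hi) le_rfl
  exact h hA

theorem pull_prob {W W' : Type} (f : W → W') (hf : Function.Injective f) (p : NNReal) (hp : p ≤ 1)
    {A : Set (Sym2 W → Bool)} (hA : MeasurableSet A) :
    mu (Sym2 W') p hp (pull f A) = mu (Sym2 W) p hp A := by
  have h := Measure.map_infinitePi_infinitePi_of_inj
    (P := fun _ : Sym2 W' => (PMF.bernoulli p hp).toMeasure) (f := Sym2.map f)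
    (Sym2.map.injective hf)
  have h2 : mu (Sym2 W) p hp A = ((mu (Sym2 W') p hp).map
      (fun ω (e : Sym2 W) => ω (Sym2.map f e))) A := by
    unfold mu
    rw [h]
  rw [h2, Measure.map_apply (by fun_prop) hA]
  rfl

/-- pushing connections forward -/
theorem pull_cn_subset {W W' : Type} {H : SimpleGraph W} {H' : SimpleGraph W'} (f : W → W')
    (hf : ∀ x y, H.Adj x y → H'.Adj (f x) (f y)) (x y : W) :
    pull f (cn H x y) ⊆ cn H' (f x) (f y) := by
  intro ω hω
  obtain ⟨w⟩ := hω
  induction w with
  | nil => exact SimpleGraph.Reachable.refl _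
  | @cons u v t huv w ih =>
    rw [openGraph_adj] at huv
    refine SimpleGraph.Reachable.trans ?_ ih
    apply SimpleGraph.Adj.reachable
    rw [openGraph_adj]
    exact ⟨hf _ _ huv.1, huv.2⟩

/-- retracting connections -/
theorem cn_subset_pull {W W' : Type} {H : SimpleGraph W} {H' : SimpleGraph W'} (f : W → W')
    (r : W' → W)
    (hr : ∀ x y, H'.Adj x y → r x = r y ∨ (x = f (r x) ∧ y = f (r y) ∧ H.Adj (r x) (r y)))
    (x y : W') : cn H' x y ⊆ pull f (cn H (r x) (r y)) := by
  intro ω hω
  obtain ⟨w⟩ := hω
  induction w with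
  | nil => exact SimpleGraph.Reachable.refl _
  | @cons u v t huv w ih =>
    rw [openGraph_adj] at huv
    rcases hr _ _ huv.1 with h | ⟨h1, h2, h3⟩
    · rw [h]; exact ih
    · refine SimpleGraph.Reachable.trans ?_ ih
      apply SimpleGraph.Adj.reachable
      rw [openGraph_adj]
      refine ⟨h3, ?_⟩
      have : Sym2.map f s(r u, r v) = s(u, v) := by
        rw [Sym2.map_mk, ← h1, ← h2]
      simp only [this]
      exact huv.2

end Pool.Agent.Helper713
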