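import Mathlib
import Pool.Agent.Helper713.Conn

set_option autoImplicit false
set_option linter.deprecated false

open MeasureTheory ProbabilityTheory

namespace Pool.Agent.Helper713

/-- an event determined by the coordinates in `D` -/
def Det {E : Type} (D : Set E) (A : Set (E → Bool)) : Prop :=
  ∀ ω ω' : E → Bool, (∀ e ∈ D, ω e = ω' e) → ω ∈ A → ω' ∈ A

theorem det_meas {E : Type} {D : Set E} (hD : D.Finite) {A : Set (E → Bool)} (hA : Det D A) :
    MeasurableSet[cs D] A := by
  classical
  haveI : Finite D := hD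
  have h : A = ⋃ (σ : D → Bool) (_ : ∃ ω ∈ A, ∀ e : D, ω e = σ e), ⋂ e : D, {ω | ω e = σ e} := by
    ext ω
    simp only [Set.mem_iUnion, Set.mem_iInter, Set.mem_setOf_eq]
    constructor
    · intro hω
      exact ⟨fun e => ω e, ⟨ω, hω, fun e => rfl⟩, fun e => rfl⟩
    · rintro ⟨σ, ⟨ω', hω', h1⟩, h2⟩
      refine hA ω' ω ?_ hω'
      intro e he
      rw [h1 ⟨e, he⟩, h2 ⟨e, he⟩]
  rw [h]
  refine MeasurableSet.iUnion fun σ => MeasurableSet.iUnion fun _ => MeasurableSet.iInter fun e => ?_
  exact cs_coord e.2 (σ e)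

theorem openGraph_congr {W : Type} (H : SimpleGraph W) {ω ω' : Sym2 W → Bool}
    (h : ∀ e ∈ H.edgeSet, ω e = ω' e) : openGraph H ω = openGraph H ω' := by
  ext x y
  rw [openGraph_adj, openGraph_adj]
  constructor
  · rintro ⟨h1, h2⟩
    exact ⟨h1, by rw [← h _ h1]; exact h2⟩
  · rintro ⟨h1, h2⟩
    exact ⟨h1, by rw [h _ h1]; exact h2⟩

/-- walk induction: a set containing `x` and closed under open edges contains everything
reachable. -/
theorem reach_closed {W : Type} {G : SimpleGraph W} {x y : W} (h : G.Reachable x y) (A : Set W)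
    (hx : x ∈ A) (hA : ∀ u v, u ∈ A → G.Adj u v → v ∈ A) : y ∈ A := by
  obtain ⟨w⟩ := h
  induction w with
  | nil => exact hx
  | @cons u v t huv w ih => exact ih (hA _ _ hx huv)

/-- Simon-Lieb type inequality, finite version. -/
theorem SL_fin {W : Type} [Countable W] (H E : SimpleGraph W) (hfin : H.edgeSet.Finite)
    (hE : E ≤ H) (p : NNReal) (hp : p ≤ 1) (x y : W) (Ex : Set W)
    (hEx : ∀ z t, H.Adj z t → ¬ E.Adj z t → (z = x ∨ ∃ t', E.Adj z t') → z ∈ Ex) :
    mu (Sym2 W) p hp (cn H x y) ≤ mu (Sym2 W) p hp (cn E x y) +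
      ∑' b : Ex, mu (Sym2 W) p hp (cn E x b) * mu (Sym2 W) p hp (cn H b y) := by
  classical
  -- finite set of touched vertices
  have hV : (insert x {v : W | ∃ t, E.Adj v t}).Finite := by
    refine Set.Finite.insert _ ?_
    have h1 : {v : W | ∃ t, E.Adj v t} ⊆ ⋃ e ∈ H.edgeSet, {v | v ∈ e} := by
      rintro v ⟨t, ht⟩
      simp only [Set.mem_iUnion, Set.mem_setOf_eq]
      exact ⟨s(v, t), hE ht, Sym2.mem_mk_left _ _⟩
    refine (Set.Finite.biUnion hfin ?_).subset h1
    intro e _
    induction e using Sym2.ind with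
    | _ a b =>
      have : {v | v ∈ s(a, b)} = {a, b} := by
        ext v; simp [Sym2.mem_iff]
      rw [this]
      exact Set.toFinite _
  set Λ : Finset W := hV.toFinset with hΛ
  set ev : Finset W → Set (Sym2 W → Bool) := fun C =>
    {ω | ∀ v, v ∈ C ↔ (openGraph E ω).Reachable x v} with hev
  set D : Finset W → Set (Sym2 W) := fun C => {e | e ∈ E.edgeSet ∧ ∃ v ∈ C, v ∈ e} with hDdef
  have hDfin : ∀ C, (D C).Finite := fun C =>
    hfin.subset (fun e he => SimpleGraph.edgeSet_mono hE he.1)
  have hDet : ∀ C, Det (D C) (ev C) := by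
    intro C ω ω' hagree hω v
    have hx : x ∈ C := (hω x).2 (SimpleGraph.Reachable.refl _)
    constructor
    · intro hv
      have hr := (hω v).1 hv
      have : v ∈ {u | u ∈ C ∧ (openGraph E ω').Reachable x u} := by
        refine reach_closed hr _ ⟨hx, SimpleGraph.Reachable.refl _⟩ ?_
        rintro a b ⟨ha, har⟩ hab
        have hb : b ∈ C := (hω b).2 (((hω a).1 ha).trans hab.reachable)
        refine ⟨hb, har.trans ?_⟩
        apply SimpleGraph.Adj.reachable
        rw [openGraph_adj] at hab ⊢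
        refine ⟨hab.1, ?_⟩
        rw [← hagree s(a, b) ⟨hab.1, a, ha, Sym2.mem_mk_left _ _⟩]
        exact hab.2
      exact this.2
    · intro hr
      refine reach_closed hr (fun u => u ∈ C) hx ?_
      intro a b ha hab
      have ha' : a ∈ C := ha
      refine (hω b).2 (((hω a).1 ha').trans ?_)
      apply SimpleGraph.Adj.reachable
      rw [openGraph_adj] at hab ⊢
      refine ⟨hab.1, ?_⟩
      rw [hagree s(a, b) ⟨hab.1, a, ha', Sym2.mem_mk_left _ _⟩]
      exact hab.2
  have hevm : ∀ C, MeasurableSet[cs (D C)] (ev C) := fun C => det_meas (hDfin C) (hDet C)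
  have hevm0 : ∀ C, MeasurableSet (ev C) := fun C => cs_le _ _ (hevm C)
  -- covering
  have hcov : cn H x y ⊆ cn E x y ∪ ⋃ C ∈ Λ.powerset, ⋃ b ∈ C.filter (fun b => b ∈ Ex),
      (ev C ∩ cn (H.deleteEdges (D C)) b y) := by
    intro ω hω
    by_cases hEy : ω ∈ cn E x y
    · exact Or.inl hEy
    right
    set C : Finset W := Λ.filter (fun v => (openGraph E ω).Reachable x v) with hC
    have hmem : ∀ v, v ∈ C ↔ (openGraph E ω).Reachable x v := by
      intro v
      rw [hC, Finset.mem_filter]
      constructor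
      · exact fun h => h.2
      · intro h
        refine ⟨?_, h⟩
        rw [hΛ, Set.Finite.mem_toFinset]
        have : v ∈ insert x {v : W | ∃ t, E.Adj v t} := by
          refine reach_closed h _ (Set.mem_insert _ _) ?_
          intro a b _ hab
          right
          exact ⟨a, ((openGraph_adj _ _ _ _).1 hab).1.symm⟩
        exact this
    have hCΛ : C ∈ Λ.powerset := by
      rw [Finset.mem_powerset]
      exact Finset.filter_subset _ _
    have hωev : ω ∈ ev C := hmem
    have hyC : y ∉ C := fun h => hEy ((hmem y).1 h)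
    have hωr : (openGraph H ω).Reachable x y := hω
    have key : y ∈ {u | u ∈ C ∨ ∃ b ∈ C, b ∈ Ex ∧
        (openGraph (H.deleteEdges (D C)) ω).Reachable b u} := by
      refine reach_closed hωr _ (Or.inl ((hmem x).2 (SimpleGraph.Reachable.refl _))) ?_
      intro a b ha hab
      rw [openGraph_adj] at hab
      by_cases hbC : b ∈ C
      · exact Or.inl hbC
      right
      rcases ha with haC | ⟨b0, hb0, hb0E, hr⟩
      · have hnE : ¬ E.Adj a b := by
          intro hE'
          apply hbC
          refine (hmem b).2 (((hmem a).1 haC).trans ?_)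
          apply SimpleGraph.Adj.reachable
          rw [openGraph_adj]
          exact ⟨hE', hab.2⟩
        have haEx : a ∈ Ex := by
          refine hEx a b hab.1 hnE ?_
          have haΛ := Finset.mem_powerset.1 hCΛ haC
          rw [hΛ, Set.Finite.mem_toFinset] at haΛ
          exact haΛ
        refine ⟨a, haC, haEx, ?_⟩
        apply SimpleGraph.Adj.reachable
        rw [openGraph_adj, SimpleGraph.deleteEdges_adj]
        exact ⟨⟨hab.1, fun h => hnE h.1⟩, hab.2⟩
      · by_cases haC : a ∈ C
        · have hnE : ¬ E.Adj a b := by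
            intro hE'
            apply hbC
            refine (hmem b).2 (((hmem a).1 haC).trans ?_)
            apply SimpleGraph.Adj.reachable
            rw [openGraph_adj]
            exact ⟨hE', hab.2⟩
          refine ⟨b0, hb0, hb0E, hr.trans ?_⟩
          apply SimpleGraph.Adj.reachable
          rw [openGraph_adj, SimpleGraph.deleteEdges_adj]
          exact ⟨⟨hab.1, fun h => hnE h.1⟩, hab.2⟩
        · refine ⟨b0, hb0, hb0E, hr.trans ?_⟩
          apply SimpleGraph.Adj.reachable
          rw [openGraph_adj, SimpleGraph.deleteEdges_adj]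
          refine ⟨⟨hab.1, ?_⟩, hab.2⟩
          rintro ⟨_, v, hv, hve⟩
          rw [Sym2.mem_iff] at hve
          rcases hve with rfl | rfl
          · exact haC hv
          · exact hbC hv
    rcases key with h | ⟨b, hb, hbE, hr⟩
    · exact absurd h hyC
    · simp only [Set.mem_iUnion]
      exact ⟨C, hCΛ, b, Finset.mem_filter.2 ⟨hb, hbE⟩, hωev, hr⟩
  have hprod : ∀ C b, mu (Sym2 W) p hp (ev C ∩ cn (H.deleteEdges (D C)) b y) ≤
      mu (Sym2 W) p hp (ev C) * mu (Sym2 W) p hp (cn H b y) := by
    intro C b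
    rw [mu_inter p hp (I := D C) (J := (H.deleteEdges (D C)).edgeSet) ?_ (hevm C)
      (cn_meas _ _ _)]
    · gcongr
      exact cn_mono (SimpleGraph.deleteEdges_le _) _ _
    · rw [SimpleGraph.edgeSet_deleteEdges]
      exact Set.disjoint_sdiff_right
  refine (measure_mono hcov).trans ((measure_union_le _ _).trans ?_)
  gcongr
  calc mu (Sym2 W) p hp (⋃ C ∈ Λ.powerset, ⋃ b ∈ C.filter (fun b => b ∈ Ex),
      (ev C ∩ cn (H.deleteEdges (D C)) b y)) ≤
      ∑ C ∈ Λ.powerset, ∑ b ∈ C.filter (fun b => b ∈ Ex),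
        mu (Sym2 W) p hp (ev C) * mu (Sym2 W) p hp (cn H b y) := by
        refine (measure_biUnion_finset_le _ _).trans (Finset.sum_le_sum fun C _ => ?_)
        refine (measure_biUnion_finset_le _ _).trans (Finset.sum_le_sum fun b _ => ?_)
        exact hprod C b
    _ = ∑ C ∈ Λ.powerset, ∑ b ∈ Λ.filter (fun b => b ∈ Ex),
        (if b ∈ C then mu (Sym2 W) p hp (ev C) * mu (Sym2 W) p hp (cn H b y) else 0) := by
        refine Finset.sum_congr rfl fun C hC => ?_
        rw [← Finset.sum_filter]
        refine Finset.sum_congr ?_ fun _ _ => rfl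
        rw [Finset.mem_powerset] at hC
        ext b
        simp only [Finset.mem_filter]
        constructor
        · rintro ⟨h1, h2⟩; exact ⟨⟨hC h1, h2⟩, h1⟩
        · rintro ⟨⟨_, h2⟩, h1⟩; exact ⟨h1, h2⟩
    _ = ∑ b ∈ Λ.filter (fun b => b ∈ Ex), (∑ C ∈ Λ.powerset.filter (fun C => b ∈ C),
        mu (Sym2 W) p hp (ev C)) * mu (Sym2 W) p hp (cn H b y) := by
        rw [Finset.sum_comm]
        refine Finset.sum_congr rfl fun b _ => ?_
        rw [← Finset.sum_filter, Finset.sum_mul]
    _ ≤ ∑ b ∈ Λ.filter (fun b => b ∈ Ex), mu (Sym2 W) p hp (cn E x b) *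
        mu (Sym2 W) p hp (cn H b y) := by
        refine Finset.sum_le_sum fun b _ => ?_
        gcongr
        rw [← measure_biUnion_finset ?_ (fun C _ => hevm0 C)]
        · apply measure_mono
          intro ω hω
          simp only [Set.mem_iUnion] at hω
          obtain ⟨C, hC, hω⟩ := hω
          exact (hω b).1 (Finset.mem_filter.1 hC).2
        · intro C _ C' _ hne
          refine Set.disjoint_left.2 fun ω h1 h2 => hne ?_
          ext v
          rw [h1 v, h2 v]
    _ ≤ ∑' b : Ex, mu (Sym2 W) p hp (cn E x b) * mu (Sym2 W) p hp (cn H b y) := by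
        rw [tsum_subtype Ex (fun b => mu (Sym2 W) p hp (cn E x b) * mu (Sym2 W) p hp (cn H b y))]
        refine le_trans ?_ (ENNReal.sum_le_tsum (Λ.filter (fun b => b ∈ Ex)))
        refine Finset.sum_le_sum fun b hb => ?_
        rw [Set.indicator_of_mem (Finset.mem_filter.1 hb).2]

/-- finite truncation of a graph -/
noncomputable def trunc {W : Type} [Countable W] (H : SimpleGraph W) (n : ℕ) : SimpleGraph W :=
  H.deleteEdges {e | n ≤ @Encodable.encode (Sym2 W) (Encodable.ofCountable _) e}

theorem trunc_le {W : Type} [Countable W] (H : SimpleGraph W) (n : ℕ) : trunc H n ≤ H :=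
  SimpleGraph.deleteEdges_le _

theorem trunc_fin {W : Type} [Countable W] (H : SimpleGraph W) (n : ℕ) :
    (trunc H n).edgeSet.Finite := by
  letI : Encodable (Sym2 W) := Encodable.ofCountable _
  have h : (trunc H n).edgeSet ⊆ (fun e => @Encodable.encode (Sym2 W) (Encodable.ofCountable _) e) ⁻¹'
      (Set.Iio n) := by
    intro e he
    unfold trunc at he
    rw [SimpleGraph.edgeSet_deleteEdges] at he
    have := he.2
    simp only [Set.mem_setOf_eq, not_le] at this
    exact this
  refine Set.Finite.subset ?_ h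
  refine Set.Finite.preimage ?_ (Set.finite_Iio n)
  exact (Encodable.encode_injective).injOn

theorem trunc_adj {W : Type} [Countable W] (H : SimpleGraph W) (n : ℕ) (x y : W) :
    (trunc H n).Adj x y ↔ H.Adj x y ∧
      @Encodable.encode (Sym2 W) (Encodable.ofCountable _) s(x, y) < n := by
  unfold trunc
  rw [SimpleGraph.deleteEdges_adj]
  simp

theorem trunc_mono {W : Type} [Countable W] (H : SimpleGraph W) {n m : ℕ} (h : n ≤ m) :
    trunc H n ≤ trunc H m := by
  intro x y hxy
  rw [trunc_adj] at hxy ⊢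
  exact ⟨hxy.1, lt_of_lt_of_le hxy.2 h⟩

theorem cn_trunc {W : Type} [Countable W] (H : SimpleGraph W) (x y : W) :
    cn H x y = ⋃ n, cn (trunc H n) x y := by
  apply Set.Subset.antisymm
  · intro ω hω
    obtain ⟨w⟩ := hω
    rw [Set.mem_iUnion]
    induction w with
    | nil => exact ⟨0, SimpleGraph.Reachable.refl _⟩
    | @cons u v t huv w ih =>
      obtain ⟨n, hn⟩ := ih
      rw [openGraph_adj] at huv
      refine ⟨max n (@Encodable.encode (Sym2 W) (Encodable.ofCountable _) s(u, v) + 1), ?_⟩
      refine SimpleGraph.Reachable.trans ?_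
        (cn_mono (trunc_mono H (le_max_left _ _)) _ _ hn)
      apply SimpleGraph.Adj.reachable
      rw [openGraph_adj, trunc_adj]
      exact ⟨⟨huv.1, lt_of_lt_of_le (Nat.lt_succ_self _) (le_max_right _ _)⟩, huv.2⟩
  · exact Set.iUnion_subset fun n => cn_mono (trunc_le H n) _ _

theorem mu_cn_trunc {W : Type} [Countable W] (H : SimpleGraph W) (p : NNReal) (hp : p ≤ 1)
    (x y : W) : mu (Sym2 W) p hp (cn H x y) = ⨆ n, mu (Sym2 W) p hp (cn (trunc H n) x y) := by
  rw [cn_trunc]
  refine Monotone.measure_iUnion ?_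
  intro n m h
  exact cn_mono (trunc_mono H h) _ _

theorem SL {W : Type} [Countable W] (H E : SimpleGraph W)
    (hE : E ≤ H) (p : NNReal) (hp : p ≤ 1) (x y : W) (Ex : Set W)
    (hEx : ∀ z t, H.Adj z t → ¬ E.Adj z t → (z = x ∨ ∃ t', E.Adj z t') → z ∈ Ex) :
    mu (Sym2 W) p hp (cn H x y) ≤ mu (Sym2 W) p hp (cn E x y) +
      ∑' b : Ex, mu (Sym2 W) p hp (cn E x b) * mu (Sym2 W) p hp (cn H b y) := by
  rw [mu_cn_trunc]
  refine iSup_le fun n => ?_
  have hEn : trunc E n ≤ trunc H n := by
    intro a b hab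
    rw [trunc_adj] at hab ⊢
    exact ⟨hE hab.1, hab.2⟩
  refine (SL_fin (trunc H n) (trunc E n) (trunc_fin H n) hEn p hp x y Ex ?_).trans ?_
  · intro z t h1 h2 h3
    rw [trunc_adj] at h1 h2
    refine hEx z t h1.1 (fun h => h2 ⟨h, h1.2⟩) ?_
    rcases h3 with h3 | ⟨t', h3⟩
    · exact Or.inl h3
    · exact Or.inr ⟨t', trunc_le _ _ h3⟩
  · gcongr
    · exact cn_mono (trunc_le _ _) _ _
    · exact cn_mono (trunc_le _ _) _ _
    · exact cn_mono (trunc_le _ _) _ _

end Pool.Agent.Helper713
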