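import Mathlib
import Pool.Agent.Helper713.FibA

set_option autoImplicit false
set_option linter.deprecated false

open MeasureTheory ProbabilityTheory

namespace Pool.Agent.Helper713

/-- SL with indexed exits -/
theorem SL_idx {W ι : Type} [Countable W] (H E : SimpleGraph W)
    (hE : E ≤ H) (p : NNReal) (hp : p ≤ 1) (x y : W) (pt : ι → W)
    (hEx : ∀ z t, H.Adj z t → ¬ E.Adj z t → (z = x ∨ ∃ t', E.Adj z t') → ∃ b, pt b = z) :
    mu (Sym2 W) p hp (cn H x y) ≤ mu (Sym2 W) p hp (cn E x y) +
      ∑' b : ι, mu (Sym2 W) p hp (cn E x (pt b)) * mu (Sym2 W) p hp (cn H (pt b) y) := by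
  refine (SL H E hE p hp x y (Set.range pt) ?_).trans ?_
  · intro z t h1 h2 h3
    obtain ⟨b, hb⟩ := hEx z t h1 h2 h3
    exact ⟨b, hb⟩
  · gcongr
    have := ENNReal.tsum_le_tsum_comp_of_surjective (f := Set.rangeFactorization pt)
      (Set.rangeFactorization_surjective)
      (fun b : Set.range pt => mu (Sym2 W) p hp (cn E x b) * mu (Sym2 W) p hp (cn H b y))
    exact this

/-- main mass bound -/
theorem mass_bound {W ι : Type} [Countable W] (H : SimpleGraph W) (p : NNReal) (hp : p ≤ 1)
    (pt : ι → W) (hinj : Function.Injective pt) (E : ι → SimpleGraph W) (Nb : ι → Set ι)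
    (F : ι → ENNReal) (T : Set W) (C : ENNReal)
    (hE : ∀ a, E a ≤ H)
    (hex : ∀ a z t, H.Adj z t → ¬ (E a).Adj z t → (z = pt a ∨ ∃ t', (E a).Adj z t') →
      ∃ b ∈ Nb a, pt b = z)
    (hF0 : ∀ a, F a ≠ 0) (hF1 : ∀ a, F a ≠ ⊤) (hC : C ≠ ⊤)
    (hK : ∀ a, ∑' b : Nb a, mu (Sym2 W) p hp (cn (E a) (pt a) (pt b)) * F b ≤ F a / 2)
    (hT : ∀ a, ∑' y : T, mu (Sym2 W) p hp (cn (E a) (pt a) y) ≤ C * F a) :
    ∀ a, ∑' y : T, mu (Sym2 W) p hp (cn H (pt a) y) ≤ 2 * C * F a := by
  classical
  have main : ∀ n, ∀ a, ∑' y : T, mu (Sym2 W) p hp (cn (trunc H n) (pt a) y) ≤ 2 * C * F a := by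
    intro n
    set Hn := trunc H n with hHn
    set Φ : ι → ENNReal := fun a => ∑' y : T, mu (Sym2 W) p hp (cn Hn (pt a) y) with hΦ
    have hV : {v : W | ∃ t, Hn.Adj v t}.Finite := by
      have h1 : {v : W | ∃ t, Hn.Adj v t} ⊆ ⋃ e ∈ Hn.edgeSet, {v | v ∈ e} := by
        rintro v ⟨t, ht⟩
        simp only [Set.mem_iUnion, Set.mem_setOf_eq]
        exact ⟨s(v, t), ht, Sym2.mem_mk_left _ _⟩
      refine (Set.Finite.biUnion (trunc_fin H n) ?_).subset h1
      intro e _
      induction e using Sym2.ind with
      | _ a b =>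
        have : {v | v ∈ s(a, b)} = {a, b} := by
          ext v; simp [Sym2.mem_iff]
        rw [this]
        exact Set.toFinite _
    -- untouched
    have hun : ∀ a, (¬ ∃ t, Hn.Adj (pt a) t) → Φ a ≤ C * F a := by
      intro a ha
      refine le_trans ?_ (hT a)
      refine ENNReal.tsum_le_tsum fun y => measure_mono ?_
      intro ω hω
      have hr : (openGraph Hn ω).Reachable (pt a) y := hω
      have : (y : W) ∈ ({pt a} : Set W) := by
        refine reach_closed hr _ rfl ?_
        intro u v hu huv
        have hu' : u = pt a := hu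
        subst hu'
        exact absurd ⟨v, ((openGraph_adj _ _ _ _).1 huv).1⟩ ha
      have h2 : (y : W) = pt a := this
      have : cn (E a) (pt a) (y : W) = Set.univ := by
        rw [h2]
        ext ω
        simp [cn]
      rw [this]; trivial
    have hfinite : ∀ a, Φ a ≠ ⊤ := by
      intro a
      have hV' : (insert (pt a) {v : W | ∃ t, Hn.Adj v t}).Finite := hV.insert _
      set A := hV'.toFinset with hA
      have h1 : ∀ y : T, mu (Sym2 W) p hp (cn Hn (pt a) y) ≤
          (if (y : W) ∈ A then 1 else 0) := by
        intro y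
        by_cases hy : (y : W) ∈ A
        · simp only [hy, if_true]
          exact prob_le_one
        · simp only [hy, if_false, nonpos_iff_eq_zero]
          have : cn Hn (pt a) (y : W) = ∅ := by
            rw [Set.eq_empty_iff_forall_notMem]
            intro ω hω
            apply hy
            rw [hA, Set.Finite.mem_toFinset]
            have hr : (openGraph Hn ω).Reachable (pt a) y := hω
            refine reach_closed hr _ (Set.mem_insert _ _) ?_
            intro u v _ huv
            right
            exact ⟨u, ((openGraph_adj _ _ _ _).1 huv).1.symm⟩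
          rw [this, measure_empty]
      have h2 : Φ a ≤ A.card := by
        calc Φ a ≤ ∑' y : T, (if (y : W) ∈ A then (1 : ENNReal) else 0) :=
              ENNReal.tsum_le_tsum h1
          _ ≤ ∑' y : W, (if (y : W) ∈ A then (1 : ENNReal) else 0) :=
              ENNReal.tsum_comp_le_tsum_of_injective Subtype.val_injective _
          _ = ∑ y ∈ A, (if (y : W) ∈ A then (1 : ENNReal) else 0) := by
              refine tsum_eq_sum ?_
              intro b hb
              simp [hb]
          _ = A.card := by
              rw [Finset.sum_congr rfl (fun y hy => if_pos hy)]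
              simp
      exact ne_top_of_le_ne_top (ENNReal.natCast_ne_top _) h2
    set M : ENNReal := ⨆ a, Φ a / F a with hM
    have hfinset : {a : ι | ∃ t, Hn.Adj (pt a) t}.Finite := by
      refine Set.Finite.preimage (f := pt) hinj.injOn hV
    have hMtop : M ≠ ⊤ := by
      have hle : M ≤ max C (hfinset.toFinset.sup (fun a => Φ a / F a)) := by
        refine iSup_le fun a => ?_
        by_cases ha : ∃ t, Hn.Adj (pt a) t
        · refine le_trans ?_ (le_max_right _ _)
          exact Finset.le_sup (f := fun a => Φ a / F a) (by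
            rw [Set.Finite.mem_toFinset]; exact ha)
        · refine le_trans ?_ (le_max_left _ _)
          rw [ENNReal.div_le_iff (hF0 a) (hF1 a)]
          exact hun a ha
      refine ne_top_of_le_ne_top ?_ hle
      rw [Ne, max_eq_top, not_or]
      refine ⟨hC, ?_⟩
      have h5 : (hfinset.toFinset.sup (fun a => Φ a / F a)) < ⊤ := by
        rw [Finset.sup_lt_iff (by simp)]
        intro a _
        exact ENNReal.div_lt_top (hfinite a) (hF0 a)
      exact h5.ne
    have hstep : ∀ a, Φ a ≤ C * F a + M / 2 * F a := by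
      intro a
      have hEn : trunc (E a) n ≤ Hn := by
        intro u v huv
        rw [trunc_adj] at huv
        rw [hHn, trunc_adj]
        exact ⟨hE a huv.1, huv.2⟩
      have h1 : ∀ y : T, mu (Sym2 W) p hp (cn Hn (pt a) y) ≤
          mu (Sym2 W) p hp (cn (E a) (pt a) y) +
          ∑' b : Nb a, mu (Sym2 W) p hp (cn (E a) (pt a) (pt b)) *
            mu (Sym2 W) p hp (cn Hn (pt b) y) := by
        intro y
        refine (SL_idx Hn (trunc (E a) n) hEn p hp (pt a) y (fun b : Nb a => pt b) ?_).trans ?_
        · intro z t h1 h2 h3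
          rw [hHn, trunc_adj] at h1
          rw [trunc_adj] at h2
          obtain ⟨b, hb, hbz⟩ := hex a z t h1.1 (fun h => h2 ⟨h, h1.2⟩) (by
            rcases h3 with h3 | ⟨t', h3⟩
            · exact Or.inl h3
            · exact Or.inr ⟨t', trunc_le _ _ h3⟩)
          exact ⟨⟨b, hb⟩, hbz⟩
        · gcongr
          · exact cn_mono (trunc_le _ _) _ _
          · exact cn_mono (trunc_le _ _) _ _
      calc Φ a ≤ ∑' y : T, (mu (Sym2 W) p hp (cn (E a) (pt a) y) +
          ∑' b : Nb a, mu (Sym2 W) p hp (cn (E a) (pt a) (pt b)) *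
            mu (Sym2 W) p hp (cn Hn (pt b) y)) := ENNReal.tsum_le_tsum h1
        _ = ∑' y : T, mu (Sym2 W) p hp (cn (E a) (pt a) y) +
          ∑' b : Nb a, mu (Sym2 W) p hp (cn (E a) (pt a) (pt b)) * Φ b := by
            rw [ENNReal.tsum_add, ENNReal.tsum_comm]
            congr 1
            refine tsum_congr fun b => ?_
            rw [ENNReal.tsum_mul_left]
        _ ≤ C * F a + ∑' b : Nb a, mu (Sym2 W) p hp (cn (E a) (pt a) (pt b)) * (M * F b) := by
            gcongr with b
            · exact hT a
            · have : Φ b / F b ≤ M := le_iSup (fun a => Φ a / F a) (b : ι)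
              rwa [ENNReal.div_le_iff (hF0 _) (hF1 _)] at this
        _ = C * F a + M * ∑' b : Nb a, mu (Sym2 W) p hp (cn (E a) (pt a) (pt b)) * F b := by
            rw [← ENNReal.tsum_mul_left]
            congr 1
            refine tsum_congr fun b => ?_
            ring
        _ ≤ C * F a + M * (F a / 2) := by gcongr; exact hK a
        _ = C * F a + M / 2 * F a := by
            congr 1
            rw [ENNReal.div_eq_inv_mul, ENNReal.div_eq_inv_mul]
            ring
    have hM2 : M ≤ C + M / 2 := by
      refine iSup_le fun a => ?_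
      rw [ENNReal.div_le_iff (hF0 a) (hF1 a), add_mul]
      exact hstep a
    have hM3 : M ≤ 2 * C := by
      have h1 : M / 2 + M / 2 = M := ENNReal.add_halves M
      have h2 : M / 2 + M / 2 ≤ C + M / 2 := by rw [h1]; exact hM2
      have h3 : M / 2 ≤ C := by
        refine (ENNReal.add_le_add_iff_right ?_).1 h2
        exact ENNReal.div_ne_top hMtop (by norm_num)
      calc M = M / 2 + M / 2 := h1.symm
        _ ≤ C + C := add_le_add h3 h3
        _ = 2 * C := by ring
    intro a
    have : Φ a / F a ≤ M := le_iSup (fun a => Φ a / F a) a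
    rw [ENNReal.div_le_iff (hF0 _) (hF1 _)] at this
    exact this.trans (by gcongr)
  intro a
  rw [ENNReal.tsum_eq_iSup_sum]
  refine iSup_le fun s => ?_
  have : ∀ y : T, mu (Sym2 W) p hp (cn H (pt a) y) =
      ⨆ n, mu (Sym2 W) p hp (cn (trunc H n) (pt a) y) := fun y => mu_cn_trunc H p hp _ _
  rw [Finset.sum_congr rfl (fun y _ => this y), ENNReal.finsetSum_iSup_of_monotone]
  · refine iSup_le fun n => ?_
    exact (ENNReal.sum_le_tsum s).trans (main n a)
  · intro y n m hnm
    exact measure_mono (cn_mono (trunc_mono H hnm) _ _)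

/-- insertion: moving the end point along an edge costs at most a factor `p` -/
theorem cn_step {W : Type} [Countable W] (H : SimpleGraph W) (p : NNReal) (hp : p ≤ 1)
    (x z z' : W) (h : H.Adj z z') :
    mu (Sym2 W) p hp (cn H x z) * p ≤ mu (Sym2 W) p hp (cn H x z') := by
  classical
  set e : Sym2 W := s(z, z') with he
  set A : Set (Sym2 W → Bool) := {ω | Function.update ω e true ∈ cn H x z} with hA
  have hmeas : MeasurableSet[cs {e}ᶜ] A := by
    have hu : @Measurable _ _ (cs ({e}ᶜ : Set (Sym2 W))) MeasurableSpace.pi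
        (fun ω : Sym2 W → Bool => Function.update ω e true) := by
      refine @measurable_pi_lambda _ _ _ (cs ({e}ᶜ : Set (Sym2 W))) _ _ ?_
      intro i
      by_cases hi : i = e
      · subst hi
        simp only [Function.update_self]
        exact measurable_const
      · simp only [Function.update_of_ne hi]
        rw [measurable_iff_comap_le]
        exact le_iSup₂_of_le i hi le_rfl
    exact hu (cn_meas0 H x z)
  have hsub : cn H x z ⊆ A := by
    intro ω hω
    have hω' : (openGraph H ω).Reachable x z := hω
    refine SimpleGraph.Reachable.mono ?_ hω'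
    intro u v huv
    rw [openGraph_adj] at huv ⊢
    refine ⟨huv.1, ?_⟩
    by_cases hi : s(u, v) = e
    · rw [hi]; simp
    · rw [Function.update_of_ne hi]; exact huv.2
  have hsub2 : A ∩ {ω | ω e = true} ⊆ cn H x z' := by
    rintro ω ⟨h1, h2⟩
    have h3 : Function.update ω e true = ω := by
      have h2' : ω e = true := h2
      rw [← h2']
      exact Function.update_eq_self _ _
    have h4 : (openGraph H ω).Reachable x z := by
      have : Function.update ω e true ∈ cn H x z := h1
      rw [h3] at this
      exact this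
    refine SimpleGraph.Reachable.trans h4 ?_
    apply SimpleGraph.Adj.reachable
    rw [openGraph_adj]
    exact ⟨h, h2⟩
  calc mu (Sym2 W) p hp (cn H x z) * p ≤ mu (Sym2 W) p hp A * p := by gcongr
    _ = mu (Sym2 W) p hp (A ∩ {ω | ω e = true}) := by
        rw [mu_inter p hp (I := {e}ᶜ) (J := {e}) (by
          rw [Set.disjoint_left]; intro a ha hb; exact ha hb) hmeas
          (cs_coord (Set.mem_singleton e) true), mu_coord]
    _ ≤ mu (Sym2 W) p hp (cn H x z') := measure_mono hsub2

/-- the probability that all edges of a finite set are closed -/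
theorem mu_allclosed {E : Type} [DecidableEq E] (p : NNReal) (hp : p ≤ 1) (F : Finset E) :
    mu E p hp {ω | ∀ e ∈ F, ω e = false} = (1 - p) ^ F.card := by
  have h := (mu_biInter p hp F (fun e => {e}) (by
    intro a _ b _ hab
    simpa using hab) (fun e => {ω | ω e = false})
    (fun e _ => cs_coord (Set.mem_singleton e) false)).2
  have h2 : {ω : E → Bool | ∀ e ∈ F, ω e = false} = ⋂ e ∈ F, {ω | ω e = false} := by
    ext ω; simp
  rw [h2, h, Finset.prod_congr rfl (fun e _ => mu_coord_false p hp e)]
  simp

theorem allclosed_meas {E : Type} (F : Finset E) :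
    MeasurableSet[cs (F : Set E)] {ω : E → Bool | ∀ e ∈ F, ω e = false} := by
  refine det_meas F.finite_toSet ?_
  intro ω ω' h h1 e he
  rw [← h e he]; exact h1 e he

theorem allopen_meas {E : Type} (F : Finset E) :
    MeasurableSet[cs (F : Set E)] {ω : E → Bool | ∀ e ∈ F, ω e = true} := by
  refine det_meas F.finite_toSet ?_
  intro ω ω' h h1 e he
  rw [← h e he]; exact h1 e he

theorem mu_allopen {E : Type} [DecidableEq E] (p : NNReal) (hp : p ≤ 1) (F : Finset E) :
    mu E p hp {ω | ∀ e ∈ F, ω e = true} = p ^ F.card := by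
  have h := (mu_biInter p hp F (fun e => {e}) (by
    intro a _ b _ hab
    simpa using hab) (fun e => {ω | ω e = true})
    (fun e _ => cs_coord (Set.mem_singleton e) true)).2
  have h2 : {ω : E → Bool | ∀ e ∈ F, ω e = true} = ⋂ e ∈ F, {ω | ω e = true} := by
    ext ω; simp
  rw [h2, h, Finset.prod_congr rfl (fun e _ => mu_coord p hp e)]
  simp

end Pool.Agent.Helper713
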