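import Mathlib
import Pool.Agent.Helper713.FibB

set_option autoImplicit false
set_option linter.deprecated false

open MeasureTheory ProbabilityTheory

namespace Pool.Agent.Helper713

theorem wb_point {ι : Type} [DecidableEq ι] (s : Finset ι) (x : ι → ℝ)
    (h0 : ∀ i ∈ s, 0 ≤ x i) (h1 : ∀ i ∈ s, x i ≤ 1) :
    ∑ i ∈ s, x i - 1 / 2 * ∑ q ∈ s.offDiag, x q.1 * x q.2 ≤ 1 - ∏ i ∈ s, (1 - x i) ∧
    1 - ∏ i ∈ s, (1 - x i) ≤ ∑ i ∈ s, x i ∧ 0 ≤ ∏ i ∈ s, (1 - x i) := by
  induction s using Finset.induction_on with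
  | empty => simp
  | insert a s ha ih =>
    obtain ⟨i1, i2, i3⟩ := ih (fun i hi => h0 i (Finset.mem_insert_of_mem hi))
      (fun i hi => h1 i (Finset.mem_insert_of_mem hi))
    have ha0 := h0 a (Finset.mem_insert_self _ _)
    have ha1 := h1 a (Finset.mem_insert_self _ _)
    rw [Finset.prod_insert ha, Finset.sum_insert ha, Finset.offDiag_insert ha]
    have e1 : ∑ q ∈ s.offDiag ∪ {a} ×ˢ s ∪ s ×ˢ {a}, x q.1 * x q.2 =
        ∑ q ∈ s.offDiag, x q.1 * x q.2 + 2 * (x a * ∑ i ∈ s, x i) := by
      rw [Finset.sum_union, Finset.sum_union, Finset.sum_product, Finset.sum_product]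
      · simp only [Finset.sum_singleton]
        rw [← Finset.mul_sum, ← Finset.sum_mul]
        ring
      · rw [Finset.disjoint_left]
        rintro ⟨u, v⟩ hq hq'
        simp only [Finset.mem_offDiag, Finset.mem_product, Finset.mem_singleton] at hq hq'
        exact ha (hq'.1 ▸ hq.1)
      · rw [Finset.disjoint_left]
        rintro ⟨u, v⟩ hq hq'
        simp only [Finset.mem_union, Finset.mem_offDiag, Finset.mem_product,
          Finset.mem_singleton] at hq hq'
        rcases hq with hq | hq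
        · exact ha (hq'.2 ▸ hq.2.1)
        · exact ha (hq'.2 ▸ hq.2)
    rw [e1]
    have i4 : ∏ i ∈ s, (1 - x i) ≤ 1 := by
      refine Finset.prod_le_one ?_ ?_
      · intro i hi
        linarith [h1 i (Finset.mem_insert_of_mem hi)]
      · intro i hi
        linarith [h0 i (Finset.mem_insert_of_mem hi)]
    refine ⟨?_, ?_, ?_⟩
    · nlinarith [mul_le_mul_of_nonneg_left i2 ha0]
    · nlinarith
    · apply mul_nonneg (by linarith) i3

/-- weighted Bonferroni inequality -/
theorem wbonf {Ω ι : Type} [MeasurableSpace Ω] [DecidableEq ι] (μ : Measure Ω)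
    [IsProbabilityMeasure μ] (s : Finset ι) (A : ι → Set Ω) (hA : ∀ i ∈ s, MeasurableSet (A i))
    (w : ι → ℝ) (h0 : ∀ i ∈ s, 0 ≤ w i) (h1 : ∀ i ∈ s, w i ≤ 1) :
    ∑ i ∈ s, w i * μ.real (A i) - 1 / 2 * ∑ q ∈ s.offDiag, w q.1 * w q.2 * μ.real (A q.1 ∩ A q.2)
      ≤ μ.real (⋃ i ∈ s, A i) := by
  classical
  set g : Ω → ℝ := fun ω => ∑ i ∈ s, w i * (A i).indicator 1 ω -
    1 / 2 * ∑ q ∈ s.offDiag, w q.1 * w q.2 * (A q.1 ∩ A q.2).indicator 1 ω with hg
  have hi : ∀ i ∈ s, Integrable (fun ω => w i * (A i).indicator (1 : Ω → ℝ) ω) μ := by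
    intro i hi
    refine Integrable.const_mul ?_ _
    exact (integrable_const (1 : ℝ)).indicator (hA i hi)
  have hq : ∀ q ∈ s.offDiag, Integrable
      (fun ω => w q.1 * w q.2 * (A q.1 ∩ A q.2).indicator (1 : Ω → ℝ) ω) μ := by
    intro q hq
    rw [Finset.mem_offDiag] at hq
    refine Integrable.const_mul ?_ _
    exact (integrable_const (1 : ℝ)).indicator ((hA _ hq.1).inter (hA _ hq.2.1))
  have hint : ∫ ω, g ω ∂μ = ∑ i ∈ s, w i * μ.real (A i) -
      1 / 2 * ∑ q ∈ s.offDiag, w q.1 * w q.2 * μ.real (A q.1 ∩ A q.2) := by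
    rw [hg]
    rw [integral_sub (integrable_finset_sum _ hi)
      ((integrable_finset_sum _ hq).const_mul _)]
    rw [integral_finset_sum _ hi, integral_const_mul, integral_finset_sum _ hq]
    congr 1
    · refine Finset.sum_congr rfl fun i hi => ?_
      rw [integral_const_mul, integral_indicator_one (hA i hi)]
    · congr 1
      refine Finset.sum_congr rfl fun q hq => ?_
      rw [Finset.mem_offDiag] at hq
      rw [integral_const_mul, integral_indicator_one ((hA _ hq.1).inter (hA _ hq.2.1))]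
  have hU : MeasurableSet (⋃ i ∈ s, A i) := Finset.measurableSet_biUnion _ hA
  rw [← hint, ← integral_indicator_one hU]
  have hUint : Integrable ((⋃ i ∈ s, A i).indicator (1 : Ω → ℝ)) μ :=
    (integrable_const (1 : ℝ)).indicator hU
  refine integral_mono ?_ hUint ?_
  · rw [hg]
    exact (integrable_finset_sum _ hi).sub ((integrable_finset_sum _ hq).const_mul _)
  · intro ω
    simp only [hg]
    by_cases hω : ω ∈ ⋃ i ∈ s, A i
    · rw [Set.indicator_of_mem hω]
      have h := wb_point s (fun i => w i * (A i).indicator 1 ω) ?_ ?_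
      · have e2 : ∑ q ∈ s.offDiag, w q.1 * w q.2 * (A q.1 ∩ A q.2).indicator (1 : Ω → ℝ) ω =
            ∑ q ∈ s.offDiag, (w q.1 * (A q.1).indicator 1 ω) * (w q.2 * (A q.2).indicator 1 ω) := by
          refine Finset.sum_congr rfl fun q _ => ?_
          rw [Set.inter_indicator_one]
          simp only [Pi.mul_apply]
          ring
        rw [e2]
        have h2 := h.1
        have h3 := h.2.2
        simp only [Pi.one_apply] at *
        linarith
      · intro i hi
        refine mul_nonneg (h0 i hi) ?_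
        exact Set.indicator_nonneg (fun _ _ => zero_le_one) _
      · intro i hi
        have : (A i).indicator (1 : Ω → ℝ) ω ≤ 1 :=
          Set.indicator_le' (fun _ _ => le_rfl) (fun _ _ => zero_le_one) ω
        have h4 : 0 ≤ (A i).indicator (1 : Ω → ℝ) ω :=
          Set.indicator_nonneg (fun _ _ => zero_le_one) _
        nlinarith [h0 i hi, h1 i hi]
    · rw [Set.indicator_of_notMem hω]
      have hz : ∀ i ∈ s, (A i).indicator (1 : Ω → ℝ) ω = 0 := by
        intro i hi
        apply Set.indicator_of_notMem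
        intro h
        exact hω (Set.mem_biUnion hi h)
      have e1 : ∑ i ∈ s, w i * (A i).indicator (1 : Ω → ℝ) ω = 0 := by
        refine Finset.sum_eq_zero fun i hi => ?_
        rw [hz i hi, mul_zero]
      have e2 : ∑ q ∈ s.offDiag, w q.1 * w q.2 * (A q.1 ∩ A q.2).indicator (1 : Ω → ℝ) ω = 0 := by
        refine Finset.sum_eq_zero fun q hq => ?_
        rw [Finset.mem_offDiag] at hq
        rw [Set.inter_indicator_one]
        simp only [Pi.mul_apply]
        rw [hz _ hq.1, zero_mul, mul_zero]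
      rw [e1, e2]
      simp

end Pool.Agent.Helper713
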