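import Mathlib
import Pool.Agent.Helper713.FibC

set_option autoImplicit false
set_option linter.deprecated false

open MeasureTheory ProbabilityTheory

namespace Pool.Agent.Helper713.Fib

/-- branching number -/
abbrev dd : ℕ := 2 ^ 128

/-- edge probability -/
noncomputable abbrev pp : NNReal := 1 / 2 ^ 127

theorem pp_le : pp ≤ 1 := by
  rw [pp, div_le_iff₀ (by positivity)]
  norm_num

/-- depth of the splitting stage -/
def sL (k : ℕ) : ℕ := 5 * (k + 10)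

/-- length of the long paths -/
def LL (k : ℕ) : ℕ := (k + 10) ^ 2

/-- depth of the hubs of level `k` -/
def hd : ℕ → ℕ
  | 0 => 0
  | k + 1 => hd k + sL k + LL k

theorem sL_pos (k : ℕ) : 50 ≤ sL k := by unfold sL; omega

theorem LL_ge (k : ℕ) : 100 ≤ LL k := by
  unfold LL
  calc 100 = 10 ^ 2 := by norm_num
    _ ≤ (k + 10) ^ 2 := Nat.pow_le_pow_left (by omega) 2

theorem hd_succ (k : ℕ) : hd (k + 1) = hd k + sL k + LL k := rfl

theorem hd_lt (k : ℕ) : hd k < hd (k + 1) := by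
  rw [hd_succ]; have := sL_pos k; omega

theorem hd_mono : StrictMono hd := strictMono_nat_of_lt_succ hd_lt

theorem hd_inj : Function.Injective hd := hd_mono.injective

/-- level of a hub depth -/
noncomputable def lev (t : ℕ) : ℕ := Function.invFun hd t

theorem lev_hd (k : ℕ) : lev (hd k) = k := Function.leftInverse_invFun hd_inj k

/-- between two consecutive hub depths there are no hub depths -/
theorem not_hub {k t : ℕ} (h1 : hd k < t) (h2 : t < hd (k + 1)) : t ∉ Set.range hd := by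
  rintro ⟨j, rfl⟩
  have h3 := hd_mono.lt_iff_lt.1 h1
  have h4 := hd_mono.lt_iff_lt.1 h2
  omega

open Classical in
/-- number of children at depth `t` -/
noncomputable def br (t : ℕ) : ℕ := if ∃ k, hd k ≤ t ∧ t < hd k + sL k then dd else 1

theorem br_pos (t : ℕ) : 0 < br t := by
  unfold br; split_ifs <;> norm_num

theorem br_le (t : ℕ) : br t ≤ dd := by
  unfold br; split_ifs <;> norm_num

theorem br_split {k t : ℕ} (h1 : hd k ≤ t) (h2 : t < hd k + sL k) : br t = dd := by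
  unfold br; rw [if_pos ⟨k, h1, h2⟩]

theorem br_path {k t : ℕ} (h1 : hd k + sL k ≤ t) (h2 : t < hd (k + 1)) : br t = 1 := by
  unfold br; rw [if_neg]
  rintro ⟨j, h3, h4⟩
  rcases lt_trichotomy j k with h | h | h
  · have h5 : hd (j + 1) ≤ hd k := hd_mono.monotone h
    rw [hd_succ] at h5
    omega
  · subst h; omega
  · have h5 : hd (k + 1) ≤ hd j := hd_mono.monotone h
    omega

open Classical in
/-- clique size at depth `t` -/
noncomputable def cl (N : ℕ → ℕ) (t : ℕ) : ℕ := if t ∈ Set.range hd then N (lev t) else 1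

theorem cl_hd (N : ℕ → ℕ) (k : ℕ) : cl N (hd k) = N k := by
  unfold cl; rw [if_pos ⟨k, rfl⟩, lev_hd]

theorem cl_not (N : ℕ → ℕ) {t : ℕ} (h : t ∉ Set.range hd) : cl N t = 1 := by
  unfold cl; rw [if_neg h]

theorem cl_pos (N : ℕ → ℕ) (hN : ∀ k, 0 < N k) (t : ℕ) : 0 < cl N t := by
  unfold cl; split_ifs
  · exact hN _
  · norm_num

/-- valid words -/
def Valid : List ℕ → Prop
  | [] => True
  | a :: w => a < br w.length ∧ Valid w

theorem valid_tail {a : ℕ} {w : List ℕ} (h : Valid (a :: w)) : Valid w := h.2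

theorem valid_suffix {u w : List ℕ} (h : Valid w) (hu : u <:+ w) : Valid u := by
  induction w with
  | nil =>
    rw [List.suffix_nil] at hu
    subst hu; trivial
  | cons a w ih =>
    rcases List.suffix_cons_iff.1 hu with h1 | h1
    · subst h1; exact h
    · exact ih h.2 h1

/-- valid vertices -/
def vv (N : ℕ → ℕ) (x : List ℕ × ℕ) : Prop := Valid x.1 ∧ x.2 < cl N x.1.length

/-- ambient vertex type of the product graph -/
abbrev WW : Type := (List ℕ × ℕ) × ℤ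

/-- one word is the parent of the other -/
def pc (u v : List ℕ) : Prop := ∃ a, v = a :: u

/-- adjacency in the factor graph -/
def gadj (x y : List ℕ × ℕ) : Prop :=
  (x.1 = y.1 ∧ x.2 ≠ y.2) ∨ (x.2 = 0 ∧ y.2 = 0 ∧ (pc x.1 y.1 ∨ pc y.1 x.1))

theorem gadj_symm {x y : List ℕ × ℕ} (h : gadj x y) : gadj y x := by
  rcases h with h | ⟨h1, h2, h3⟩
  · exact Or.inl ⟨h.1.symm, h.2.symm⟩
  · exact Or.inr ⟨h2, h1, h3.symm⟩

theorem pc_ne {u v : List ℕ} (h : pc u v) : u ≠ v := by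
  obtain ⟨a, rfl⟩ := h
  intro h
  have := congrArg List.length h
  simp at this

theorem gadj_ne {x y : List ℕ × ℕ} (h : gadj x y) : x ≠ y := by
  rintro rfl
  rcases h with h | ⟨h1, h2, h3⟩
  · exact h.2 rfl
  · rcases h3 with h3 | h3 <;> exact pc_ne h3 rfl

/-- the product graph -/
def PG (N : ℕ → ℕ) : SimpleGraph WW where
  Adj x y := vv N x.1 ∧ vv N y.1 ∧
    ((x.2 = y.2 ∧ gadj x.1 y.1) ∨ (x.1 = y.1 ∧ (y.2 = x.2 + 1 ∨ x.2 = y.2 + 1)))
  symm := ⟨by
    rintro x y ⟨h1, h2, h3⟩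
    refine ⟨h2, h1, ?_⟩
    rcases h3 with h3 | h3
    · exact Or.inl ⟨h3.1.symm, gadj_symm h3.2⟩
    · exact Or.inr ⟨h3.1.symm, h3.2.symm⟩⟩
  loopless := ⟨by
    rintro x ⟨_, _, h3⟩
    rcases h3 with h3 | h3
    · exact gadj_ne h3.2 rfl
    · omega⟩

theorem PG_adj (N : ℕ → ℕ) (x y : WW) : (PG N).Adj x y ↔ vv N x.1 ∧ vv N y.1 ∧
    ((x.2 = y.2 ∧ gadj x.1 y.1) ∨ (x.1 = y.1 ∧ (y.2 = x.2 + 1 ∨ x.2 = y.2 + 1))) := Iff.rfl

/-- edges touching a region -/
def reg (N : ℕ → ℕ) (P : List ℕ → Prop) : SimpleGraph WW where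
  Adj x y := (PG N).Adj x y ∧ (P x.1.1 ∨ P y.1.1)
  symm := ⟨fun _ _ h => ⟨h.1.symm, h.2.symm⟩⟩
  loopless := ⟨fun _ h => h.1.ne rfl⟩

theorem reg_adj (N : ℕ → ℕ) (P : List ℕ → Prop) (x y : WW) :
    (reg N P).Adj x y ↔ (PG N).Adj x y ∧ (P x.1.1 ∨ P y.1.1) := Iff.rfl

theorem reg_le (N : ℕ → ℕ) (P : List ℕ → Prop) : reg N P ≤ PG N := fun _ _ h => h.1

theorem reg_mono (N : ℕ → ℕ) {P Q : List ℕ → Prop} (h : ∀ v, P v → Q v) : reg N P ≤ reg N Q :=
  fun _ _ hxy => ⟨hxy.1, hxy.2.imp (h _) (h _)⟩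

/-- the product graph without the edges inside the hub columns -/
def PM (N : ℕ → ℕ) : SimpleGraph WW where
  Adj x y := (PG N).Adj x y ∧ ¬ (x.1.1 = y.1.1 ∧ x.1.1.length ∈ Set.range hd)
  symm := ⟨by
    rintro x y ⟨h1, h2⟩
    refine ⟨h1.symm, ?_⟩
    rintro ⟨h3, h4⟩
    exact h2 ⟨h3.symm, h3 ▸ h4⟩⟩
  loopless := ⟨fun _ h => h.1.ne rfl⟩

theorem PM_adj (N : ℕ → ℕ) (x y : WW) : (PM N).Adj x y ↔ (PG N).Adj x y ∧
    ¬ (x.1.1 = y.1.1 ∧ x.1.1.length ∈ Set.range hd) := Iff.rfl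

/-- weights -/
noncomputable def wt (σ : ℤ) (x : WW) : ℝ :=
  (1 / 2 ^ 125 : ℝ) ^ x.1.1.length * (2 ^ 124 : ℝ) ^ (σ * x.2)

theorem wt_pos (σ : ℤ) (x : WW) : 0 < wt σ x := by unfold wt; positivity

open Classical in
/-- neighbours in `PM` -/
noncomputable def nbM (x : WW) : Finset WW :=
  ({((x.1.1, 0), x.2 + 1)} ∪ {((x.1.1, 0), x.2 - 1)}) ∪ ({((x.1.1.tail, 0), x.2)} ∪
    (Finset.range (br x.1.1.length)).image (fun a => ((a :: x.1.1, 0), x.2)))

theorem PM_cases {N : ℕ → ℕ} {x z : WW} (h : (PM N).Adj x z) :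
    x.1.2 = 0 ∧ z.1.2 = 0 ∧ vv N x.1 ∧ vv N z.1 ∧
    ((x.2 = z.2 ∧ (pc x.1.1 z.1.1 ∨ pc z.1.1 x.1.1)) ∨
      (x.1.1 = z.1.1 ∧ x.1.1.length ∉ Set.range hd ∧ (z.2 = x.2 + 1 ∨ x.2 = z.2 + 1))) := by
  rw [PM_adj, PG_adj] at h
  obtain ⟨⟨h1, h2, h3⟩, h4⟩ := h
  rcases h3 with ⟨h5, h6⟩ | ⟨h5, h6⟩
  · rcases h6 with h6 | ⟨h6, h7, h8⟩
    · exfalso
      have h9 : x.1.1.length ∉ Set.range hd := fun h => h4 ⟨h6.1, h⟩
      have h10 := h1.2
      have h11 := h2.2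
      rw [cl_not N h9] at h10
      rw [← h6.1, cl_not N h9] at h11
      exact h6.2 (by omega)
    · exact ⟨h6, h7, h1, h2, Or.inl ⟨h5, h8⟩⟩
  · have h9 : x.1.1.length ∉ Set.range hd := fun h => h4 ⟨by rw [h5], h⟩
    have h10 := h1.2
    have h11 := h2.2
    rw [cl_not N h9] at h10
    rw [← h5, cl_not N h9] at h11
    refine ⟨by omega, by rw [← h5]; omega, h1, h2, Or.inr ⟨by rw [h5], h9, h6⟩⟩

theorem mem_nbM {N : ℕ → ℕ} (x z : WW) (h : (PM N).Adj x z) : z ∈ nbM x := by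
  classical
  obtain ⟨h1, h2, h3, h4, h5⟩ := PM_cases h
  unfold nbM
  simp only [Finset.mem_union, Finset.mem_singleton, Finset.mem_image, Finset.mem_range]
  obtain ⟨⟨z1, z2⟩, z3⟩ := z
  obtain ⟨⟨x1, x2⟩, x3⟩ := x
  simp only at *
  subst h1 h2
  rcases h5 with ⟨h6, h7⟩ | ⟨h6, h7, h8⟩
  · subst h6
    rcases h7 with ⟨a, h7⟩ | ⟨a, h7⟩
    · subst h7
      exact Or.inr (Or.inr ⟨a, h4.1.1, rfl⟩)
    · subst h7
      exact Or.inr (Or.inl rfl)
  · subst h6
    rcases h8 with h8 | h8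
    · subst h8
      exact Or.inl (Or.inl rfl)
    · subst h8
      left; right
      simp

theorem sum_nbM (σ : ℤ) (hσ : σ = 1 ∨ σ = -1) (x : WW) :
    ∑ z ∈ nbM x, ENNReal.ofReal (wt σ z) ≤ ENNReal.ofReal (2 ^ 126) * ENNReal.ofReal (wt σ x) := by
  classical
  have hU : ∀ (s t : Finset WW), ∑ z ∈ s ∪ t, ENNReal.ofReal (wt σ z) ≤
      ∑ z ∈ s, ENNReal.ofReal (wt σ z) + ∑ z ∈ t, ENNReal.ofReal (wt σ z) := by
    intro s t
    rw [← Finset.sum_union_inter]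
    exact le_self_add
  have hI : ∑ z ∈ (Finset.range (br x.1.1.length)).image
      (fun a => (((a :: x.1.1, 0), x.2) : WW)), ENNReal.ofReal (wt σ z) ≤
      ∑ a ∈ Finset.range (br x.1.1.length), ENNReal.ofReal (wt σ ((a :: x.1.1, 0), x.2)) := by
    exact Finset.sum_image_le_of_nonneg (fun _ _ => zero_le')
  have hI2 : ∑ a ∈ Finset.range (br x.1.1.length), ENNReal.ofReal (wt σ ((a :: x.1.1, 0), x.2)) ≤
      ENNReal.ofReal (8 * wt σ x) := by
    have : ∀ a ∈ Finset.range (br x.1.1.length), ENNReal.ofReal (wt σ ((a :: x.1.1, 0), x.2)) =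
        ENNReal.ofReal (1 / 2 ^ 125 * wt σ x) := by
      intro a _
      congr 1
      unfold wt
      simp only [List.length_cons, pow_succ]
      ring
    rw [Finset.sum_congr rfl this]
    rw [Finset.sum_const, Finset.card_range, nsmul_eq_mul,
      ← ENNReal.ofReal_natCast, ← ENNReal.ofReal_mul (by positivity)]
    apply ENNReal.ofReal_le_ofReal
    have h1 : ((br x.1.1.length : ℕ) : ℝ) ≤ 2 ^ 128 := by exact_mod_cast br_le _
    have h2 := wt_pos σ x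
    have h3 : ((br x.1.1.length : ℕ) : ℝ) * (1 / 2 ^ 125 * wt σ x) ≤
        2 ^ 128 * (1 / 2 ^ 125 * wt σ x) := by
      gcongr
    refine h3.trans (le_of_eq ?_)
    ring
  have hp : wt σ ((x.1.1.tail, 0), x.2) ≤ 2 ^ 125 * wt σ x := by
    unfold wt
    simp only
    have : (1 / 2 ^ 125 : ℝ) ^ x.1.1.tail.length ≤ 2 ^ 125 * (1 / 2 ^ 125 : ℝ) ^ x.1.1.length := by
      cases h : x.1.1 with
      | nil => norm_num
      | cons a w =>
        simp only [List.tail_cons, List.length_cons, pow_succ]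
        apply le_of_eq
        ring
    have h2 : (0 : ℝ) < (2 ^ 124 : ℝ) ^ (σ * x.2) := by positivity
    calc _ ≤ (2 ^ 125 * (1 / 2 ^ 125 : ℝ) ^ x.1.1.length) * (2 ^ 124 : ℝ) ^ (σ * x.2) :=
          mul_le_mul_of_nonneg_right this h2.le
      _ = _ := by ring
  have h1 : wt σ ((x.1.1, 0), x.2 + 1) + wt σ ((x.1.1, 0), x.2 - 1) ≤ (2 ^ 124 + 1) * wt σ x := by
    unfold wt
    simp only
    have h2 : (0 : ℝ) < (2 ^ 124 : ℝ) ^ (σ * x.2) := by positivity
    have h3 : (0 : ℝ) < (1 / 2 ^ 125 : ℝ) ^ x.1.1.length := by positivity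
    have h4 : (2 ^ 124 : ℝ) ^ (σ * (x.2 + 1)) + (2 ^ 124 : ℝ) ^ (σ * (x.2 - 1)) ≤
        (2 ^ 124 + 1) * (2 ^ 124 : ℝ) ^ (σ * x.2) := by
      rcases hσ with h | h
      · subst h
        rw [show (1 : ℤ) * (x.2 + 1) = 1 * x.2 + 1 by ring,
          show (1 : ℤ) * (x.2 - 1) = 1 * x.2 - 1 by ring,
          zpow_add₀ (by norm_num), zpow_sub₀ (by norm_num)]
        simp only [zpow_one, one_mul] at *
        have : (2 ^ 124 : ℝ) ^ x.2 / 2 ^ 124 ≤ (2 ^ 124 : ℝ) ^ x.2 :=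
          div_le_self h2.le (by norm_num)
        linarith
      · subst h
        rw [show (-1 : ℤ) * (x.2 + 1) = -1 * x.2 - 1 by ring,
          show (-1 : ℤ) * (x.2 - 1) = -1 * x.2 + 1 by ring,
          zpow_add₀ (by norm_num), zpow_sub₀ (by norm_num)]
        simp only [zpow_one] at *
        have : (2 ^ 124 : ℝ) ^ (-1 * x.2) / 2 ^ 124 ≤ (2 ^ 124 : ℝ) ^ (-1 * x.2) :=
          div_le_self h2.le (by norm_num)
        linarith
    calc _ = (1 / 2 ^ 125 : ℝ) ^ x.1.1.length * ((2 ^ 124 : ℝ) ^ (σ * (x.2 + 1)) +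
          (2 ^ 124 : ℝ) ^ (σ * (x.2 - 1))) := by ring
      _ ≤ (1 / 2 ^ 125 : ℝ) ^ x.1.1.length * ((2 ^ 124 + 1) * (2 ^ 124 : ℝ) ^ (σ * x.2)) := by
          gcongr
      _ = _ := by ring
  unfold nbM
  refine (hU _ _).trans ?_
  refine (add_le_add (hU _ _) (hU _ _)).trans ?_
  rw [Finset.sum_singleton, Finset.sum_singleton, Finset.sum_singleton]
  have hwx := wt_pos σ x
  have hw1 := wt_pos σ ((x.1.1, 0), x.2 + 1)
  have hw2 := wt_pos σ ((x.1.1, 0), x.2 - 1)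
  calc _ ≤ ENNReal.ofReal (wt σ ((x.1.1, 0), x.2 + 1)) +
        ENNReal.ofReal (wt σ ((x.1.1, 0), x.2 - 1)) +
        (ENNReal.ofReal (2 ^ 125 * wt σ x) + ENNReal.ofReal (8 * wt σ x)) := by
        refine add_le_add le_rfl (add_le_add ?_ (hI.trans hI2))
        exact ENNReal.ofReal_le_ofReal hp
    _ = ENNReal.ofReal (wt σ ((x.1.1, 0), x.2 + 1) + wt σ ((x.1.1, 0), x.2 - 1) +
        (2 ^ 125 * wt σ x + 8 * wt σ x)) := by
        rw [← ENNReal.ofReal_add (by positivity) (by positivity),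
          ← ENNReal.ofReal_add (by positivity) (by positivity),
          ← ENNReal.ofReal_add (by positivity) (by positivity)]
    _ ≤ ENNReal.ofReal (2 ^ 126 * wt σ x) := by
        apply ENNReal.ofReal_le_ofReal
        nlinarith
    _ = _ := by rw [ENNReal.ofReal_mul (by positivity)]

theorem half_inv : (1 - (pp : ENNReal) * ENNReal.ofReal (2 ^ 126))⁻¹ = 2 := by
  have h1 : (pp : ENNReal) * ENNReal.ofReal (2 ^ 126) = ENNReal.ofReal (1 / 2) := by
    have : (pp : ENNReal) = ENNReal.ofReal (1 / 2 ^ 127) := by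
      rw [ENNReal.ofReal, ENNReal.coe_inj]
      ext
      simp [pp]
    rw [this, ← ENNReal.ofReal_mul (by positivity)]
    congr 1
    norm_num
  rw [h1]
  have h2 : (1 : ENNReal) - ENNReal.ofReal (1 / 2) = ENNReal.ofReal (1 / 2) := by
    rw [← ENNReal.ofReal_one, ← ENNReal.ofReal_sub _ (by norm_num)]
    norm_num
  rw [h2, ← ENNReal.ofReal_inv_of_pos (by norm_num)]
  norm_num

/-- two-point bound away from the hub columns, one direction -/
theorem PM_bound0 (N : ℕ → ℕ) (x y : WW) (h : y.1.1.length ≤ x.1.1.length) :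
    mu (Sym2 WW) pp pp_le (cn (PM N) x y) ≤
      ENNReal.ofReal (2 * (1 / 2 ^ 125) ^ (x.1.1.length - y.1.1.length) *
        (1 / 2 ^ 124) ^ (x.2 - y.2).natAbs) := by
  obtain ⟨σ, hσ, hs⟩ : ∃ σ : ℤ, (σ = 1 ∨ σ = -1) ∧ σ * (x.2 - y.2) = -((x.2 - y.2).natAbs : ℤ) := by
    rcases le_total 0 (x.2 - y.2) with h0 | h0
    · exact ⟨-1, Or.inr rfl, by omega⟩
    · exact ⟨1, Or.inl rfl, by omega⟩
  have hr := reach_bound (PM N) pp pp_le nbM mem_nbM (fun x => ENNReal.ofReal (wt σ x))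
    (ENNReal.ofReal (2 ^ 126)) (sum_nbM σ hσ) x y
  rw [half_inv] at hr
  have hP : mu (Sym2 WW) pp pp_le (cn (PM N) x y) * ENNReal.ofReal (wt σ y) ≤
      2 * ENNReal.ofReal (wt σ x) := hr
  have hwy := wt_pos σ y
  have hwx := wt_pos σ x
  have h1 : mu (Sym2 WW) pp pp_le (cn (PM N) x y) ≤
      2 * ENNReal.ofReal (wt σ x) / ENNReal.ofReal (wt σ y) := by
    rw [ENNReal.le_div_iff_mul_le]
    · exact hP
    · left; simpa using hwy
    · left; exact ENNReal.ofReal_ne_top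
  refine h1.trans (le_of_eq ?_)
  have h2 : (2 : ENNReal) = ENNReal.ofReal 2 := by simp
  rw [h2, ← ENNReal.ofReal_mul (by positivity), ← ENNReal.ofReal_div_of_pos hwy]
  congr 1
  unfold wt
  have h3 : (1 / 2 ^ 125 : ℝ) ^ x.1.1.length = (1 / 2 ^ 125) ^ (x.1.1.length - y.1.1.length) *
      (1 / 2 ^ 125) ^ y.1.1.length := by
    rw [← pow_add]; congr 1; omega
  have h4 : (2 ^ 124 : ℝ) ^ (σ * x.2) = (1 / 2 ^ 124) ^ (x.2 - y.2).natAbs *
      (2 ^ 124 : ℝ) ^ (σ * y.2) := by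
    have : σ * x.2 = -((x.2 - y.2).natAbs : ℤ) + σ * y.2 := by rw [← hs]; ring
    rw [this, zpow_add₀ (by norm_num), zpow_neg, zpow_natCast, one_div, inv_pow]
  rw [h3, h4]
  have h5 : (0 : ℝ) < (2 ^ 124 : ℝ) ^ (σ * y.2) := by positivity
  have h6 : (0 : ℝ) < (1 / 2 ^ 125 : ℝ) ^ y.1.1.length := by positivity
  rw [div_eq_iff (by positivity)]
  ring

theorem cn_symm {W : Type} (H : SimpleGraph W) (x y : W) : cn H x y = cn H y x := by
  ext ω
  exact ⟨fun h => SimpleGraph.Reachable.symm h, fun h => SimpleGraph.Reachable.symm h⟩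

theorem PM_bound (N : ℕ → ℕ) (x y : WW) :
    mu (Sym2 WW) pp pp_le (cn (PM N) x y) ≤
      ENNReal.ofReal (2 * (1 / 2 ^ 124) ^ (x.2 - y.2).natAbs) := by
  rcases le_total y.1.1.length x.1.1.length with h | h
  · refine (PM_bound0 N x y h).trans (ENNReal.ofReal_le_ofReal ?_)
    have : (1 / 2 ^ 125 : ℝ) ^ (x.1.1.length - y.1.1.length) ≤ 1 :=
      pow_le_one₀ (by norm_num) (by norm_num)
    have h2 : (0 : ℝ) < (1 / 2 ^ 124) ^ (x.2 - y.2).natAbs := by positivity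
    nlinarith
  · rw [cn_symm]
    refine (PM_bound0 N y x h).trans (ENNReal.ofReal_le_ofReal ?_)
    have : (1 / 2 ^ 125 : ℝ) ^ (y.1.1.length - x.1.1.length) ≤ 1 :=
      pow_le_one₀ (by norm_num) (by norm_num)
    have h3 : (y.2 - x.2).natAbs = (x.2 - y.2).natAbs := by omega
    rw [h3]
    have h2 : (0 : ℝ) < (1 / 2 ^ 124) ^ (x.2 - y.2).natAbs := by positivity
    nlinarith

end Pool.Agent.Helper713.Fib
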