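import Mathlib
import Pool.Agent.Helper713.FibD

set_option autoImplicit false
set_option linter.deprecated false

open MeasureTheory ProbabilityTheory

namespace Pool.Agent.Helper713.Fib

/-- the strip -/
def St (L : ℕ) : SimpleGraph (ℕ × ℤ) where
  Adj x y := x.1 ≤ L ∧ y.1 ≤ L ∧ ((x.2 = y.2 ∧ (y.1 = x.1 + 1 ∨ x.1 = y.1 + 1)) ∨
    (x.1 = y.1 ∧ 0 < x.1 ∧ x.1 < L ∧ (y.2 = x.2 + 1 ∨ x.2 = y.2 + 1)))
  symm := ⟨by rintro x y h; omega⟩
  loopless := ⟨by rintro x h; omega⟩

theorem St_adj (L : ℕ) (x y : ℕ × ℤ) : (St L).Adj x y ↔ x.1 ≤ L ∧ y.1 ≤ L ∧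
    ((x.2 = y.2 ∧ (y.1 = x.1 + 1 ∨ x.1 = y.1 + 1)) ∨
    (x.1 = y.1 ∧ 0 < x.1 ∧ x.1 < L ∧ (y.2 = x.2 + 1 ∨ x.2 = y.2 + 1))) := Iff.rfl

/-- the strip restricted to a slab -/
def StD (L D : ℕ) : SimpleGraph (ℕ × ℤ) where
  Adj x y := (St L).Adj x y ∧ (x.2.natAbs ≤ D ∧ y.2.natAbs ≤ D)
  symm := ⟨by rintro x y h; exact ⟨h.1.symm, h.2.2, h.2.1⟩⟩
  loopless := ⟨by rintro x h; exact h.1.ne rfl⟩

theorem StD_adj (L D : ℕ) (x y : ℕ × ℤ) : (StD L D).Adj x y ↔ (St L).Adj x y ∧
    (x.2.natAbs ≤ D ∧ y.2.natAbs ≤ D) := Iff.rfl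

theorem StD_le (L D : ℕ) : StD L D ≤ St L := fun _ _ h => h.1

theorem StD_mono {L D L' D' : ℕ} (h : L ≤ L') (h' : D ≤ D') : StD L D ≤ StD L' D' := by
  intro x y hxy
  rw [StD_adj, St_adj] at *
  omega

/-- the word reached by `m` trivial steps below `x` -/
def ext0 (m : ℕ) (x : List ℕ) : List ℕ := List.replicate m 0 ++ x

theorem ext0_len (m : ℕ) (x : List ℕ) : (ext0 m x).length = m + x.length := by
  simp [ext0]

theorem ext0_succ (m : ℕ) (x : List ℕ) : ext0 (m + 1) x = 0 :: ext0 m x := by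
  simp [ext0, List.replicate_succ]

theorem ext0_zero (x : List ℕ) : ext0 0 x = x := by simp [ext0]

theorem ext0_valid (m : ℕ) {x : List ℕ} (h : Valid x) : Valid (ext0 m x) := by
  induction m with
  | zero => rw [ext0_zero]; exact h
  | succ m ih => rw [ext0_succ]; exact ⟨br_pos _, ih⟩

theorem ext0_suffix (m : ℕ) (x : List ℕ) : x <:+ ext0 m x := ⟨_, rfl⟩

theorem ext0_suffix' {m m' : ℕ} (h : m ≤ m') (x : List ℕ) : ext0 m x <:+ ext0 m' x := by
  obtain ⟨j, rfl⟩ := Nat.exists_eq_add_of_le h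
  clear h
  induction j with
  | zero => exact List.suffix_rfl
  | succ j ih =>
    rw [show m + (j + 1) = (m + j) + 1 by ring, ext0_succ]
    exact ih.trans (List.suffix_cons _ _)

/-- interior of the path below `x` -/
def Pth (k : ℕ) (x v : List ℕ) : Prop := x <:+ v ∧ x.length < v.length ∧ v.length < x.length + LL k

theorem path_word {k : ℕ} {x v : List ℕ} (hx : x.length = hd k + sL k) (hv : Valid v)
    (h : x <:+ v) (h2 : v.length ≤ hd (k + 1)) : v = ext0 (v.length - x.length) x := by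
  induction v with
  | nil =>
    rw [List.suffix_nil] at h
    subst h; simp [ext0]
  | cons a v ih =>
    rcases List.suffix_cons_iff.1 h with h1 | h1
    · subst h1; simp [ext0]
    · have h3 : x.length ≤ v.length := h1.length_le
      simp only [List.length_cons] at h2
      have h4 := ih hv.2 h1 (by omega)
      have h5 : (a :: v).length - x.length = (v.length - x.length) + 1 := by
        simp only [List.length_cons]; omega
      rw [h5, ext0_succ, ← h4]
      have h6 : br v.length = 1 := br_path (k := k) (by omega) (by omega)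
      have h7 := hv.1
      rw [h6] at h7
      have : a = 0 := by omega
      rw [this]

/-- embedding of the strip -/
def emb (x : List ℕ) (i : ℤ) (y : ℕ × ℤ) : WW := ((ext0 y.1 x, 0), i + y.2)

theorem emb_inj (x : List ℕ) (i : ℤ) : Function.Injective (emb x i) := by
  rintro ⟨a, b⟩ ⟨c, d⟩ h
  unfold emb at h
  simp only [Prod.mk.injEq, and_true] at h
  have h1 := congrArg List.length h.1
  rw [ext0_len, ext0_len] at h1
  have h2 : a = c := by omega
  have h3 : b = d := by omega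
  rw [h2, h3]

theorem emb_adj {N : ℕ → ℕ} (hN : ∀ k, 0 < N k) {k : ℕ} {x : List ℕ} (hv : Valid x) (i : ℤ)
    {a b : ℕ × ℤ} (h : (St (LL k)).Adj a b) : (reg N (Pth k x)).Adj (emb x i a) (emb x i b) := by
  rw [St_adj] at h
  obtain ⟨h1, h2, h3⟩ := h
  have hL := LL_ge k
  rw [reg_adj, PG_adj]
  refine ⟨⟨⟨ext0_valid _ hv, cl_pos N hN _⟩, ⟨ext0_valid _ hv, cl_pos N hN _⟩, ?_⟩, ?_⟩
  · rcases h3 with ⟨h4, h5⟩ | ⟨h4, h5⟩
    · left
      refine ⟨by simp only [emb]; rw [h4], Or.inr ⟨rfl, rfl, ?_⟩⟩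
      simp only [emb]
      rcases h5 with h5 | h5
      · left; exact ⟨0, by rw [h5, ext0_succ]⟩
      · right; exact ⟨0, by rw [h5, ext0_succ]⟩
    · right
      simp only [emb]
      refine ⟨by rw [h4], ?_⟩
      omega
  · simp only [emb, Pth]
    rw [ext0_len, ext0_len]
    by_cases h6 : 0 < a.1 ∧ a.1 < LL k
    · left
      exact ⟨ext0_suffix _ _, by omega, by omega⟩
    · right
      refine ⟨ext0_suffix _ _, ?_, ?_⟩ <;> omega

theorem St_lower {N : ℕ → ℕ} (hN : ∀ k, 0 < N k) {k : ℕ} {x : List ℕ} (hv : Valid x) (i : ℤ)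
    (p : NNReal) (hp : p ≤ 1) (a b : ℕ × ℤ) :
    mu _ p hp (cn (St (LL k)) a b) ≤
      mu _ p hp (cn (reg N (Pth k x)) (emb x i a) (emb x i b)) := by
  rw [← pull_prob (emb x i) (emb_inj x i) p hp (cn_meas0 _ _ _)]
  exact measure_mono (pull_cn_subset (emb x i) (fun a b h => emb_adj hN hv i h) a b)

/-- words adjacent to the interior of the path -/
theorem pth_nb {k : ℕ} {x v z : List ℕ} (hx : x.length = hd k + sL k)
    (h : Pth k x v) (h2 : pc v z ∨ pc z v) :
    x <:+ z ∧ x.length ≤ z.length ∧ z.length ≤ hd (k + 1) := by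
  obtain ⟨h3, h4, h5⟩ := h
  rw [hd_succ]
  rcases h2 with ⟨a, rfl⟩ | ⟨a, rfl⟩
  · refine ⟨h3.trans (List.suffix_cons _ _), ?_, ?_⟩ <;> simp only [List.length_cons] <;> omega
  · rcases List.suffix_cons_iff.1 h3 with h6 | h6
    · rw [h6] at h4; omega
    · simp only [List.length_cons] at h4 h5
      exact ⟨h6, by omega, by omega⟩

theorem St_upper {N : ℕ → ℕ} {k : ℕ} {x : List ℕ} (hx : x.length = hd k + sL k) (i : ℤ)
    (p : NNReal) (hp : p ≤ 1) (y z : WW) :
    mu _ p hp (cn (reg N (Pth k x)) y z) ≤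
      mu _ p hp (cn (St (LL k)) (y.1.1.length - x.length, y.2 - i)
        (z.1.1.length - x.length, z.2 - i)) := by
  rw [← pull_prob (emb x i) (emb_inj x i) p hp (cn_meas0 _ _ _)]
  refine measure_mono (cn_subset_pull (emb x i)
    (fun y : WW => (y.1.1.length - x.length, y.2 - i)) ?_ y z)
  intro y z h
  right
  rw [reg_adj, PG_adj] at h
  obtain ⟨⟨⟨hy1, hy2⟩, ⟨hz1, hz2⟩, h3⟩, h4⟩ := h
  -- every vertex involved is on the path
  have hkey : ∀ v : List ℕ, ∀ j : ℕ, Valid v → Pth k x v → j < cl N v.length → j = 0 := by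
    intro v j _ hv hj
    rw [cl_not N (not_hub (k := k) (by have := hv.2.1; omega)
      (by rw [hd_succ]; have := hv.2.2; omega))] at hj
    omega
  have hpth : ∀ v : List ℕ, Valid v → x <:+ v → v.length ≤ hd (k + 1) →
      v = ext0 (v.length - x.length) x := fun v h1 h2 h3 => path_word hx h1 h2 h3
  have hin : ∀ v : List ℕ, Pth k x v → x <:+ v ∧ x.length ≤ v.length ∧ v.length ≤ hd (k + 1) := by
    intro v hv
    refine ⟨hv.1, hv.2.1.le, ?_⟩
    rw [hd_succ]; have := hv.2.2; omega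
  have hall : (x <:+ y.1.1 ∧ x.length ≤ y.1.1.length ∧ y.1.1.length ≤ hd (k + 1)) ∧
      (x <:+ z.1.1 ∧ x.length ≤ z.1.1.length ∧ z.1.1.length ≤ hd (k + 1)) ∧
      y.1.2 = 0 ∧ z.1.2 = 0 := by
    rcases h3 with ⟨h5, h6⟩ | ⟨h5, h6⟩
    · rcases h6 with h6 | ⟨h6, h7, h8⟩
      · exfalso
        rcases h4 with h4 | h4
        · have e1 := hkey _ _ hy1 h4 hy2
          have e2 := hkey _ _ hy1 h4 (by rw [h6.1]; exact hz2)
          exact h6.2 (e1.trans e2.symm)
        · have e1 := hkey _ _ hz1 h4 hz2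
          have e2 := hkey _ _ hz1 h4 (by rw [← h6.1]; exact hy2)
          exact h6.2 (e2.trans e1.symm)
      · rcases h4 with h4 | h4
        · exact ⟨hin _ h4, pth_nb hx h4 h8, h6, h7⟩
        · exact ⟨pth_nb hx h4 h8.symm, hin _ h4, h6, h7⟩
    · have h8 : Pth k x y.1.1 := by
        rcases h4 with h4 | h4
        · exact h4
        · rw [h5]; exact h4
      have e1 := hkey _ _ hy1 h8 hy2
      refine ⟨hin _ h8, by rw [← h5]; exact hin _ h8, e1, by rw [← h5]; exact e1⟩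
  obtain ⟨⟨a1, a2, a3⟩, ⟨b1, b2, b3⟩, c1, c2⟩ := hall
  have ey := hpth _ hy1 a1 a3
  have ez := hpth _ hz1 b1 b3
  refine ⟨?_, ?_, ?_⟩
  · unfold emb
    simp only
    rw [← ey]
    obtain ⟨⟨y1, y2⟩, y3⟩ := y
    simp only at *
    subst c1
    simp
  · unfold emb
    simp only
    rw [← ez]
    obtain ⟨⟨z1, z2⟩, z3⟩ := z
    simp only at *
    subst c2
    simp
  · rw [St_adj]
    simp only
    rw [hd_succ] at a3 b3
    refine ⟨by omega, by omega, ?_⟩
    rcases h3 with ⟨h5, h6⟩ | ⟨h5, h6⟩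
    · rcases h6 with h6 | ⟨h6, h7, h8⟩
      · exfalso
        rw [c1, c2] at h6
        exact h6.2 rfl
      · left
        refine ⟨by omega, ?_⟩
        rcases h8 with ⟨a, h8⟩ | ⟨a, h8⟩
        · left; rw [h8]; simp only [List.length_cons]; omega
        · right; rw [h8]; simp only [List.length_cons]; omega
    · right
      have h8 : Pth k x y.1.1 := by
        rcases h4 with h4 | h4
        · exact h4
        · rw [h5]; exact h4
      refine ⟨by rw [h5], ?_, ?_, by omega⟩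
      · have := h8.2.1; omega
      · have := h8.2.2; omega

theorem reg_pth_le_PM {N : ℕ → ℕ} {k : ℕ} {x : List ℕ} (hx : x.length = hd k + sL k) :
    reg N (Pth k x) ≤ PM N := by
  intro y z h
  rw [PM_adj]
  refine ⟨h.1, ?_⟩
  rintro ⟨h1, h2⟩
  have h8 : Pth k x y.1.1 := by
    rcases h.2 with h4 | h4
    · exact h4
    · rw [h1]; exact h4
  exact not_hub (k := k) (by have := h8.2.1; omega) (by rw [hd_succ]; have := h8.2.2; omega) h2

/-- two-point bound in the strip -/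
theorem St_bound (k : ℕ) (a b : ℕ × ℤ) :
    mu _ pp pp_le (cn (St (LL k)) a b) ≤ ENNReal.ofReal (2 * (1 / 2 ^ 124) ^ (a.2 - b.2).natAbs) := by
  have hN : ∀ k : ℕ, 0 < (fun _ : ℕ => 1) k := fun _ => one_pos
  have hv : Valid (ext0 (hd k + sL k) []) := ext0_valid _ trivial
  have hx : (ext0 (hd k + sL k) []).length = hd k + sL k := by rw [ext0_len]; rfl
  refine (St_lower hN hv 0 pp pp_le a b).trans ?_
  refine (measure_mono (cn_mono (reg_pth_le_PM hx) _ _)).trans ?_
  refine (PM_bound _ _ _).trans (le_of_eq ?_)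
  simp [emb]

theorem St_cross_bound (k : ℕ) (t : ℤ) :
    mu _ pp pp_le (cn (St (LL k)) (0, 0) (LL k, t)) ≤ ENNReal.ofReal (2 * (1 / 2 ^ 125) ^ (LL k)) := by
  have hN : ∀ k : ℕ, 0 < (fun _ : ℕ => 1) k := fun _ => one_pos
  have hv : Valid (ext0 (hd k + sL k) []) := ext0_valid _ trivial
  have hx : (ext0 (hd k + sL k) []).length = hd k + sL k := by rw [ext0_len]; rfl
  rw [cn_symm]
  refine (St_lower hN hv 0 pp pp_le _ _).trans ?_
  refine (measure_mono (cn_mono (reg_pth_le_PM hx) _ _)).trans ?_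
  refine (PM_bound0 _ _ _ ?_).trans (ENNReal.ofReal_le_ofReal ?_)
  · simp only [emb, ext0_len]; omega
  · simp only [emb, ext0_len]
    have h1 : (LL k + (hd k + sL k + ([] : List ℕ).length) - (0 + (hd k + sL k + ([] : List ℕ).length))) = LL k := by
      omega
    rw [h1]
    have h2 : (1 / 2 ^ 124 : ℝ) ^ (0 + t - (0 + 0)).natAbs ≤ 1 :=
      pow_le_one₀ (by norm_num) (by norm_num)
    have h3 : (0 : ℝ) < (1 / 2 ^ 125 : ℝ) ^ (LL k) := by positivity
    nlinarith

end Pool.Agent.Helper713.Fib
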