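import Mathlib
import Pool.Agent.Helper713.FibE

set_option autoImplicit false
set_option linter.deprecated false

open MeasureTheory ProbabilityTheory

namespace Pool.Agent.Helper713.Fib

theorem tsum_geo_int (i : ℤ) : ∑' t : ℤ, ENNReal.ofReal ((1 / 4 : ℝ) ^ (t - i).natAbs) ≤ 2 := by
  have h0 : ∑' t : ℤ, ENNReal.ofReal ((1 / 4 : ℝ) ^ (t - i).natAbs) =
      ∑' t : ℤ, ENNReal.ofReal ((1 / 4 : ℝ) ^ t.natAbs) :=
    (Equiv.subRight i).tsum_eq (fun t : ℤ => ENNReal.ofReal ((1 / 4 : ℝ) ^ t.natAbs))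
  rw [h0, tsum_of_nat_of_neg_add_one ENNReal.summable ENNReal.summable]
  have h1 : ∀ n : ℕ, ENNReal.ofReal ((1 / 4 : ℝ) ^ ((n : ℤ)).natAbs) = (1 / 4 : ENNReal) ^ n := by
    intro n
    rw [Int.natAbs_natCast, ENNReal.ofReal_pow (by norm_num)]
    congr 1
    rw [ENNReal.ofReal_div_of_pos (by norm_num)]
    simp
  have h2 : ∀ n : ℕ, ENNReal.ofReal ((1 / 4 : ℝ) ^ ((-((n : ℤ) + 1))).natAbs) =
      (1 / 4 : ENNReal) ^ (n + 1) := by
    intro n
    have : (-((n : ℤ) + 1)).natAbs = n + 1 := by omega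
    rw [this, ENNReal.ofReal_pow (by norm_num)]
    congr 1
    rw [ENNReal.ofReal_div_of_pos (by norm_num)]
    simp
  rw [tsum_congr h1, tsum_congr h2]
  have h3 : ∀ n : ℕ, (1 / 4 : ENNReal) ^ (n + 1) = (1 / 4) * (1 / 4) ^ n := by
    intro n; rw [pow_succ]; ring
  rw [tsum_congr h3, ENNReal.tsum_mul_left, ENNReal.tsum_geometric]
  have h6 : (1 / 4 : ENNReal) = ENNReal.ofReal (1 / 4) := by
    rw [ENNReal.ofReal_div_of_pos (by norm_num)]
    simp
  have h5 : (1 - 1 / 4 : ENNReal)⁻¹ = ENNReal.ofReal (4 / 3) := by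
    have h7 : (1 - 1 / 4 : ENNReal) = ENNReal.ofReal (3 / 4) := by
      have h8 : (1 : ENNReal) = ENNReal.ofReal 1 := by simp
      rw [h6, h8, ← ENNReal.ofReal_sub _ (by norm_num)]
      norm_num
    rw [h7, ← ENNReal.ofReal_inv_of_pos (by norm_num)]
    norm_num
  rw [h5, h6, ← ENNReal.ofReal_mul (by norm_num), ← ENNReal.ofReal_add (by norm_num) (by norm_num)]
  rw [show (2 : ENNReal) = ENNReal.ofReal 2 by simp]
  apply ENNReal.ofReal_le_ofReal
  norm_num

/-- crossing probability -/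
noncomputable def fS (k : ℕ) (t : ℤ) : ENNReal := mu _ pp pp_le (cn (St (LL k)) (0, 0) (LL k, t))

/-- crossing probability in the slab -/
noncomputable def gS (k : ℕ) (t : ℤ) : ENNReal :=
  mu _ pp pp_le (cn (StD (LL k) (2 * LL k)) (0, 0) (LL k, t))

theorem tt_exists (k : ℕ) : ∃ t : ℤ, t.natAbs ≤ 2 * LL k ∧ ∀ t' : ℤ, t'.natAbs ≤ 2 * LL k →
    gS k t' ≤ gS k t := by
  obtain ⟨t, ht, h⟩ := Finset.exists_max_image
    (Finset.Icc (-((2 * LL k : ℕ) : ℤ)) ((2 * LL k : ℕ) : ℤ)) (gS k) ⟨0, by simp⟩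
  rw [Finset.mem_Icc] at ht
  refine ⟨t, by omega, fun t' ht' => h t' ?_⟩
  rw [Finset.mem_Icc]
  omega

/-- best height shift -/
noncomputable def tt (k : ℕ) : ℤ := Classical.choose (tt_exists k)

theorem tt_abs (k : ℕ) : (tt k).natAbs ≤ 2 * LL k := (Classical.choose_spec (tt_exists k)).1

theorem tt_max (k : ℕ) (t : ℤ) (h : t.natAbs ≤ 2 * LL k) : gS k t ≤ gS k (tt k) :=
  (Classical.choose_spec (tt_exists k)).2 t h

/-- crossing probability at the best shift -/
noncomputable def ee (k : ℕ) : ℝ := (gS k (tt k)).toReal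

theorem gS_top (k : ℕ) (t : ℤ) : gS k t ≠ ⊤ := measure_ne_top _ _

theorem gS_tt (k : ℕ) : gS k (tt k) = ENNReal.ofReal (ee k) :=
  (ENNReal.ofReal_toReal (gS_top _ _)).symm

/-- crossing a straight piece -/
theorem straight {L D : ℕ} (m r : ℕ) (t : ℤ) (h : m + r ≤ L) (ht : t.natAbs ≤ D)
    (ω : Sym2 (ℕ × ℤ) → Bool) (hω : ∀ j < r, ω s((m + j, t), (m + j + 1, t)) = true) :
    (openGraph (StD L D) ω).Reachable (m, t) (m + r, t) := by
  induction r with
  | zero => exact SimpleGraph.Reachable.refl _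
  | succ r ih =>
    refine (ih (by omega) (fun j hj => hω j (by omega))).trans ?_
    apply SimpleGraph.Adj.reachable
    rw [openGraph_adj, StD_adj, St_adj]
    refine ⟨⟨⟨by simp only; omega, by simp only; omega, Or.inl ⟨rfl, Or.inl rfl⟩⟩, ht, ht⟩, ?_⟩
    exact hω r (by omega)

/-- horizontal edges of the strip at height `t` -/
def hz (m r : ℕ) (t : ℤ) : Finset (Sym2 (ℕ × ℤ)) :=
  (Finset.range r).image (fun j => s((m + j, t), (m + j + 1, t)))

theorem hz_prob (m r : ℕ) (t : ℤ) :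
    ENNReal.ofReal ((1 / 2 ^ 127) ^ r) ≤
      mu _ pp pp_le {ω | ∀ e ∈ hz m r t, ω e = true} := by
  classical
  rw [mu_allopen]
  have h1 : (hz m r t).card ≤ r := by
    refine Finset.card_image_le.trans ?_
    simp
  have h2 : (pp : ENNReal) = ENNReal.ofReal (1 / 2 ^ 127) := by
    rw [ENNReal.ofReal, ENNReal.coe_inj]
    ext
    simp [pp]
  rw [h2, ← ENNReal.ofReal_pow (by positivity)]
  apply ENNReal.ofReal_le_ofReal
  exact pow_le_pow_of_le_one (by norm_num) (by norm_num) h1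

theorem ee_lower (k : ℕ) : (1 / 2 ^ 127 : ℝ) ^ (LL k) ≤ ee k := by
  have h1 : ENNReal.ofReal ((1 / 2 ^ 127) ^ (LL k)) ≤ gS k 0 := by
    refine (hz_prob 0 (LL k) 0).trans (measure_mono ?_)
    intro ω hω
    have := straight (L := LL k) (D := 2 * LL k) 0 (LL k) 0 (by omega) (by simp) ω (by
      intro j hj
      apply hω
      unfold hz
      rw [Finset.mem_image]
      exact ⟨j, Finset.mem_range.2 hj, rfl⟩)
    rw [zero_add] at this
    exact this
  have h2 := h1.trans (tt_max k 0 (by simp))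
  unfold ee
  exact (ENNReal.ofReal_le_iff_le_toReal (gS_top _ _)).1 h2

theorem ee_upper (k : ℕ) : ee k ≤ 2 * (1 / 2 ^ 125) ^ (LL k) := by
  unfold ee
  apply ENNReal.toReal_le_of_le_ofReal (by positivity)
  exact (measure_mono (cn_mono (StD_le _ _) _ _)).trans (St_cross_bound k _)

theorem ee_pos (k : ℕ) : 0 < ee k := lt_of_lt_of_le (by positivity) (ee_lower k)

theorem ee_le_one (k : ℕ) : ee k ≤ 1 := by
  unfold ee
  apply ENNReal.toReal_le_of_le_ofReal (by positivity)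
  rw [ENNReal.ofReal_one]
  exact prob_le_one

theorem LL_mono (k : ℕ) : LL k ≤ LL (k + 1) := Nat.pow_le_pow_left (by omega) 2

theorem ee_ratio (k : ℕ) : ee k * (1 / 2 ^ 127) ^ (LL (k + 1) - LL k) ≤ ee (k + 1) := by
  classical
  have hL := LL_mono k
  have h1 : gS k (tt k) * ENNReal.ofReal ((1 / 2 ^ 127) ^ (LL (k + 1) - LL k)) ≤
      gS (k + 1) (tt k) := by
    calc gS k (tt k) * ENNReal.ofReal ((1 / 2 ^ 127) ^ (LL (k + 1) - LL k)) ≤
        gS k (tt k) * mu _ pp pp_le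
          {ω | ∀ e ∈ hz (LL k) (LL (k + 1) - LL k) (tt k), ω e = true} := by
          gcongr
          exact hz_prob _ _ _
      _ = mu _ pp pp_le (cn (StD (LL k) (2 * LL k)) (0, 0) (LL k, tt k) ∩
          {ω | ∀ e ∈ hz (LL k) (LL (k + 1) - LL k) (tt k), ω e = true}) := by
          unfold gS
          rw [mu_inter pp pp_le (I := (StD (LL k) (2 * LL k)).edgeSet)
            (J := (hz (LL k) (LL (k + 1) - LL k) (tt k) : Set (Sym2 (ℕ × ℤ)))) ?_
            (cn_meas _ _ _) (allopen_meas _)]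
          rw [Set.disjoint_left]
          intro e he he'
          unfold hz at he'
          rw [Finset.mem_coe, Finset.mem_image] at he'
          obtain ⟨j, _, rfl⟩ := he'
          rw [SimpleGraph.mem_edgeSet, StD_adj, St_adj] at he
          simp only at he
          omega
      _ ≤ gS (k + 1) (tt k) := by
          refine measure_mono ?_
          rintro ω ⟨h2, h3⟩
          have h4 : (openGraph (StD (LL (k + 1)) (2 * LL (k + 1))) ω).Reachable (0, 0) (LL k, tt k) :=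
            cn_mono (StD_mono hL (by omega)) _ _ h2
          refine h4.trans ?_
          have := straight (L := LL (k + 1)) (D := 2 * LL (k + 1)) (LL k) (LL (k + 1) - LL k)
            (tt k) (by omega) (by have := tt_abs k; omega) ω (by
            intro j hj
            apply h3
            unfold hz
            rw [Finset.mem_image]
            exact ⟨j, Finset.mem_range.2 hj, rfl⟩)
          rw [show LL k + (LL (k + 1) - LL k) = LL (k + 1) by omega] at this
          exact this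
  have h2 := h1.trans (tt_max (k + 1) (tt k) (by have := tt_abs k; omega))
  rw [gS_tt, gS_tt, ← ENNReal.ofReal_mul (ee_pos k).le] at h2
  exact (ENNReal.ofReal_le_ofReal_iff (ee_pos (k + 1)).le).1 h2

theorem leave_slab (L D : ℕ) (t : ℤ) :
    cn (St L) (0, 0) (L, t) ⊆ cn (StD L D) (0, 0) (L, t) ∪
      ⋃ m ∈ Finset.range (L + 1), (cn (St L) (0, 0) (m, ((D + 1 : ℕ) : ℤ)) ∪
        cn (St L) (0, 0) (m, -((D + 1 : ℕ) : ℤ))) := by
  intro ω hω
  by_contra hcon
  rw [Set.mem_union, not_or] at hcon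
  obtain ⟨h1, h2⟩ := hcon
  simp only [Set.mem_iUnion, not_exists, Set.mem_union, not_or, Finset.mem_range] at h2
  apply h1
  have hr : (openGraph (St L) ω).Reachable (0, 0) (L, t) := hω
  have key : ((L, t) : ℕ × ℤ) ∈ {u : ℕ × ℤ | u.1 ≤ L ∧ u.2.natAbs ≤ D ∧
      (openGraph (StD L D) ω).Reachable (0, 0) u} := by
    refine reach_closed hr _ ⟨Nat.zero_le _, by simp, SimpleGraph.Reachable.refl _⟩ ?_
    rintro u v ⟨hu1, hu2, hu3⟩ huv
    rw [openGraph_adj] at huv
    have hadj := huv.1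
    have hv1 : v.1 ≤ L := hadj.2.1
    have hvr : (openGraph (St L) ω).Reachable (0, 0) v := by
      refine (cn_mono (StD_le L D) _ _ hu3 : (openGraph (St L) ω).Reachable (0, 0) u).trans ?_
      apply SimpleGraph.Adj.reachable
      rw [openGraph_adj]
      exact huv
    have hv2 : v.2.natAbs ≤ D := by
      by_contra hlt
      have h3 := h2 v.1 (by omega)
      rw [St_adj] at hadj
      have h4 : v.2 = ((D + 1 : ℕ) : ℤ) ∨ v.2 = -((D + 1 : ℕ) : ℤ) := by omega
      rcases h4 with h4 | h4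
      · apply h3.1; rw [← h4]; exact hvr
      · apply h3.2; rw [← h4]; exact hvr
    refine ⟨hv1, hv2, hu3.trans ?_⟩
    apply SimpleGraph.Adj.reachable
    rw [openGraph_adj, StD_adj]
    exact ⟨⟨hadj, hu2, hv2⟩, huv.2⟩
  exact key.2.2

theorem fS_near (k : ℕ) (t : ℤ) (h : t.natAbs ≤ 2 * LL k) :
    fS k t ≤ ENNReal.ofReal (ee k + 4 * (LL k + 1) * (1 / 2 ^ 124) ^ (2 * LL k + 1)) := by
  unfold fS
  refine (measure_mono (leave_slab (LL k) (2 * LL k) t)).trans ?_
  refine (measure_union_le _ _).trans ?_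
  have h1 : gS k t ≤ ENNReal.ofReal (ee k) := (tt_max k t h).trans (gS_tt k).le
  have h2 : mu _ pp pp_le (⋃ m ∈ Finset.range (LL k + 1),
      (cn (St (LL k)) (0, 0) (m, ((2 * LL k + 1 : ℕ) : ℤ)) ∪
        cn (St (LL k)) (0, 0) (m, -((2 * LL k + 1 : ℕ) : ℤ)))) ≤
      ENNReal.ofReal (4 * (LL k + 1) * (1 / 2 ^ 124) ^ (2 * LL k + 1)) := by
    refine (measure_biUnion_finset_le _ _).trans ?_
    have h3 : ∀ m ∈ Finset.range (LL k + 1), mu _ pp pp_le
        (cn (St (LL k)) (0, 0) (m, ((2 * LL k + 1 : ℕ) : ℤ)) ∪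
        cn (St (LL k)) (0, 0) (m, -((2 * LL k + 1 : ℕ) : ℤ))) ≤
        ENNReal.ofReal (4 * (1 / 2 ^ 124) ^ (2 * LL k + 1)) := by
      intro m _
      refine (measure_union_le _ _).trans ?_
      have h4 := St_bound k (0, 0) (m, ((2 * LL k + 1 : ℕ) : ℤ))
      have h5 := St_bound k (0, 0) (m, -((2 * LL k + 1 : ℕ) : ℤ))
      have e1 : ((0 : ℤ) - ((2 * LL k + 1 : ℕ) : ℤ)).natAbs = 2 * LL k + 1 := by omega
      have e2 : ((0 : ℤ) - -((2 * LL k + 1 : ℕ) : ℤ)).natAbs = 2 * LL k + 1 := by omega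
      simp only [e1] at h4
      simp only [e2] at h5
      refine (add_le_add h4 h5).trans ?_
      rw [← ENNReal.ofReal_add (by positivity) (by positivity)]
      apply ENNReal.ofReal_le_ofReal
      linarith
    refine (Finset.sum_le_sum h3).trans ?_
    rw [Finset.sum_const, Finset.card_range, nsmul_eq_mul, ← ENNReal.ofReal_natCast,
      ← ENNReal.ofReal_mul (by positivity)]
    apply ENNReal.ofReal_le_ofReal
    push_cast
    linarith
  refine (add_le_add h1 h2).trans ?_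
  rw [← ENNReal.ofReal_add (ee_pos k).le (by positivity)]

theorem fS_far (k : ℕ) (t : ℤ) (h : 2 * LL k < t.natAbs) :
    fS k t ≤ ENNReal.ofReal (2 * (1 / 2 ^ 122) ^ (2 * LL k)) *
      ENNReal.ofReal ((1 / 4) ^ t.natAbs) := by
  unfold fS
  refine (St_bound k _ _).trans ?_
  have e1 : ((0 : ℤ) - t).natAbs = t.natAbs := by omega
  simp only [e1]
  rw [← ENNReal.ofReal_mul (by positivity)]
  apply ENNReal.ofReal_le_ofReal
  have h1 : (1 / 2 ^ 124 : ℝ) = (1 / 2 ^ 122) * (1 / 4) := by norm_num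
  have h2 : (1 / 2 ^ 124 : ℝ) ^ t.natAbs = (1 / 2 ^ 122) ^ t.natAbs * (1 / 4) ^ t.natAbs := by
    rw [h1, mul_pow]
  rw [h2]
  have h3 : (1 / 2 ^ 122 : ℝ) ^ t.natAbs ≤ (1 / 2 ^ 122) ^ (2 * LL k) :=
    pow_le_pow_of_le_one (by norm_num) (by norm_num) h.le
  have h4 : (0 : ℝ) < (1 / 4 : ℝ) ^ t.natAbs := by positivity
  nlinarith

theorem MM_bound (k : ℕ) : ∑' t : ℤ, fS k t ≤ ENNReal.ofReal ((4 * LL k + 2) * ee k) := by
  classical
  set a : ENNReal := ENNReal.ofReal (ee k + 4 * (LL k + 1) * (1 / 2 ^ 124) ^ (2 * LL k + 1)) with ha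
  set b : ENNReal := ENNReal.ofReal (2 * (1 / 2 ^ 122) ^ (2 * LL k)) with hb
  set I : Finset ℤ := Finset.Icc (-((2 * LL k : ℕ) : ℤ)) ((2 * LL k : ℕ) : ℤ) with hI
  have h1 : ∀ t : ℤ, fS k t ≤ (if t ∈ I then a else 0) + b * ENNReal.ofReal ((1 / 4) ^ t.natAbs) := by
    intro t
    by_cases h : t.natAbs ≤ 2 * LL k
    · have hm : t ∈ I := by rw [hI, Finset.mem_Icc]; omega
      rw [if_pos hm]
      exact (fS_near k t h).trans le_self_add
    · have hm : t ∉ I := by rw [hI, Finset.mem_Icc]; omega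
      rw [if_neg hm, zero_add]
      exact fS_far k t (by omega)
  have hg := tsum_geo_int 0
  simp only [sub_zero] at hg
  calc ∑' t : ℤ, fS k t ≤ ∑' t : ℤ, ((if t ∈ I then a else 0) +
        b * ENNReal.ofReal ((1 / 4) ^ t.natAbs)) := ENNReal.tsum_le_tsum h1
    _ = I.card * a + b * ∑' t : ℤ, ENNReal.ofReal ((1 / 4) ^ t.natAbs) := by
        rw [ENNReal.tsum_add, ENNReal.tsum_mul_left]
        congr 1
        rw [tsum_eq_sum (s := I) (fun t ht => if_neg ht)]
        rw [Finset.sum_congr rfl (fun t ht => if_pos ht), Finset.sum_const, nsmul_eq_mul]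
    _ ≤ I.card * a + b * 2 := by gcongr
    _ ≤ ENNReal.ofReal ((4 * LL k + 2) * ee k) := by
        have hc : I.card = 4 * LL k + 1 := by
          rw [hI, Int.card_Icc]; omega
        rw [hc, ha, hb, show (2 : ENNReal) = ENNReal.ofReal 2 by simp, ← ENNReal.ofReal_natCast,
          ← ENNReal.ofReal_mul (by positivity), ← ENNReal.ofReal_mul (by positivity),
          ← ENNReal.ofReal_add (by have := ee_pos k; positivity) (by positivity)]
        apply ENNReal.ofReal_le_ofReal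
        push_cast
        have he := ee_lower k
        set L := LL k with hL
        have hL100 : 100 ≤ L := LL_ge k
        -- (4L+1)*4*(L+1)*2^{-124(2L+1)} + 4*2^{-244 L} ≤ 2^{-127 L}
        have hl : (L : ℝ) + 1 ≤ 2 ^ L := by
          have := Nat.lt_two_pow_self (n := L)
          exact_mod_cast this
        have h5 : (4 * (L : ℝ) + 1) * (4 * (L + 1) * (1 / 2 ^ 124) ^ (2 * L + 1)) +
            2 * (1 / 2 ^ 122) ^ (2 * L) * 2 ≤ (1 / 2 ^ 127) ^ L := by
          have e1 : (1 / 2 ^ 124 : ℝ) ^ (2 * L + 1) = (1 / 2 ^ 248) ^ L * (1 / 2 ^ 124) := by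
            rw [pow_succ, pow_mul]
            norm_num
          have e2 : (1 / 2 ^ 122 : ℝ) ^ (2 * L) = (1 / 2 ^ 127) ^ L * (1 / 2 ^ 117) ^ L := by
            rw [pow_mul, ← mul_pow]
            norm_num
          have e3 : (1 / 2 ^ 248 : ℝ) ^ L = (1 / 2 ^ 127) ^ L * (1 / 2 ^ 119) ^ L * (1 / 2) ^ L *
              (1 / 2) ^ L := by
            rw [← mul_pow, ← mul_pow, ← mul_pow]
            norm_num
          have e4 : (1 / 2 : ℝ) ^ L * 2 ^ L = 1 := by rw [← mul_pow]; norm_num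
          have e5 : (1 / 2 ^ 119 : ℝ) ^ L ≤ 1 / 2 ^ 119 := by
            calc (1 / 2 ^ 119 : ℝ) ^ L ≤ (1 / 2 ^ 119) ^ 1 :=
                  pow_le_pow_of_le_one (by norm_num) (by norm_num) (by omega)
              _ = _ := by norm_num
          have e6 : (1 / 2 ^ 117 : ℝ) ^ L ≤ 1 / 2 ^ 117 := by
            calc (1 / 2 ^ 117 : ℝ) ^ L ≤ (1 / 2 ^ 117) ^ 1 :=
                  pow_le_pow_of_le_one (by norm_num) (by norm_num) (by omega)
              _ = _ := by norm_num
          have p1 : (0 : ℝ) < (1 / 2 ^ 127) ^ L := by positivity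
          have p2 : (0 : ℝ) < (1 / 2) ^ L := by positivity
          have p3 : (0 : ℝ) < (1 / 2 ^ 119) ^ L := by positivity
          have f1 : (4 * (L : ℝ) + 1) * (4 * (L + 1)) ≤ 16 * (2 ^ L * 2 ^ L) := by nlinarith
          have f2 : (4 * (L : ℝ) + 1) * (4 * (L + 1)) * ((1 / 2) ^ L * (1 / 2) ^ L) ≤ 16 := by
            calc _ ≤ (16 * (2 ^ L * 2 ^ L) : ℝ) * ((1 / 2) ^ L * (1 / 2) ^ L) := by gcongr
              _ = (16 : ℝ) * (((1 / 2) ^ L * 2 ^ L) * ((1 / 2) ^ L * 2 ^ L)) := by ring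
              _ = 16 := by rw [e4]; norm_num
          rw [e1, e2, e3]
          calc _ = (1 / 2 ^ 127) ^ L * (((4 * (L : ℝ) + 1) * (4 * (L + 1)) *
                ((1 / 2) ^ L * (1 / 2) ^ L)) * (1 / 2 ^ 119) ^ L * (1 / 2 ^ 124) +
                4 * (1 / 2 ^ 117) ^ L) := by ring
            _ ≤ (1 / 2 ^ 127) ^ L * (16 * (1 / 2 ^ 119) * (1 / 2 ^ 124) +
                4 * (1 / 2 ^ 117)) := by gcongr
            _ ≤ (1 / 2 ^ 127) ^ L * 1 := by
                gcongr
                norm_num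
            _ = _ := by ring
        nlinarith
  
end Pool.Agent.Helper713.Fib
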