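import Mathlib
import Pool.Agent.Helper713.FibF

set_option autoImplicit false
set_option linter.deprecated false

open MeasureTheory ProbabilityTheory

namespace Pool.Agent.Helper713.Fib

/-- interior of the cell below the hub `w` of level `k` -/
def Q (k : ℕ) (w v : List ℕ) : Prop := w <:+ v ∧ hd k < v.length ∧ v.length < hd (k + 1)

/-- the word of the parent hub, `j` is the level of the parent -/
def up (j : ℕ) (w : List ℕ) : List ℕ := w.drop (sL j + LL j)

theorem up_suffix (j : ℕ) (w : List ℕ) : up j w <:+ w := List.drop_suffix _ _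

theorem up_len {j : ℕ} {w : List ℕ} (h : w.length = hd (j + 1)) : (up j w).length = hd j := by
  unfold up
  rw [List.length_drop, h, hd_succ]; omega

/-- region of the hub `w` of level `k` -/
def Ir (k : ℕ) (w v : List ℕ) : Prop := v = w ∨ Q k w v ∨ ∃ j, k = j + 1 ∧ Q j (up j w) v

theorem Q_not_hub {k : ℕ} {w v : List ℕ} (h : Q k w v) : v.length ∉ Set.range hd :=
  not_hub h.2.1 h.2.2

theorem suffix_eq {u v : List ℕ} (h : u <:+ v) (h2 : v.length ≤ u.length) : u = v :=
  h.eq_of_length_le h2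

theorem suffix_of_cons {a : ℕ} {u v : List ℕ} (h : u <:+ a :: v) (h2 : u.length ≤ v.length) :
    u <:+ v := by
  rcases List.suffix_cons_iff.1 h with h1 | h1
  · rw [h1] at h2; simp at h2
  · exact h1

theorem gap (k : ℕ) : hd k + 150 ≤ hd (k + 1) := by
  rw [hd_succ]; have := sL_pos k; have := LL_ge k; omega

/-- two hub depths never differ by one -/
theorem hub_gap {i j : ℕ} : hd i + 1 ≠ hd j := by
  intro h
  have h1 : hd i < hd j := by omega
  have h2 := hd_mono.lt_iff_lt.1 h1
  have h3 : hd (i + 1) ≤ hd j := hd_mono.monotone h2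
  have := gap i
  omega

/-- neighbours of the interior of a cell -/
theorem Q_nb {k : ℕ} {w v z : List ℕ} (hw : w.length = hd k) (h : Q k w v)
    (h2 : pc v z ∨ pc z v) : w <:+ z ∧ (z = w ∨ Q k w z ∨ z.length = hd (k + 1)) := by
  obtain ⟨h3, h4, h5⟩ := h
  rcases h2 with ⟨a, rfl⟩ | ⟨a, rfl⟩
  · refine ⟨h3.trans (List.suffix_cons _ _), ?_⟩
    simp only [Q, List.length_cons]
    by_cases h6 : v.length + 1 = hd (k + 1)
    · exact Or.inr (Or.inr h6)
    · exact Or.inr (Or.inl ⟨h3.trans (List.suffix_cons _ _), by omega, by omega⟩)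
  · simp only [List.length_cons] at h4 h5
    have h6 : w <:+ z := suffix_of_cons h3 (by omega)
    refine ⟨h6, ?_⟩
    by_cases h7 : z.length = hd k
    · left
      exact (suffix_eq h6 (by omega)).symm
    · right; left
      exact ⟨h6, by omega, by omega⟩

theorem hub_nb {k : ℕ} {w z : List ℕ} (hw : w.length = hd k) (h2 : pc w z ∨ pc z w) : Ir k w z := by
  rcases h2 with ⟨a, rfl⟩ | ⟨a, rfl⟩
  · right; left
    refine ⟨List.suffix_cons _ _, ?_, ?_⟩ <;> simp only [List.length_cons]
    · omega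
    · have := gap k; omega
  · right; right
    simp only [List.length_cons] at hw
    cases k with
    | zero => simp [hd] at hw
    | succ j =>
      refine ⟨j, rfl, ?_, ?_, ?_⟩
      · refine suffix_of_cons (up_suffix j (a :: z)) ?_
        rw [up_len (by simp only [List.length_cons]; exact hw)]
        have := gap j; omega
      · have := gap j; omega
      · omega

/-- exits from the region of a hub -/
theorem Ir_exit {k : ℕ} {w z t : List ℕ} (hw : w.length = hd k) (hz : ¬ Ir k w z) (ht : Ir k w t)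
    (h : pc t z ∨ pc z t) :
    (z.length = hd (k + 1) ∧ w <:+ z) ∨ (∃ j, k = j + 1 ∧
      (z = up j w ∨ (z.length = hd k ∧ up j w <:+ z ∧ z ≠ w))) := by
  rcases ht with ht | ht | ⟨j, hj, ht⟩
  · subst ht
    exact absurd (hub_nb hw h) hz
  · obtain ⟨h1, h2⟩ := Q_nb hw ht h
    rcases h2 with h2 | h2 | h2
    · exact absurd (Or.inl h2) hz
    · exact absurd (Or.inr (Or.inl h2)) hz
    · exact Or.inl ⟨h2, h1⟩
  · subst hj
    obtain ⟨h1, h2⟩ := Q_nb (up_len hw) ht h
    right
    refine ⟨j, rfl, ?_⟩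
    rcases h2 with h2 | h2 | h2
    · exact Or.inl h2
    · exact absurd (Or.inr (Or.inr ⟨j, rfl, h2⟩)) hz
    · refine Or.inr ⟨h2, h1, ?_⟩
      rintro rfl
      exact hz (Or.inl rfl)

/-- a boundary hub of the cell `(j, q)` -/
def Bd (j : ℕ) (q v : List ℕ) : Prop := v = q ∨ (v.length = hd (j + 1) ∧ q <:+ v)

theorem Bd_hub {j : ℕ} {q v : List ℕ} (hq : q.length = hd j) (h : Bd j q v) :
    v.length = hd j ∨ v.length = hd (j + 1) := by
  rcases h with rfl | h
  · exact Or.inl hq
  · exact Or.inr h.1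

/-- the cell `(j, q)` is one of the cells at the hub `w` of level `l` -/
def Adjc (l : ℕ) (w : List ℕ) (j : ℕ) (q : List ℕ) : Prop :=
  (l = j ∧ w = q) ∨ (l = j + 1 ∧ up j w = q)

theorem Adjc_sub {l j : ℕ} {w q : List ℕ} (h : Adjc l w j q) {v : List ℕ} (hv : Q j q v) :
    Ir l w v := by
  rcases h with ⟨rfl, rfl⟩ | ⟨rfl, rfl⟩
  · exact Or.inr (Or.inl hv)
  · exact Or.inr (Or.inr ⟨j, rfl, hv⟩)

/-- core uniqueness statement -/
theorem core {l j : ℕ} {w q v t : List ℕ} (hw : w.length = hd l) (hq : q.length = hd j)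
    (hA : Adjc l w j q) (hv : Bd j q v) (hvt : pc v t ∨ pc t v ∨ v = t)
    (hI : Ir l w v ∨ Ir l w t) (hnt : ¬ Q j q t) : v = w := by
  by_contra hne
  have hvh : v.length ∈ Set.range hd := by
    rcases Bd_hub hq hv with h | h <;> rw [h] <;> exact ⟨_, rfl⟩
  have hnI : ¬ Ir l w v := by
    rintro (h | h | ⟨j', _, h⟩)
    · exact hne h
    · exact Q_not_hub h hvh
    · exact Q_not_hub h hvh
  have hIt : Ir l w t := hI.resolve_left hnI
  have hvt' : pc v t ∨ pc t v := by
    rcases hvt with h | h | h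
    · exact Or.inl h
    · exact Or.inr h
    · exact absurd (h ▸ hIt) hnI
  have hlen : t.length = v.length + 1 ∨ v.length = t.length + 1 := by
    rcases hvt' with ⟨a, rfl⟩ | ⟨a, rfl⟩
    · left; simp
    · right; simp
  rcases hIt with h | h | ⟨j', hj', h⟩
  · subst h
    rcases hvh with ⟨m, hm⟩
    rcases hlen with h1 | h1
    · exact hub_gap (i := m) (j := l) (by omega)
    · exact hub_gap (i := l) (j := m) (by omega)
  · -- cell below w
    rcases hA with ⟨h1, h2⟩ | ⟨h1, h2⟩
    · subst h1 h2; exact hnt h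
    · subst h1
      obtain ⟨h3, h4, h5⟩ := h
      have h6 : v.length = hd (j + 1) := by
        rcases Bd_hub hq hv with h | h
        · have := gap j; omega
        · exact h
      rcases hvt' with ⟨a, rfl⟩ | ⟨a, rfl⟩
      · have h7 : w <:+ v := suffix_of_cons h3 (by omega)
        exact hne (suffix_eq h7 (by omega)).symm
      · simp only [List.length_cons] at h6
        omega
  · subst hj'
    rcases hA with ⟨h1, h2⟩ | ⟨h1, h2⟩
    · subst h1 h2
      obtain ⟨h3, h4, h5⟩ := h
      rcases hv with hv | ⟨hv, _⟩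
      · exact hne hv
      · have := gap (j' + 1); omega
    · obtain rfl : j' = j := by omega
      rw [h2] at h
      exact hnt h

/-- adjacency of words coming from adjacency in the product graph -/
theorem PG_words {N : ℕ → ℕ} {x y : WW} (h : (PG N).Adj x y) :
    (x.1.1 = y.1.1) ∨ (x.1.2 = 0 ∧ y.1.2 = 0 ∧ x.2 = y.2 ∧ (pc x.1.1 y.1.1 ∨ pc y.1.1 x.1.1)) := by
  rw [PG_adj] at h
  rcases h.2.2 with ⟨h1, h2⟩ | ⟨h1, h2⟩
  · rcases h2 with h2 | ⟨h2, h3, h4⟩
    · exact Or.inl h2.1
    · exact Or.inr ⟨h2, h3, h1, h4⟩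
  · exact Or.inl (by rw [h1])

/-- SL1: from another boundary hub, through the cell, to the column over the hub `w` -/
theorem SL1 {N : ℕ → ℕ} {l j : ℕ} {w q u : List ℕ} (hw : w.length = hd l) (hq : q.length = hd j)
    (hA : Adjc l w j q) (hu : Bd j q u) (huw : u ≠ w) (n m : ℤ) :
    mu _ pp pp_le (cn (reg N (Ir l w)) ((u, 0), n) ((w, 0), m)) ≤
      2 * ∑' i : ℤ, mu _ pp pp_le (cn (reg N (Q j q)) ((u, 0), n) ((w, 0), i)) *
        mu _ pp pp_le (cn (reg N (Ir l w)) ((w, 0), i) ((w, 0), m)) := by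
  have h := SL_idx (reg N (Ir l w)) (reg N (Q j q)) (reg_mono N (fun v hv => Adjc_sub hA hv))
    pp pp_le ((u, 0), n) ((w, 0), m) (fun i : ℤ => (((w, 0), i) : WW)) ?_
  · refine h.trans ?_
    rw [two_mul]
    gcongr
    refine le_trans ?_ (ENNReal.le_tsum m)
    have h1 : cn (reg N (Ir l w)) ((w, 0), m) ((w, 0), m) = Set.univ := by
      ext ω; simp [cn]
    rw [h1, measure_univ, mul_one]
  · rintro z t hzt hnzt hz
    rw [reg_adj] at hzt hnzt
    have hPz : ¬ Q j q z.1.1 := fun h => hnzt ⟨hzt.1, Or.inl h⟩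
    have hPt : ¬ Q j q t.1.1 := fun h => hnzt ⟨hzt.1, Or.inr h⟩
    have hbz : Bd j q z.1.1 ∧ z.1.2 = 0 := by
      rcases hz with hz | ⟨t', ht'⟩
      · subst hz; exact ⟨hu, rfl⟩
      · rw [reg_adj] at ht'
        have h2 : Q j q t'.1.1 := ht'.2.resolve_left hPz
        rcases PG_words ht'.1 with h3 | ⟨h3, h4, h5, h6⟩
        · exact absurd (h3 ▸ h2) hPz
        · obtain ⟨h7, h8⟩ := Q_nb hq h2 h6.symm
          refine ⟨?_, h3⟩
          rcases h8 with h8 | h8 | h8
          · exact Or.inl h8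
          · exact absurd h8 hPz
          · exact Or.inr ⟨h8, h7⟩
    have hvt : pc z.1.1 t.1.1 ∨ pc t.1.1 z.1.1 ∨ z.1.1 = t.1.1 := by
      rcases PG_words hzt.1 with h3 | ⟨_, _, _, h6⟩
      · exact Or.inr (Or.inr h3)
      · rcases h6 with h6 | h6
        · exact Or.inl h6
        · exact Or.inr (Or.inl h6)
    have hzw := core hw hq hA hbz.1 hvt hzt.2 hPt
    refine ⟨z.2, ?_⟩
    obtain ⟨⟨z1, z2⟩, z3⟩ := z
    simp only at *
    rw [hzw, hbz.2]

/-- SL2: from a child hub of a cell, through its path -/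
theorem SL2 {N : ℕ → ℕ} {j : ℕ} {q u v : List ℕ} (hq : q.length = hd j)
    (hu : u.length = hd (j + 1)) (hqu : q <:+ u) (hvu : Valid u) (hv : Bd j q v) (hvv : Valid v)
    (huv : v ≠ u) (n m : ℤ) :
    mu _ pp pp_le (cn (reg N (Q j q)) ((u, 0), n) ((v, 0), m)) ≤
      ∑' i : ℤ, mu _ pp pp_le (cn (reg N (Pth j (u.drop (LL j)))) ((u, 0), n)
        ((u.drop (LL j), 0), i)) *
        mu _ pp pp_le (cn (reg N (Q j q)) ((u.drop (LL j), 0), i) ((v, 0), m)) := by
  set x0 := u.drop (LL j) with hx0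
  have hx0l : x0.length = hd j + sL j := by
    rw [hx0, List.length_drop, hu, hd_succ]; omega
  have hx0s : x0 <:+ u := List.drop_suffix _ _
  have hqx : q <:+ x0 := by
    apply List.suffix_of_suffix_length_le hqu hx0s
    rw [hx0l, hq]; omega
  have hsub : ∀ v, Pth j x0 v → Q j q v := by
    rintro v ⟨h1, h2, h3⟩
    refine ⟨hqx.trans h1, by omega, ?_⟩
    rw [hd_succ]; omega
  -- the word below the path
  have hend : ∀ z t : List ℕ, x0 <:+ z → z.length = hd (j + 1) → pc t z → Pth j x0 t := by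
    rintro z t h1 h2 ⟨a, rfl⟩
    simp only [List.length_cons] at h2
    have := LL_ge j
    rw [hd_succ] at h2
    exact ⟨suffix_of_cons h1 (by omega), by omega, by omega⟩
  have h := SL_idx (reg N (Q j q)) (reg N (Pth j x0)) (reg_mono N hsub)
    pp pp_le ((u, 0), n) ((v, 0), m) (fun i : ℤ => (((x0, 0), i) : WW)) ?_
  · refine h.trans ?_
    have h0 : cn (reg N (Pth j x0)) ((u, 0), n) ((v, 0), m) = ∅ := by
      rw [Set.eq_empty_iff_forall_notMem]
      intro ω hω
      have hr : (openGraph (reg N (Pth j x0)) ω).Reachable ((u, 0), n) ((v, 0), m) := hω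
      have : (((v, 0), m) : WW) ∈ {z : WW | x0 <:+ z.1.1 ∧ x0.length ≤ z.1.1.length ∧
          z.1.1.length ≤ hd (j + 1)} := by
        refine reach_closed hr _ ⟨hx0s, hx0s.length_le, hu.le⟩ ?_
        rintro a b ⟨ha1, ha2, ha3⟩ hab
        rw [openGraph_adj, reg_adj] at hab
        obtain ⟨⟨hab1, hab2⟩, _⟩ := hab
        rcases PG_words hab1 with h3 | ⟨h3, h4, h5, h6⟩
        · rw [h3] at ha1 ha2 ha3; exact ⟨ha1, ha2, ha3⟩
        · rcases hab2 with h7 | h7
          · exact pth_nb hx0l h7 h6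
          · refine ⟨h7.1, h7.2.1.le, ?_⟩
            rw [hd_succ]; have := h7.2.2; omega
      obtain ⟨h1, h2, h3⟩ := this
      simp only at h1 h2 h3
      rcases hv with hv | ⟨hv1, hv2⟩
      · rw [hv, hx0l, hq] at h2; have := sL_pos j; omega
      · apply huv
        rw [path_word hx0l hvv h1 h3, path_word hx0l hvu hx0s hu.le, hv1, hu]
    rw [h0, measure_empty, zero_add]
  · rintro z t hzt hnzt hz
    rw [reg_adj] at hzt hnzt
    have hPz : ¬ Pth j x0 z.1.1 := fun h => hnzt ⟨hzt.1, Or.inl h⟩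
    have hPt : ¬ Pth j x0 t.1.1 := fun h => hnzt ⟨hzt.1, Or.inr h⟩
    -- hubs at the end are impossible
    have hno : ¬ (x0 <:+ z.1.1 ∧ z.1.1.length = hd (j + 1)) := by
      rintro ⟨h1, h2⟩
      have h3 : ¬ Q j q z.1.1 := fun h => absurd h.2.2 (by omega)
      have h4 : Q j q t.1.1 := hzt.2.resolve_left h3
      rcases PG_words hzt.1 with h5 | ⟨_, _, _, h6⟩
      · exact h3 (h5 ▸ h4)
      · rcases h6 with ⟨a, h6⟩ | h6
        · have := h4.2.2
          rw [h6] at this
          simp only [List.length_cons] at this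
          omega
        · exact hPt (hend _ _ h1 h2 h6)
    have hz0 : z.1.1 = x0 ∧ z.1.2 = 0 := by
      rcases hz with hz | ⟨t', ht'⟩
      · exfalso
        subst hz
        exact hno ⟨hx0s, hu⟩
      · rw [reg_adj] at ht'
        have h2 : Pth j x0 t'.1.1 := ht'.2.resolve_left hPz
        rcases PG_words ht'.1 with h3 | ⟨h3, h4, h5, h6⟩
        · exact absurd (h3 ▸ h2) hPz
        · obtain ⟨h7, h8, h9⟩ := pth_nb hx0l h2 h6.symm
          refine ⟨?_, h3⟩
          by_contra hne
          apply hPz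
          refine ⟨h7, ?_, ?_⟩
          · rcases Nat.lt_or_ge x0.length z.1.1.length with h10 | h10
            · exact h10
            · exact absurd (suffix_eq h7 h10).symm hne
          · rcases Nat.lt_or_ge z.1.1.length (x0.length + LL j) with h10 | h10
            · exact h10
            · exfalso
              apply hno
              refine ⟨h7, ?_⟩
              rw [hd_succ] at h9 ⊢
              omega
    refine ⟨z.2, ?_⟩
    obtain ⟨⟨z1, z2⟩, z3⟩ := z
    simp only at *
    rw [hz0.1, hz0.2]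

end Pool.Agent.Helper713.Fib
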