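import Mathlib
import Pool.Agent.Helper713.FibH

set_option autoImplicit false
set_option linter.deprecated false

open MeasureTheory ProbabilityTheory

namespace Pool.Agent.Helper713.Fib

theorem regQ_le_PM {N : ℕ → ℕ} {k : ℕ} {w : List ℕ} : reg N (Q k w) ≤ PM N := by
  intro y z h
  rw [PM_adj]
  refine ⟨h.1, ?_⟩
  rintro ⟨h1, h2⟩
  rcases h.2 with h4 | h4
  · exact Q_not_hub h4 h2
  · rw [← h1] at h4; exact Q_not_hub h4 h2

/-- total crossing mass -/
noncomputable def MM (k : ℕ) : ENNReal := ∑' t : ℤ, fS k t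

open Classical in
/-- number of levels gained -/
noncomputable def dl (j : ℕ) (q v : List ℕ) : ℕ := if v = q then sL j else LL j

/-- the constant in the two-point bound -/
noncomputable def cc (δ : ℕ) : ENNReal := ENNReal.ofReal (2 * (1 / 2 ^ 125) ^ δ)

theorem cellmass {N : ℕ → ℕ} {j : ℕ} {q u v : List ℕ} (hq : q.length = hd j)
    (hu : u.length = hd (j + 1)) (hqu : q <:+ u) (hvu : Valid u) (hv : Bd j q v) (hvv : Valid v)
    (huv : v ≠ u) (n m : ℤ) :
    mu _ pp pp_le (cn (reg N (Q j q)) ((u, 0), n) ((v, 0), m)) ≤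
      ∑' i : ℤ, fS j (n - i) * (cc (dl j q v) * ENNReal.ofReal ((1 / 4) ^ (i - m).natAbs)) := by
  refine (SL2 hq hu hqu hvu hv hvv huv n m).trans ?_
  set x0 := u.drop (LL j) with hx0
  have hx0l : x0.length = hd j + sL j := by
    rw [hx0, List.length_drop, hu, hd_succ]; omega
  refine ENNReal.tsum_le_tsum fun i => ?_
  gcongr
  · -- crossing
    rw [cn_symm]
    refine (St_upper hx0l i pp pp_le _ _).trans (le_of_eq ?_)
    unfold fS
    simp only [hx0l, hu]
    rw [show hd (j + 1) - (hd j + sL j) = LL j by rw [hd_succ]; omega]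
    simp
  · have h14 : (1 / 2 ^ 124 : ℝ) ^ (i - m).natAbs ≤ (1 / 4) ^ (i - m).natAbs :=
      pow_le_pow_left₀ (by norm_num) (by norm_num) _
    unfold cc
    rw [← ENNReal.ofReal_mul (by positivity)]
    by_cases hvq : v = q
    · have hd1 : dl j q v = sL j := by unfold dl; rw [if_pos hvq]
      rw [hd1]
      refine (measure_mono (cn_mono regQ_le_PM _ _)).trans ?_
      refine (PM_bound0 N _ _ ?_).trans (ENNReal.ofReal_le_ofReal ?_)
      · simp only [hx0l, hvq, hq]; omega
      · simp only [hx0l, hvq, hq]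
        rw [show hd j + sL j - hd j = sL j by omega]
        gcongr
    · have hd1 : dl j q v = LL j := by unfold dl; rw [if_neg hvq]
      rw [hd1]
      have hvl : v.length = hd (j + 1) := by
        rcases hv with h | h
        · exact absurd h hvq
        · exact h.1
      rw [cn_symm]
      refine (measure_mono (cn_mono regQ_le_PM _ _)).trans ?_
      refine (PM_bound0 N _ _ ?_).trans (ENNReal.ofReal_le_ofReal ?_)
      · simp only [hx0l, hvl, hd_succ]; omega
      · simp only [hx0l, hvl, hd_succ]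
        rw [show hd j + sL j + LL j - (hd j + sL j) = LL j by omega,
          show (m - i).natAbs = (i - m).natAbs by omega]
        gcongr

theorem sum_fS_left (k : ℕ) (i : ℤ) : ∑' n : ℤ, fS k (n - i) = MM k :=
  (Equiv.subRight i).tsum_eq (fun t => fS k t)

theorem sum_fS_right (k : ℕ) (n : ℤ) : ∑' i : ℤ, fS k (n - i) = MM k :=
  (Equiv.subLeft n).tsum_eq (fun t => fS k t)

theorem tsum_geo_int' (i : ℤ) : ∑' t : ℤ, ENNReal.ofReal ((1 / 4 : ℝ) ^ (i - t).natAbs) ≤ 2 := by
  have : ∀ t : ℤ, (i - t).natAbs = (t - i).natAbs := fun t => by omega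
  simp only [this]
  exact tsum_geo_int i

theorem cellmass_n {N : ℕ → ℕ} {j : ℕ} {q u v : List ℕ} (hq : q.length = hd j)
    (hu : u.length = hd (j + 1)) (hqu : q <:+ u) (hvu : Valid u) (hv : Bd j q v) (hvv : Valid v)
    (huv : v ≠ u) (m : ℤ) :
    ∑' n : ℤ, mu _ pp pp_le (cn (reg N (Q j q)) ((u, 0), n) ((v, 0), m)) ≤
      2 * MM j * cc (dl j q v) := by
  calc _ ≤ ∑' n : ℤ, ∑' i : ℤ, fS j (n - i) *
        (cc (dl j q v) * ENNReal.ofReal ((1 / 4) ^ (i - m).natAbs)) :=
        ENNReal.tsum_le_tsum fun n => cellmass hq hu hqu hvu hv hvv huv n m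
    _ = ∑' i : ℤ, MM j * (cc (dl j q v) * ENNReal.ofReal ((1 / 4) ^ (i - m).natAbs)) := by
        rw [ENNReal.tsum_comm]
        refine tsum_congr fun i => ?_
        rw [ENNReal.tsum_mul_right, sum_fS_left]
    _ = MM j * (cc (dl j q v) * ∑' i : ℤ, ENNReal.ofReal ((1 / 4) ^ (i - m).natAbs)) := by
        rw [ENNReal.tsum_mul_left, ENNReal.tsum_mul_left]
    _ ≤ MM j * (cc (dl j q v) * 2) := by gcongr; exact tsum_geo_int m
    _ = 2 * MM j * cc (dl j q v) := by ring

theorem cellmass_m {N : ℕ → ℕ} {j : ℕ} {q u v : List ℕ} (hq : q.length = hd j)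
    (hu : u.length = hd (j + 1)) (hqu : q <:+ u) (hvu : Valid u) (hv : Bd j q v) (hvv : Valid v)
    (huv : v ≠ u) (n : ℤ) :
    ∑' m : ℤ, mu _ pp pp_le (cn (reg N (Q j q)) ((u, 0), n) ((v, 0), m)) ≤
      2 * MM j * cc (dl j q v) := by
  calc _ ≤ ∑' m : ℤ, ∑' i : ℤ, fS j (n - i) *
        (cc (dl j q v) * ENNReal.ofReal ((1 / 4) ^ (i - m).natAbs)) :=
        ENNReal.tsum_le_tsum fun m => cellmass hq hu hqu hvu hv hvv huv n m
    _ = ∑' i : ℤ, fS j (n - i) *
          (cc (dl j q v) * ∑' m : ℤ, ENNReal.ofReal ((1 / 4) ^ (i - m).natAbs)) := by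
        rw [ENNReal.tsum_comm]
        refine tsum_congr fun i => ?_
        rw [ENNReal.tsum_mul_left, ENNReal.tsum_mul_left]
    _ ≤ ∑' i : ℤ, fS j (n - i) * (cc (dl j q v) * 2) := by
        gcongr with i
        exact tsum_geo_int' i
    _ = MM j * (cc (dl j q v) * 2) := by rw [ENNReal.tsum_mul_right, sum_fS_right]
    _ = 2 * MM j * cc (dl j q v) := by ring

/-- kernel bound -/
theorem kernel {N : ℕ → ℕ} {l j : ℕ} {w q u : List ℕ} (hw : w.length = hd l)
    (hq : q.length = hd j)
    (hA : Adjc l w j q) (hu : Bd j q u) (huw : u ≠ w) (hvw : Valid w) (hvu : Valid u) (V : ENNReal)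
    (hV : ∀ m : ℤ, ∑' i : ℤ, mu _ pp pp_le (cn (reg N (Ir l w)) ((w, 0), i) ((w, 0), m)) ≤ V)
    (m : ℤ) (δ : ℕ) (hδ : δ = if l = j + 1 ∧ u ≠ q then LL j else sL j) :
    ∑' n : ℤ, mu _ pp pp_le (cn (reg N (Ir l w)) ((w, 0), m) ((u, 0), n)) ≤
      4 * V * MM j * cc δ := by
  -- mass through the cell
  have hcell : ∀ i : ℤ, ∑' n : ℤ, mu _ pp pp_le (cn (reg N (Q j q)) ((u, 0), n) ((w, 0), i)) ≤
      2 * MM j * cc δ := by
    intro i
    rcases hA with ⟨h1, h2⟩ | ⟨h1, h2⟩
    · subst h1 h2
      rcases hu with hu | ⟨hu1, hu2⟩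
      · exact absurd hu huw
      · have := cellmass_n (N := N) hw hu1 hu2 hvu (Or.inl rfl) hvw huw.symm i
        have hd1 : dl l w w = δ := by
          unfold dl; rw [if_pos rfl, hδ, if_neg (by omega)]
        rw [hd1] at this
        exact this
    · subst h1
      have hqw : q <:+ w := h2 ▸ up_suffix j w
      have := cellmass_m (N := N) hq hw hqw hvw hu hvu huw i
      have hd1 : dl j q u = δ := by
        unfold dl
        by_cases h : u = q
        · rw [if_pos h, hδ, if_neg (by simp [h])]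
        · rw [if_neg h, hδ, if_pos ⟨rfl, h⟩]
      rw [hd1] at this
      refine le_trans (le_of_eq ?_) this
      refine tsum_congr fun n => ?_
      rw [cn_symm]
  calc _ ≤ ∑' n : ℤ, 2 * ∑' i : ℤ, mu _ pp pp_le (cn (reg N (Q j q)) ((u, 0), n) ((w, 0), i)) *
        mu _ pp pp_le (cn (reg N (Ir l w)) ((w, 0), i) ((w, 0), m)) := by
        refine ENNReal.tsum_le_tsum fun n => ?_
        rw [cn_symm]
        exact SL1 hw hq hA hu huw n m
    _ = 2 * ∑' i : ℤ, (∑' n : ℤ, mu _ pp pp_le (cn (reg N (Q j q)) ((u, 0), n) ((w, 0), i))) *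
        mu _ pp pp_le (cn (reg N (Ir l w)) ((w, 0), i) ((w, 0), m)) := by
        rw [ENNReal.tsum_mul_left, ENNReal.tsum_comm]
        congr 1
        refine tsum_congr fun i => ?_
        rw [ENNReal.tsum_mul_right]
    _ ≤ 2 * ∑' i : ℤ, (2 * MM j * cc δ) *
        mu _ pp pp_le (cn (reg N (Ir l w)) ((w, 0), i) ((w, 0), m)) := by
        gcongr with i
        exact hcell i
    _ = 2 * ((2 * MM j * cc δ) * ∑' i : ℤ,
        mu _ pp pp_le (cn (reg N (Ir l w)) ((w, 0), i) ((w, 0), m))) := by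
        rw [ENNReal.tsum_mul_left]
    _ ≤ 2 * ((2 * MM j * cc δ) * V) := by gcongr; exact hV m
    _ = 4 * V * MM j * cc δ := by ring

open Classical in
/-- descendants at relative depth `t` -/
noncomputable def gen (w : List ℕ) : ℕ → Finset (List ℕ)
  | 0 => {w}
  | t + 1 => (gen w t).biUnion (fun v => (Finset.range (br v.length)).image (fun a => a :: v))

theorem gen_mem {w v : List ℕ} (hv : Valid v) (h : w <:+ v) : v ∈ gen w (v.length - w.length) := by
  classical
  induction v with
  | nil =>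
    rw [List.suffix_nil] at h
    subst h; simp [gen]
  | cons a v ih =>
    rcases List.suffix_cons_iff.1 h with h1 | h1
    · subst h1; simp [gen]
    · have h2 := h1.length_le
      have h3 : (a :: v).length - w.length = (v.length - w.length) + 1 := by
        simp only [List.length_cons]; omega
      rw [h3, gen, Finset.mem_biUnion]
      exact ⟨v, ih hv.2 h1, Finset.mem_image.2 ⟨a, Finset.mem_range.2 hv.1, rfl⟩⟩

theorem gen_prop {w v : List ℕ} (t : ℕ) : v ∈ gen w t → w <:+ v ∧ v.length = w.length + t ∧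
    (Valid w → Valid v) := by
  classical
  induction t generalizing v with
  | zero =>
    intro h
    rw [gen, Finset.mem_singleton] at h
    subst h
    exact ⟨List.suffix_rfl, rfl, id⟩
  | succ t ih =>
    intro h
    rw [gen, Finset.mem_biUnion] at h
    obtain ⟨v', hv', h⟩ := h
    rw [Finset.mem_image] at h
    obtain ⟨a, ha, rfl⟩ := h
    obtain ⟨h1, h2, h3⟩ := ih hv'
    refine ⟨h1.trans (List.suffix_cons _ _), ?_, ?_⟩
    · simp only [List.length_cons]; omega
    · intro hw
      exact ⟨Finset.mem_range.1 ha, h3 hw⟩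

theorem gen_card {k : ℕ} {w : List ℕ} (hw : w.length = hd k) (t : ℕ) (ht : t ≤ sL k + LL k) :
    (gen w t).card ≤ dd ^ (min t (sL k)) := by
  classical
  induction t with
  | zero => simp [gen]
  | succ t ih =>
    have ih' := ih (by omega)
    rw [gen]
    have h1 : ∀ v ∈ gen w t, ((Finset.range (br v.length)).image (fun a => a :: v)).card ≤
        (if t < sL k then dd else 1) := by
      intro v hv
      refine Finset.card_image_le.trans ?_
      rw [Finset.card_range, (gen_prop t hv).2.1, hw]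
      by_cases h2 : t < sL k
      · rw [if_pos h2]; exact br_le _
      · rw [if_neg h2, br_path (k := k) (by omega) (by rw [hd_succ]; omega)]
    refine Finset.card_biUnion_le.trans ?_
    refine (Finset.sum_le_card_nsmul _ _ _ h1).trans ?_
    rw [smul_eq_mul]
    by_cases h2 : t < sL k
    · rw [if_pos h2, show min (t + 1) (sL k) = min t (sL k) + 1 by omega, pow_succ]
      gcongr
    · rw [if_neg h2, show min (t + 1) (sL k) = min t (sL k) by omega, mul_one]
      exact ih'

/-- child hubs -/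
noncomputable def kids (k : ℕ) (w : List ℕ) : Finset (List ℕ) := gen w (sL k + LL k)

theorem kids_card {k : ℕ} {w : List ℕ} (hw : w.length = hd k) : (kids k w).card ≤ dd ^ (sL k) := by
  unfold kids
  refine (gen_card hw _ le_rfl).trans ?_
  rw [show min (sL k + LL k) (sL k) = sL k by omega]

theorem kids_mem {k : ℕ} {w v : List ℕ} (hw : w.length = hd k) (hv : Valid v)
    (hl : v.length = hd (k + 1)) (h : w <:+ v) : v ∈ kids k w := by
  have := gen_mem hv h
  unfold kids
  rw [hl, hw, show hd (k + 1) - hd k = sL k + LL k by rw [hd_succ]; omega] at this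
  exact this

theorem kids_prop {k : ℕ} {w v : List ℕ} (hw : w.length = hd k) (h : v ∈ kids k w) :
    w <:+ v ∧ v.length = hd (k + 1) ∧ (Valid w → Valid v) := by
  obtain ⟨h1, h2, h3⟩ := gen_prop _ h
  exact ⟨h1, by rw [h2, hw, hd_succ]; omega, h3⟩

end Pool.Agent.Helper713.Fib
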