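import Mathlib

set_option autoImplicit false
set_option linter.deprecated false

namespace Pool.Agent.Helper713.Fib

/-- powers of two with integer exponents -/
noncomputable def tz (z : ℤ) : ℝ := (2 : ℝ) ^ z

theorem tz_pos (z : ℤ) : 0 < tz z := by unfold tz; positivity
theorem tz_add (a b : ℤ) : tz (a + b) = tz a * tz b := by
  unfold tz; rw [zpow_add₀ (by norm_num)]
theorem tz_mono {a b : ℤ} (h : a ≤ b) : tz a ≤ tz b := by
  unfold tz; exact zpow_le_zpow_right₀ (by norm_num) h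
theorem tz_nat (n : ℕ) : tz n = 2 ^ n := by unfold tz; rw [zpow_natCast]
theorem tz_pow (a : ℤ) (n : ℕ) : (tz a) ^ n = tz (a * n) := by
  unfold tz; rw [zpow_mul, zpow_natCast]
theorem tz_zero : tz 0 = 1 := by unfold tz; simp
theorem tz_inv (a : ℤ) : (tz a)⁻¹ = tz (-a) := by unfold tz; rw [zpow_neg]
theorem tz_div (a b : ℤ) : tz a / tz b = tz (a - b) := by
  unfold tz; rw [zpow_sub₀ (by norm_num)]
theorem tz_le_one {a : ℤ} (h : a ≤ 0) : tz a ≤ 1 := by
  rw [← tz_zero]; exact tz_mono h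
theorem tz124 : (1 / 2 ^ 124 : ℝ) = tz (-124) := by unfold tz; norm_num
theorem tz125 : (1 / 2 ^ 125 : ℝ) = tz (-125) := by unfold tz; norm_num
theorem tz127 : (1 / 2 ^ 127 : ℝ) = tz (-127) := by unfold tz; norm_num
theorem tz128 : (2 ^ 128 : ℝ) = tz 128 := by unfold tz; norm_num
theorem tz1 : (2 : ℝ) = tz 1 := by unfold tz; norm_num
theorem tzh : (1 / 2 : ℝ) = tz (-1) := by unfold tz; norm_num

/-- a natural number below a power of two -/
theorem tz_cast {n m : ℕ} (h : n ≤ 2 ^ m) : (n : ℝ) ≤ tz m := by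
  rw [tz_nat]; exact_mod_cast h

theorem dd_cast (S : ℕ) : (((2 ^ 128) ^ S : ℕ) : ℝ) = tz (128 * S) := by
  rw [Nat.cast_pow, Nat.cast_pow, Nat.cast_ofNat, tz128, tz_pow]

theorem small_num0 (S A : ℕ) (h : A ≤ 2 ^ S) : ((2 * (A * (2 ^ 128) ^ S) : ℕ) : ℝ) ^ 2 *
    (2 * (1 / 2 ^ 124) ^ (2 * (2 * S) + 1)) ≤ 1 / 2 := by
  have h1 : ((2 * (A * (2 ^ 128) ^ S) : ℕ) : ℝ) ≤ tz (1 + S + 128 * S) := by
    have h2 := tz_cast h
    rw [Nat.cast_mul, Nat.cast_mul, dd_cast, Nat.cast_ofNat, tz_add, tz_add, ← tz1]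
    have := tz_pos (128 * S)
    calc 2 * ((A : ℝ) * tz (128 * S)) ≤ 2 * (tz S * tz (128 * S)) := by gcongr
      _ = _ := by ring
  calc _ ≤ (tz (1 + S + 128 * S)) ^ 2 * (2 * (1 / 2 ^ 124) ^ (2 * (2 * S) + 1)) := by gcongr
    _ = tz ((1 + S + 128 * S) * 2 + (1 + (-124) * (2 * (2 * S) + 1))) := by
        rw [tz124, tz_pow, tz_pow, tz_add, tz_add 1, ← tz1]
        push_cast
        ring_nf
    _ ≤ tz (-1) := tz_mono (by nlinarith)
    _ = 1 / 2 := tzh.symm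

end Pool.Agent.Helper713.Fib
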