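import Mathlib
import Pool.Agent.Helper713.FibI
import Pool.Agent.Helper713.FibZ

set_option autoImplicit false
set_option linter.deprecated false

open MeasureTheory ProbabilityTheory

namespace Pool.Agent.Helper713.Fib

/-- half window -/
def JJ (k : ℕ) : ℕ := 2 * sL k

/-- probability that an edge is closed -/
noncomputable def qq : ℝ := 1 - 1 / 2 ^ 127

theorem qq_pos : 0 < qq := by unfold qq; norm_num
theorem qq_le : qq ≤ 1 := by unfold qq; norm_num

theorem pp_coe : (pp : ENNReal) = ENNReal.ofReal (1 / 2 ^ 127) := by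
  rw [ENNReal.ofReal, ENNReal.coe_inj]
  ext
  simp [pp]

theorem one_sub_pp : (1 : ENNReal) - (pp : ENNReal) = ENNReal.ofReal qq := by
  rw [pp_coe]
  unfold qq
  rw [ENNReal.ofReal_sub _ (by positivity), ENNReal.ofReal_one]

theorem closed_lower {E : Type} [DecidableEq E] (F : Finset E) (n : ℕ) (h : F.card ≤ n) :
    ENNReal.ofReal (qq ^ n) ≤ mu E pp pp_le {ω | ∀ e ∈ F, ω e = false} := by
  rw [mu_allclosed, one_sub_pp, ← ENNReal.ofReal_pow qq_pos.le]
  apply ENNReal.ofReal_le_ofReal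
  exact pow_le_pow_of_le_one qq_pos.le qq_le h

theorem qq_pow : (1 / 32 : ℝ) ≤ qq ^ (dd + 1) := by
  have h1 : (1 / 2 : ℝ) ≤ qq ^ (2 ^ 126) := by
    have h2 := one_add_mul_le_pow (a := (-(1 / 2 ^ 127) : ℝ)) (by norm_num) (2 ^ 126)
    have h3 : (1 + -(1 / 2 ^ 127) : ℝ) = qq := by unfold qq; ring
    rw [h3] at h2
    refine le_trans ?_ h2
    norm_num
  have e1 : dd + 1 = 2 ^ 126 * 4 + 1 := by norm_num [dd]
  have h4 : qq ^ (dd + 1) = (qq ^ (2 ^ 126)) ^ 4 * qq := by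
    rw [e1, pow_succ, pow_mul]
  rw [h4]
  have h5 : (1 / 2 : ℝ) ≤ qq := by unfold qq; norm_num
  calc (1 / 32 : ℝ) = (1 / 2) ^ 4 * (1 / 2) := by norm_num
    _ ≤ (qq ^ (2 ^ 126)) ^ 4 * qq := by
        have := qq_pos
        gcongr

/-- vertical clique edges in the middle of the window -/
noncomputable def F1 (N : ℕ → ℕ) (k : ℕ) (w : List ℕ) (a : ℤ) : Finset (Sym2 WW) := by
  classical
  exact (Finset.range (N k)).image
    (fun j => s((((w, j), a + JJ k) : WW), (((w, j), a + JJ k + 1) : WW)))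

/-- tree neighbours of a word -/
noncomputable def nbw (w : List ℕ) : Finset (List ℕ) := by
  classical
  exact insert w.tail ((Finset.range (br w.length)).image (fun b => b :: w))

theorem nbw_card (w : List ℕ) : (nbw w).card ≤ dd + 1 := by
  classical
  unfold nbw
  refine (Finset.card_insert_le _ _).trans ?_
  gcongr
  refine Finset.card_image_le.trans ?_
  rw [Finset.card_range]; exact br_le _

theorem nbw_mem {w v : List ℕ} (hv : Valid v) (h : pc w v ∨ pc v w) : v ∈ nbw w := by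
  classical
  unfold nbw
  rw [Finset.mem_insert, Finset.mem_image]
  rcases h with ⟨a, rfl⟩ | ⟨a, rfl⟩
  · right; exact ⟨a, Finset.mem_range.2 hv.1, rfl⟩
  · left; rfl

/-- spokes at the hub in the window -/
noncomputable def F2 (k : ℕ) (w : List ℕ) (a : ℤ) : Finset (Sym2 WW) := by
  classical
  exact ((Finset.Icc a (a + 2 * JJ k + 1) ×ˢ (nbw w)).filter (fun q => q.2 ≠ w)).image
    (fun q => s((((w, 0), q.1) : WW), (((q.2, 0), q.1) : WW)))

theorem F1_card (N : ℕ → ℕ) (k : ℕ) (w : List ℕ) (a : ℤ) : (F1 N k w a).card ≤ N k := by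
  classical
  unfold F1
  refine Finset.card_image_le.trans ?_
  rw [Finset.card_range]

theorem F2_card (k : ℕ) (w : List ℕ) (a : ℤ) :
    (F2 k w a).card ≤ (dd + 1) * (2 * JJ k + 2) := by
  classical
  unfold F2
  refine Finset.card_image_le.trans ?_
  refine (Finset.card_filter_le _ _).trans ?_
  rw [Finset.card_product, Int.card_Icc]
  have h1 : (a + 2 * (JJ k : ℤ) + 1 + 1 - a).toNat = 2 * JJ k + 2 := by omega
  rw [h1, mul_comm]
  exact Nat.mul_le_mul_right _ (nbw_card w)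

/-- the part of the region of `w` away from `w`, in the window -/
def Xs (N : ℕ → ℕ) (k : ℕ) (w : List ℕ) (a : ℤ) : SimpleGraph WW where
  Adj x y := (reg N (Ir k w)).Adj x y ∧ (x.1.1 ≠ w ∧ y.1.1 ≠ w) ∧
    ((a ≤ x.2 ∧ x.2 ≤ a + 2 * JJ k + 1) ∧ (a ≤ y.2 ∧ y.2 ≤ a + 2 * JJ k + 1))
  symm := ⟨fun _ _ h => ⟨h.1.symm, h.2.1.symm, h.2.2.symm⟩⟩
  loopless := ⟨fun _ h => h.1.ne rfl⟩

theorem Xs_adj (N : ℕ → ℕ) (k : ℕ) (w : List ℕ) (a : ℤ) (x y : WW) : (Xs N k w a).Adj x y ↔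
    (reg N (Ir k w)).Adj x y ∧ (x.1.1 ≠ w ∧ y.1.1 ≠ w) ∧
    ((a ≤ x.2 ∧ x.2 ≤ a + 2 * JJ k + 1) ∧ (a ≤ y.2 ∧ y.2 ≤ a + 2 * JJ k + 1)) := Iff.rfl

theorem Xs_le_PM (N : ℕ → ℕ) (k : ℕ) (w : List ℕ) (a : ℤ) : Xs N k w a ≤ PM N := by
  intro x y h
  rw [Xs_adj] at h
  obtain ⟨⟨h1, h2⟩, ⟨h3, h4⟩, _⟩ := h
  rw [PM_adj]
  refine ⟨h1, ?_⟩
  rintro ⟨h5, h6⟩
  have h7 : Ir k w x.1.1 := by
    rcases h2 with h2 | h2
    · exact h2
    · rw [h5]; exact h2
  rcases h7 with h7 | h7 | ⟨j, _, h7⟩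
  · exact h3 h7
  · exact Q_not_hub h7 h6
  · exact Q_not_hub h7 h6

/-- closed cell -/
def CW (k : ℕ) (w v : List ℕ) : Prop := w <:+ v ∧ v.length ≤ hd (k + 1)

theorem Xs_words {N : ℕ → ℕ} {k : ℕ} {w : List ℕ} {a : ℤ} (hw : w.length = hd k) {x y : WW}
    (h : (Xs N k w a).Adj x y) : x.1.2 = 0 ∧ Valid x.1.1 ∧
      (CW k w x.1.1 ∨ ∃ j, k = j + 1 ∧ CW j (up j w) x.1.1) := by
  have hpm := PM_cases (Xs_le_PM N k w a h)
  refine ⟨hpm.1, hpm.2.2.1.1, ?_⟩
  rw [Xs_adj] at h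
  obtain ⟨⟨h1, h2⟩, ⟨h3, h4⟩, _⟩ := h
  have hin : ∀ v, v ≠ w → Ir k w v → (CW k w v ∨ ∃ j, k = j + 1 ∧ CW j (up j w) v) := by
    rintro v hvw (h5 | h5 | ⟨j, hj, h5⟩)
    · exact absurd h5 hvw
    · exact Or.inl ⟨h5.1, h5.2.2.le⟩
    · exact Or.inr ⟨j, hj, h5.1, h5.2.2.le⟩
  rcases h2 with h2 | h2
  · exact hin _ h3 h2
  · rcases PG_words h1 with h5 | ⟨_, _, _, h6⟩
    · exact hin _ h3 (h5 ▸ h2)
    · rcases h2 with h7 | h7 | ⟨j, hj, h7⟩
      · exact absurd h7 h4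
      · obtain ⟨h8, h9⟩ := Q_nb hw h7 h6.symm
        left
        refine ⟨h8, ?_⟩
        rcases h9 with h9 | h9 | h9
        · exact absurd h9 h3
        · exact h9.2.2.le
        · exact h9.le
      · subst hj
        obtain ⟨h8, h9⟩ := Q_nb (up_len hw) h7 h6.symm
        right
        refine ⟨j, rfl, h8, ?_⟩
        rcases h9 with h9 | h9 | h9
        · rw [h9, up_len hw]; exact (hd_lt j).le
        · exact h9.2.2.le
        · exact h9.le

/-- words in a closed cell -/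
noncomputable def cellY (k : ℕ) (w : List ℕ) : Finset (List ℕ) := by
  classical
  exact (Finset.range (sL k + LL k + 1)).biUnion (gen w)

theorem cellY_mem {k : ℕ} {w v : List ℕ} (hw : w.length = hd k) (hv : Valid v) (h : CW k w v) :
    v ∈ cellY k w := by
  classical
  unfold cellY
  rw [Finset.mem_biUnion]
  have h1 := h.1.length_le
  have h2 := h.2
  rw [hd_succ] at h2
  exact ⟨v.length - w.length, Finset.mem_range.2 (by omega), gen_mem hv h.1⟩

theorem cellY_card {k : ℕ} {w : List ℕ} (hw : w.length = hd k) :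
    (cellY k w).card ≤ (sL k + LL k + 1) * dd ^ (sL k) := by
  classical
  unfold cellY
  refine Finset.card_biUnion_le.trans ?_
  have h1 : ∀ t ∈ Finset.range (sL k + LL k + 1), (gen w t).card ≤ dd ^ (sL k) := by
    intro t ht
    refine (gen_card hw t (by have := Finset.mem_range.1 ht; omega)).trans ?_
    exact Nat.pow_le_pow_right (by norm_num) (min_le_right _ _)
  refine (Finset.sum_le_card_nsmul _ _ _ h1).trans ?_
  rw [smul_eq_mul, Finset.card_range]

/-- words in the upper closed cell -/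
noncomputable def YU : ℕ → List ℕ → Finset (List ℕ)
  | 0, _ => ∅
  | j + 1, w => cellY j (up j w)

/-- words touched by the region -/
noncomputable def YY (k : ℕ) (w : List ℕ) : Finset (List ℕ) := by
  classical
  exact cellY k w ∪ YU k w

theorem sL_mono (k : ℕ) : sL k ≤ sL (k + 1) := by unfold sL; omega

theorem YY_card {k : ℕ} {w : List ℕ} (hw : w.length = hd k) :
    (YY k w).card ≤ 2 * ((sL k + LL k + 1) * dd ^ (sL k)) := by
  classical
  unfold YY
  refine (Finset.card_union_le _ _).trans ?_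
  have h1 := cellY_card hw
  cases k with
  | zero => simp only [YU, Finset.card_empty]; omega
  | succ j =>
    simp only [YU]
    have h2 := cellY_card (up_len hw)
    have h3 : (sL j + LL j + 1) * dd ^ (sL j) ≤
        (sL (j + 1) + LL (j + 1) + 1) * dd ^ (sL (j + 1)) := by
      have := sL_mono j
      have := LL_mono j
      refine Nat.mul_le_mul (by omega) ?_
      exact Nat.pow_le_pow_right (by norm_num) (by omega)
    omega

theorem YY_mem {N : ℕ → ℕ} {k : ℕ} {w : List ℕ} {a : ℤ} (hw : w.length = hd k) {x y : WW}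
    (h : (Xs N k w a).Adj x y) : x.1.1 ∈ YY k w := by
  classical
  obtain ⟨_, hv, h2⟩ := Xs_words hw h
  unfold YY
  rw [Finset.mem_union]
  rcases h2 with h2 | ⟨j, hj, h2⟩
  · exact Or.inl (cellY_mem hw hv h2)
  · subst hj
    exact Or.inr (cellY_mem (up_len hw) hv h2)

/-- no crossing of the window away from the hub -/
def B3 (N : ℕ → ℕ) (k : ℕ) (w : List ℕ) (a : ℤ) : Set (Sym2 WW → Bool) :=
  {ω | ∀ x y : WW, x.2 = a → y.2 = a + 2 * JJ k + 1 → ¬ (openGraph (Xs N k w a) ω).Reachable x y}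

theorem B3_meas (N : ℕ → ℕ) (k : ℕ) (w : List ℕ) (a : ℤ) :
    MeasurableSet[cs (Xs N k w a).edgeSet] (B3 N k w a) := by
  have : B3 N k w a = ⋂ (x : WW), ⋂ (y : WW), ⋂ (_ : x.2 = a), ⋂ (_ : y.2 = a + 2 * JJ k + 1),
      (cn (Xs N k w a) x y)ᶜ := by
    ext ω
    simp only [B3, Set.mem_setOf_eq, Set.mem_iInter, Set.mem_compl_iff, cn]
  rw [this]
  refine MeasurableSet.iInter fun x => MeasurableSet.iInter fun y => MeasurableSet.iInter fun _ =>
    MeasurableSet.iInter fun _ => ?_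
  exact (cn_meas _ _ _).compl

theorem sL_big (k : ℕ) : sL k + LL k + 1 ≤ 2 ^ (sL k) := by
  unfold sL LL
  set K := k + 10 with hK
  have h2 : K < 2 ^ K := Nat.lt_two_pow_self
  have h3 : 2 ^ (5 * K) = 2 ^ K * 2 ^ K * 2 ^ K * 2 ^ K * 2 ^ K := by
    rw [show 5 * K = K + K + K + K + K by ring, pow_add, pow_add, pow_add, pow_add]
  rw [h3]
  have h4 : 10 ≤ K := by omega
  have h5 : K * K ≤ 2 ^ K * 2 ^ K := Nat.mul_le_mul h2.le h2.le
  have h6 : 5 * K + K ^ 2 + 1 ≤ 2 * (2 ^ K * 2 ^ K) := by nlinarith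
  have h7 : 2 ≤ 2 ^ K * 2 ^ K * 2 ^ K := by nlinarith
  calc 5 * K + K ^ 2 + 1 ≤ 2 * (2 ^ K * 2 ^ K) := h6
    _ ≤ (2 ^ K * 2 ^ K * 2 ^ K) * (2 ^ K * 2 ^ K) := Nat.mul_le_mul_right _ h7
    _ = _ := by ring

theorem small_num (k : ℕ) : ((2 * ((sL k + LL k + 1) * dd ^ (sL k)) : ℕ) : ℝ) ^ 2 *
    (2 * (1 / 2 ^ 124) ^ (2 * JJ k + 1)) ≤ 1 / 2 :=
  small_num0 (sL k) (sL k + LL k + 1) (sL_big k)

theorem B3_compl (N : ℕ → ℕ) {k : ℕ} {w : List ℕ} (hw : w.length = hd k) (a : ℤ) :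
    mu _ pp pp_le (B3 N k w a)ᶜ ≤ ENNReal.ofReal (1 / 2) := by
  classical
  have hsub : (B3 N k w a)ᶜ ⊆ ⋃ q ∈ (YY k w ×ˢ YY k w),
      cn (Xs N k w a) ((q.1, 0), a) ((q.2, 0), a + 2 * JJ k + 1) := by
    intro ω hω
    simp only [B3, Set.mem_compl_iff, Set.mem_setOf_eq, not_forall, not_not] at hω
    obtain ⟨x, y, hx, hy, hr⟩ := hω
    have hne : x ≠ y := by rintro rfl; omega
    have h1 : x.1.1 ∈ YY k w ∧ x.1.2 = 0 := by
      obtain ⟨W⟩ := hr
      cases W with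
      | nil => exact absurd rfl hne
      | cons h _ =>
        rw [openGraph_adj] at h
        exact ⟨YY_mem hw h.1, (Xs_words hw h.1).1⟩
    have h2 : y.1.1 ∈ YY k w ∧ y.1.2 = 0 := by
      obtain ⟨W⟩ := hr.symm
      cases W with
      | nil => exact absurd rfl hne
      | cons h _ =>
        rw [openGraph_adj] at h
        exact ⟨YY_mem hw h.1, (Xs_words hw h.1).1⟩
    simp only [Set.mem_iUnion]
    refine ⟨(x.1.1, y.1.1), Finset.mem_product.2 ⟨h1.1, h2.1⟩, ?_⟩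
    have e1 : (((x.1.1, 0), a) : WW) = x := by
      rw [← hx, ← h1.2]
    have e2 : (((y.1.1, 0), a + 2 * JJ k + 1) : WW) = y := by
      rw [← hy, ← h2.2]
    show (openGraph (Xs N k w a) ω).Reachable _ _
    simp only
    rw [e1, e2]
    exact hr
  refine (measure_mono hsub).trans ((measure_biUnion_finset_le _ _).trans ?_)
  have h1 : ∀ q ∈ (YY k w ×ˢ YY k w), mu _ pp pp_le
      (cn (Xs N k w a) ((q.1, 0), a) ((q.2, 0), a + 2 * JJ k + 1)) ≤
      ENNReal.ofReal (2 * (1 / 2 ^ 124) ^ (2 * JJ k + 1)) := by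
    intro q _
    refine (measure_mono (cn_mono (Xs_le_PM N k w a) _ _)).trans ?_
    refine (PM_bound N _ _).trans (le_of_eq ?_)
    simp only
    rw [show (a - (a + 2 * (JJ k : ℤ) + 1)).natAbs = 2 * JJ k + 1 by omega]
  refine (Finset.sum_le_card_nsmul _ _ _ h1).trans ?_
  rw [nsmul_eq_mul, ← ENNReal.ofReal_natCast, ← ENNReal.ofReal_mul (by positivity)]
  apply ENNReal.ofReal_le_ofReal
  refine le_trans ?_ (small_num k)
  rw [Finset.card_product]
  have h3 : ((YY k w).card : ℝ) ≤ ((2 * ((sL k + LL k + 1) * dd ^ (sL k)) : ℕ) : ℝ) :=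
    Nat.cast_le.2 (YY_card hw)
  have h4 : (((YY k w).card * (YY k w).card : ℕ) : ℝ) ≤
      ((2 * ((sL k + LL k + 1) * dd ^ (sL k)) : ℕ) : ℝ) ^ 2 := by
    rw [Nat.cast_mul, sq]
    exact mul_le_mul h3 h3 (Nat.cast_nonneg _) (Nat.cast_nonneg _)
  exact mul_le_mul_of_nonneg_right h4 (by positivity)

end Pool.Agent.Helper713.Fib
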