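import Mathlib
import Pool.Agent.Helper713.FibJ

set_option autoImplicit false
set_option linter.deprecated false

open MeasureTheory ProbabilityTheory

namespace Pool.Agent.Helper713.Fib

/-- the window event that separates everything below from everything above -/
def BB (N : ℕ → ℕ) (k : ℕ) (w : List ℕ) (a : ℤ) : Set (Sym2 WW → Bool) :=
  {ω | ∀ e ∈ F1 N k w a, ω e = false} ∩ ({ω | ∀ e ∈ F2 k w a, ω e = false} ∩ B3 N k w a)

theorem BB_sep {N : ℕ → ℕ} {k : ℕ} {w : List ℕ} (hw : w.length = hd k) {a : ℤ}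
    {ω : Sym2 WW → Bool} (hω : ω ∈ BB N k w a) {x y : WW} (hx : x.2 ≤ a)
    (hy : a + 2 * JJ k + 1 ≤ y.2) : ¬ (openGraph (reg N (Ir k w)) ω).Reachable x y := by
  classical
  obtain ⟨h1, h2, h3⟩ := hω
  intro hr
  have hJ : (1 : ℤ) ≤ JJ k := by
    have := sL_pos k
    unfold JJ; push_cast; omega
  have key : y ∈ {x : WW | x.2 ≤ a ∨ (x.1.1 = w ∧ x.2 ≤ a + JJ k) ∨
      (x.1.1 ≠ w ∧ x.2 < a + 2 * JJ k + 1 ∧ ∃ z : WW, z.2 = a ∧
        (openGraph (Xs N k w a) ω).Reachable z x)} := by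
    refine reach_closed hr _ (Or.inl hx) ?_
    intro x y hxA hxy
    rw [openGraph_adj] at hxy
    obtain ⟨hadj, hop⟩ := hxy
    have hPG := hadj.1
    have hh : y.2 = x.2 ∨ ((x.1 = y.1) ∧ (y.2 = x.2 + 1 ∨ x.2 = y.2 + 1)) := by
      rw [PG_adj] at hPG
      rcases hPG.2.2 with h | h
      · exact Or.inl h.1.symm
      · exact Or.inr h
    by_cases hya : y.2 ≤ a
    · exact Or.inl hya
    by_cases hxa : x.2 ≤ a
    · -- first case
      have hv : x.1 = y.1 ∧ y.2 = a + 1 ∧ x.2 = a := by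
        rcases hh with h | ⟨h, h'⟩
        · omega
        · exact ⟨h, by omega, by omega⟩
      by_cases hxw : x.1.1 = w
      · right; left
        exact ⟨by rw [← hv.1]; exact hxw, by omega⟩
      · right; right
        refine ⟨by rw [← hv.1]; exact hxw, by omega, x, hv.2.2, ?_⟩
        apply SimpleGraph.Adj.reachable
        rw [openGraph_adj, Xs_adj]
        exact ⟨⟨hadj, ⟨hxw, by rw [← hv.1]; exact hxw⟩, by omega, by omega⟩, hop⟩
    -- spokes are closed
    have hspoke : ∀ u v : WW, (PG N).Adj u v → u.1.1 = w → v.1.1 ≠ w → a ≤ u.2 →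
        u.2 ≤ a + 2 * JJ k + 1 → ω s(u, v) = false := by
      intro u v huv hu hv h5 h6
      rcases PG_words huv with h7 | ⟨h7, h8, h9, h10⟩
      · exact absurd (h7 ▸ hu) hv
      · apply h2
        unfold F2
        rw [Finset.mem_image]
        refine ⟨(u.2, v.1.1), ?_, ?_⟩
        · rw [Finset.mem_filter, Finset.mem_product, Finset.mem_Icc]
          refine ⟨⟨⟨h5, h6⟩, ?_⟩, hv⟩
          rw [hu] at h10
          exact nbw_mem huv.2.1.1 h10
        · simp only
          have e1 : (((w, 0), u.2) : WW) = u := by rw [← hu, ← h7]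
          have e2 : (((v.1.1, 0), u.2) : WW) = v := by rw [h9, ← h8]
          rw [e1, e2]
    rcases hxA with hxA | ⟨hxw, hxb⟩ | ⟨hxw, hxb, z, hz, hzr⟩
    · exact absurd hxA hxa
    · by_cases hyw : y.1.1 = w
      · right; left
        refine ⟨hyw, ?_⟩
        by_contra hlt
        -- the middle vertical edge
        have h5 : x.1 = y.1 ∧ y.2 = a + JJ k + 1 ∧ x.2 = a + JJ k := by
          rcases hh with h | ⟨h, h'⟩
          · omega
          · exact ⟨h, by omega, by omega⟩
        have h6 : s(x, y) ∈ F1 N k w a := by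
          unfold F1
          rw [Finset.mem_image]
          refine ⟨x.1.2, ?_, ?_⟩
          · rw [Finset.mem_range]
            have := hPG.1.2
            rw [hxw, hw, cl_hd] at this
            exact this
          · have e1 : (((w, x.1.2), a + (JJ k : ℤ)) : WW) = x := by
              rw [← hxw, ← h5.2.2]
            have e2 : (((w, x.1.2), a + (JJ k : ℤ) + 1) : WW) = y := by
              rw [← h5.2.1, ← hyw, h5.1]
            rw [e1, e2]
        have := h1 _ h6
        rw [this] at hop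
        exact Bool.false_ne_true hop
      · exfalso
        have := hspoke x y hPG hxw hyw (by omega) (by omega)
        rw [this] at hop
        exact Bool.false_ne_true hop
    · by_cases hyw : y.1.1 = w
      · exfalso
        have h5 : a ≤ y.2 ∧ y.2 ≤ a + 2 * JJ k + 1 := by
          rcases hh with h | ⟨h, h'⟩ <;> omega
        have := hspoke y x hPG.symm hyw hxw h5.1 h5.2
        rw [Sym2.eq_swap, this] at hop
        exact Bool.false_ne_true hop
      · right; right
        have h5 : a ≤ y.2 ∧ y.2 ≤ a + 2 * JJ k + 1 := by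
          rcases hh with h | ⟨h, h'⟩ <;> omega
        have h6 : (openGraph (Xs N k w a) ω).Reachable z y := by
          refine hzr.trans ?_
          apply SimpleGraph.Adj.reachable
          rw [openGraph_adj, Xs_adj]
          exact ⟨⟨hadj, ⟨hxw, hyw⟩, ⟨by omega, by omega⟩, h5⟩, hop⟩
        refine ⟨hyw, ?_, z, hz, h6⟩
        rcases lt_or_eq_of_le h5.2 with h7 | h7
        · exact h7
        · exact absurd h6 (h3 z y hz h7)
  rcases key with h | ⟨_, h⟩ | ⟨_, h, _⟩ <;> omega

/-- coordinates in a window -/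
def Sl (k : ℕ) (a : ℤ) : Set (Sym2 WW) := {e | ∀ v ∈ e, a ≤ v.2 ∧ v.2 ≤ a + 2 * JJ k + 1}

theorem BB_meas {N : ℕ → ℕ} (k : ℕ) (w : List ℕ) (a : ℤ) :
    MeasurableSet[cs (Sl k a)] (BB N k w a) := by
  classical
  unfold BB
  refine MeasurableSet.inter ?_ (MeasurableSet.inter ?_ ?_)
  · refine cs_mono ?_ _ (allclosed_meas _)
    intro e he
    rw [Finset.mem_coe] at he
    unfold F1 at he
    rw [Finset.mem_image] at he
    obtain ⟨j, _, rfl⟩ := he
    intro v hv
    rw [Sym2.mem_iff] at hv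
    rcases hv with rfl | rfl <;> simp only <;> constructor <;> omega
  · refine cs_mono ?_ _ (allclosed_meas _)
    intro e he
    rw [Finset.mem_coe] at he
    unfold F2 at he
    rw [Finset.mem_image] at he
    obtain ⟨q, hq, rfl⟩ := he
    rw [Finset.mem_filter, Finset.mem_product, Finset.mem_Icc] at hq
    intro v hv
    rw [Sym2.mem_iff] at hv
    rcases hv with rfl | rfl <;> exact hq.1.1
  · refine cs_mono ?_ _ (B3_meas N k w a)
    intro e he
    induction e using Sym2.ind with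
    | _ x y =>
      rw [SimpleGraph.mem_edgeSet, Xs_adj] at he
      intro v hv
      rw [Sym2.mem_iff] at hv
      rcases hv with rfl | rfl
      · exact he.2.2.1
      · exact he.2.2.2

/-- lower bound for the probability of the window event -/
noncomputable def sg (N : ℕ → ℕ) (k : ℕ) : ℝ := qq ^ (N k) * (1 / 32) ^ (2 * JJ k + 2) * (1 / 2)

theorem sg_pos (N : ℕ → ℕ) (k : ℕ) : 0 < sg N k := by
  unfold sg; have := qq_pos; positivity

theorem sg_le (N : ℕ → ℕ) (k : ℕ) : sg N k ≤ 1 := by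
  unfold sg
  have h1 : qq ^ (N k) ≤ 1 := pow_le_one₀ qq_pos.le qq_le
  have h2 : (1 / 32 : ℝ) ^ (2 * JJ k + 2) ≤ 1 := pow_le_one₀ (by norm_num) (by norm_num)
  have h3 : 0 < qq ^ (N k) := pow_pos qq_pos _
  have h4 : (0 : ℝ) < (1 / 32 : ℝ) ^ (2 * JJ k + 2) := by positivity
  nlinarith [mul_le_mul h1 h2 h4.le zero_le_one]

theorem BB_prob {N : ℕ → ℕ} {k : ℕ} {w : List ℕ} (hw : w.length = hd k) (a : ℤ) :
    ENNReal.ofReal (sg N k) ≤ mu _ pp pp_le (BB N k w a) := by
  classical
  unfold BB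
  rw [mu_inter pp pp_le (I := {e | ∀ v ∈ e, v.1.1 = w}) (J := {e | ∃ v ∈ e, v.1.1 ≠ w}) ?_ ?_ ?_,
    mu_inter pp pp_le (I := {e | ∃ v ∈ e, v.1.1 = w}) (J := {e | ∀ v ∈ e, v.1.1 ≠ w}) ?_ ?_ ?_]
  · have h1 := closed_lower (F1 N k w a) (N k) (F1_card N k w a)
    have h2 := closed_lower (F2 k w a) ((dd + 1) * (2 * JJ k + 2)) (F2_card k w a)
    have h3 : ENNReal.ofReal (1 / 2) ≤ mu _ pp pp_le (B3 N k w a) := by
      have hc := B3_compl N hw a
      have hm : MeasurableSet (B3 N k w a) := cs_le _ _ (B3_meas N k w a)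
      rw [prob_compl_eq_one_sub hm] at hc
      have h4 : (1 : ENNReal) ≤ mu _ pp pp_le (B3 N k w a) + ENNReal.ofReal (1 / 2) := by
        rw [tsub_le_iff_left] at hc
        exact hc
      have h5 : (1 : ENNReal) = ENNReal.ofReal (1 / 2) + ENNReal.ofReal (1 / 2) := by
        rw [← ENNReal.ofReal_add (by norm_num) (by norm_num)]
        norm_num
      rw [h5] at h4
      exact (ENNReal.add_le_add_iff_right ENNReal.ofReal_ne_top).1 h4
    have h6 : ENNReal.ofReal ((1 / 32) ^ (2 * JJ k + 2)) ≤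
        mu _ pp pp_le {ω : Sym2 WW → Bool | ∀ e ∈ F2 k w a, ω e = false} := by
      refine le_trans ?_ h2
      apply ENNReal.ofReal_le_ofReal
      rw [pow_mul]
      exact pow_le_pow_left₀ (by norm_num) qq_pow _
    unfold sg
    rw [mul_assoc, ENNReal.ofReal_mul (pow_pos qq_pos _).le, ENNReal.ofReal_mul (by positivity)]
    exact mul_le_mul' h1 (mul_le_mul' h6 h3)
  · rw [Set.disjoint_left]
    rintro e ⟨v, hv, hv2⟩ h
    exact h v hv hv2
  · refine cs_mono ?_ _ (allclosed_meas _)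
    intro e he
    rw [Finset.mem_coe] at he
    unfold F2 at he
    rw [Finset.mem_image] at he
    obtain ⟨q, hq, rfl⟩ := he
    exact ⟨_, Sym2.mem_mk_left _ _, rfl⟩
  · refine cs_mono ?_ _ (B3_meas N k w a)
    intro e he
    induction e using Sym2.ind with
    | _ x y =>
      rw [SimpleGraph.mem_edgeSet, Xs_adj] at he
      intro v hv
      rw [Sym2.mem_iff] at hv
      rcases hv with rfl | rfl
      · exact he.2.1.1
      · exact he.2.1.2
  · rw [Set.disjoint_left]
    rintro e h ⟨v, hv, hv2⟩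
    exact hv2 (h v hv)
  · refine cs_mono ?_ _ (allclosed_meas _)
    intro e he
    rw [Finset.mem_coe] at he
    unfold F1 at he
    rw [Finset.mem_image] at he
    obtain ⟨j, _, rfl⟩ := he
    intro v hv
    rw [Sym2.mem_iff] at hv
    rcases hv with rfl | rfl <;> rfl
  · refine MeasurableSet.inter ?_ ?_
    · refine cs_mono ?_ _ (allclosed_meas _)
      intro e he
      rw [Finset.mem_coe] at he
      unfold F2 at he
      rw [Finset.mem_image] at he
      obtain ⟨q, hq, rfl⟩ := he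
      rw [Finset.mem_filter] at hq
      exact ⟨_, Sym2.mem_mk_right _ _, hq.2⟩
    · refine cs_mono ?_ _ (B3_meas N k w a)
      intro e he
      induction e using Sym2.ind with
      | _ x y =>
        rw [SimpleGraph.mem_edgeSet, Xs_adj] at he
        exact ⟨x, Sym2.mem_mk_left _ _, he.2.1.1⟩

theorem pole_decay {N : ℕ → ℕ} {k : ℕ} {w : List ℕ} (hw : w.length = hd k) (m n : ℤ) (hmn : m ≤ n) :
    mu _ pp pp_le (cn (reg N (Ir k w)) ((w, 0), m) ((w, 0), n)) ≤
      ENNReal.ofReal (1 - sg N k) ^ ((n - m).natAbs / (2 * JJ k + 2)) := by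
  classical
  set ℓ : ℕ := 2 * JJ k + 2 with hℓ
  set R : ℕ := (n - m).natAbs / ℓ with hR
  have hRn : (R * ℓ : ℤ) ≤ n - m := by
    have h1 : R * ℓ ≤ (n - m).natAbs := Nat.div_mul_le_self _ _
    have h2 : ((n - m).natAbs : ℤ) = n - m := by omega
    rw [← h2]; exact_mod_cast h1
  have hsub : cn (reg N (Ir k w)) ((w, 0), m) ((w, 0), n) ⊆
      ⋂ r ∈ Finset.range R, (BB N k w (m + r * ℓ))ᶜ := by
    intro ω hω
    simp only [Set.mem_iInter, Set.mem_compl_iff, Finset.mem_range]
    intro r hr hBB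
    refine BB_sep hw hBB (x := ((w, 0), m)) (y := ((w, 0), n)) ?_ ?_ hω
    · simp only
      have : (0 : ℤ) ≤ (r : ℤ) * ℓ := by positivity
      omega
    · simp only
      have h3 : ((r : ℤ) + 1) * ℓ ≤ R * ℓ := by
        have : ((r : ℤ) + 1) ≤ R := by exact_mod_cast hr
        have h4 : (0 : ℤ) ≤ ℓ := by positivity
        exact mul_le_mul_of_nonneg_right this h4
      have h5 : ((r : ℤ) + 1) * ℓ = r * ℓ + (2 * JJ k + 2) := by
        rw [hℓ]; push_cast; ring
      omega
  refine (measure_mono hsub).trans ?_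
  have hdis : Set.PairwiseDisjoint ((Finset.range R : Finset ℕ) : Set ℕ)
      (fun r : ℕ => Sl k (m + r * ℓ)) := by
    intro r _ r' _ hne
    rw [Function.onFun, Set.disjoint_left]
    intro e he he'
    induction e using Sym2.ind with
    | _ x y =>
      have h1 := he x (Sym2.mem_mk_left _ _)
      have h2 := he' x (Sym2.mem_mk_left _ _)
      have h4 : (0 : ℤ) < ℓ := by rw [hℓ]; positivity
      have h5 : (ℓ : ℤ) = 2 * JJ k + 2 := by rw [hℓ]; push_cast; ring
      rcases lt_or_gt_of_ne hne with h | h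
      · have h3 : ((r : ℤ) + 1) * ℓ ≤ r' * ℓ :=
          mul_le_mul_of_nonneg_right (by exact_mod_cast h) h4.le
        have h6 : ((r : ℤ) + 1) * ℓ = r * ℓ + ℓ := by ring
        omega
      · have h3 : ((r' : ℤ) + 1) * ℓ ≤ r * ℓ :=
          mul_le_mul_of_nonneg_right (by exact_mod_cast h) h4.le
        have h6 : ((r' : ℤ) + 1) * ℓ = r' * ℓ + ℓ := by ring
        omega
  rw [(mu_biInter pp pp_le (Finset.range R) (fun r : ℕ => Sl k (m + r * ℓ)) hdis
    (fun r : ℕ => (BB N k w (m + r * ℓ))ᶜ) (fun r _ => (BB_meas k w _).compl)).2]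
  have h1 : ∀ r ∈ Finset.range R, mu _ pp pp_le (BB N k w (m + r * ℓ))ᶜ ≤
      ENNReal.ofReal (1 - sg N k) := by
    intro r _
    rw [prob_compl_eq_one_sub (cs_le _ _ (BB_meas k w _)), ENNReal.ofReal_sub _ (sg_pos N k).le,
      ENNReal.ofReal_one]
    exact tsub_le_tsub_left (BB_prob hw _) _
  refine (Finset.prod_le_pow_card _ _ _ h1).trans ?_
  rw [Finset.card_range]

theorem tsum_div (ℓ : ℕ) (hℓ : 0 < ℓ) (σ : ℝ) (h0 : 0 < σ) (h1 : σ ≤ 1) :
    ∑' n : ℕ, ENNReal.ofReal (1 - σ) ^ (n / ℓ) ≤ ENNReal.ofReal (ℓ / σ) := by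
  haveI : NeZero ℓ := ⟨hℓ.ne'⟩
  have h2 : ∑' n : ℕ, ENNReal.ofReal (1 - σ) ^ (n / ℓ) =
      ∑' x : ℕ × Fin ℓ, ENNReal.ofReal (1 - σ) ^ x.1 :=
    (Nat.divModEquiv ℓ).tsum_eq (fun x : ℕ × Fin ℓ => ENNReal.ofReal (1 - σ) ^ x.1)
  rw [h2, ENNReal.tsum_prod']
  have h3 : ∀ a : ℕ, ∑' _b : Fin ℓ, ENNReal.ofReal (1 - σ) ^ a =
      ℓ * ENNReal.ofReal (1 - σ) ^ a := by
    intro a
    rw [tsum_fintype]
    simp
  rw [tsum_congr h3, ENNReal.tsum_mul_left, ENNReal.tsum_geometric]
  have h4 : (1 : ENNReal) - ENNReal.ofReal (1 - σ) = ENNReal.ofReal σ := by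
    rw [← ENNReal.ofReal_one, ← ENNReal.ofReal_sub _ (by linarith)]
    congr 1; ring
  rw [h4, ← ENNReal.ofReal_inv_of_pos h0, ← ENNReal.ofReal_natCast,
    ← ENNReal.ofReal_mul (by positivity)]
  rfl

/-- the pole bound -/
theorem pole_mass {N : ℕ → ℕ} {k : ℕ} {w : List ℕ} (hw : w.length = hd k) (m : ℤ) :
    ∑' i : ℤ, mu _ pp pp_le (cn (reg N (Ir k w)) ((w, 0), i) ((w, 0), m)) ≤
      ENNReal.ofReal (2 * ((2 * JJ k + 2 : ℕ) / sg N k)) := by
  set ℓ : ℕ := 2 * JJ k + 2 with hℓ
  set f : ℕ → ENNReal := fun n => ENNReal.ofReal (1 - sg N k) ^ (n / ℓ) with hf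
  have h1 : ∀ i : ℤ, mu _ pp pp_le (cn (reg N (Ir k w)) ((w, 0), i) ((w, 0), m)) ≤
      f (i - m).natAbs := by
    intro i
    rcases le_total i m with h | h
    · refine (pole_decay hw i m h).trans (le_of_eq ?_)
      simp only [hf]
      rw [show (m - i).natAbs = (i - m).natAbs by omega]
    · rw [cn_symm]
      exact pole_decay hw m i h
  have h2 := tsum_div ℓ (by omega) (sg N k) (sg_pos N k) (sg_le N k)
  calc _ ≤ ∑' i : ℤ, f (i - m).natAbs := ENNReal.tsum_le_tsum h1
    _ = ∑' i : ℤ, f i.natAbs := (Equiv.subRight m).tsum_eq (fun t : ℤ => f t.natAbs)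
    _ = ∑' n : ℕ, f ((n : ℤ)).natAbs + ∑' n : ℕ, f ((-((n : ℤ) + 1))).natAbs :=
        tsum_of_nat_of_neg_add_one ENNReal.summable ENNReal.summable
    _ ≤ ∑' n : ℕ, f n + ∑' n : ℕ, f n := by
        gcongr with n n
        · rfl
        · have h3 : (-((n : ℤ) + 1)).natAbs = n + 1 := by omega
          rw [h3]
          simp only [hf]
          apply pow_le_pow_right_of_le_one'
          · rw [← ENNReal.ofReal_one]
            apply ENNReal.ofReal_le_ofReal
            have := sg_pos N k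
            linarith
          · exact Nat.div_le_div_right (by omega)
    _ ≤ ENNReal.ofReal (ℓ / sg N k) + ENNReal.ofReal (ℓ / sg N k) := add_le_add h2 h2
    _ = ENNReal.ofReal (2 * (ℓ / sg N k)) := by
        rw [← ENNReal.ofReal_add] <;> [(congr 1; ring); skip; skip] <;>
        · have := sg_pos N k
          positivity

end Pool.Agent.Helper713.Fib
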