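import Mathlib
import Pool.Agent.Helper713.FibK

set_option autoImplicit false
set_option linter.deprecated false

open MeasureTheory ProbabilityTheory

namespace Pool.Agent.Helper713.Fib

/-- index type of hub positions -/
abbrev HI : Type := {a : ℕ × List ℕ × ℤ // a.2.1.length = hd a.1 ∧ Valid a.2.1}

/-- position of a hub -/
def hpt (a : HI) : WW := ((a.1.2.1, 0), a.1.2.2)

theorem hpt_inj : Function.Injective hpt := by
  rintro ⟨⟨k, w, i⟩, h1, h2⟩ ⟨⟨k', w', i'⟩, h3, h4⟩ h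
  unfold hpt at h
  simp only [Prod.mk.injEq, and_true] at h
  simp only at h1 h3
  obtain ⟨rfl, rfl⟩ := h
  have : k = k' := hd_inj (h1.symm.trans h3)
  subst this
  rfl

/-- neighbouring hubs -/
def HNb (a : HI) : Set HI := {b | (b.1.1 = a.1.1 + 1 ∧ a.1.2.1 <:+ b.1.2.1) ∨
  ∃ j, a.1.1 = j + 1 ∧ ((b.1.1 = j ∧ b.1.2.1 = up j a.1.2.1) ∨
    (b.1.1 = a.1.1 ∧ up j a.1.2.1 <:+ b.1.2.1 ∧ b.1.2.1 ≠ a.1.2.1))}

open Classical in
/-- upper part of the finite list of neighbouring hub words -/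
noncomputable def UU : ℕ → List ℕ → Finset (ℕ × List ℕ)
  | 0, _ => ∅
  | j + 1, w => {(j, up j w)} ∪ ((kids j (up j w)).filter (fun u => u ≠ w)).image (fun u => (j + 1, u))

open Classical in
/-- neighbouring hub words -/
noncomputable def UA (k : ℕ) (w : List ℕ) : Finset (ℕ × List ℕ) :=
  (kids k w).image (fun u => (k + 1, u)) ∪ UU k w

theorem UA_mem {a b : HI} (h : b ∈ HNb a) : (b.1.1, b.1.2.1) ∈ UA a.1.1 a.1.2.1 := by
  classical
  obtain ⟨⟨k, w, i⟩, h1, h2⟩ := a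
  obtain ⟨⟨k', w', i'⟩, h3, h4⟩ := b
  simp only [HNb, Set.mem_setOf_eq] at h
  simp only at h1 h2 h3 h4
  simp only
  unfold UA
  rw [Finset.mem_union]
  rcases h with ⟨h5, h6⟩ | ⟨j, hj, h5⟩
  · left
    subst h5
    exact Finset.mem_image.2 ⟨w', kids_mem h1 h4 h3 h6, rfl⟩
  · subst hj
    right
    unfold UU
    rw [Finset.mem_union, Finset.mem_singleton]
    rcases h5 with ⟨h5, h6⟩ | ⟨h5, h6, h7⟩
    · left; rw [h5, h6]
    · right
      subst h5
      exact Finset.mem_image.2 ⟨w', Finset.mem_filter.2 ⟨kids_mem (up_len h1) h4 h3 h6, h7⟩, rfl⟩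

/-- real upper bound for the pole mass -/
noncomputable def VV (N : ℕ → ℕ) (k : ℕ) : ℝ := 2 * ((2 * JJ k + 2 : ℕ) / sg N k)

/-- real upper bound for the crossing mass -/
noncomputable def MR (k : ℕ) : ℝ := (4 * LL k + 2) * ee k

theorem VV_pos (N : ℕ → ℕ) (k : ℕ) : 0 < VV N k := by
  unfold VV; have := sg_pos N k; positivity

theorem MR_pos (k : ℕ) : 0 < MR k := by
  unfold MR; have := ee_pos k; positivity

/-- real kernel bound -/
noncomputable def KR (N : ℕ → ℕ) (l j δ : ℕ) : ℝ := 8 * VV N l * MR j * (1 / 2 ^ 125) ^ δ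

theorem KR_pos (N : ℕ → ℕ) (l j δ : ℕ) : 0 < KR N l j δ := by
  unfold KR; have := VV_pos N l; have := MR_pos j; positivity

theorem kernel' {N : ℕ → ℕ} {l j : ℕ} {w q u : List ℕ} (hw : w.length = hd l)
    (hq : q.length = hd j)
    (hA : Adjc l w j q) (hu : Bd j q u) (huw : u ≠ w) (hvw : Valid w) (hvu : Valid u)
    (m : ℤ) (δ : ℕ) (hδ : δ = if l = j + 1 ∧ u ≠ q then LL j else sL j) :
    ∑' n : ℤ, mu _ pp pp_le (cn (reg N (Ir l w)) ((w, 0), m) ((u, 0), n)) ≤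
      ENNReal.ofReal (KR N l j δ) := by
  refine (kernel hw hq hA hu huw hvw hvu (ENNReal.ofReal (VV N l)) (pole_mass hw) m δ hδ).trans ?_
  have hM : MM j ≤ ENNReal.ofReal (MR j) := MM_bound j
  unfold cc
  have h1 := VV_pos N l
  have h2 := MR_pos j
  calc _ ≤ 4 * ENNReal.ofReal (VV N l) * ENNReal.ofReal (MR j) *
        ENNReal.ofReal (2 * (1 / 2 ^ 125) ^ δ) := by gcongr
    _ = ENNReal.ofReal (KR N l j δ) := by
        rw [show (4 : ENNReal) = ENNReal.ofReal 4 by simp, ← ENNReal.ofReal_mul (by norm_num),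
          ← ENNReal.ofReal_mul (by positivity), ← ENNReal.ofReal_mul (by positivity)]
        congr 1
        unfold KR
        ring

/-- the hypotheses on the parameters -/
structure Good (N : ℕ → ℕ) (F : ℕ → ℝ) : Prop where
  pos : ∀ k, 0 < F k
  down : ∀ k, (2 ^ 128 : ℝ) ^ (sL k) * KR N k k (sL k) * F (k + 1) ≤ F k / 6
  up : ∀ j, KR N (j + 1) j (sL j) * F j ≤ F (j + 1) / 6
  sib : ∀ j, (2 ^ 128 : ℝ) ^ (sL j) * KR N (j + 1) j (LL j) ≤ 1 / 6

theorem card_bound {k : ℕ} {w : List ℕ} (hw : w.length = hd k) (s : Finset (List ℕ))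
    (hs : s ⊆ kids k w) : ((s.card : ℕ) : ℝ) ≤ (2 ^ 128 : ℝ) ^ (sL k) := by
  have h1 : s.card ≤ dd ^ (sL k) := (Finset.card_le_card hs).trans (kids_card hw)
  have h2 : (s.card : ℝ) ≤ ((dd ^ (sL k) : ℕ) : ℝ) := Nat.cast_le.2 h1
  refine h2.trans (le_of_eq ?_)
  rw [Nat.cast_pow, Nat.cast_pow, Nat.cast_ofNat]

/-- total weight of the exits over one neighbouring hub -/
noncomputable def TW (N : ℕ → ℕ) (F : ℕ → ℝ) (k : ℕ) (w : List ℕ) (m : ℤ) (q : ℕ × List ℕ) :
    ENNReal :=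
  ∑' n : ℤ, mu _ pp pp_le (cn (reg N (Ir k w)) ((w, 0), m) ((q.2, 0), n)) * ENNReal.ofReal (F q.1)

theorem TW_le {N : ℕ → ℕ} {F : ℕ → ℝ} {k : ℕ} {w : List ℕ} {m : ℤ} {q : ℕ × List ℕ} {K : ℝ}
    (hK : 0 ≤ K)
    (h : ∑' n : ℤ, mu _ pp pp_le (cn (reg N (Ir k w)) ((w, 0), m) ((q.2, 0), n)) ≤
      ENNReal.ofReal K) : TW N F k w m q ≤ ENNReal.ofReal (K * F q.1) := by
  unfold TW
  rw [ENNReal.tsum_mul_right, ENNReal.ofReal_mul hK]
  gcongr

theorem sum_card_le (s : Finset (List ℕ)) (f : List ℕ → ENNReal) (c C D : ℝ)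
    (hf : ∀ u ∈ s, f u ≤ ENNReal.ofReal c) (hc : 0 ≤ c) (hC : (s.card : ℝ) ≤ C)
    (hD : C * c ≤ D) : ∑ u ∈ s, f u ≤ ENNReal.ofReal D := by
  refine (Finset.sum_le_card_nsmul _ _ _ hf).trans ?_
  rw [nsmul_eq_mul, ← ENNReal.ofReal_natCast, ← ENNReal.ofReal_mul (Nat.cast_nonneg _)]
  apply ENNReal.ofReal_le_ofReal
  exact (mul_le_mul_of_nonneg_right hC hc).trans hD

theorem super_kids {N : ℕ → ℕ} {F : ℕ → ℝ} (hG : Good N F) {k : ℕ} {w : List ℕ}
    (hw : w.length = hd k) (hvw : Valid w) (m : ℤ) :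
    ∑ u ∈ kids k w, TW N F k w m (k + 1, u) ≤ ENNReal.ofReal (F k / 6) := by
  refine sum_card_le (kids k w) _ (KR N k k (sL k) * F (k + 1)) ((2 ^ 128 : ℝ) ^ (sL k)) (F k / 6)
    ?_ (mul_pos (KR_pos _ _ _ _) (hG.pos _)).le (card_bound hw _ (Finset.Subset.refl _)) ?_
  · intro u hu
    obtain ⟨h1, h2, h3⟩ := kids_prop hw hu
    refine TW_le (q := (k + 1, u)) (KR_pos _ _ _ _).le ?_
    refine kernel' hw hw (Or.inl ⟨rfl, rfl⟩) (Or.inr ⟨h2, h1⟩) ?_ hvw (h3 hvw) m (sL k) ?_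
    · intro h
      rw [h, hw] at h2
      have := hd_lt k
      omega
    · rw [if_neg (by omega)]
  · rw [← mul_assoc]
    exact hG.down k

theorem super_up {N : ℕ → ℕ} {F : ℕ → ℝ} (hG : Good N F) {j : ℕ} {w : List ℕ}
    (hw : w.length = hd (j + 1)) (hvw : Valid w) (m : ℤ) :
    TW N F (j + 1) w m (j, up j w) ≤ ENNReal.ofReal (F (j + 1) / 6) := by
  refine le_trans (TW_le (q := (j, up j w)) (KR_pos N (j + 1) j (sL j)).le ?_) ?_
  · refine kernel' hw (up_len hw) (Or.inr ⟨rfl, rfl⟩) (Or.inl rfl) ?_ hvw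
      (valid_suffix hvw (up_suffix j w)) m (sL j) ?_
    · intro h
      have h1 := up_len hw
      rw [h, hw] at h1
      have := hd_lt j
      omega
    · rw [if_neg (by simp)]
  · exact ENNReal.ofReal_le_ofReal (hG.up j)

open Classical in
theorem super_sib {N : ℕ → ℕ} {F : ℕ → ℝ} (hG : Good N F) {j : ℕ} {w : List ℕ}
    (hw : w.length = hd (j + 1)) (hvw : Valid w) (m : ℤ) :
    ∑ u ∈ (kids j (up j w)).filter (fun u => u ≠ w), TW N F (j + 1) w m (j + 1, u) ≤
      ENNReal.ofReal (F (j + 1) / 6) := by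
  have h4 := KR_pos N (j + 1) j (LL j)
  have hFk := hG.pos (j + 1)
  refine sum_card_le _ _ (KR N (j + 1) j (LL j) * F (j + 1)) ((2 ^ 128 : ℝ) ^ (sL j))
    (F (j + 1) / 6) ?_ (mul_pos h4 hFk).le
    (card_bound (up_len hw) _ (Finset.filter_subset _ _)) ?_
  · intro u hu
    rw [Finset.mem_filter] at hu
    obtain ⟨g1, g2, g3⟩ := kids_prop (up_len hw) hu.1
    refine TW_le (q := (j + 1, u)) (KR_pos _ _ _ _).le ?_
    refine kernel' hw (up_len hw) (Or.inr ⟨rfl, rfl⟩) (Or.inr ⟨g2, g1⟩) hu.2 hvw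
      (g3 (valid_suffix hvw (up_suffix j w))) m (LL j) ?_
    rw [if_pos]
    refine ⟨rfl, ?_⟩
    intro h
    rw [h, up_len hw] at g2
    have := hd_lt j
    omega
  · have h2 := hG.sib j
    calc (2 ^ 128 : ℝ) ^ (sL j) * (KR N (j + 1) j (LL j) * F (j + 1))
        = ((2 ^ 128 : ℝ) ^ (sL j) * KR N (j + 1) j (LL j)) * F (j + 1) := by ring
      _ ≤ (1 / 6) * F (j + 1) := mul_le_mul_of_nonneg_right h2 hFk.le
      _ = _ := by ring

theorem sum_union_le (s t : Finset (ℕ × List ℕ)) (f : ℕ × List ℕ → ENNReal) [DecidableEq (ℕ × List ℕ)] :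
    ∑ z ∈ s ∪ t, f z ≤ ∑ z ∈ s, f z + ∑ z ∈ t, f z := by
  rw [← Finset.sum_union_inter]
  exact le_self_add

theorem super_sum {N : ℕ → ℕ} {F : ℕ → ℝ} (hG : Good N F) {k : ℕ} {w : List ℕ}
    (hw : w.length = hd k) (hvw : Valid w) (m : ℤ) :
    ∑ q ∈ UA k w, TW N F k w m q ≤ ENNReal.ofReal (F k / 2) := by
  classical
  have hFk := hG.pos k
  unfold UA
  refine (sum_union_le _ _ _).trans ?_
  have p1 : ∑ q ∈ (kids k w).image (fun u => (k + 1, u)), TW N F k w m q ≤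
      ENNReal.ofReal (F k / 6) :=
    (Finset.sum_image_le_of_nonneg (fun _ _ => zero_le')).trans (super_kids hG hw hvw m)
  have p2 : ∑ q ∈ UU k w, TW N F k w m q ≤
      ENNReal.ofReal (F k / 6) + ENNReal.ofReal (F k / 6) := by
    cases k with
    | zero => simp [UU]
    | succ j =>
      unfold UU
      refine (sum_union_le _ _ _).trans ?_
      refine add_le_add ?_ ?_
      · rw [Finset.sum_singleton]
        exact super_up hG hw hvw m
      · exact (Finset.sum_image_le_of_nonneg (fun _ _ => zero_le')).trans (super_sib hG hw hvw m)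
  refine (add_le_add p1 p2).trans (le_of_eq ?_)
  rw [← ENNReal.ofReal_add (by positivity) (by positivity),
    ← ENNReal.ofReal_add (by positivity) (by positivity)]
  congr 1
  ring

/-- projection of the neighbouring hubs -/
noncomputable def hphi (a : HI) (b : HNb a) : (UA a.1.1 a.1.2.1) × ℤ :=
  (⟨(b.1.1.1, b.1.1.2.1), UA_mem b.2⟩, b.1.1.2.2)

theorem hphi_inj (a : HI) : Function.Injective (hphi a) := by
  intro b b' h
  unfold hphi at h
  simp only [Prod.mk.injEq, Subtype.mk.injEq] at h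
  apply Subtype.ext
  apply Subtype.ext
  exact Prod.ext h.1.1 (Prod.ext h.1.2 h.2)

theorem super {N : ℕ → ℕ} {F : ℕ → ℝ} (hG : Good N F) (a : HI) :
    ∑' b : HNb a, mu _ pp pp_le (cn (reg N (Ir a.1.1 a.1.2.1)) (hpt a) (hpt b)) *
      ENNReal.ofReal (F b.1.1.1) ≤ ENNReal.ofReal (F a.1.1) / 2 := by
  have h1 := ENNReal.tsum_comp_le_tsum_of_injective (hphi_inj a)
    (fun x : (UA a.1.1 a.1.2.1) × ℤ =>
      mu _ pp pp_le (cn (reg N (Ir a.1.1 a.1.2.1)) ((a.1.2.1, 0), a.1.2.2) ((x.1.1.2, 0), x.2)) *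
      ENNReal.ofReal (F x.1.1.1))
  refine le_trans h1 ?_
  rw [ENNReal.tsum_prod']
  have h2 := super_sum hG a.2.1 a.2.2 a.1.2.2
  rw [← Finset.tsum_subtype] at h2
  have h3 : ENNReal.ofReal (F a.1.1 / 2) = ENNReal.ofReal (F a.1.1) / 2 := by
    rw [ENNReal.ofReal_div_of_pos (by norm_num)]
    simp
  rw [← h3]
  exact h2

theorem hub_exit {N : ℕ → ℕ} (a : HI) (z t : WW) (h1 : (PG N).Adj z t)
    (h2 : ¬ (reg N (Ir a.1.1 a.1.2.1)).Adj z t)
    (h3 : z = hpt a ∨ ∃ t', (reg N (Ir a.1.1 a.1.2.1)).Adj z t') : ∃ b ∈ HNb a, hpt b = z := by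
  obtain ⟨⟨k, w, m⟩, hw, hvw⟩ := a
  simp only at hw hvw h2 h3
  rw [reg_adj] at h2
  have hz : ¬ Ir k w z.1.1 := fun h => h2 ⟨h1, Or.inl h⟩
  rcases h3 with h3 | ⟨t', h3⟩
  · exfalso
    apply hz
    rw [h3]
    exact Or.inl rfl
  rw [reg_adj] at h3
  have ht : Ir k w t'.1.1 := h3.2.resolve_left hz
  rcases PG_words h3.1 with h4 | ⟨h4, h5, h6, h7⟩
  · exact absurd (h4 ▸ ht) hz
  have hvz : Valid z.1.1 := h1.1.1
  obtain ⟨⟨z1, z2⟩, z3⟩ := z
  simp only at h4 h6 h7 hvz hz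
  subst h4
  rcases Ir_exit hw hz ht h7.symm with ⟨h8, h9⟩ | ⟨j, hj, h8⟩
  · exact ⟨⟨(k + 1, z1, z3), h8, hvz⟩, Or.inl ⟨rfl, h9⟩, rfl⟩
  · subst hj
    rcases h8 with h8 | ⟨h8, h9, h10⟩
    · exact ⟨⟨(j, z1, z3), by simp only; rw [h8]; exact up_len hw, hvz⟩,
        Or.inr ⟨j, rfl, Or.inl ⟨rfl, h8⟩⟩, rfl⟩
    · exact ⟨⟨(j + 1, z1, z3), h8, hvz⟩, Or.inr ⟨j, rfl, Or.inr ⟨rfl, h9, h10⟩⟩, rfl⟩

/-- the column over the root -/
def rootCol : Set WW := Set.range (fun n : ℤ => ((([], 0), n) : WW))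

theorem hub_target {N : ℕ → ℕ} {F : ℕ → ℝ} (hG : Good N F) (a : HI) :
    ∑' y : rootCol, mu _ pp pp_le (cn (reg N (Ir a.1.1 a.1.2.1)) (hpt a) y) ≤
      ENNReal.ofReal ((VV N 0 + 1) / F 0) * ENNReal.ofReal (F a.1.1) := by
  classical
  obtain ⟨⟨k, w, m⟩, hw, hvw⟩ := a
  simp only at hw hvw
  have hF0 := hG.pos 0
  have hinj : Function.Injective (fun n : ℤ => ((([], 0), n) : WW)) := by
    intro n n' h
    simpa using h
  have hrw : ∑' y : rootCol, mu _ pp pp_le (cn (reg N (Ir k w)) ((w, 0), m) y) =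
      ∑' n : ℤ, mu _ pp pp_le (cn (reg N (Ir k w)) ((w, 0), m) (([], 0), n)) := by
    unfold rootCol
    exact (tsum_range (fun y : WW => mu _ pp pp_le (cn (reg N (Ir k w)) ((w, 0), m) y)) hinj)
  show ∑' y : rootCol, mu _ pp pp_le (cn (reg N (Ir k w)) ((w, 0), m) y) ≤ _
  rw [hrw]
  simp only
  match k, hw with
  | 0, hw =>
    have hw0 : w = [] := List.length_eq_zero_iff.1 hw
    subst hw0
    have h1 : ∑' n : ℤ, mu _ pp pp_le (cn (reg N (Ir 0 [])) (([], 0), m) (([], 0), n)) ≤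
        ENNReal.ofReal (VV N 0) := by
      refine le_trans (le_of_eq ?_) (pole_mass (N := N) (k := 0) (w := []) rfl m)
      refine tsum_congr fun n => ?_
      rw [cn_symm]
    refine h1.trans ?_
    rw [← ENNReal.ofReal_mul (by have := VV_pos N 0; positivity)]
    apply ENNReal.ofReal_le_ofReal
    rw [div_mul_cancel₀ _ hF0.ne']
    linarith
  | 1, hw =>
    have hup : up 0 w = [] := by
      apply List.length_eq_zero_iff.1
      exact up_len hw
    have h1 := kernel' (N := N) (l := 1) (j := 0) (w := w) (q := []) (u := []) hw rfl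
      (Or.inr ⟨rfl, hup⟩) (Or.inl rfl) (by
        rintro rfl
        have := hd_lt 0
        simp [hd] at hw this
        omega) hvw trivial m (sL 0) (by rw [if_neg (by simp)])
    refine h1.trans ?_
    rw [← ENNReal.ofReal_mul (by have := VV_pos N 0; positivity)]
    apply ENNReal.ofReal_le_ofReal
    have h2 := hG.up 0
    have h3 := VV_pos N 0
    have h4 := hG.pos 1
    have h5 : KR N 1 0 (sL 0) ≤ F 1 / 6 / F 0 := by
      rw [le_div_iff₀ hF0]
      exact h2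
    refine h5.trans ?_
    rw [div_div, div_mul_eq_mul_div, div_le_div_iff₀ (by positivity) hF0]
    nlinarith [mul_pos h4 hF0, mul_pos h3 (mul_pos h4 hF0)]
  | k + 2, hw =>
    have h0 : ∀ n : ℤ, cn (reg N (Ir (k + 2) w)) ((w, 0), m) (([], 0), n) = ∅ := by
      intro n
      rw [Set.eq_empty_iff_forall_notMem]
      intro ω hω
      have hr : (openGraph (reg N (Ir (k + 2) w)) ω).Reachable ((w, 0), m) (([], 0), n) := hω
      have hge : ∀ v, Ir (k + 2) w v → 1 < v.length := by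
        have h6 : hd (k + 1) + 150 ≤ hd (k + 2) := gap (k + 1)
        have h7 := gap k
        rintro v (h | h | ⟨j, hj, h⟩)
        · rw [h, hw]; omega
        · have := h.2.1; omega
        · obtain rfl : j = k + 1 := by omega
          have := h.2.1; omega
      have : ((([], 0), n) : WW) ∈ {z : WW | 0 < z.1.1.length} := by
        refine reach_closed hr _ ?_ ?_
        · show 0 < w.length
          have : hd (k + 1) + 150 ≤ hd (k + 2) := gap (k + 1)
          omega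
        · intro x y hx hxy
          rw [openGraph_adj, reg_adj] at hxy
          have hx' : 0 < x.1.1.length := hx
          show 0 < y.1.1.length
          rcases PG_words hxy.1.1 with h4 | ⟨_, _, _, h4⟩
          · rw [← h4]; exact hx'
          · rcases hxy.1.2 with h5 | h5
            · have := hge _ h5
              rcases h4 with ⟨b, h4⟩ | ⟨b, h4⟩
              · rw [h4]; simp
              · rw [h4] at this
                simp at this
                omega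
            · have := hge _ h5
              omega
      have h6 : 0 < ([] : List ℕ).length := this
      simp at h6
    have h1 : ∀ n : ℤ, mu _ pp pp_le (cn (reg N (Ir (k + 2) w)) ((w, 0), m) (([], 0), n)) = 0 := by
      intro n; rw [h0 n, measure_empty]
    rw [tsum_congr h1]
    simp

theorem root_mass {N : ℕ → ℕ} {F : ℕ → ℝ} (hG : Good N F) :
    ∑' y : rootCol, mu _ pp pp_le (cn (PG N) (([], 0), 0) y) ≠ ⊤ := by
  have h := mass_bound (PG N) pp pp_le hpt hpt_inj (fun a => reg N (Ir a.1.1 a.1.2.1)) HNb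
    (fun a => ENNReal.ofReal (F a.1.1)) rootCol (ENNReal.ofReal ((VV N 0 + 1) / F 0))
    (fun a => reg_le _ _) (fun a z t => hub_exit a z t)
    (fun a => by simpa using hG.pos _) (fun a => ENNReal.ofReal_ne_top) ENNReal.ofReal_ne_top
    (fun a => super hG a) (fun a => hub_target hG a)
    (⟨(0, [], 0), rfl, trivial⟩ : HI)
  refine ne_top_of_le_ne_top ?_ h
  exact ENNReal.mul_ne_top (ENNReal.mul_ne_top (by norm_num) ENNReal.ofReal_ne_top)
    ENNReal.ofReal_ne_top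

end Pool.Agent.Helper713.Fib
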