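import Mathlib
import Pool.Agent.Helper713.FibL

set_option autoImplicit false
set_option linter.deprecated false

open MeasureTheory ProbabilityTheory

namespace Pool.Agent.Helper713.Fib

/-- clique edges between `A` and its complement at height `i` -/
noncomputable def cutE (n : ℕ) (w : List ℕ) (i : ℤ) (A : Finset ℕ) : Finset (Sym2 WW) := by
  classical
  exact (A ×ˢ (Finset.range n \ A)).image (fun q => s((((w, q.1), i) : WW), (((w, q.2), i) : WW)))

theorem cutE_card (n : ℕ) (w : List ℕ) (i : ℤ) (A : Finset ℕ) (hA : A ⊆ Finset.range n) :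
    (cutE n w i A).card = A.card * (n - A.card) := by
  classical
  unfold cutE
  rw [Finset.card_image_of_injOn, Finset.card_product, Finset.card_sdiff_of_subset hA,
    Finset.card_range]
  rintro ⟨a, b⟩ hab ⟨c, d⟩ hcd h
  simp only [Finset.coe_product, Finset.coe_sdiff, Set.mem_prod, Finset.mem_coe, Set.mem_diff] at hab hcd
  simp only [Sym2.eq_iff, Prod.mk.injEq, true_and, and_true] at h
  rcases h with ⟨h1, h2⟩ | ⟨h1, h2⟩
  · rw [h1, h2]
  · exfalso
    exact hcd.2.2 (h1 ▸ hab.1)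

/-- the level at height `i` is connected -/
def LC (n : ℕ) (w : List ℕ) (i : ℤ) : Set (Sym2 WW → Bool) :=
  {ω | ∀ A : Finset ℕ, A ⊆ Finset.range n → A.Nonempty → 2 * A.card ≤ n →
    ∃ e ∈ cutE n w i A, ω e = true}

/-- edges inside the clique column -/
def CE (w : List ℕ) : Set (Sym2 WW) := {e | ∀ v ∈ e, v.1.1 = w}

theorem cutE_CE (n : ℕ) (w : List ℕ) (i : ℤ) (A : Finset ℕ) :
    (cutE n w i A : Set (Sym2 WW)) ⊆ CE w := by
  classical
  intro e he
  rw [Finset.mem_coe] at he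
  unfold cutE at he
  rw [Finset.mem_image] at he
  obtain ⟨q, _, rfl⟩ := he
  intro v hv
  rw [Sym2.mem_iff] at hv
  rcases hv with rfl | rfl <;> rfl

theorem LC_compl_sub (n : ℕ) (w : List ℕ) (i : ℤ) : (LC n w i)ᶜ ⊆
    ⋃ A ∈ (Finset.range n).powerset.filter (fun A => 1 ≤ A.card ∧ 2 * A.card ≤ n),
      {ω | ∀ e ∈ cutE n w i A, ω e = false} := by
  intro ω hω
  simp only [LC, Set.mem_compl_iff, Set.mem_setOf_eq, not_forall] at hω
  obtain ⟨A, h1, h2, h3, h4⟩ := hω
  push Not at h4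
  simp only [Set.mem_iUnion]
  refine ⟨A, ?_, ?_⟩
  · rw [Finset.mem_filter, Finset.mem_powerset]
    exact ⟨h1, Finset.card_pos.2 h2, h3⟩
  · intro e he
    have := h4 e he
    simpa using this

theorem LC_meas (n : ℕ) (w : List ℕ) (i : ℤ) : MeasurableSet[cs (CE w)] (LC n w i) := by
  classical
  have h : LC n w i = ⋂ (A : Finset ℕ), ⋂ (_ : A ⊆ Finset.range n), ⋂ (_ : A.Nonempty),
      ⋂ (_ : 2 * A.card ≤ n), ⋃ e ∈ cutE n w i A, {ω | ω e = true} := by
    ext ω
    simp only [LC, Set.mem_setOf_eq, Set.mem_iInter, Set.mem_iUnion, exists_prop]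
  rw [h]
  refine MeasurableSet.iInter fun A => MeasurableSet.iInter fun _ => MeasurableSet.iInter fun _ =>
    MeasurableSet.iInter fun _ => ?_
  refine Finset.measurableSet_biUnion _ fun e he => ?_
  exact cs_coord (cutE_CE n w i A he) true

theorem cut_num (n a : ℕ) (h1 : 1 ≤ a) (h2 : 2 * a ≤ n) (hn : (n : ℝ) * qq ^ (n / 2 - 1) ≤ 1 / 2) :
    ((n.choose a : ℕ) : ℝ) * qq ^ (a * (n - a)) ≤ n * qq ^ (n - 1) * (1 / 2) ^ (a - 1) := by
  have h3 : ((n.choose a : ℕ) : ℝ) ≤ (n : ℝ) ^ a := by exact_mod_cast Nat.choose_le_pow n a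
  obtain ⟨b, rfl⟩ : ∃ b, a = b + 1 := ⟨a - 1, by omega⟩
  obtain ⟨c, rfl⟩ : ∃ c, n = (b + 1) + (c + 1) := ⟨n - (b + 1) - 1, by omega⟩
  have e1 : (b + 1) * ((b + 1) + (c + 1) - (b + 1)) = ((b + 1) + (c + 1) - 1) + c * b := by
    have : (b + 1) + (c + 1) - (b + 1) = c + 1 := by omega
    rw [this]
    have : (b + 1) + (c + 1) - 1 = b + c + 1 := by omega
    rw [this]; ring
  set n : ℕ := (b + 1) + (c + 1) with hn'
  rw [e1]
  have h4 : (n : ℝ) * qq ^ c ≤ 1 / 2 := by
    refine le_trans ?_ hn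
    have : qq ^ c ≤ qq ^ (n / 2 - 1) := pow_le_pow_of_le_one qq_pos.le qq_le (by omega)
    gcongr
  have h5 : (0 : ℝ) < qq ^ (n - 1) := pow_pos qq_pos _
  have h6 : (0 : ℝ) < qq ^ c := pow_pos qq_pos _
  have h7 : ((n : ℝ) * qq ^ c) ^ b ≤ (1 / 2) ^ b := pow_le_pow_left₀ (by positivity) h4 _
  calc ((n.choose (b + 1) : ℕ) : ℝ) * qq ^ (n - 1 + c * b) ≤ (n : ℝ) ^ (b + 1) * qq ^ (n - 1 + c * b) := by
        have : (0 : ℝ) < qq ^ (n - 1 + c * b) := pow_pos qq_pos _
        gcongr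
    _ = n * qq ^ (n - 1) * ((n : ℝ) * qq ^ c) ^ b := by
        rw [pow_add qq, pow_mul, mul_pow, pow_succ]; ring
    _ ≤ n * qq ^ (n - 1) * (1 / 2) ^ b := by gcongr
    _ = n * qq ^ (n - 1) * (1 / 2) ^ (b + 1 - 1) := by simp

theorem LC_prob (n : ℕ) (w : List ℕ) (i : ℤ) (hn : (n : ℝ) * qq ^ (n / 2 - 1) ≤ 1 / 2) :
    mu _ pp pp_le (LC n w i)ᶜ ≤ ENNReal.ofReal (2 * (n * qq ^ (n - 1))) := by
  classical
  refine (measure_mono (LC_compl_sub n w i)).trans ((measure_biUnion_finset_le _ _).trans ?_)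
  have h1 : ∀ A ∈ (Finset.range n).powerset.filter (fun A => 1 ≤ A.card ∧ 2 * A.card ≤ n),
      mu _ pp pp_le {ω : Sym2 WW → Bool | ∀ e ∈ cutE n w i A, ω e = false} =
        ENNReal.ofReal (qq ^ (A.card * (n - A.card))) := by
    intro A hA
    rw [Finset.mem_filter, Finset.mem_powerset] at hA
    rw [mu_allclosed, one_sub_pp, cutE_card n w i A hA.1, ← ENNReal.ofReal_pow qq_pos.le]
  rw [Finset.sum_congr rfl h1, ← ENNReal.ofReal_sum_of_nonneg (fun _ _ => (pow_pos qq_pos _).le)]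
  apply ENNReal.ofReal_le_ofReal
  rw [Finset.sum_filter]
  have h2 := Finset.sum_powerset_apply_card
    (fun a => if 1 ≤ a ∧ 2 * a ≤ n then qq ^ (a * (n - a)) else (0 : ℝ)) (x := Finset.range n)
  rw [h2, Finset.card_range, Finset.sum_range_succ']
  simp only [nsmul_eq_mul]
  have h3 : ∀ a ∈ Finset.range n, ((n.choose (a + 1) : ℕ) : ℝ) *
      (if 1 ≤ a + 1 ∧ 2 * (a + 1) ≤ n then qq ^ ((a + 1) * (n - (a + 1))) else 0) ≤
      n * qq ^ (n - 1) * (1 / 2) ^ a := by
    intro a _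
    have h5 : (0 : ℝ) < qq ^ (n - 1) := pow_pos qq_pos _
    by_cases h : 1 ≤ a + 1 ∧ 2 * (a + 1) ≤ n
    · rw [if_pos h]
      exact cut_num n (a + 1) h.1 h.2 hn
    · rw [if_neg h, mul_zero]; positivity
  have h4 : ∑ a ∈ Finset.range n, (1 / 2 : ℝ) ^ a ≤ 2 := by
    rw [geom_sum_eq (by norm_num)]
    have : (0 : ℝ) < (1 / 2) ^ n := by positivity
    norm_num
    linarith
  have h5 : (0 : ℝ) < qq ^ (n - 1) := pow_pos qq_pos _
  calc _ ≤ ∑ a ∈ Finset.range n, (n * qq ^ (n - 1) * (1 / 2) ^ a) + 0 := by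
        refine add_le_add (Finset.sum_le_sum h3) ?_
        simp
    _ = n * qq ^ (n - 1) * ∑ a ∈ Finset.range n, (1 / 2 : ℝ) ^ a := by
        rw [add_zero, Finset.mul_sum]
    _ ≤ n * qq ^ (n - 1) * 2 := by gcongr
    _ = _ := by ring

/-- if the level is connected then all its vertices are connected to each other -/
theorem LC_reach {N : ℕ → ℕ} {k : ℕ} {w : List ℕ} (hw : w.length = hd k) (hv : Valid w) {i : ℤ}
    {ω : Sym2 WW → Bool} (h : ω ∈ LC (N k) w i) {j : ℕ} (hj : j < N k) :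
    (openGraph (PG N) ω).Reachable ((w, 0), i) ((w, j), i) := by
  classical
  have h0 : 0 < N k := by omega
  set R : Finset ℕ := (Finset.range (N k)).filter
    (fun j => (openGraph (PG N) ω).Reachable ((w, 0), i) ((w, j), i)) with hR
  have h0R : 0 ∈ R := by
    rw [hR, Finset.mem_filter]
    exact ⟨Finset.mem_range.2 h0, SimpleGraph.Reachable.refl _⟩
  have hRs : R ⊆ Finset.range (N k) := Finset.filter_subset _ _
  by_contra hcon
  have hjR : j ∉ R := by
    rw [hR, Finset.mem_filter]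
    exact fun h => hcon h.2
  -- an open edge leaving R
  have hcross : ∃ a ∈ R, ∃ b ∈ Finset.range (N k) \ R, ω s((((w, a), i) : WW), (((w, b), i) : WW)) = true := by
    by_cases hc : 2 * R.card ≤ N k
    · obtain ⟨e, he, hoe⟩ := h R hRs ⟨0, h0R⟩ hc
      unfold cutE at he
      rw [Finset.mem_image] at he
      obtain ⟨q, hq, rfl⟩ := he
      rw [Finset.mem_product] at hq
      exact ⟨q.1, hq.1, q.2, hq.2, hoe⟩
    · have hsub : Finset.range (N k) \ R ⊆ Finset.range (N k) := Finset.sdiff_subset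
      have hne : (Finset.range (N k) \ R).Nonempty := ⟨j, Finset.mem_sdiff.2 ⟨Finset.mem_range.2 hj, hjR⟩⟩
      have hcard : (Finset.range (N k) \ R).card = N k - R.card := by
        rw [Finset.card_sdiff_of_subset hRs, Finset.card_range]
      obtain ⟨e, he, hoe⟩ := h _ hsub hne (by omega)
      unfold cutE at he
      rw [Finset.mem_image] at he
      obtain ⟨q, hq, rfl⟩ := he
      rw [Finset.mem_product] at hq
      have h2 : q.2 ∈ R := by
        have := (Finset.mem_sdiff.1 hq.2)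
        by_contra hn
        exact this.2 (Finset.mem_sdiff.2 ⟨this.1, hn⟩)
      refine ⟨q.2, h2, q.1, hq.1, ?_⟩
      rw [Sym2.eq_swap]
      exact hoe
  obtain ⟨a, ha, b, hb, hab⟩ := hcross
  have hb' := Finset.mem_sdiff.1 hb
  apply hb'.2
  rw [hR, Finset.mem_filter]
  refine ⟨hb'.1, ?_⟩
  rw [hR, Finset.mem_filter] at ha
  refine ha.2.trans ?_
  apply SimpleGraph.Adj.reachable
  rw [openGraph_adj, PG_adj]
  refine ⟨⟨⟨hv, ?_⟩, ⟨hv, ?_⟩, Or.inl ⟨rfl, Or.inl ⟨rfl, ?_⟩⟩⟩, hab⟩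
  · simp only; rw [hw, cl_hd]; exact Finset.mem_range.1 ha.1
  · simp only; rw [hw, cl_hd]; exact Finset.mem_range.1 hb'.1
  · simp only
    rintro rfl
    apply hb'.2
    rw [hR, Finset.mem_filter]
    exact ha

/-- vertical clique edges from height `i` to `i + 1` -/
noncomputable def vE (n : ℕ) (w : List ℕ) (i : ℤ) : Finset (Sym2 WW) := by
  classical
  exact (Finset.range n).image (fun j => s((((w, j), i) : WW), (((w, j), i + 1) : WW)))

theorem vE_card (n : ℕ) (w : List ℕ) (i : ℤ) : (vE n w i).card = n := by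
  classical
  unfold vE
  rw [Finset.card_image_of_injective, Finset.card_range]
  intro a b h
  simp only [Sym2.eq_iff, Prod.mk.injEq, true_and, and_true] at h
  rcases h with ⟨h1, _⟩ | ⟨⟨_, h1⟩, _⟩
  · exact h1
  · omega

theorem vE_CE (n : ℕ) (w : List ℕ) (i : ℤ) : (vE n w i : Set (Sym2 WW)) ⊆ CE w := by
  classical
  intro e he
  rw [Finset.mem_coe] at he
  unfold vE at he
  rw [Finset.mem_image] at he
  obtain ⟨q, _, rfl⟩ := he
  intro v hv
  rw [Sym2.mem_iff] at hv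
  rcases hv with rfl | rfl <;> rfl

/-- the pole event -/
def Po (n H : ℕ) (w : List ℕ) (i : ℤ) : Set (Sym2 WW → Bool) :=
  (⋂ a ∈ Finset.range (H + 1), LC n w (i + a)) ∩
    (⋂ a ∈ Finset.range H, {ω | ∀ e ∈ vE n w (i + a), ω e = false}ᶜ)

theorem Po_meas (n H : ℕ) (w : List ℕ) (i : ℤ) : MeasurableSet[cs (CE w)] (Po n H w i) := by
  unfold Po
  refine MeasurableSet.inter ?_ ?_
  · exact Finset.measurableSet_biInter _ fun a _ => LC_meas n w _
  · exact Finset.measurableSet_biInter _ fun a _ =>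
      (cs_mono (vE_CE n w _) _ (allclosed_meas _)).compl

theorem Po_prob (n H : ℕ) (w : List ℕ) (i : ℤ) (hn0 : 0 < n)
    (hn : (n : ℝ) * qq ^ (n / 2 - 1) ≤ 1 / 2)
    (hH : ((H : ℝ) + 1) * (3 * (n * qq ^ (n - 1))) ≤ 1 / 4) :
    3 / 4 ≤ (mu _ pp pp_le).real (Po n H w i) := by
  classical
  have hm : MeasurableSet (Po n H w i) := cs_le _ _ (Po_meas n H w i)
  have hc : mu _ pp pp_le (Po n H w i)ᶜ ≤ ENNReal.ofReal (1 / 4) := by
    have hsub : (Po n H w i)ᶜ ⊆ (⋃ a ∈ Finset.range (H + 1), (LC n w (i + a))ᶜ) ∪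
        (⋃ a ∈ Finset.range H, {ω | ∀ e ∈ vE n w (i + a), ω e = false}) := by
      unfold Po
      rw [Set.compl_inter]
      apply Set.union_subset_union
      · rw [Set.compl_iInter₂]
      · rw [Set.compl_iInter₂]
        simp only [compl_compl]
        exact subset_rfl
    have h5 : (0 : ℝ) < qq ^ (n - 1) := pow_pos qq_pos _
    have hv : ∀ a ∈ Finset.range H, mu _ pp pp_le
        {ω : Sym2 WW → Bool | ∀ e ∈ vE n w (i + a), ω e = false} ≤
        ENNReal.ofReal (n * qq ^ (n - 1)) := by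
      intro a _
      rw [mu_allclosed, one_sub_pp, vE_card, ← ENNReal.ofReal_pow qq_pos.le]
      apply ENNReal.ofReal_le_ofReal
      have h6 : qq ^ n ≤ qq ^ (n - 1) := pow_le_pow_of_le_one qq_pos.le qq_le (by omega)
      have h7 : (1 : ℝ) ≤ n := by exact_mod_cast hn0
      nlinarith
    have hlc : ∀ a ∈ Finset.range (H + 1), mu _ pp pp_le (LC n w (i + (a : ℤ)))ᶜ ≤
        ENNReal.ofReal (2 * (n * qq ^ (n - 1))) := fun a _ => LC_prob n w (i + a) hn
    refine (measure_mono hsub).trans ((measure_union_le _ _).trans ?_)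
    refine (add_le_add ((measure_biUnion_finset_le _ _).trans
      (Finset.sum_le_card_nsmul _ _ _ hlc))
      ((measure_biUnion_finset_le _ _).trans (Finset.sum_le_card_nsmul _ _ _ hv))).trans ?_
    rw [Finset.card_range, Finset.card_range, nsmul_eq_mul, nsmul_eq_mul, ← ENNReal.ofReal_natCast,
      ← ENNReal.ofReal_natCast, ← ENNReal.ofReal_mul (by positivity),
      ← ENNReal.ofReal_mul (by positivity), ← ENNReal.ofReal_add (by positivity) (by positivity)]
    apply ENNReal.ofReal_le_ofReal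
    refine le_trans ?_ hH
    push_cast
    have h8 : (0 : ℝ) < n * qq ^ (n - 1) := by positivity
    nlinarith
  have h1 : (mu _ pp pp_le).real (Po n H w i)ᶜ ≤ 1 / 4 := by
    unfold Measure.real
    exact ENNReal.toReal_le_of_le_ofReal (by norm_num) hc
  rw [probReal_compl_eq_one_sub hm] at h1
  linarith

theorem Po_reach {N : ℕ → ℕ} {k H : ℕ} {w : List ℕ} (hw : w.length = hd k) (hv : Valid w)
    {i : ℤ} {ω : Sym2 WW → Bool} (h : ω ∈ Po (N k) H w i) (a : ℕ) (ha : a ≤ H) :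
    (openGraph (PG N) ω).Reachable ((w, 0), i) ((w, 0), i + a) := by
  classical
  obtain ⟨h1, h2⟩ := h
  simp only [Set.mem_iInter, Finset.mem_range, Set.mem_compl_iff, Set.mem_setOf_eq] at h1 h2
  induction a with
  | zero => simp
  | succ a ih =>
    refine (ih (by omega)).trans ?_
    have h3 := h2 a (by omega)
    push Not at h3
    obtain ⟨e, he, hoe⟩ := h3
    unfold vE at he
    rw [Finset.mem_image] at he
    obtain ⟨j, hj, rfl⟩ := he
    rw [Finset.mem_range] at hj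
    have hoe' : ω s((((w, j), i + (a : ℤ)) : WW), (((w, j), i + (a : ℤ) + 1) : WW)) = true := by
      simpa using hoe
    have r1 := LC_reach hw hv (h1 a (by omega)) hj
    have r2 := LC_reach hw hv (h1 (a + 1) (by omega)) hj
    have e1 : i + ((a + 1 : ℕ) : ℤ) = i + a + 1 := by push_cast; ring
    rw [e1] at r2 ⊢
    refine r1.trans (SimpleGraph.Reachable.trans ?_ r2.symm)
    apply SimpleGraph.Adj.reachable
    rw [openGraph_adj, PG_adj]
    have hvv : vv N (w, j) := ⟨hv, by simp only; rw [hw, cl_hd]; exact hj⟩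
    exact ⟨⟨hvv, hvv, Or.inr ⟨rfl, Or.inl rfl⟩⟩, hoe'⟩

end Pool.Agent.Helper713.Fib
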