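import Mathlib
import Pool.Agent.Helper713.FibM

set_option autoImplicit false
set_option linter.deprecated false

open MeasureTheory ProbabilityTheory

namespace Pool.Agent.Helper713.Fib

/-- horizontal tree edge -/
def te (x : List ℕ) (i : ℤ) : Sym2 WW := s(((x.tail, 0), i), ((x, 0), i))

theorem te_inj {x y : List ℕ} {i j : ℤ} (h : te x i = te y j) : x = y ∧ i = j := by
  unfold te at h
  simp only [Sym2.eq_iff, Prod.mk.injEq, and_true] at h
  rcases h with ⟨⟨_, h2⟩, ⟨h3, _⟩⟩ | ⟨⟨h1, h2⟩, ⟨h3, _⟩⟩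
  · exact ⟨h3, h2⟩
  · have e1 := congrArg List.length h1
    have e2 := congrArg List.length h3
    rw [List.length_tail] at e1 e2
    have e3 : x.length = 0 := by omega
    have e4 : y.length = 0 := by omega
    rw [List.length_eq_zero_iff] at e3 e4
    exact ⟨e3.trans e4.symm, h2⟩

open Classical in
/-- the tree edges above `x`, `t` steps -/
noncomputable def he : ℕ → List ℕ → ℤ → Finset (Sym2 WW)
  | 0, _, _ => ∅
  | t + 1, x, i => insert (te x i) (he t x.tail i)

theorem he_mem {t : ℕ} {x : List ℕ} {i : ℤ} {e : Sym2 WW} (h : e ∈ he t x i) (ht : t ≤ x.length) :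
    ∃ y, y <:+ x ∧ x.length < y.length + t ∧ e = te y i := by
  classical
  induction t generalizing x with
  | zero => simp [he] at h
  | succ t ih =>
    rw [he, Finset.mem_insert] at h
    rcases h with h | h
    · exact ⟨x, List.suffix_rfl, by omega, h⟩
    · have h1 : x.tail.length = x.length - 1 := List.length_tail
      obtain ⟨y, hy1, hy2, hy3⟩ := ih h (by omega)
      exact ⟨y, hy1.trans (List.tail_suffix x), by omega, hy3⟩

theorem te_notMem {t : ℕ} {x y : List ℕ} {i j : ℤ} (ht : t ≤ y.length)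
    (h : y.length < x.length) : te x i ∉ he t y j := by
  intro hm
  obtain ⟨z, hz1, _, hz3⟩ := he_mem hm ht
  have := (te_inj hz3).1
  subst this
  have := hz1.length_le
  omega

theorem he_card {t : ℕ} {x : List ℕ} {i : ℤ} (ht : t ≤ x.length) : (he t x i).card = t := by
  classical
  induction t generalizing x with
  | zero => simp [he]
  | succ t ih =>
    have h1 : x.tail.length = x.length - 1 := List.length_tail
    rw [he, Finset.card_insert_of_notMem, ih (by omega)]
    exact te_notMem (by omega) (by omega)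

theorem he_disj {t t' : ℕ} {x x' : List ℕ} {i j : ℤ} (ht : t ≤ x.length) (ht' : t' ≤ x'.length)
    (hij : i ≠ j) : Disjoint (he t x i) (he t' x' j) := by
  rw [Finset.disjoint_left]
  intro e he1 he2
  obtain ⟨y, _, _, h1⟩ := he_mem he1 ht
  obtain ⟨z, _, _, h2⟩ := he_mem he2 ht'
  rw [h1] at h2
  exact hij (te_inj h2).2

theorem he_union_card {t : ℕ} {x x' : List ℕ} {i j : ℤ} (ht : t ≤ x.length) (ht' : t ≤ x'.length)
    (hij : i ≠ j) [DecidableEq (Sym2 WW)] : (he t x i ∪ he t x' j).card = 2 * t := by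
  rw [Finset.card_union_of_disjoint (he_disj ht ht' hij), he_card ht, he_card ht']; ring

open Classical in
theorem he_union_succ {t : ℕ} {x x' : List ℕ} {i : ℤ} (ht : t + 1 ≤ x.length)
    (hl : x.length = x'.length) (hne : x ≠ x') :
    (he (t + 1) x i ∪ he (t + 1) x' i).card = 2 + (he t x.tail i ∪ he t x'.tail i).card := by
  have h1 : x.tail.length = x.length - 1 := List.length_tail
  have h2 : x'.tail.length = x'.length - 1 := List.length_tail
  have e : he (t + 1) x i ∪ he (t + 1) x' i =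
      insert (te x i) (insert (te x' i) (he t x.tail i ∪ he t x'.tail i)) := by
    rw [he, he]
    ext e
    simp only [Finset.mem_union, Finset.mem_insert]
    tauto
  have h3 : te x' i ∉ he t x.tail i ∪ he t x'.tail i := by
    rw [Finset.mem_union, not_or]
    exact ⟨te_notMem (by omega) (by omega), te_notMem (by omega) (by omega)⟩
  have h4 : te x i ∉ insert (te x' i) (he t x.tail i ∪ he t x'.tail i) := by
    rw [Finset.mem_insert, not_or, Finset.mem_union, not_or]
    exact ⟨fun h => hne (te_inj h).1, te_notMem (by omega) (by omega),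
      te_notMem (by omega) (by omega)⟩
  rw [e, Finset.card_insert_of_notMem h4, Finset.card_insert_of_notMem h3]
  ring

theorem gen_sum {w : List ℕ} (t : ℕ) (f : List ℕ → ℝ) :
    ∑ x ∈ gen w (t + 1), f x = ∑ y ∈ gen w t, ∑ b ∈ Finset.range (br y.length), f (b :: y) := by
  classical
  rw [gen, Finset.sum_biUnion]
  · refine Finset.sum_congr rfl fun y _ => ?_
    rw [Finset.sum_image]
    intro a _ b _ h
    exact (List.cons.inj h).1
  · intro y _ y' _ hne
    rw [Function.onFun, Finset.disjoint_left]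
    intro x hx hx'
    rw [Finset.mem_image] at hx hx'
    obtain ⟨a, _, rfl⟩ := hx
    obtain ⟨b, _, h⟩ := hx'
    exact hne (List.cons.inj h).2.symm

theorem gen_len {w x : List ℕ} {t : ℕ} (h : x ∈ gen w t) : x.length = w.length + t :=
  (gen_prop t h).2.1

theorem gen_card_eq {k : ℕ} {w : List ℕ} (hw : w.length = hd k) (t : ℕ) (ht : t ≤ sL k) :
    ((gen w t).card : ℝ) = (2 ^ 128 : ℝ) ^ t := by
  have h1 : ∀ t, ((gen w t).card : ℝ) = ∑ x ∈ gen w t, (1 : ℝ) := by intro t; simp
  rw [h1]
  induction t with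
  | zero => simp [gen]
  | succ t ih =>
    rw [gen_sum, pow_succ, ← ih (by omega), Finset.sum_mul]
    refine Finset.sum_congr rfl fun y hy => ?_
    rw [gen_len hy, hw, br_split (k := k) (by omega) (by omega)]
    rw [Finset.sum_const, Finset.card_range, nsmul_eq_mul, mul_one, one_mul, Nat.cast_pow,
      Nat.cast_ofNat]

/-- the open probability as a real number -/
noncomputable def P0 : ℝ := 1 / 2 ^ 127

theorem P0_pos : 0 < P0 := by unfold P0; norm_num
theorem P0_le : P0 ≤ 1 := by unfold P0; norm_num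
theorem P0_dd : (2 ^ 128 : ℝ) * P0 = 2 := by unfold P0; norm_num

open Classical in
theorem pair_sum {k : ℕ} {w : List ℕ} (hw : w.length = hd k) (i : ℤ) (t : ℕ) (ht : t ≤ sL k) :
    ∀ x ∈ gen w t, ∑ x' ∈ gen w t, P0 ^ (he t x i ∪ he t x' i).card ≤ P0 ^ t * (2 ^ (t + 1) - 1) := by
  induction t with
  | zero =>
    intro x _
    simp [gen, he]
    norm_num
  | succ t ih =>
    intro x hx
    have hxl := gen_len hx
    rw [gen_sum]
    have hxt : x.tail ∈ gen w t := by
      rw [gen, Finset.mem_biUnion] at hx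
      obtain ⟨y, hy, hx⟩ := hx
      rw [Finset.mem_image] at hx
      obtain ⟨b, _, rfl⟩ := hx
      exact hy
    have h1 : ∀ y ∈ gen w t, ∀ b ∈ Finset.range (br y.length),
        P0 ^ (he (t + 1) x i ∪ he (t + 1) (b :: y) i).card ≤
        (if b :: y = x then P0 ^ (t + 1) else 0) + P0 ^ 2 * P0 ^ (he t x.tail i ∪ he t y i).card := by
      intro y hy b _
      have hyl := gen_len hy
      by_cases h : b :: y = x
      · rw [if_pos h, h, Finset.union_self, he_card (by omega)]
        have := P0_pos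
        have : 0 < P0 ^ 2 * P0 ^ (he t x.tail i ∪ he t y i).card := by positivity
        linarith
      · rw [if_neg h, zero_add, he_union_succ (by omega)
          (by simp only [List.length_cons]; omega) (fun h' => h h'.symm), pow_add]
        exact le_rfl
    have h2 : ∑ y ∈ gen w t, ∑ b ∈ Finset.range (br y.length),
        (if b :: y = x then P0 ^ (t + 1) else 0) ≤ P0 ^ (t + 1) := by
      rw [← gen_sum (w := w) t (fun z => if z = x then P0 ^ (t + 1) else 0)]
      rw [Finset.sum_ite_eq', if_pos hx]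
    have h3 : ∑ y ∈ gen w t, ∑ b ∈ Finset.range (br y.length),
        P0 ^ 2 * P0 ^ (he t x.tail i ∪ he t y i).card ≤
        2 * P0 * (P0 ^ t * (2 ^ (t + 1) - 1)) := by
      have h4 : ∀ y ∈ gen w t, ∑ b ∈ Finset.range (br y.length),
          P0 ^ 2 * P0 ^ (he t x.tail i ∪ he t y i).card =
          2 * P0 * P0 ^ (he t x.tail i ∪ he t y i).card := by
        intro y hy
        rw [Finset.sum_const, Finset.card_range, gen_len hy, hw,
          br_split (k := k) (by omega) (by omega), nsmul_eq_mul, Nat.cast_pow, Nat.cast_ofNat]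
        calc (2 : ℝ) ^ 128 * (P0 ^ 2 * P0 ^ (he t x.tail i ∪ he t y i).card) =
            ((2 ^ 128 : ℝ) * P0) * P0 * P0 ^ (he t x.tail i ∪ he t y i).card := by ring
          _ = _ := by rw [P0_dd]
      rw [Finset.sum_congr rfl h4, ← Finset.mul_sum]
      have := P0_pos
      exact mul_le_mul_of_nonneg_left (ih (by omega) _ hxt) (by positivity)
    calc _ ≤ ∑ y ∈ gen w t, ∑ b ∈ Finset.range (br y.length),
          ((if b :: y = x then P0 ^ (t + 1) else 0) +
            P0 ^ 2 * P0 ^ (he t x.tail i ∪ he t y i).card) :=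
          Finset.sum_le_sum fun y hy => Finset.sum_le_sum fun b hb => h1 y hy b hb
      _ = ∑ y ∈ gen w t, ∑ b ∈ Finset.range (br y.length),
          (if b :: y = x then P0 ^ (t + 1) else 0) +
          ∑ y ∈ gen w t, ∑ b ∈ Finset.range (br y.length),
            P0 ^ 2 * P0 ^ (he t x.tail i ∪ he t y i).card := by
          rw [← Finset.sum_add_distrib]
          refine Finset.sum_congr rfl fun y _ => ?_
          rw [Finset.sum_add_distrib]
      _ ≤ P0 ^ (t + 1) + 2 * P0 * (P0 ^ t * (2 ^ (t + 1) - 1)) := add_le_add h2 h3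
      _ = P0 ^ (t + 1) * (2 ^ (t + 1 + 1) - 1) := by ring

/-- horizontal connection event -/
def Hor (t : ℕ) (x : List ℕ) (i : ℤ) : Set (Sym2 WW → Bool) := {ω | ∀ e ∈ he t x i, ω e = true}

theorem Hor_reach {N : ℕ → ℕ} (hN : ∀ k, 0 < N k) {t : ℕ} {x w : List ℕ} (hx : Valid x)
    (hwx : w <:+ x) (hl : x.length = w.length + t) {i : ℤ} {ω : Sym2 WW → Bool}
    (h : ω ∈ Hor t x i) : (openGraph (PG N) ω).Reachable ((w, 0), i) ((x, 0), i) := by
  classical
  induction t generalizing x with
  | zero =>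
    have : w = x := suffix_eq hwx (by omega)
    rw [this]
  | succ t ih =>
    cases x with
    | nil => simp at hl
    | cons b y =>
      simp only [List.length_cons] at hl
      have h1 : w <:+ y := suffix_of_cons hwx (by omega)
      have h2 : ω ∈ Hor t y i := by
        intro e he
        apply h
        rw [Fib.he, Finset.mem_insert]
        exact Or.inr he
      refine (ih hx.2 h1 (by omega) h2).trans ?_
      apply SimpleGraph.Adj.reachable
      rw [openGraph_adj, PG_adj]
      refine ⟨⟨⟨hx.2, cl_pos N hN _⟩, ⟨hx, cl_pos N hN _⟩, Or.inl ⟨rfl, Or.inr ⟨rfl, rfl,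
        Or.inl ⟨b, rfl⟩⟩⟩⟩, ?_⟩
      apply h
      rw [Fib.he, Finset.mem_insert]
      exact Or.inl rfl

/-- crossing event -/
def Cr (k : ℕ) (x : List ℕ) (i : ℤ) : Set (Sym2 WW → Bool) :=
  pull (emb x i) (cn (StD (LL k) (2 * LL k)) (0, 0) (LL k, tt k))

/-- coordinates of the crossing event -/
def CrE (k : ℕ) (x : List ℕ) (i : ℤ) : Set (Sym2 WW) :=
  Sym2.map (emb x i) '' (StD (LL k) (2 * LL k)).edgeSet

theorem Cr_meas (k : ℕ) (x : List ℕ) (i : ℤ) : MeasurableSet[cs (CrE k x i)] (Cr k x i) :=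
  pull_meas (emb x i) (cn_meas _ _ _)

theorem Cr_prob (k : ℕ) (x : List ℕ) (i : ℤ) : mu _ pp pp_le (Cr k x i) = ENNReal.ofReal (ee k) := by
  unfold Cr
  rw [pull_prob (emb x i) (emb_inj x i) pp pp_le (cn_meas0 _ _ _), ← gS_tt]
  rfl

theorem Cr_reach {N : ℕ → ℕ} (hN : ∀ k, 0 < N k) {k : ℕ} {x : List ℕ} (hv : Valid x) {i : ℤ}
    {ω : Sym2 WW → Bool} (h : ω ∈ Cr k x i) :
    (openGraph (PG N) ω).Reachable ((x, 0), i) ((ext0 (LL k) x, 0), i + tt k) := by
  have h1 := pull_cn_subset (H := StD (LL k) (2 * LL k)) (H' := PG N) (emb x i)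
    (fun a b hab => (emb_adj hN hv i hab.1).1) (0, 0) (LL k, tt k) h
  have h2 : emb x i (0, 0) = ((x, 0), i) := by
    unfold emb; simp [ext0_zero]
  rw [h2] at h1
  exact h1

theorem CrE_mem {k : ℕ} {x : List ℕ} {i : ℤ} {e : Sym2 WW} (h : e ∈ CrE k x i) :
    (∀ v ∈ e, ∃ m : ℕ, ∃ j : ℤ, m ≤ LL k ∧ j.natAbs ≤ 2 * LL k ∧ v = ((ext0 m x, 0), i + j)) ∧
    (∃ v ∈ e, x.length < v.1.1.length) ∧ (∃ v ∈ e, v.1.1.length < x.length + LL k) := by
  obtain ⟨e', he', rfl⟩ := h
  induction e' using Sym2.ind with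
  | _ a b =>
    rw [SimpleGraph.mem_edgeSet, StD_adj, St_adj] at he'
    have hL := LL_ge k
    rw [Sym2.map_mk]
    refine ⟨?_, ?_, ?_⟩
    · intro v hv
      rw [Sym2.mem_iff] at hv
      rcases hv with rfl | rfl
      · exact ⟨a.1, a.2, he'.1.1, he'.2.1, rfl⟩
      · exact ⟨b.1, b.2, he'.1.2.1, he'.2.2, rfl⟩
    · by_cases ha : 0 < a.1
      · refine ⟨_, Sym2.mem_mk_left _ _, ?_⟩
        simp only [emb, ext0_len]; omega
      · refine ⟨_, Sym2.mem_mk_right _ _, ?_⟩
        simp only [emb, ext0_len]; omega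
    · by_cases ha : a.1 < LL k
      · refine ⟨_, Sym2.mem_mk_left _ _, ?_⟩
        simp only [emb, ext0_len]; omega
      · refine ⟨_, Sym2.mem_mk_right _ _, ?_⟩
        simp only [emb, ext0_len]; omega

theorem ext0_inj {m m' : ℕ} {x x' : List ℕ} (hl : x.length = x'.length)
    (h : ext0 m x = ext0 m' x') : x = x' ∧ m = m' := by
  have h1 := congrArg List.length h
  rw [ext0_len, ext0_len] at h1
  have h2 : m = m' := by omega
  subst h2
  exact ⟨List.append_cancel_left h, rfl⟩

theorem CrE_disj {k : ℕ} {x x' : List ℕ} {i i' : ℤ} (hl : x.length = x'.length)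
    (h : x ≠ x' ∨ 4 * LL k < (i - i').natAbs) : Disjoint (CrE k x i) (CrE k x' i') := by
  rw [Set.disjoint_left]
  intro e he he'
  obtain ⟨h1, ⟨v, hv, _⟩, _⟩ := CrE_mem he
  obtain ⟨h2, _, _⟩ := CrE_mem he'
  obtain ⟨m, j, _, hj, hvm⟩ := h1 v hv
  obtain ⟨m', j', _, hj', hvm'⟩ := h2 v hv
  rw [hvm] at hvm'
  simp only [Prod.mk.injEq, and_true] at hvm'
  have h3 := ext0_inj hl hvm'.1
  rcases h with h | h
  · exact h h3.1
  · omega

end Pool.Agent.Helper713.Fib
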