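import Mathlib
import Pool.Agent.Helper713.FibN

set_option autoImplicit false
set_option linter.deprecated false

open MeasureTheory ProbabilityTheory

namespace Pool.Agent.Helper713.Fib

/-- the measure -/
noncomputable abbrev PP : Measure (Sym2 WW → Bool) := mu (Sym2 WW) pp pp_le

theorem real_inter {I J : Set (Sym2 WW)} (h : Disjoint I J) {A B : Set (Sym2 WW → Bool)}
    (hA : MeasurableSet[cs I] A) (hB : MeasurableSet[cs J] B) :
    PP.real (A ∩ B) = PP.real A * PP.real B := by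
  unfold Measure.real
  rw [mu_inter pp pp_le h hA hB, ENNReal.toReal_mul]

theorem real_le_one (A : Set (Sym2 WW → Bool)) : PP.real A ≤ 1 := prob_le_one_real A
  where prob_le_one_real (A : Set (Sym2 WW → Bool)) : PP.real A ≤ 1 := measureReal_le_one

theorem hor_real (F : Finset (Sym2 WW)) : PP.real {ω | ∀ e ∈ F, ω e = true} = P0 ^ F.card := by
  classical
  unfold Measure.real
  rw [mu_allopen, pp_coe, ENNReal.toReal_pow, ENNReal.toReal_ofReal (by positivity)]
  rfl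

theorem Cr_real (k : ℕ) (x : List ℕ) (i : ℤ) : PP.real (Cr k x i) = ee k := by
  unfold Measure.real
  rw [Cr_prob, ENNReal.toReal_ofReal (ee_pos k).le]

/-- coordinates below `c` -/
def SubE (c : List ℕ) : Set (Sym2 WW) := {e | ∀ v ∈ e, c <:+ v.1.1}

/-- number of attempts -/
noncomputable def VC (k : ℕ) : ℕ := ⌊4 / (2 ^ (sL k) * ee k)⌋₊

/-- spacing of the attempts -/
def Dl (k : ℕ) : ℕ := 4 * LL k + 2

/-- height of the pole used -/
noncomputable def HH (k : ℕ) : ℕ := VC k * Dl k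

/-- height of an attempt -/
def hgt (k : ℕ) (i : ℤ) (a : ℕ) : ℤ := i + ((a * Dl k : ℕ) : ℤ)

theorem hgt_far {k : ℕ} {i : ℤ} {a b : ℕ} (h : a ≠ b) :
    4 * LL k < (hgt k i a - hgt k i b).natAbs := by
  unfold hgt
  rcases lt_or_gt_of_ne h with h | h
  · have h1 : (a + 1) * Dl k ≤ b * Dl k := Nat.mul_le_mul_right _ h
    have h2 : (a + 1) * Dl k = a * Dl k + Dl k := by ring
    have h3 : Dl k = 4 * LL k + 2 := rfl
    omega
  · have h1 : (b + 1) * Dl k ≤ a * Dl k := Nat.mul_le_mul_right _ h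
    have h2 : (b + 1) * Dl k = b * Dl k + Dl k := by ring
    have h3 : Dl k = 4 * LL k + 2 := rfl
    omega

theorem hgt_inj {k : ℕ} {i : ℤ} {a b : ℕ} (h : a ≠ b) : hgt k i a ≠ hgt k i b := by
  intro h2
  have := hgt_far (k := k) (i := i) h
  rw [h2] at this
  simp at this

/-- an attempt -/
def Ye (S : List ℕ → ℤ → Set (Sym2 WW → Bool)) (k : ℕ) (i : ℤ) (α : List ℕ × ℕ) :
    Set (Sym2 WW → Bool) :=
  Hor (sL k) α.1 (hgt k i α.2) ∩ (Cr k α.1 (hgt k i α.2) ∩
    S (ext0 (LL k) α.1) (hgt k i α.2 + tt k))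

/-- low edges -/
def L1 (k : ℕ) : Set (Sym2 WW) := {e | ∀ v ∈ e, v.1.1.length ≤ hd k + sL k}

/-- deep edges -/
def L3 (k : ℕ) : Set (Sym2 WW) := {e | ∀ v ∈ e, hd (k + 1) ≤ v.1.1.length}

theorem he_L1 {k : ℕ} {x : List ℕ} (hx : x.length = hd k + sL k) (i : ℤ) :
    (he (sL k) x i : Set (Sym2 WW)) ⊆ L1 k := by
  intro e he'
  rw [Finset.mem_coe] at he'
  obtain ⟨y, hy1, _, rfl⟩ := he_mem he' (by omega)
  have := hy1.length_le
  intro v hv
  unfold te at hv
  rw [Sym2.mem_iff] at hv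
  rcases hv with rfl | rfl
  · simp only [List.length_tail]; omega
  · simp only; omega

theorem CrE_L1 {k : ℕ} {x : List ℕ} (hx : x.length = hd k + sL k) (i : ℤ) :
    CrE k x i ⊆ (L1 k)ᶜ := by
  intro e he' hL
  obtain ⟨_, ⟨v, hv, hlt⟩, _⟩ := CrE_mem he'
  have := hL v hv
  omega

theorem CrE_L3 {k : ℕ} {x : List ℕ} (hx : x.length = hd k + sL k) (i : ℤ) :
    Disjoint (CrE k x i) (L3 k) := by
  rw [Set.disjoint_left]
  intro e he' hL
  obtain ⟨_, _, ⟨v, hv, hlt⟩⟩ := CrE_mem he'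
  have := hL v hv
  rw [hd_succ] at this
  omega

theorem SubE_L3 {k : ℕ} {c : List ℕ} (hc : c.length = hd (k + 1)) : SubE c ⊆ L3 k := by
  intro e he' v hv
  have := (he' v hv).length_le
  omega

theorem L3_L1 (k : ℕ) : L3 k ⊆ (L1 k)ᶜ := by
  intro e he' hL
  induction e using Sym2.ind with
  | _ a b =>
    have h1 := he' a (Sym2.mem_mk_left _ _)
    have h2 := hL a (Sym2.mem_mk_left _ _)
    rw [hd_succ] at h1
    have := LL_ge k
    omega

theorem SubE_disj {c c' : List ℕ} (hl : c.length = c'.length) (h : c ≠ c') :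
    Disjoint (SubE c) (SubE c') := by
  rw [Set.disjoint_left]
  intro e he' hL
  induction e using Sym2.ind with
  | _ a b =>
    have h1 := he' a (Sym2.mem_mk_left _ _)
    have h2 := hL a (Sym2.mem_mk_left _ _)
    exact h (suffix_eq (List.suffix_of_suffix_length_le h1 h2 hl.le) hl.symm.le)

theorem Hor_meas (t : ℕ) (x : List ℕ) (i : ℤ) :
    MeasurableSet[cs (he t x i : Set (Sym2 WW))] (Hor t x i) := allopen_meas _

section
variable {k : ℕ} {w : List ℕ} (hw : w.length = hd k) (i : ℤ)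
  (S : List ℕ → ℤ → Set (Sym2 WW → Bool))
  (hSm : ∀ c j, c.length = hd (k + 1) → MeasurableSet[cs (SubE c)] (S c j))

include hw hSm

theorem ext_len {x : List ℕ} (hx : x.length = hd k + sL k) :
    (ext0 (LL k) x).length = hd (k + 1) := by
  rw [ext0_len, hx, hd_succ]; omega

omit hw in
theorem Ye_prob {α : List ℕ × ℕ} (hα : α.1.length = hd k + sL k) :
    PP.real (Ye S k i α) = P0 ^ (sL k) * (ee k *
      PP.real (S (ext0 (LL k) α.1) (hgt k i α.2 + tt k))) := by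
  have hc : (ext0 (LL k) α.1).length = hd (k + 1) := by
    rw [ext0_len, hα, hd_succ]; omega
  unfold Ye
  rw [real_inter (I := L1 k) (J := (L1 k)ᶜ) disjoint_compl_right
    (cs_mono (he_L1 hα _) _ (Hor_meas _ _ _)) ?_,
    real_inter (I := CrE k α.1 (hgt k i α.2)) (J := L3 k) (CrE_L3 hα _) (Cr_meas _ _ _)
    (cs_mono (SubE_L3 hc) _ (hSm _ _ hc))]
  · rw [Cr_real]
    unfold Hor
    rw [hor_real, he_card (by omega)]
  · refine MeasurableSet.inter ?_ ?_
    · exact cs_mono (CrE_L1 hα _) _ (Cr_meas _ _ _)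
    · exact cs_mono ((SubE_L3 hc).trans (L3_L1 k)) _ (hSm _ _ hc)

omit hw in
open Classical in
theorem Ye_pair {α β : List ℕ × ℕ} (hα : α.1.length = hd k + sL k) (hβ : β.1.length = hd k + sL k)
    (hne : α ≠ β) :
    PP.real (Ye S k i α ∩ Ye S k i β) =
      P0 ^ (he (sL k) α.1 (hgt k i α.2) ∪ he (sL k) β.1 (hgt k i β.2)).card *
      (ee k * (ee k * PP.real (S (ext0 (LL k) α.1) (hgt k i α.2 + tt k) ∩
        S (ext0 (LL k) β.1) (hgt k i β.2 + tt k)))) := by
  have hcα : (ext0 (LL k) α.1).length = hd (k + 1) := by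
    rw [ext0_len, hα, hd_succ]; omega
  have hcβ : (ext0 (LL k) β.1).length = hd (k + 1) := by
    rw [ext0_len, hβ, hd_succ]; omega
  have hdis : Disjoint (CrE k α.1 (hgt k i α.2)) (CrE k β.1 (hgt k i β.2)) := by
    apply CrE_disj (by omega)
    by_cases h : α.1 = β.1
    · right
      apply hgt_far
      intro h2
      exact hne (Prod.ext h h2)
    · exact Or.inl h
  have e1 : Ye S k i α ∩ Ye S k i β =
      {ω | ∀ e ∈ he (sL k) α.1 (hgt k i α.2) ∪ he (sL k) β.1 (hgt k i β.2), ω e = true} ∩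
      (Cr k α.1 (hgt k i α.2) ∩ (Cr k β.1 (hgt k i β.2) ∩
        (S (ext0 (LL k) α.1) (hgt k i α.2 + tt k) ∩
        S (ext0 (LL k) β.1) (hgt k i β.2 + tt k)))) := by
    ext ω
    simp only [Ye, Hor, Set.mem_inter_iff, Set.mem_setOf_eq, Finset.mem_union]
    constructor
    · rintro ⟨⟨h1, h2, h3⟩, ⟨h4, h5, h6⟩⟩
      refine ⟨?_, h2, h5, h3, h6⟩
      rintro e (h | h)
      · exact h1 e h
      · exact h4 e h
    · rintro ⟨h1, h2, h3, h4, h5⟩
      exact ⟨⟨fun e h => h1 e (Or.inl h), h2, h4⟩, ⟨fun e h => h1 e (Or.inr h), h3, h5⟩⟩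
  have hSS : MeasurableSet[cs (L3 k)] (S (ext0 (LL k) α.1) (hgt k i α.2 + tt k) ∩
        S (ext0 (LL k) β.1) (hgt k i β.2 + tt k)) :=
    MeasurableSet.inter (cs_mono (SubE_L3 hcα) _ (hSm _ _ hcα))
      (cs_mono (SubE_L3 hcβ) _ (hSm _ _ hcβ))
  rw [e1, real_inter (I := L1 k) (J := (L1 k)ᶜ) disjoint_compl_right ?_ ?_,
    real_inter (I := CrE k α.1 (hgt k i α.2)) (J := CrE k β.1 (hgt k i β.2) ∪ L3 k) ?_
      (Cr_meas _ _ _) ?_,
    real_inter (I := CrE k β.1 (hgt k i β.2)) (J := L3 k) (CrE_L3 hβ _) (Cr_meas _ _ _) hSS]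
  · rw [Cr_real, Cr_real, hor_real]
  · rw [Set.disjoint_union_right]
    exact ⟨hdis, CrE_L3 hα _⟩
  · refine MeasurableSet.inter ?_ ?_
    · exact cs_mono Set.subset_union_left _ (Cr_meas _ _ _)
    · exact cs_mono Set.subset_union_right _ hSS
  · refine cs_mono ?_ _ (allopen_meas _)
    rw [Finset.coe_union]
    exact Set.union_subset (he_L1 hα _) (he_L1 hβ _)
  · refine MeasurableSet.inter ?_ (MeasurableSet.inter ?_ ?_)
    · exact cs_mono (CrE_L1 hα _) _ (Cr_meas _ _ _)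
    · exact cs_mono (CrE_L1 hβ _) _ (Cr_meas _ _ _)
    · exact cs_mono (L3_L1 k) _ hSS

end

end Pool.Agent.Helper713.Fib
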