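import Mathlib
import Pool.Agent.Helper713.FibO

set_option autoImplicit false
set_option linter.deprecated false

open MeasureTheory ProbabilityTheory

namespace Pool.Agent.Helper713.Fib

attribute [local irreducible] sL LL

theorem sL_le_LL (k : ℕ) : sL k ≤ LL k := by
  unfold sL LL
  rw [sq]
  exact Nat.mul_le_mul_right _ (by omega)

/-- mean number of successful crossings at one height -/
noncomputable def xx (k : ℕ) : ℝ := 2 ^ (sL k) * ee k

theorem xx_pos (k : ℕ) : 0 < xx k := by unfold xx; have := ee_pos k; positivity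

theorem xx_small (k : ℕ) : xx k ≤ tz (1 - 124 * LL k) := by
  unfold xx
  have h1 := ee_upper k
  have h2 := sL_le_LL k
  calc 2 ^ (sL k) * ee k ≤ 2 ^ (sL k) * (2 * (1 / 2 ^ 125) ^ (LL k)) := by gcongr
    _ = tz (sL k + (1 + (-125) * LL k)) := by
        rw [tz125, tz_pow, tz_add, tz_add, tz_nat, ← tz1]
    _ ≤ tz (1 - 124 * LL k) := tz_mono (by omega)

theorem xx_half (k : ℕ) : xx k ≤ 1 / 2 := by
  refine (xx_small k).trans ?_
  rw [tzh]
  have := LL_ge k
  exact tz_mono (by omega)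

theorem VC_le (k : ℕ) : (VC k : ℝ) * xx k ≤ 4 := by
  have h := xx_pos k
  have h1 : (VC k : ℝ) ≤ 4 / xx k := by
    unfold VC
    exact Nat.floor_le (by unfold xx at h; positivity)
  rwa [le_div_iff₀ h] at h1

theorem VC_ge (k : ℕ) : 4 - xx k ≤ (VC k : ℝ) * xx k := by
  have h := xx_pos k
  have h1 : 4 / xx k < (VC k : ℝ) + 1 := by
    unfold VC
    exact Nat.lt_floor_add_one _
  rw [div_lt_iff₀ h] at h1
  linarith

theorem sum_ite_le (n a : ℕ) (A C : ℝ) (hA : 0 ≤ A) (hC : 0 ≤ C) :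
    ∑ b ∈ Finset.range n, (if a = b then A else C) ≤ A + n * C := by
  calc ∑ b ∈ Finset.range n, (if a = b then A else C) ≤
      ∑ b ∈ Finset.range n, ((if a = b then A else 0) + C) := by
        refine Finset.sum_le_sum fun b _ => ?_
        split_ifs <;> linarith
    _ = (∑ b ∈ Finset.range n, (if a = b then A else 0)) + n * C := by
        rw [Finset.sum_add_distrib, Finset.sum_const, Finset.card_range, nsmul_eq_mul]
    _ ≤ A + n * C := by
        gcongr
        rw [Finset.sum_ite_eq]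
        split_ifs
        · exact le_rfl
        · exact hA

theorem sum_ite_le' (n a : ℕ) (f : ℕ → ℝ) (A C : ℝ) (hA : 0 ≤ A) (hC : 0 ≤ C) (h1 : f a ≤ A)
    (h2 : ∀ b, b ≠ a → f b ≤ C) : ∑ b ∈ Finset.range n, f b ≤ A + n * C := by
  refine le_trans (Finset.sum_le_sum ?_) (sum_ite_le n a A C hA hC)
  intro b _
  by_cases h : a = b
  · subst h; rw [if_pos rfl]; exact h1
  · rw [if_neg h]; exact h2 b (fun h' => h h'.symm)

open Classical in
/-- bound for a pair -/
noncomputable def GG (k : ℕ) (i : ℤ) (α β : List ℕ × ℕ) : ℝ :=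
  if α.2 = β.2 then ee k ^ 2 * (P0 ^ (he (sL k) α.1 (hgt k i α.2) ∪
    he (sL k) β.1 (hgt k i α.2)).card * (1 / 64))
  else ee k ^ 2 * (P0 ^ (2 * sL k) * (1 / 64 + if α.1 = β.1 then 1 / 8 else 0))

theorem GG_nonneg (k : ℕ) (i : ℤ) (α β : List ℕ × ℕ) : 0 ≤ GG k i α β := by
  unfold GG
  have := P0_pos
  have := ee_pos k
  split_ifs <;> positivity

theorem union_lower {k : ℕ} {w : List ℕ} (hw : w.length = hd k) (hv : Valid w) (i : ℤ)
    (S : List ℕ → ℤ → Set (Sym2 WW → Bool))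
    (hSm : ∀ c j, c.length = hd (k + 1) → MeasurableSet[cs (SubE c)] (S c j))
    (hSp : ∀ c j, c.length = hd (k + 1) → Valid c → 1 / 8 ≤ PP.real (S c j)) :
    1 / 5 ≤ PP.real (⋃ α ∈ gen w (sL k) ×ˢ Finset.range (VC k), Ye S k i α) := by
  classical
  obtain ⟨s, hs⟩ : ∃ s : Finset (List ℕ × ℕ), s = gen w (sL k) ×ˢ Finset.range (VC k) := ⟨_, rfl⟩
  obtain ⟨r, hr⟩ : ∃ r : List ℕ × ℕ → ℝ, ∀ α, r α =
      PP.real (S (ext0 (LL k) α.1) (hgt k i α.2 + tt k)) := ⟨_, fun _ => rfl⟩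
  rw [← hs]
  have hlen : ∀ α ∈ s, α.1.length = hd k + sL k := by
    intro α hα
    rw [hs, Finset.mem_product] at hα
    rw [gen_len hα.1, hw]
  have hval : ∀ α ∈ s, Valid α.1 := by
    intro α hα
    rw [hs, Finset.mem_product] at hα
    exact (gen_prop _ hα.1).2.2 hv
  have hclen : ∀ α ∈ s, (ext0 (LL k) α.1).length = hd (k + 1) := by
    intro α hα
    rw [ext0_len, hlen α hα, hd_succ]; omega
  have hr8 : ∀ α ∈ s, 1 / 8 ≤ r α := by
    intro α hα
    rw [hr]
    exact hSp _ _ (hclen α hα) (ext0_valid _ (hval α hα))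
  have hr1 : ∀ α, r α ≤ 1 := by
    intro α
    rw [hr]
    exact measureReal_le_one
  have hYm : ∀ α ∈ s, MeasurableSet (Ye S k i α) := by
    intro α hα
    unfold Ye
    refine MeasurableSet.inter ?_ (MeasurableSet.inter ?_ ?_)
    · exact cs_le _ _ (Hor_meas _ _ _)
    · exact cs_le _ _ (Cr_meas _ _ _)
    · exact cs_le _ _ (hSm _ _ (hclen α hα))
  have hb := wbonf PP s (fun α => Ye S k i α) hYm (fun α => (1 / 8) / r α)
    (fun α hα => by have := hr8 α hα; positivity)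
    (fun α hα => by
      have := hr8 α hα
      rw [div_le_one (by linarith)]
      exact this)
  refine le_trans ?_ hb
  have hee := ee_pos k
  have hP0 := P0_pos
  set B : ℝ := (2 ^ 128 : ℝ) ^ (sL k) with hB
  have hBpos : 0 < B := by positivity
  have hcard : (s.card : ℝ) = B * VC k := by
    rw [hs, Finset.card_product, Nat.cast_mul, gen_card_eq hw _ le_rfl, Finset.card_range]
  have hBP : B * P0 ^ (sL k) = 2 ^ (sL k) := by
    rw [hB, ← mul_pow, P0_dd]
  -- first-order term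
  have h1 : ∑ α ∈ s, (1 / 8) / r α * PP.real (Ye S k i α) = (VC k * xx k) / 8 := by
    have h2 : ∀ α ∈ s, (1 / 8) / r α * PP.real (Ye S k i α) = (1 / 8) * (P0 ^ (sL k) * ee k) := by
      intro α hα
      rw [Ye_prob i S hSm (hlen α hα)]
      have := hr8 α hα
      have h3 : r α ≠ 0 := by intro h; rw [h] at this; norm_num at this
      rw [← hr]
      field_simp
    rw [Finset.sum_congr rfl h2, Finset.sum_const, nsmul_eq_mul, hcard]
    unfold xx
    rw [← hBP]
    ring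
  -- second-order terms
  have h2 : ∀ q ∈ s.offDiag, (1 / 8) / r q.1 * ((1 / 8) / r q.2) *
      PP.real (Ye S k i q.1 ∩ Ye S k i q.2) ≤ GG k i q.1 q.2 := by
    rintro ⟨α, β⟩ hq
    rw [Finset.mem_offDiag] at hq
    obtain ⟨hα, hβ, hne⟩ := hq
    simp only at hα hβ hne
    simp only
    rw [Ye_pair i S hSm (hlen α hα) (hlen β hβ) hne]
    have ra := hr8 α hα
    have rb := hr8 β hβ
    have ra0 : 0 < r α := by linarith
    have rb0 : 0 < r β := by linarith
    set T := PP.real (S (ext0 (LL k) α.1) (hgt k i α.2 + tt k) ∩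
        S (ext0 (LL k) β.1) (hgt k i β.2 + tt k)) with hT
    have hT0 : 0 ≤ T := measureReal_nonneg
    -- the S part
    have hS1 : α.1 ≠ β.1 → T = r α * r β := by
      intro h
      rw [hT, hr, hr]
      exact real_inter (SubE_disj ((hclen α hα).trans (hclen β hβ).symm) (fun h' =>
        h (ext0_inj ((hlen α hα).trans (hlen β hβ).symm) h').1)) (hSm _ _ (hclen α hα))
        (hSm _ _ (hclen β hβ))
    have hS2 : T ≤ r α := by
      rw [hT, hr]
      exact measureReal_mono Set.inter_subset_left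
    have hw1 : α.1 ≠ β.1 → (1 / 8) / r α * ((1 / 8) / r β) * T = 1 / 64 := by
      intro h
      rw [hS1 h]
      field_simp
      norm_num
    have hw2 : (1 / 8) / r α * ((1 / 8) / r β) * T ≤ 1 / 8 := by
      have h5 : (1 / 8) / r β ≤ 1 := by
        rw [div_le_one rb0]; exact rb
      calc (1 / 8) / r α * ((1 / 8) / r β) * T ≤ (1 / 8) / r α * 1 * r α := by gcongr
        _ = 1 / 8 := by field_simp
    have hre : ∀ c : ℝ, (1 / 8) / r α * ((1 / 8) / r β) * (c * (ee k * (ee k * T))) =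
        ee k ^ 2 * (c * ((1 / 8) / r α * ((1 / 8) / r β) * T)) := by
      intro c; ring
    rw [hre]
    unfold GG
    by_cases hab : α.2 = β.2
    · have hx : α.1 ≠ β.1 := fun h => hne (Prod.ext h hab)
      rw [if_pos hab, hw1 hx, ← hab]
    · rw [if_neg hab, he_union_card (by rw [hlen α hα]; omega) (by rw [hlen β hβ]; omega)
        (hgt_inj hab)]
      have hpp : 0 < P0 ^ (2 * sL k) := by positivity
      by_cases hx : α.1 = β.1
      · rw [if_pos hx]
        gcongr
        linarith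
      · rw [if_neg hx, hw1 hx, add_zero]
  have hin : ∀ α ∈ s, ∑ β ∈ s, GG k i α β ≤
      ee k ^ 2 * (P0 ^ (sL k) * (2 * 2 ^ (sL k)) * (1 / 64) +
        VC k * (P0 ^ (2 * sL k) * (B * (1 / 64) + 1 / 8))) := by
    rintro ⟨x, a⟩ hα
    have hxg : x ∈ gen w (sL k) := by
      rw [hs, Finset.mem_product] at hα; exact hα.1
    rw [hs, Finset.sum_product]
    have h3 : ∀ x' ∈ gen w (sL k), ∑ b ∈ Finset.range (VC k), GG k i (x, a) (x', b) ≤
        ee k ^ 2 * (P0 ^ (he (sL k) x (hgt k i a) ∪ he (sL k) x' (hgt k i a)).card * (1 / 64)) +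
        VC k * (ee k ^ 2 * (P0 ^ (2 * sL k) * (1 / 64 + if x = x' then 1 / 8 else 0))) := by
      intro x' _
      refine sum_ite_le' (VC k) a _ _ _ ?_ ?_ ?_ ?_
      · positivity
      · split_ifs <;> positivity
      · unfold GG
        rw [if_pos rfl]
      · intro b hb
        unfold GG
        rw [if_neg (fun h => hb h.symm)]
    refine (Finset.sum_le_sum h3).trans ?_
    rw [Finset.sum_add_distrib, ← Finset.mul_sum, ← Finset.sum_mul, ← Finset.mul_sum,
      ← Finset.mul_sum, ← Finset.mul_sum, Finset.sum_add_distrib, Finset.sum_const, nsmul_eq_mul,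
      gen_card_eq hw _ le_rfl, Finset.sum_ite_eq, if_pos hxg]
    have h4 := pair_sum hw (hgt k i a) (sL k) le_rfl x hxg
    have h5 : P0 ^ (sL k) * (2 ^ (sL k + 1) - 1) ≤ P0 ^ (sL k) * (2 * 2 ^ (sL k)) := by
      have : 0 < P0 ^ (sL k) := by positivity
      apply mul_le_mul_of_nonneg_left _ this.le
      rw [pow_succ]; linarith
    have h6 := h4.trans h5
    have h7 : 0 < ee k ^ 2 := by positivity
    have h8 : ee k ^ 2 * ((∑ i_1 ∈ gen w (sL k), P0 ^ (he (sL k) x (hgt k i a) ∪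
        he (sL k) i_1 (hgt k i a)).card) * (1 / 64)) ≤
        ee k ^ 2 * (P0 ^ (sL k) * (2 * 2 ^ (sL k)) * (1 / 64)) := by gcongr
    calc _ ≤ ee k ^ 2 * (P0 ^ (sL k) * (2 * 2 ^ (sL k)) * (1 / 64)) +
          VC k * (ee k ^ 2 * (P0 ^ (2 * sL k) * ((2 ^ 128 : ℝ) ^ (sL k) * (1 / 64) + 1 / 8))) := by
          gcongr
      _ = _ := by rw [← hB]; ring
  have h3 : ∑ q ∈ s.offDiag, (1 / 8) / r q.1 * ((1 / 8) / r q.2) *
      PP.real (Ye S k i q.1 ∩ Ye S k i q.2) ≤
      B * VC k * (ee k ^ 2 * (P0 ^ (sL k) * (2 * 2 ^ (sL k)) * (1 / 64) +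
        VC k * (P0 ^ (2 * sL k) * (B * (1 / 64) + 1 / 8)))) := by
    calc _ ≤ ∑ q ∈ s.offDiag, GG k i q.1 q.2 := Finset.sum_le_sum h2
      _ ≤ ∑ q ∈ s ×ˢ s, GG k i q.1 q.2 := by
          refine Finset.sum_le_sum_of_subset_of_nonneg ?_ (fun q _ _ => GG_nonneg _ _ _ _)
          intro q hq
          rw [Finset.mem_offDiag] at hq
          exact Finset.mem_product.2 ⟨hq.1, hq.2.1⟩
      _ = ∑ α ∈ s, ∑ β ∈ s, GG k i α β := by rw [Finset.sum_product]
      _ ≤ _ := by
          refine (Finset.sum_le_card_nsmul _ _ _ hin).trans (le_of_eq ?_)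
          rw [nsmul_eq_mul, hcard]
  have hx := xx_pos k
  have hxh := xx_half k
  have hv1 := VC_le k
  have hv2 := VC_ge k
  have h4 : B * VC k * (ee k ^ 2 * (P0 ^ (sL k) * (2 * 2 ^ (sL k)) * (1 / 64) +
        VC k * (P0 ^ (2 * sL k) * (B * (1 / 64) + 1 / 8)))) =
      (VC k * xx k) * xx k / 32 + (VC k * xx k) ^ 2 / 64 + (VC k * xx k) ^ 2 / (8 * B) := by
    have e1 : xx k = B * P0 ^ (sL k) * ee k := by unfold xx; rw [hBP]
    have e2 : (2 : ℝ) ^ (sL k) = B * P0 ^ (sL k) := hBP.symm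
    rw [e2, e1, two_mul (sL k), pow_add]
    field_simp
    ring
  rw [h1]
  have hB2 : (64 : ℝ) ≤ B := by
    rw [hB]
    have : 1 ≤ sL k := by have := sL_pos k; omega
    calc (64 : ℝ) ≤ (2 ^ 128 : ℝ) ^ 1 := by norm_num
      _ ≤ (2 ^ 128 : ℝ) ^ (sL k) := pow_le_pow_right₀ (by norm_num) this
  have h5 : (VC k * xx k) ^ 2 / (8 * B) ≤ 16 / (8 * 64) := by
    gcongr
    nlinarith
  have h6 : (VC k * xx k) ^ 2 / 64 ≤ 16 / 64 := by
    gcongr
    nlinarith
  have h7 : (VC k * xx k) * xx k / 32 ≤ 4 * (1 / 2) / 32 := by gcongr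
  rw [h4] at h3
  linarith

end Pool.Agent.Helper713.Fib
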