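import Mathlib
import Pool.Agent.Helper713.FibP

set_option autoImplicit false
set_option linter.deprecated false

open MeasureTheory ProbabilityTheory

namespace Pool.Agent.Helper713.Fib

attribute [local irreducible] sL LL

/-- survival for `m` more levels -/
noncomputable def Sv (N : ℕ → ℕ) : ℕ → ℕ → List ℕ → ℤ → Set (Sym2 WW → Bool)
  | 0, _, _, _ => Set.univ
  | m + 1, k, w, i => Po (N k) (HH k) w i ∩
      ⋃ α ∈ gen w (sL k) ×ˢ Finset.range (VC k), Ye (fun c j => Sv N m (k + 1) c j) k i α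

theorem CE_SubE (w : List ℕ) : CE w ⊆ SubE w := by
  intro e he v hv
  rw [he v hv]

theorem Ye_measU {k : ℕ} {w : List ℕ} (hw : w.length = hd k) (i : ℤ)
    (S : List ℕ → ℤ → Set (Sym2 WW → Bool))
    (hSm : ∀ c j, c.length = hd (k + 1) → MeasurableSet[cs (SubE c)] (S c j)) :
    MeasurableSet[cs (SubE w ∩ (CE w)ᶜ)]
      (⋃ α ∈ gen w (sL k) ×ˢ Finset.range (VC k), Ye S k i α) := by
  refine Finset.measurableSet_biUnion _ fun α hα => ?_
  rw [Finset.mem_product] at hα
  obtain ⟨hx1, hx2, _⟩ := gen_prop _ hα.1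
  have hxl : α.1.length = hd k + sL k := by rw [hx2, hw]
  have hc : (ext0 (LL k) α.1).length = hd (k + 1) := by
    rw [ext0_len, hxl, hd_succ]; omega
  have hsL := sL_pos k
  unfold Ye
  refine MeasurableSet.inter ?_ (MeasurableSet.inter ?_ ?_)
  · refine cs_mono ?_ _ (Hor_meas _ _ _)
    intro e he'
    rw [Finset.mem_coe] at he'
    obtain ⟨y, hy1, hy2, rfl⟩ := he_mem he' (by omega)
    have hwy : w <:+ y := List.suffix_of_suffix_length_le hx1 hy1 (by omega)
    cases y with
    | nil => simp at hy2; omega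
    | cons b y =>
      simp only [List.length_cons] at hy2
      have hwy' : w <:+ y := suffix_of_cons hwy (by omega)
      refine ⟨?_, ?_⟩
      · intro v hv
        unfold te at hv
        rw [Sym2.mem_iff] at hv
        rcases hv with rfl | rfl
        · exact hwy'
        · exact hwy
      · intro h
        have h1 := h _ (Sym2.mem_mk_right _ _)
        simp only at h1
        rw [← h1] at hwy'
        have := hwy'.length_le
        simp at this
  · refine cs_mono ?_ _ (Cr_meas _ _ _)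
    intro e he'
    obtain ⟨h1, ⟨v, hv, hlt⟩, _⟩ := CrE_mem he'
    refine ⟨?_, ?_⟩
    · intro v hv
      obtain ⟨m, j, _, _, rfl⟩ := h1 v hv
      exact hx1.trans (ext0_suffix _ _)
    · intro h
      have h2 := h v hv
      rw [h2] at hlt
      omega
  · refine cs_mono ?_ _ (hSm _ _ hc)
    intro e he'
    refine ⟨?_, ?_⟩
    · intro v hv
      exact (hx1.trans (ext0_suffix _ _)).trans (he' v hv)
    · intro h
      induction e using Sym2.ind with
      | _ a b =>
        have h2 := h a (Sym2.mem_mk_left _ _)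
        have h3 := (he' a (Sym2.mem_mk_left _ _)).length_le
        rw [h2, hc, hw] at h3
        have := hd_lt k
        omega

theorem Sv_meas (N : ℕ → ℕ) (m : ℕ) : ∀ k w i, w.length = hd k →
    MeasurableSet[cs (SubE w)] (Sv N m k w i) := by
  induction m with
  | zero =>
    intro k w i _
    exact MeasurableSet.univ
  | succ m ih =>
    intro k w i hw
    rw [Sv]
    refine MeasurableSet.inter (cs_mono (CE_SubE w) _ (Po_meas _ _ _ _)) ?_
    exact cs_mono Set.inter_subset_left _ (Ye_measU hw i _ (fun c j hc => ih (k + 1) c j hc))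

/-- conditions on the clique sizes for survival -/
structure NGood (N : ℕ → ℕ) : Prop where
  pos : ∀ k, 0 < N k
  conn : ∀ k, (N k : ℝ) * qq ^ (N k / 2 - 1) ≤ 1 / 2
  pole : ∀ k, ((HH k : ℝ) + 1) * (3 * (N k * qq ^ (N k - 1))) ≤ 1 / 4

theorem Sv_prob {N : ℕ → ℕ} (hN : NGood N) (m : ℕ) : ∀ k w i, w.length = hd k → Valid w →
    1 / 8 ≤ PP.real (Sv N m k w i) := by
  induction m with
  | zero =>
    intro k w i _ _
    rw [Sv]
    simp
    norm_num
  | succ m ih =>
    intro k w i hw hv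
    rw [Sv]
    have hSm : ∀ c j, c.length = hd (k + 1) →
        MeasurableSet[cs (SubE c)] ((fun c j => Sv N m (k + 1) c j) c j) :=
      fun c j hc => Sv_meas N m (k + 1) c j hc
    rw [real_inter (I := CE w) (J := (CE w)ᶜ) disjoint_compl_right (Po_meas _ _ _ _)
      (cs_mono Set.inter_subset_right _ (Ye_measU hw i _ hSm))]
    have h1 := Po_prob (N k) (HH k) w i (hN.pos k) (hN.conn k) (hN.pole k)
    have h2 := union_lower hw hv i (fun c j => Sv N m (k + 1) c j) hSm
      (fun c j hc hvc => ih (k + 1) c j hc hvc)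
    calc (1 / 8 : ℝ) ≤ 3 / 4 * (1 / 5) := by norm_num
      _ ≤ _ := mul_le_mul h1 h2 (by norm_num) measureReal_nonneg

theorem Sv_anti (N : ℕ → ℕ) (m : ℕ) : ∀ k w i, Sv N (m + 1) k w i ⊆ Sv N m k w i := by
  induction m with
  | zero =>
    intro k w i
    rw [Sv, Sv]
    exact Set.subset_univ _
  | succ m ih =>
    intro k w i ω hω
    rw [Sv] at hω ⊢
    refine ⟨hω.1, ?_⟩
    have h2 := hω.2
    simp only [Set.mem_iUnion] at h2 ⊢
    obtain ⟨α, hα, h3⟩ := h2
    exact ⟨α, hα, h3.1, h3.2.1, ih _ _ _ h3.2.2⟩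

theorem Sv_reach {N : ℕ → ℕ} (hN : ∀ k, 0 < N k) {ω : Sym2 WW → Bool} (m : ℕ) :
    ∀ k w i, w.length = hd k → Valid w → ω ∈ Sv N m k w i →
    ∃ c : List ℕ, c.length = hd (k + m) ∧ ∃ j : ℤ,
      (openGraph (PG N) ω).Reachable ((w, 0), i) ((c, 0), j) := by
  induction m with
  | zero =>
    intro k w i hw _ _
    exact ⟨w, hw, i, SimpleGraph.Reachable.refl _⟩
  | succ m ih =>
    intro k w i hw hv hω
    rw [Sv] at hω
    obtain ⟨hPo, hU⟩ := hω
    simp only [Set.mem_iUnion] at hU
    obtain ⟨α, hα, h1, h2, h3⟩ := hU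
    rw [Finset.mem_product] at hα
    obtain ⟨hx1, hx2, hx3⟩ := gen_prop _ hα.1
    have ha : α.2 * Dl k ≤ HH k := by
      unfold HH
      exact Nat.mul_le_mul_right _ (Finset.mem_range.1 hα.2).le
    have r1 := Po_reach (N := N) hw hv hPo (α.2 * Dl k) ha
    have r2 := Hor_reach (N := N) hN (hx3 hv) hx1 hx2 h1
    have r3 := Cr_reach (N := N) hN (hx3 hv) h2
    have hc : (ext0 (LL k) α.1).length = hd (k + 1) := by
      rw [ext0_len, hx2, hw, hd_succ]; omega
    obtain ⟨c, hc1, j, r4⟩ := ih (k + 1) _ _ hc (ext0_valid _ (hx3 hv)) h3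
    refine ⟨c, by rw [hc1]; congr 1; omega, j, ?_⟩
    have r1' : (openGraph (PG N) ω).Reachable ((w, 0), i) ((w, 0), hgt k i α.2) := r1
    exact r1'.trans (r2.trans (r3.trans r4))

/-- survival forever -/
def SvI (N : ℕ → ℕ) : Set (Sym2 WW → Bool) := ⋂ m, Sv N m 0 [] 0

theorem SvI_meas (N : ℕ → ℕ) : MeasurableSet (SvI N) :=
  MeasurableSet.iInter fun m => cs_le _ _ (Sv_meas N m 0 [] 0 rfl)

theorem SvI_prob {N : ℕ → ℕ} (hN : NGood N) : ENNReal.ofReal (1 / 8) ≤ PP (SvI N) := by
  have hanti : Antitone (fun m => Sv N m 0 [] 0) :=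
    antitone_nat_of_succ_le (fun m => Sv_anti N m 0 [] 0)
  have h1 := tendsto_measure_iInter_atTop (μ := PP) (s := fun m => Sv N m 0 [] 0)
    (fun m => (cs_le _ _ (Sv_meas N m 0 [] 0 rfl)).nullMeasurableSet) hanti
    ⟨0, measure_ne_top _ _⟩
  refine ge_of_tendsto h1 (Filter.Eventually.of_forall fun m => ?_)
  have h2 := Sv_prob hN m 0 [] 0 rfl trivial
  unfold Measure.real at h2
  exact ENNReal.ofReal_le_of_le_toReal h2

end Pool.Agent.Helper713.Fib
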