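import Mathlib
import Pool.Agent.Helper713.FibQ

set_option autoImplicit false
set_option linter.deprecated false

open MeasureTheory ProbabilityTheory

namespace Pool.Agent.Helper713.Fib

theorem q_half : qq ^ (2 ^ 127) ≤ 1 / 2 := by
  have h1 : qq ≤ (1 + 1 / 2 ^ 127)⁻¹ := by
    rw [le_inv_comm₀ qq_pos (by positivity)]
    unfold qq
    rw [le_inv_comm₀ (by positivity) (by norm_num)]
    norm_num
  have h2 : (2 : ℝ) ≤ (1 + 1 / 2 ^ 127) ^ (2 ^ 127) := by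
    have h := one_add_mul_le_pow (a := (1 / 2 ^ 127 : ℝ)) (by norm_num) (2 ^ 127)
    refine le_trans ?_ h
    norm_num
  calc qq ^ (2 ^ 127) ≤ ((1 + 1 / 2 ^ 127)⁻¹) ^ (2 ^ 127) := pow_le_pow_left₀ qq_pos.le h1 _
    _ = ((1 + 1 / 2 ^ 127) ^ (2 ^ 127))⁻¹ := by rw [inv_pow]
    _ ≤ 2⁻¹ := inv_anti₀ (by norm_num) h2
    _ = 1 / 2 := by norm_num

/-- explicit upper bound for the clique sizes -/
def NB (k : ℕ) : ℕ := 2 ^ 127 * (256 * LL k) + 1

theorem LL_lt (k : ℕ) : LL k < 2 ^ (LL k) := Nat.lt_two_pow_self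

theorem NB_le (k : ℕ) : (NB k : ℝ) ≤ tz (136 + LL k) := by
  have h0 := LL_ge k
  have h : NB k ≤ 2 ^ (136 + LL k) := by
    unfold NB
    have h1 := LL_lt k
    have h2 : 2 ^ (136 + LL k) = 2 ^ 127 * 512 * 2 ^ (LL k) := by
      rw [pow_add]
      norm_num
    rw [h2]
    have h3 : 1 ≤ 2 ^ 127 * (256 * 2 ^ (LL k)) := Nat.one_le_iff_ne_zero.2 (by positivity)
    calc 2 ^ 127 * (256 * LL k) + 1 ≤ 2 ^ 127 * (256 * 2 ^ (LL k)) + 2 ^ 127 * (256 * 2 ^ (LL k)) := by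
          gcongr
      _ = 2 ^ 127 * 512 * 2 ^ (LL k) := by ring
  have := tz_cast h
  push_cast at this
  exact this

theorem NB_good (k : ℕ) : (NB k : ℝ) * qq ^ (NB k - 1) ≤ ee k := by
  have h0 := LL_ge k
  have h1 : NB k - 1 = 2 ^ 127 * (256 * LL k) := by unfold NB; omega
  rw [h1, pow_mul]
  have h2 : (qq ^ (2 ^ 127)) ^ (256 * LL k) ≤ (1 / 2) ^ (256 * LL k) :=
    pow_le_pow_left₀ (by have := qq_pos; positivity) q_half _
  refine le_trans ?_ (ee_lower k)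
  calc (NB k : ℝ) * (qq ^ (2 ^ 127)) ^ (256 * LL k) ≤ tz (136 + LL k) * (1 / 2) ^ (256 * LL k) := by
        have := NB_le k
        have := tz_pos (136 + LL k)
        have := qq_pos
        gcongr
    _ = tz (136 + LL k + (-1) * (256 * LL k)) := by
        rw [tzh, tz_pow, tz_add (136 + LL k) ((-1) * (256 * LL k))]
        push_cast
        rfl
    _ ≤ tz ((-127) * LL k) := tz_mono (by omega)
    _ = (1 / 2 ^ 127) ^ (LL k) := by rw [tz127, tz_pow]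

theorem NK_exists (k : ℕ) : ∃ n : ℕ, 1 ≤ n ∧ (n : ℝ) * qq ^ (n - 1) ≤ ee k :=
  ⟨NB k, by unfold NB; omega, NB_good k⟩

open Classical in
/-- clique sizes -/
noncomputable def NK (k : ℕ) : ℕ := Nat.find (NK_exists k)

theorem NK_spec (k : ℕ) : 1 ≤ NK k ∧ (NK k : ℝ) * qq ^ (NK k - 1) ≤ ee k := by
  classical
  exact Nat.find_spec (NK_exists k)

theorem NK_le (k : ℕ) : NK k ≤ NB k := by
  classical
  exact Nat.find_min' (NK_exists k) ⟨by unfold NB; omega, NB_good k⟩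

theorem NK_min (k n : ℕ) (h : n < NK k) (hn : 1 ≤ n) : ee k < (n : ℝ) * qq ^ (n - 1) := by
  classical
  have := Nat.find_min (NK_exists k) h
  push Not at this
  exact this hn

theorem ee_tz (k : ℕ) : ee k ≤ tz (1 - 125 * LL k) := by
  refine (ee_upper k).trans (le_of_eq ?_)
  rw [tz125, tz_pow, show (1 - 125 * (LL k : ℤ)) = 1 + (-125) * (LL k : ℤ) by ring, tz_add, ← tz1]

theorem ee_quarter (k : ℕ) : ee k ≤ 1 / 4 := by
  refine (ee_tz k).trans ?_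
  have := LL_ge k
  have h : tz (1 - 125 * LL k) ≤ tz (-2) := tz_mono (by omega)
  refine h.trans (le_of_eq ?_)
  unfold tz; norm_num

theorem qq_half : 1 / 2 ≤ qq := by unfold qq; norm_num

theorem NK_ge (k : ℕ) : 3 ≤ NK k := by
  by_contra hlt
  have h1 := (NK_spec k).1
  have h2 := (NK_spec k).2
  have h3 := ee_quarter k
  have h4 := qq_half
  have h5 : NK k = 1 ∨ NK k = 2 := by omega
  rcases h5 with h5 | h5
  · rw [h5] at h2; norm_num at h2; linarith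
  · rw [h5] at h2; norm_num at h2; linarith

theorem NK_pow (k : ℕ) : ee k ≤ 4 * NK k * qq ^ (NK k) := by
  have h3 := NK_ge k
  have h := NK_min k (NK k - 1) (by omega) (by omega)
  have e1 : NK k = (NK k - 1 - 1) + 2 := by omega
  have h4 := qq_half
  have h5 : (0 : ℝ) < qq ^ (NK k - 1 - 1) := pow_pos qq_pos _
  have h6 : ((NK k - 1 : ℕ) : ℝ) ≤ NK k := by exact_mod_cast Nat.sub_le _ _
  have h7 : qq ^ (NK k) = qq ^ (NK k - 1 - 1) * qq ^ 2 := by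
    rw [← pow_add, ← e1]
  rw [h7]
  have h8 : (1 / 4 : ℝ) ≤ qq ^ 2 := by nlinarith
  have h9 : (0 : ℝ) ≤ NK k := Nat.cast_nonneg _
  calc ee k ≤ ((NK k - 1 : ℕ) : ℝ) * qq ^ (NK k - 1 - 1) := h.le
    _ ≤ NK k * qq ^ (NK k - 1 - 1) := by gcongr
    _ = 4 * NK k * (qq ^ (NK k - 1 - 1) * (1 / 4)) := by ring
    _ ≤ 4 * NK k * (qq ^ (NK k - 1 - 1) * qq ^ 2) := by gcongr

theorem NK_conn (k : ℕ) : (NK k : ℝ) * qq ^ (NK k / 2 - 1) ≤ 1 / 2 := by
  have h3 := NK_ge k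
  have hL := LL_ge k
  have h2 := (NK_spec k).2
  have h4 := qq_half
  have hq := qq_pos
  have hsq : (qq ^ (NK k / 2 - 1)) ^ 2 ≤ 4 * qq ^ (NK k - 1) := by
    rw [← pow_mul]
    have e1 : NK k - 3 ≤ (NK k / 2 - 1) * 2 := by omega
    have e2 : NK k - 1 = (NK k - 3) + 2 := by omega
    have h5 : qq ^ ((NK k / 2 - 1) * 2) ≤ qq ^ (NK k - 3) := pow_le_pow_of_le_one hq.le qq_le e1
    rw [e2, pow_add]
    have h8 : (1 / 4 : ℝ) ≤ qq ^ 2 := by nlinarith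
    have h9 : (0 : ℝ) < qq ^ (NK k - 3) := pow_pos hq _
    nlinarith
  have hN : (NK k : ℝ) ≤ tz (136 + LL k) := by
    have : (NK k : ℝ) ≤ NB k := by exact_mod_cast NK_le k
    exact this.trans (NB_le k)
  have hfin : ((NK k : ℝ) * qq ^ (NK k / 2 - 1)) ^ 2 ≤ (1 / 2) ^ 2 := by
    have h9 : (0 : ℝ) ≤ NK k := Nat.cast_nonneg _
    calc ((NK k : ℝ) * qq ^ (NK k / 2 - 1)) ^ 2 = (NK k : ℝ) ^ 2 * (qq ^ (NK k / 2 - 1)) ^ 2 := by
          ring
      _ ≤ (NK k : ℝ) ^ 2 * (4 * qq ^ (NK k - 1)) := by gcongr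
      _ = 4 * NK k * (NK k * qq ^ (NK k - 1)) := by ring
      _ ≤ 4 * tz (136 + LL k) * tz (1 - 125 * LL k) := by
          have := ee_tz k
          have h10 : (NK k : ℝ) * qq ^ (NK k - 1) ≤ tz (1 - 125 * LL k) := h2.trans this
          have := tz_pos (136 + LL k)
          have h11 : (0 : ℝ) ≤ NK k * qq ^ (NK k - 1) := by positivity
          gcongr
      _ = tz (2 + (136 + LL k) + (1 - 125 * LL k)) := by
          rw [tz_add (2 + (136 + LL k)), tz_add 2 (136 + LL k)]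
          have : tz 2 = 4 := by unfold tz; norm_num
          rw [this]
      _ ≤ tz (-2) := tz_mono (by omega)
      _ = (1 / 2) ^ 2 := by unfold tz; norm_num
  have h9 : (0 : ℝ) ≤ (NK k : ℝ) * qq ^ (NK k / 2 - 1) := by positivity
  exact (pow_le_pow_iff_left₀ h9 (by norm_num) (by norm_num)).1 hfin

theorem pol1 (k : ℕ) : 12 * (16 * LL k + 9) ≤ 2 ^ (sL k) := by
  unfold sL LL
  obtain ⟨K, hK⟩ : ∃ K, K = k + 10 := ⟨_, rfl⟩
  rw [← hK]
  have h2 : K < 2 ^ K := Nat.lt_two_pow_self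
  have h10 : 2 ^ 10 ≤ 2 ^ K := Nat.pow_le_pow_right (by norm_num) (by omega)
  have h3 : 2 ^ (5 * K) = 2 ^ K * 2 ^ K * (2 ^ K * 2 ^ K * 2 ^ K) := by ring
  rw [h3]
  have h5 : K ^ 2 + 1 ≤ 2 ^ K * 2 ^ K := by nlinarith
  have h6 : 192 ≤ 2 ^ K * 2 ^ K * 2 ^ K := by nlinarith
  calc 12 * (16 * K ^ 2 + 9) ≤ (K ^ 2 + 1) * 192 := by ring_nf; omega
    _ ≤ 2 ^ K * 2 ^ K * (2 ^ K * 2 ^ K * 2 ^ K) := Nat.mul_le_mul h5 h6

theorem NK_pole (k : ℕ) : ((HH k : ℝ) + 1) * (3 * (NK k * qq ^ (NK k - 1))) ≤ 1 / 4 := by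
  have h2 := (NK_spec k).2
  have hx := xx_pos k
  have hxh := xx_half k
  have hv := VC_le k
  have he := ee_pos k
  have h1 : ((HH k : ℝ) + 1) * xx k ≤ 16 * LL k + 9 := by
    unfold HH Dl
    push_cast
    have h5 : (0 : ℝ) ≤ LL k := Nat.cast_nonneg _
    calc ((VC k : ℝ) * (4 * LL k + 2) + 1) * xx k = (VC k * xx k) * (4 * LL k + 2) + xx k := by ring
      _ ≤ 4 * (4 * LL k + 2) + 1 / 2 := by gcongr
      _ ≤ _ := by linarith
  have h3 : (12 * (16 * LL k + 9) : ℝ) ≤ 2 ^ (sL k) := by exact_mod_cast pol1 k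
  have h4 : xx k = 2 ^ (sL k) * ee k := rfl
  have h6 : (0 : ℝ) ≤ (HH k : ℝ) + 1 := by positivity
  have h7 : ((HH k : ℝ) + 1) * (12 * ee k) ≤ 1 := by
    have h8 : (0 : ℝ) < 2 ^ (sL k) := by positivity
    rw [h4] at h1
    have h9 : ((HH k : ℝ) + 1) * (12 * ee k) * 2 ^ (sL k) ≤ 1 * 2 ^ (sL k) := by nlinarith
    exact le_of_mul_le_mul_right h9 h8
  calc ((HH k : ℝ) + 1) * (3 * (NK k * qq ^ (NK k - 1))) ≤ ((HH k : ℝ) + 1) * (3 * ee k) := by
        gcongr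
    _ = (((HH k : ℝ) + 1) * (12 * ee k)) / 4 := by ring
    _ ≤ 1 / 4 := by linarith

theorem NK_good : NGood NK := ⟨fun k => by have := NK_ge k; omega, NK_conn, NK_pole⟩

end Pool.Agent.Helper713.Fib
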