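import Mathlib
import Pool.Agent.Helper713.FibR

set_option autoImplicit false
set_option linter.deprecated false

open MeasureTheory ProbabilityTheory

namespace Pool.Agent.Helper713.Fib

attribute [local irreducible] sL LL tz JJ

theorem tz_congr {a b : ℤ} (h : a = b) : tz a = tz b := by rw [h]

theorem pol2 (k : ℕ) : 16 * (2 * JJ k + 2) * LL k ≤ 2 ^ (sL k) := by
  unfold JJ sL LL
  obtain ⟨K, hK⟩ : ∃ K, K = k + 10 := ⟨_, rfl⟩
  rw [← hK]
  have h2 : K < 2 ^ K := Nat.lt_two_pow_self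
  have h10 : 2 ^ 10 ≤ 2 ^ K := Nat.pow_le_pow_right (by norm_num) (by omega)
  have h3 : 2 ^ (5 * K) = 2 ^ K * (2 ^ K * 2 ^ K) * (2 ^ K * 2 ^ K) := by ring
  rw [h3]
  have h5 : K ^ 2 ≤ 2 ^ K * 2 ^ K := by nlinarith
  have h6 : 2 * (2 * (5 * K)) + 2 ≤ 32 * 2 ^ K := by omega
  have h7 : 512 ≤ 2 ^ K * 2 ^ K := by nlinarith
  calc 16 * (2 * (2 * (5 * K)) + 2) * K ^ 2 ≤ 16 * (32 * 2 ^ K) * (2 ^ K * 2 ^ K) := by gcongr
    _ = 2 ^ K * (2 ^ K * 2 ^ K) * 512 := by ring
    _ ≤ 2 ^ K * (2 ^ K * 2 ^ K) * (2 ^ K * 2 ^ K) := Nat.mul_le_mul_left _ h7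

theorem NK_le' (k : ℕ) : (NK k : ℝ) ≤ tz 136 * LL k := by
  have h1 : (NK k : ℝ) ≤ NB k := by exact_mod_cast NK_le k
  refine h1.trans ?_
  have h2 : NB k ≤ 2 ^ 136 * LL k := by
    have := LL_ge k
    unfold NB
    omega
  have h3 : (NB k : ℝ) ≤ ((2 ^ 136 * LL k : ℕ) : ℝ) := Nat.cast_le.2 h2
  refine h3.trans (le_of_eq ?_)
  rw [Nat.cast_mul, Nat.cast_pow, Nat.cast_ofNat]
  unfold tz
  norm_num

theorem VV_le (k : ℕ) : VV NK k ≤ tz (21 * sL k + 146) / ee k := by
  have he := ee_pos k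
  have hq := pow_pos qq_pos (NK k)
  have h1 := NK_pow k
  have h2 := NK_le' k
  have h3 : (16 * (2 * JJ k + 2 : ℕ) * LL k : ℝ) ≤ tz (sL k) := by
    rw [tz_nat]; exact_mod_cast pol2 k
  have hL : (0 : ℝ) ≤ LL k := Nat.cast_nonneg _
  have hJ : (0 : ℝ) ≤ (2 * JJ k + 2 : ℕ) := Nat.cast_nonneg _
  have h32 : (1 / 32 : ℝ) ^ (2 * JJ k + 2) = tz (-(5 * (4 * sL k + 2))) := by
    have : (1 / 32 : ℝ) = tz (-5) := by unfold tz; norm_num
    rw [this, tz_pow]
    congr 1
    unfold JJ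
    push_cast
    ring
  unfold VV sg
  rw [h32]
  have ht := tz_pos (-(5 * (4 * sL k + 2)))
  rw [le_div_iff₀ he, mul_comm 2, mul_assoc, div_mul_eq_mul_div, div_le_iff₀ (by positivity)]
  have h4 : tz (21 * sL k + 146) * (qq ^ NK k * tz (-(5 * (4 * sL k + 2))) * (1 / 2)) =
      tz (sL k + 136) * (1 / 2) * qq ^ NK k := by
    have : tz (21 * sL k + 146) * tz (-(5 * (4 * sL k + 2))) = tz (sL k + 136) := by
      rw [← tz_add]; exact tz_congr (by ring)
    rw [← this]; ring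
  rw [h4, tz_add]
  have h5 : ee k ≤ 4 * (tz 136 * LL k) * qq ^ (NK k) := by
    refine h1.trans ?_
    gcongr
  have hts := tz_pos (sL k)
  calc ((2 * JJ k + 2 : ℕ) : ℝ) * (2 * ee k) ≤
        ((2 * JJ k + 2 : ℕ) : ℝ) * (2 * (4 * (tz 136 * LL k) * qq ^ (NK k))) := by gcongr
    _ = (16 * (2 * JJ k + 2 : ℕ) * LL k) * tz 136 * (1 / 2) * qq ^ (NK k) := by ring
    _ ≤ tz (sL k) * tz 136 * (1 / 2) * qq ^ (NK k) := by
        have := tz_pos 136
        gcongr

theorem MR_le (k : ℕ) : MR k ≤ tz (sL k) * ee k := by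
  unfold MR
  have he := ee_pos k
  have h1 : (4 * LL k + 2 : ℝ) ≤ tz (sL k) := by
    rw [tz_nat]
    have : 4 * LL k + 2 ≤ 2 ^ (sL k) := by have := pol1 k; omega
    exact_mod_cast this
  gcongr

theorem KR_le (l j δ : ℕ) :
    KR NK l j δ ≤ tz (149 + 21 * sL l + sL j - 125 * δ) * (ee j / ee l) := by
  unfold KR
  have h1 := VV_le l
  have h2 := MR_le j
  have h3 := VV_pos NK l
  have h4 := MR_pos j
  have h5 := ee_pos l
  have h6 := ee_pos j
  have h8 : (8 : ℝ) = tz 3 := by unfold tz; norm_num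
  rw [tz125, tz_pow]
  have t1 := tz_pos (-125 * (δ : ℤ))
  have t2 := tz_pos (21 * sL l + 146)
  have t3 := tz_pos (sL j)
  calc 8 * VV NK l * MR j * tz (-125 * δ) ≤
        8 * (tz (21 * sL l + 146) / ee l) * (tz (sL j) * ee j) * tz (-125 * δ) := by gcongr
    _ = (tz 3 * tz (21 * sL l + 146) * tz (sL j) * tz (-125 * δ)) * (ee j / ee l) := by
        rw [h8]; ring
    _ = _ := by
        rw [← tz_add, ← tz_add, ← tz_add]
        congr 2
        ring

theorem ratio_le (j : ℕ) : ee j / ee (j + 1) ≤ tz (127 * (2 * j + 21)) := by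
  have h1 := ee_pos j
  have h2 := ee_pos (j + 1)
  have h3 := ee_ratio j
  have h4 : LL (j + 1) - LL j = 2 * j + 21 := by
    unfold LL
    have : (j + 1 + 10) ^ 2 = (j + 10) ^ 2 + (2 * j + 21) := by ring
    omega
  rw [h4, tz127, tz_pow] at h3
  rw [div_le_iff₀ h2]
  have h5 : tz (127 * (2 * j + 21)) * tz (-127 * ((2 * j + 21 : ℕ) : ℤ)) = 1 := by
    rw [← tz_add, ← tz_zero]
    exact tz_congr (by push_cast; ring)
  have h6 := tz_pos (127 * (2 * (j : ℤ) + 21))
  calc ee j = tz (127 * (2 * j + 21)) * (ee j * tz (-127 * ((2 * j + 21 : ℕ) : ℤ))) := by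
        rw [← mul_assoc, mul_comm (tz _) (ee j), mul_assoc, h5, mul_one]
    _ ≤ _ := by gcongr

/-- exponents of the weights -/
def Fz : ℕ → ℤ
  | 0 => 0
  | k + 1 => Fz k - (25 * sL k + 154)

theorem sixth {a : ℤ} : tz (a - 3) ≤ tz a / 6 := by
  have h1 : tz (a - 3) = tz a / 8 := by
    rw [← tz_div]
    have : tz 3 = 8 := by unfold tz; norm_num
    rw [this]
  rw [h1]
  have := tz_pos a
  linarith

theorem good_all : Good NK (fun k => tz (Fz k)) := by
  refine ⟨fun k => tz_pos _, ?_, ?_, ?_⟩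
  · intro k
    have h1 := KR_le k k (sL k)
    rw [div_self (ee_pos k).ne', mul_one] at h1
    have h2 := tz_pos (Fz (k + 1))
    have h3 := KR_pos NK k k (sL k)
    rw [tz128, tz_pow]
    have t1 := tz_pos (128 * (sL k : ℤ))
    calc tz (128 * sL k) * KR NK k k (sL k) * tz (Fz (k + 1)) ≤
          tz (128 * sL k) * tz (149 + 21 * sL k + sL k - 125 * sL k) * tz (Fz (k + 1)) := by gcongr
      _ = tz (128 * sL k + (149 + 21 * sL k + sL k - 125 * sL k) + Fz (k + 1)) := by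
          rw [← tz_add, ← tz_add]
      _ ≤ tz (Fz k - 3) := tz_mono (by rw [Fz]; omega)
      _ ≤ _ := sixth
  · intro j
    have h1 := KR_le (j + 1) j (sL j)
    have h2 := ratio_le j
    have h3 := tz_pos (Fz j)
    have t1 := tz_pos (149 + 21 * (sL (j + 1) : ℤ) + sL j - 125 * sL j)
    have h5 := ee_pos (j + 1)
    have h6 := ee_pos j
    have h7 : 0 ≤ ee j / ee (j + 1) := by positivity
    calc KR NK (j + 1) j (sL j) * tz (Fz j) ≤
          (tz (149 + 21 * sL (j + 1) + sL j - 125 * sL j) * (ee j / ee (j + 1))) * tz (Fz j) := by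
          gcongr
      _ ≤ (tz (149 + 21 * sL (j + 1) + sL j - 125 * sL j) * tz (127 * (2 * j + 21))) * tz (Fz j) := by
          gcongr
      _ = tz ((149 + 21 * sL (j + 1) + sL j - 125 * sL j) + 127 * (2 * j + 21) + Fz j) := by
          rw [← tz_add, ← tz_add]
      _ ≤ tz (Fz (j + 1) - 3) := tz_mono (by rw [Fz]; unfold sL; push_cast; omega)
      _ ≤ _ := sixth
  · intro j
    have h1 := KR_le (j + 1) j (LL j)
    have h2 := ratio_le j
    have t1 := tz_pos (149 + 21 * (sL (j + 1) : ℤ) + sL j - 125 * LL j)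
    have h5 := ee_pos (j + 1)
    have h6 := ee_pos j
    have h7 : 0 ≤ ee j / ee (j + 1) := by positivity
    rw [tz128, tz_pow]
    have t2 := tz_pos (128 * (sL j : ℤ))
    calc tz (128 * sL j) * KR NK (j + 1) j (LL j) ≤
          tz (128 * sL j) * (tz (149 + 21 * sL (j + 1) + sL j - 125 * LL j) *
            (ee j / ee (j + 1))) := by gcongr
      _ ≤ tz (128 * sL j) * (tz (149 + 21 * sL (j + 1) + sL j - 125 * LL j) *
            tz (127 * (2 * j + 21))) := by gcongr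
      _ = tz (128 * sL j + ((149 + 21 * sL (j + 1) + sL j - 125 * LL j) +
            127 * (2 * j + 21))) := by rw [← tz_add, ← tz_add]
      _ ≤ tz (0 - 3) := tz_mono (by
          unfold sL LL
          push_cast
          nlinarith [sq_nonneg (j : ℤ), Int.natCast_nonneg j])
      _ ≤ tz 0 / 6 := sixth
      _ = 1 / 6 := by rw [tz_zero]

/-- the total mass on the root column is finite -/
theorem root_mass_fin : ∑' y : rootCol, mu _ pp pp_le (cn (PG NK) (([], 0), 0) y) ≠ ⊤ :=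
  root_mass good_all

end Pool.Agent.Helper713.Fib
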