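import Mathlib
import Pool.Agent.Helper713.FibT

set_option autoImplicit false
set_option linter.deprecated false

open MeasureTheory ProbabilityTheory

namespace Pool.Agent.Helper713.Fib

attribute [local irreducible] sL LL tz JJ

theorem NK_pos (k : ℕ) : 0 < NK k := NK_good.pos k

theorem rootCol_tsum : ∑' n : ℤ, PP (cn (PG NK) (([], 0), 0) (([], 0), n)) ≠ ⊤ := by
  have h := root_mass_fin
  have hinj : Function.Injective (fun n : ℤ => ((([], 0), n) : WW)) := by
    intro n n' h
    simpa using h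
  unfold rootCol at h
  rwa [tsum_range (fun y : WW => mu _ pp pp_le (cn (PG NK) (([], 0), 0) y)) hinj] at h

theorem mass_step {v v' : List ℕ × ℕ} (h : ∀ n : ℤ, (PG NK).Adj (v, n) (v', n))
    (hf : ∑' n : ℤ, PP (cn (PG NK) (([], 0), 0) (v', n)) ≠ ⊤) :
    ∑' n : ℤ, PP (cn (PG NK) (([], 0), 0) (v, n)) ≠ ⊤ := by
  have hp0 : (pp : ENNReal) ≠ 0 := by
    rw [pp_coe]; simp
  have hpt : (pp : ENNReal) ≠ ⊤ := ENNReal.coe_ne_top
  have h1 : ∀ n : ℤ, PP (cn (PG NK) (([], 0), 0) (v, n)) ≤
      PP (cn (PG NK) (([], 0), 0) (v', n)) / pp := by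
    intro n
    rw [ENNReal.le_div_iff_mul_le (Or.inl hp0) (Or.inl hpt)]
    exact cn_step (PG NK) pp pp_le _ _ _ (h n)
  refine ne_top_of_le_ne_top ?_ (ENNReal.tsum_le_tsum h1)
  simp only [div_eq_mul_inv]
  rw [ENNReal.tsum_mul_right]
  exact ENNReal.mul_ne_top hf (ENNReal.inv_ne_top.2 hp0)

theorem mass_word (l : List ℕ) (hl : Valid l) :
    ∑' n : ℤ, PP (cn (PG NK) (([], 0), 0) ((l, 0), n)) ≠ ⊤ := by
  induction l with
  | nil => exact rootCol_tsum
  | cons a l ih =>
    refine mass_step (fun n => ?_) (ih hl.2)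
    rw [PG_adj]
    exact ⟨⟨hl, cl_pos NK NK_pos _⟩, ⟨hl.2, cl_pos NK NK_pos _⟩,
      Or.inl ⟨rfl, Or.inr ⟨rfl, rfl, Or.inr ⟨a, rfl⟩⟩⟩⟩

theorem mass_vert (v : List ℕ × ℕ) (hv : vv NK v) :
    ∑' n : ℤ, PP (cn (PG NK) (([], 0), 0) (v, n)) ≠ ⊤ := by
  obtain ⟨l, j⟩ := v
  by_cases hj : j = 0
  · subst hj; exact mass_word l hv.1
  · refine mass_step (fun n => ?_) (mass_word l hv.1)
    rw [PG_adj]
    exact ⟨hv, ⟨hv.1, cl_pos NK NK_pos _⟩, Or.inl ⟨rfl, Or.inl ⟨rfl, hj⟩⟩⟩

theorem fin_ae : ∀ᵐ ω ∂PP, ∀ v : List ℕ × ℕ, vv NK v →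
    {n : ℤ | (openGraph (PG NK) ω).Reachable (([], 0), 0) (v, n)}.Finite := by
  rw [ae_all_iff]
  intro v
  by_cases hv : vv NK v
  · have := ae_finite_setOf_mem (mass_vert v hv)
    filter_upwards [this] with ω hω _
    exact hω
  · filter_upwards with ω h
    exact absurd h hv

/-- vertices of the factor graph -/
abbrev VT : Type := {x : List ℕ × ℕ // vv NK x}

/-- the factor graph -/
def GT : SimpleGraph VT where
  Adj x y := gadj x.1 y.1
  symm := ⟨fun _ _ h => gadj_symm h⟩
  loopless := ⟨fun _ h => gadj_ne h rfl⟩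

theorem GT_adj (x y : VT) : GT.Adj x y ↔ gadj x.1 y.1 := Iff.rfl

/-- the vertex of a word -/
def vw (l : List ℕ) (h : Valid l) : VT := ⟨(l, 0), h, cl_pos NK NK_pos _⟩

theorem GT_reach_word (l : List ℕ) : ∀ h : Valid l, GT.Reachable (vw [] trivial) (vw l h) := by
  induction l with
  | nil => intro h; exact SimpleGraph.Reachable.refl _
  | cons a l ih =>
    intro h
    refine (ih h.2).trans ?_
    apply SimpleGraph.Adj.reachable
    exact Or.inr ⟨rfl, rfl, Or.inl ⟨a, rfl⟩⟩

theorem GT_connected : GT.Connected := by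
  rw [SimpleGraph.connected_iff_exists_forall_reachable]
  refine ⟨vw [] trivial, ?_⟩
  rintro ⟨⟨l, j⟩, hv⟩
  by_cases hj : j = 0
  · subst hj; exact GT_reach_word l hv.1
  · refine (GT_reach_word l hv.1).trans ?_
    apply SimpleGraph.Adj.reachable
    exact Or.inl ⟨rfl, fun h => hj h.symm⟩

instance : Infinite VT := by
  refine Infinite.of_injective (fun n : ℕ => vw (ext0 n []) (ext0_valid n trivial)) ?_
  intro a b h
  have h1 : (ext0 a [], 0) = ((ext0 b [], 0) : List ℕ × ℕ) := congrArg (fun v : VT => v.1) h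
  have h2 := congrArg (fun x : List ℕ × ℕ => x.1.length) h1
  simp only [ext0_len] at h2
  omega

theorem GT_locFin (v : VT) : (GT.neighborSet v).Finite := by
  classical
  have hfin : ((((Finset.range (cl NK v.1.1.length)).image (fun j => (v.1.1, j))) ∪
      (nbw v.1.1).image (fun u => (u, 0)) : Finset (List ℕ × ℕ)) : Set (List ℕ × ℕ)).Finite :=
    Finset.finite_toSet _
  refine Set.Finite.subset (hfin.preimage (f := fun x : VT => x.1) Subtype.val_injective.injOn) ?_
  intro x hx
  have hx' : gadj v.1 x.1 := hx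
  simp only [Set.mem_preimage, Finset.coe_union, Finset.coe_image, Set.mem_union, Set.mem_image,
    Finset.mem_coe, Finset.mem_range]
  rcases hx' with ⟨h1, h2⟩ | ⟨h1, h2, h3⟩
  · left
    refine ⟨x.1.2, ?_, ?_⟩
    · have := x.2.2; rwa [← h1] at this
    · exact Prod.ext h1 rfl
  · right
    refine ⟨x.1.1, nbw_mem x.2.1 h3, ?_⟩
    exact Prod.ext rfl h2.symm

/-- vertices of small depth -/
theorem small_fin (t : ℕ) : {x : VT | x.1.1.length < t}.Finite := by
  classical
  have hfin : (((Finset.range t).biUnion (fun m => (gen [] m).biUnion (fun l =>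
      (Finset.range (cl NK l.length)).image (fun j => (l, j)))) : Finset (List ℕ × ℕ)) :
      Set (List ℕ × ℕ)).Finite := Finset.finite_toSet _
  refine Set.Finite.subset (hfin.preimage (f := fun x : VT => x.1) Subtype.val_injective.injOn) ?_
  intro x hx
  have hx' : x.1.1.length < t := hx
  rw [Set.mem_preimage, Finset.mem_coe, Finset.mem_biUnion]
  refine ⟨x.1.1.length, Finset.mem_range.2 hx', ?_⟩
  rw [Finset.mem_biUnion]
  refine ⟨x.1.1, ?_, Finset.mem_image.2 ⟨x.1.2, Finset.mem_range.2 x.2.2, rfl⟩⟩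
  have := gen_mem (w := []) x.2.1 List.nil_suffix
  simpa using this

/-- tree edge in the factor graph -/
noncomputable def ev (x : List ℕ) : Sym2 VT := by
  classical
  exact if h : Valid x ∧ Valid x.tail then s(vw x.tail h.2, vw x h.1) else s(vw [] trivial, vw [] trivial)

theorem valid_tail' {x : List ℕ} (h : Valid x) : Valid x.tail := valid_suffix h (List.tail_suffix x)

theorem ev_eq {x : List ℕ} (h : Valid x) : ev x = s(vw x.tail (valid_tail' h), vw x h) := by
  unfold ev
  rw [dif_pos ⟨h, valid_tail' h⟩]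

theorem vw_inj {x y : List ℕ} {hx : Valid x} {hy : Valid y} (h : vw x hx = vw y hy) : x = y :=
  congrArg (fun v : VT => v.1.1) h

theorem ev_inj {x y : List ℕ} (hx : Valid x) (hy : Valid y) (h : ev x = ev y) : x = y := by
  rw [ev_eq hx, ev_eq hy, Sym2.eq_iff] at h
  rcases h with ⟨_, h2⟩ | ⟨h1, h2⟩
  · exact vw_inj h2
  · have e1 := congrArg List.length (vw_inj h1)
    have e2 := congrArg List.length (vw_inj h2)
    rw [List.length_tail] at e1 e2
    have e3 : x.length = 0 := by omega
    have e4 : y.length = 0 := by omega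
    rw [List.length_eq_zero_iff] at e3 e4
    exact e3.trans e4.symm

open Classical in
/-- the tree edges above `x`, `t` steps -/
noncomputable def hv : ℕ → List ℕ → Finset (Sym2 VT)
  | 0, _ => ∅
  | t + 1, x => insert (ev x) (hv t x.tail)

theorem hv_mem {t : ℕ} {x : List ℕ} {e : Sym2 VT} (h : e ∈ hv t x) (ht : t ≤ x.length) :
    ∃ y, y <:+ x ∧ x.length < y.length + t ∧ e = ev y := by
  classical
  induction t generalizing x with
  | zero => simp [hv] at h
  | succ t ih =>
    rw [hv, Finset.mem_insert] at h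
    rcases h with h | h
    · exact ⟨x, List.suffix_rfl, by omega, h⟩
    · have h1 : x.tail.length = x.length - 1 := List.length_tail
      obtain ⟨y, hy1, hy2, hy3⟩ := ih h (by omega)
      exact ⟨y, hy1.trans (List.tail_suffix x), by omega, hy3⟩

theorem hv_card {t : ℕ} {x : List ℕ} (hx : Valid x) (ht : t ≤ x.length) : (hv t x).card = t := by
  classical
  induction t generalizing x with
  | zero => simp [hv]
  | succ t ih =>
    have h1 : x.tail.length = x.length - 1 := List.length_tail
    rw [hv, Finset.card_insert_of_notMem, ih (valid_tail' hx) (by omega)]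
    intro hm
    obtain ⟨z, hz1, _, hz3⟩ := hv_mem hm (by omega)
    have h2 := ev_inj hx (valid_suffix (valid_tail' hx) hz1) hz3
    subst h2
    have := hz1.length_le
    omega

/-- number of valid words of length `t` -/
theorem gen_nil_card (t : ℕ) : (gen [] t).card ≤ ∏ i ∈ Finset.range t, br i := by
  classical
  induction t with
  | zero => simp [gen]
  | succ t ih =>
    rw [gen, Finset.prod_range_succ]
    refine Finset.card_biUnion_le.trans ?_
    refine (Finset.sum_le_card_nsmul _ _ (br t) ?_).trans ?_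
    · intro v hv
      refine Finset.card_image_le.trans ?_
      rw [Finset.card_range, (gen_prop t hv).2.1]
      simp
    · rw [smul_eq_mul]
      exact Nat.mul_le_mul_right _ ih

theorem prod_br (k : ℕ) : ∏ i ∈ Finset.range (hd (k + 1)), br i =
    (∏ i ∈ Finset.range (hd k), br i) * dd ^ (sL k) := by
  have h1 : ∀ t ≤ sL k, ∏ i ∈ Finset.range (hd k + t), br i =
      (∏ i ∈ Finset.range (hd k), br i) * dd ^ t := by
    intro t ht
    induction t with
    | zero => simp
    | succ t ih =>
      rw [← Nat.add_assoc, Finset.prod_range_succ, ih (by omega),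
        br_split (k := k) (by omega) (by omega), pow_succ]
      ring
  have h2 : ∀ t ≤ LL k, ∏ i ∈ Finset.range (hd k + sL k + t), br i =
      ∏ i ∈ Finset.range (hd k + sL k), br i := by
    intro t ht
    induction t with
    | zero => simp
    | succ t ih =>
      rw [← Nat.add_assoc, Finset.prod_range_succ, ih (by omega),
        br_path (k := k) (by omega) (by rw [hd_succ]; omega), mul_one]
  rw [hd_succ, h2 (LL k) le_rfl, h1 (sL k) le_rfl]

/-- event: some word of length `t` is joined upwards to depth `t0` -/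
def OO (t0 t : ℕ) : Set (Sym2 VT → Bool) :=
  ⋃ x ∈ gen [] t, {ω | ∀ e ∈ hv (t - t0) x, ω e = true}

theorem OO_prob (p : NNReal) (hp : p ≤ 1) (t0 t : ℕ) (h : t0 ≤ t) :
    mu (Sym2 VT) p hp (OO t0 t) ≤ ((∏ i ∈ Finset.range t, br i : ℕ) : ENNReal) * p ^ (t - t0) := by
  classical
  unfold OO
  refine (measure_biUnion_finset_le _ _).trans ?_
  have h1 : ∀ x ∈ gen [] t, mu (Sym2 VT) p hp {ω | ∀ e ∈ hv (t - t0) x, ω e = true} ≤
      (p : ENNReal) ^ (t - t0) := by
    intro x hx
    obtain ⟨_, h2, h3⟩ := gen_prop t hx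
    have hxl : x.length = t := by rw [h2]; simp
    rw [mu_allopen, hv_card (h3 trivial) (by omega)]
  refine (Finset.sum_le_card_nsmul _ _ _ h1).trans ?_
  rw [nsmul_eq_mul]
  gcongr
  exact gen_nil_card t

end Pool.Agent.Helper713.Fib
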