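import Mathlib
import Pool.Agent.Helper713.FibU

set_option autoImplicit false
set_option linter.deprecated false

open MeasureTheory ProbabilityTheory

namespace Pool.Agent.Helper713.Fib

attribute [local irreducible] sL LL tz JJ

theorem chain_open {ω : Sym2 VT → Bool} {v x : VT} (h : (openGraph GT ω).Reachable v x) :
    ∀ y, y <:+ x.1.1 → v.1.1.length < y.length → ω (ev y) = true := by
  have key : x ∈ {x : VT | ∀ y, y <:+ x.1.1 → v.1.1.length < y.length → ω (ev y) = true} := by
    refine reach_closed h _ ?_ ?_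
    · intro y hy hlt
      have := hy.length_le
      omega
    · intro x z hx hxz y hy hlt
      rw [openGraph_adj, GT_adj] at hxz
      obtain ⟨hadj, hop⟩ := hxz
      rcases hadj with ⟨h1, _⟩ | ⟨h1, h2, h3⟩
      · rw [← h1] at hy; exact hx y hy hlt
      · rcases h3 with ⟨a, h3⟩ | ⟨a, h3⟩
        · rw [h3] at hy
          rcases List.suffix_cons_iff.1 hy with h4 | h4
          · have hz : Valid z.1.1 := z.2.1
            have hx' : vw z.1.1.tail (valid_tail' hz) = x := by
              apply Subtype.ext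
              apply Prod.ext
              · show z.1.1.tail = x.1.1
                rw [h3]; rfl
              · exact h1.symm
            have hz' : vw z.1.1 hz = z := by
              apply Subtype.ext
              apply Prod.ext
              · rfl
              · exact h2.symm
            have e1 : ev y = s(x, z) := by
              rw [h4, ← h3, ev_eq hz, hx', hz']
            rw [e1]; exact hop
          · exact hx y h4 hlt
        · refine hx y ?_ hlt
          rw [h3]
          exact hy.trans (List.suffix_cons _ _)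
  exact key

theorem infinite_sub (v : VT) (t : ℕ) (ht : v.1.1.length ≤ t) :
    {ω : Sym2 VT → Bool | {x | (openGraph GT ω).Reachable v x}.Infinite} ⊆ OO v.1.1.length t := by
  intro ω hω
  obtain ⟨x, hx, hxt⟩ : ∃ x, (openGraph GT ω).Reachable v x ∧ t ≤ x.1.1.length := by
    by_contra hcon
    push Not at hcon
    apply hω
    exact (small_fin t).subset (fun x hx => hcon x hx)
  set x' := x.1.1.drop (x.1.1.length - t) with hx'
  have hsuf : x' <:+ x.1.1 := List.drop_suffix _ _
  have hlen : x'.length = t := by rw [hx', List.length_drop]; omega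
  have hval : Valid x' := valid_suffix x.2.1 hsuf
  unfold OO
  simp only [Set.mem_iUnion]
  refine ⟨x', ?_, ?_⟩
  · have := gen_mem (w := []) hval List.nil_suffix
    simp only [List.length_nil, Nat.sub_zero, hlen] at this
    exact this
  · intro e he
    obtain ⟨y, hy1, hy2, rfl⟩ := hv_mem he (by omega)
    exact chain_open hx y (hy1.trans hsuf) (by omega)

theorem decay (p : ℝ) (hp0 : 0 ≤ p) (hp : p < 1) :
    ∃ k0, ∀ k ≥ k0, (2 ^ 128 : ℝ) ^ (sL k) * p ^ (sL k + LL k) ≤ 1 / 2 := by
  have h1 := tendsto_pow_atTop_nhds_zero_of_lt_one hp0 hp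
  have h2 : ∀ᶠ n in Filter.atTop, p ^ n < 1 / (2 * (2 ^ 128) ^ 5) :=
    h1.eventually (gt_mem_nhds (by positivity))
  obtain ⟨k0, hk0⟩ := Filter.eventually_atTop.1 h2
  refine ⟨k0, fun k hk => ?_⟩
  have h3 := hk0 (k + 10) (by omega)
  have e1 : sL k = 5 * (k + 10) := by unfold sL; rfl
  have e2 : LL k = (k + 10) * (k + 10) := by unfold LL; ring
  rw [e1, e2]
  set K := k + 10 with hK
  have h4 : (2 ^ 128 : ℝ) ^ 5 * p ^ K ≤ 1 / 2 := by
    rw [lt_div_iff₀ (by positivity)] at h3
    nlinarith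
  have hpk : 0 ≤ p ^ K := pow_nonneg hp0 _
  calc (2 ^ 128 : ℝ) ^ (5 * K) * p ^ (5 * K + K * K) ≤ (2 ^ 128 : ℝ) ^ (5 * K) * p ^ (K * K) := by
        have : p ^ (5 * K + K * K) ≤ p ^ (K * K) :=
          pow_le_pow_of_le_one hp0 hp.le (by omega)
        gcongr
    _ = ((2 ^ 128 : ℝ) ^ 5 * p ^ K) ^ K := by
        rw [mul_pow, pow_mul p K K, pow_mul (2 ^ 128 : ℝ) 5 K]
    _ ≤ (1 / 2) ^ K := pow_le_pow_left₀ (by positivity) h4 _
    _ ≤ (1 / 2) ^ 1 := pow_le_pow_of_le_one (by norm_num) (by norm_num) (by omega)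
    _ = 1 / 2 := by norm_num

theorem cluster_fin (p : NNReal) (hp : p ≤ 1) (hlt : p < 1) (v : VT) :
    mu (Sym2 VT) p hp {ω | {x | (openGraph GT ω).Reachable v x}.Infinite} = 0 := by
  obtain ⟨k0, hk0⟩ := decay p p.2 (by exact_mod_cast hlt)
  obtain ⟨t0, ht0⟩ : ∃ t0, t0 = v.1.1.length := ⟨_, rfl⟩
  set k1 := max k0 t0 with hk1
  have hhd : ∀ k, k ≤ hd k := hd_mono.id_le
  set b : ℕ → ℝ := fun k => ((∏ i ∈ Finset.range (hd k), br i : ℕ) : ℝ) * (p : ℝ) ^ (hd k - t0) with hb
  have hb0 : ∀ k, 0 ≤ b k := fun k => by simp only [hb]; positivity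
  have hstep : ∀ k, k1 ≤ k → b (k + 1) ≤ b k * (1 / 2) := by
    intro k hk
    simp only [hb]
    have e1 : hd (k + 1) - t0 = (hd k - t0) + (sL k + LL k) := by
      have := hhd k
      rw [hd_succ]; omega
    rw [e1, prod_br, Nat.cast_mul, Nat.cast_pow, Nat.cast_pow, Nat.cast_ofNat, pow_add]
    have h1 := hk0 k (by omega)
    have h2 : (0 : ℝ) ≤ ((∏ i ∈ Finset.range (hd k), br i : ℕ) : ℝ) * (p : ℝ) ^ (hd k - t0) := by
      positivity
    calc ((∏ i ∈ Finset.range (hd k), br i : ℕ) : ℝ) * (2 ^ 128) ^ sL k *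
          ((p : ℝ) ^ (hd k - t0) * (p : ℝ) ^ (sL k + LL k)) =
          (((∏ i ∈ Finset.range (hd k), br i : ℕ) : ℝ) * (p : ℝ) ^ (hd k - t0)) *
          ((2 ^ 128) ^ sL k * (p : ℝ) ^ (sL k + LL k)) := by ring
      _ ≤ _ := mul_le_mul_of_nonneg_left h1 h2
  have hgeo : ∀ n, b (k1 + n) ≤ b k1 * (1 / 2) ^ n := by
    intro n
    induction n with
    | zero => simp
    | succ n ih =>
      calc b (k1 + n + 1) ≤ b (k1 + n) * (1 / 2) := hstep _ (by omega)
        _ ≤ b k1 * (1 / 2) ^ n * (1 / 2) := by gcongr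
        _ = _ := by rw [pow_succ]; ring
  have hle : ∀ n, mu (Sym2 VT) p hp {ω | {x | (openGraph GT ω).Reachable v x}.Infinite} ≤
      ENNReal.ofReal (b k1 * (1 / 2) ^ n) := by
    intro n
    have h1 := hhd (k1 + n)
    refine (measure_mono (infinite_sub v (hd (k1 + n)) (by omega))).trans ?_
    refine (OO_prob p hp _ _ (by omega)).trans ?_
    refine le_trans (le_of_eq ?_) (ENNReal.ofReal_le_ofReal (hgeo n))
    simp only [hb]
    rw [ENNReal.ofReal_mul (Nat.cast_nonneg _), ENNReal.ofReal_natCast,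
      ENNReal.ofReal_pow (NNReal.coe_nonneg p), ENNReal.ofReal_coe_nnreal, ht0]
  have hlim : Filter.Tendsto (fun n : ℕ => ENNReal.ofReal (b k1 * (1 / 2) ^ n)) Filter.atTop
      (nhds 0) := by
    rw [← ENNReal.ofReal_zero]
    apply ENNReal.tendsto_ofReal
    have := (tendsto_pow_atTop_nhds_zero_of_lt_one (r := (1 / 2 : ℝ)) (by norm_num)
      (by norm_num)).const_mul (b k1)
    simpa using this
  exact le_antisymm (ge_of_tendsto' hlim hle) bot_le

theorem no_inf (p : NNReal) (hp : p ≤ 1) (hlt : p < 1) :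
    ∀ᵐ ω ∂(mu (Sym2 VT) p hp), ∀ C : (openGraph GT ω).ConnectedComponent, ¬ C.supp.Infinite := by
  have h : ∀ᵐ ω ∂(mu (Sym2 VT) p hp), ∀ v : VT,
      ¬ {x | (openGraph GT ω).Reachable v x}.Infinite := by
    rw [ae_all_iff]
    intro v
    rw [ae_iff]
    simp only [not_not]
    exact cluster_fin p hp hlt v
  filter_upwards [h] with ω hω C hC
  induction C using SimpleGraph.ConnectedComponent.ind with
  | _ v =>
    apply hω v
    convert hC using 1
    ext x
    rw [SimpleGraph.ConnectedComponent.mem_supp_iff, SimpleGraph.ConnectedComponent.eq]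
    exact ⟨fun h => h.symm, fun h => h.symm⟩

/-- critical probability of Bernoulli bond percolation -/
noncomputable def pcrit {V : Type} (G : SimpleGraph V) : NNReal :=
  sInf {p : NNReal | ∃ hp : p ≤ 1,
    0 < mu (Sym2 V) p hp {ω | ∃ C : (openGraph G ω).ConnectedComponent, C.supp.Infinite}}

theorem all_open {E : Type} [Countable E] (hp : (1 : NNReal) ≤ 1) :
    ∀ᵐ ω ∂(mu E 1 hp), ∀ e, ω e = true := by
  rw [ae_all_iff]
  intro e
  rw [ae_iff]
  have : {ω : E → Bool | ¬ ω e = true} = {ω | ω e = false} := by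
    ext ω; simp
  rw [this, mu_coord_false]
  simp

theorem pcrit_GT : pcrit GT = 1 := by
  unfold pcrit
  have h : {p : NNReal | ∃ hp : p ≤ 1, 0 < mu (Sym2 VT) p hp
      {ω | ∃ C : (openGraph GT ω).ConnectedComponent, C.supp.Infinite}} = {1} := by
    ext p
    simp only [Set.mem_setOf_eq, Set.mem_singleton_iff]
    constructor
    · rintro ⟨hp, h⟩
      by_contra hne
      have hlt : p < 1 := lt_of_le_of_ne hp hne
      have h1 := no_inf p hp hlt
      rw [ae_iff] at h1
      apply h.ne'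
      refine measure_mono_null ?_ h1
      rintro ω ⟨C, hC⟩
      simp only [Set.mem_setOf_eq, not_forall, not_not]
      exact ⟨C, hC⟩
    · rintro rfl
      refine ⟨le_rfl, ?_⟩
      have h1 := all_open (E := Sym2 VT) le_rfl
      have h2 : ∀ᵐ ω ∂(mu (Sym2 VT) 1 le_rfl), ω ∈ {ω : Sym2 VT → Bool |
          ∃ C : (openGraph GT ω).ConnectedComponent, C.supp.Infinite} := by
        filter_upwards [h1] with ω hω
        have e1 : openGraph GT ω = GT := by
          ext x y
          rw [openGraph_adj]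
          exact ⟨fun h => h.1, fun h => ⟨h, hω _⟩⟩
        refine ⟨(openGraph GT ω).connectedComponentMk (vw [] trivial), ?_⟩
        have e2 : ((openGraph GT ω).connectedComponentMk (vw [] trivial)).supp = Set.univ := by
          ext x
          simp only [Set.mem_univ, iff_true]
          rw [SimpleGraph.ConnectedComponent.mem_supp_iff, SimpleGraph.ConnectedComponent.eq, e1]
          exact GT_connected.preconnected _ _
        rw [e2]
        exact Set.infinite_univ
      have h3 : mu (Sym2 VT) 1 le_rfl {ω : Sym2 VT → Bool |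
          ∃ C : (openGraph GT ω).ConnectedComponent, C.supp.Infinite} = 1 := by
        have h4 : {ω : Sym2 VT → Bool | ∃ C : (openGraph GT ω).ConnectedComponent,
            C.supp.Infinite} =ᵐ[mu (Sym2 VT) 1 le_rfl] (Set.univ : Set (Sym2 VT → Bool)) :=
          Filter.eventuallyEq_univ.2 h2
        rw [measure_congr h4, measure_univ]
      rw [h3]
      exact one_pos
  rw [h, csInf_singleton]

/-- The line graph on the integers. -/
def zLine : SimpleGraph ℤ := SimpleGraph.fromRel (fun m n : ℤ => n = m + 1)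

/-- product graph -/
abbrev HT : SimpleGraph (VT × ℤ) := SimpleGraph.boxProd GT zLine

/-- inclusion -/
def inc (x : VT × ℤ) : WW := (x.1.1, x.2)

theorem inc_inj : Function.Injective inc := by
  rintro ⟨a, b⟩ ⟨c, d⟩ h
  unfold inc at h
  simp only [Prod.mk.injEq] at h
  rw [Subtype.ext h.1, h.2]

theorem inc_adj (x y : VT × ℤ) : HT.Adj x y ↔ (PG NK).Adj (inc x) (inc y) := by
  rw [SimpleGraph.boxProd_adj, PG_adj]
  unfold inc zLine
  rw [SimpleGraph.fromRel_adj, GT_adj]
  simp only
  constructor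
  · rintro (⟨h1, h2⟩ | ⟨⟨h1, h2⟩, h3⟩)
    · exact ⟨x.1.2, y.1.2, Or.inl ⟨h2, h1⟩⟩
    · exact ⟨x.1.2, y.1.2, Or.inr ⟨by rw [h3], h2⟩⟩
  · rintro ⟨_, _, h | h⟩
    · exact Or.inl ⟨h.2, h.1⟩
    · exact Or.inr ⟨⟨by omega, h.2⟩, Subtype.ext h.1⟩

open Classical in
/-- retraction -/
noncomputable def ret (z : WW) : VT × ℤ := if h : vv NK z.1 then (⟨z.1, h⟩, z.2) else (vw [] trivial, 0)

theorem ret_inc (x : VT × ℤ) : ret (inc x) = x := by
  unfold ret inc
  rw [dif_pos x.1.2]

theorem inc_ret {z : WW} (h : vv NK z.1) : inc (ret z) = z := by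
  unfold ret inc
  rw [dif_pos h]

theorem cn_push (x y : VT × ℤ) : pull inc (cn HT x y) = cn (PG NK) (inc x) (inc y) := by
  apply Set.Subset.antisymm
  · exact pull_cn_subset inc (fun a b h => (inc_adj a b).1 h) x y
  · have h := cn_subset_pull (H := HT) (H' := PG NK) inc ret (fun a b hab => by
      right
      have ha : vv NK a.1 := hab.1
      have hb : vv NK b.1 := hab.2.1
      refine ⟨(inc_ret ha).symm, (inc_ret hb).symm, ?_⟩
      rw [inc_adj, inc_ret ha, inc_ret hb]
      exact hab) (inc x) (inc y)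
    rw [ret_inc, ret_inc] at h
    exact h

/-- the root -/
def o0 : VT := vw [] trivial

/-- the good event -/
def AV : Set (Sym2 (VT × ℤ) → Bool) :=
  {ω | (∀ k, ∃ c : VT, ∃ j : ℤ, c.1.1.length = hd k ∧ ω ∈ cn HT (o0, 0) (c, j)) ∧
    ∀ v : VT, {n : ℤ | ω ∈ cn HT (o0, 0) (v, n)}.Finite}

theorem fin_meas {Ω : Type} [MeasurableSpace Ω] (B : ℤ → Set Ω) (hB : ∀ n, MeasurableSet (B n)) :
    MeasurableSet {ω | {n : ℤ | ω ∈ B n}.Finite} := by
  have h : {ω | {n : ℤ | ω ∈ B n}.Finite} = ⋃ M : ℕ, ⋂ n : ℤ, ⋂ (_ : M < n.natAbs), (B n)ᶜ := by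
    ext ω
    simp only [Set.mem_setOf_eq, Set.mem_iUnion, Set.mem_iInter, Set.mem_compl_iff]
    constructor
    · intro hf
      obtain ⟨M, hM⟩ := (hf.image Int.natAbs).bddAbove
      refine ⟨M, fun n hn hmem => ?_⟩
      have := hM (Set.mem_image_of_mem _ hmem)
      omega
    · rintro ⟨M, hM⟩
      refine (Set.finite_Icc (-(M : ℤ)) M).subset ?_
      intro n hn
      have : ¬ M < n.natAbs := fun h => hM n h hn
      rw [Set.mem_Icc]
      omega
  rw [h]
  exact MeasurableSet.iUnion fun M => MeasurableSet.iInter fun n => MeasurableSet.iInter fun _ =>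
    (hB n).compl

theorem AV_meas : MeasurableSet AV := by
  have h : AV = (⋂ k, ⋃ c : VT, ⋃ j : ℤ, {ω | c.1.1.length = hd k ∧ ω ∈ cn HT (o0, 0) (c, j)}) ∩
      ⋂ v : VT, {ω | {n : ℤ | ω ∈ cn HT (o0, 0) (v, n)}.Finite} := by
    ext ω
    simp only [AV, Set.mem_setOf_eq, Set.mem_inter_iff, Set.mem_iInter, Set.mem_iUnion]
  rw [h]
  refine MeasurableSet.inter ?_ ?_
  · refine MeasurableSet.iInter fun k => MeasurableSet.iUnion fun c => MeasurableSet.iUnion fun j => ?_
    by_cases hc : c.1.1.length = hd k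
    · simp only [hc, true_and]
      exact cn_meas0 _ _ _
    · simp [hc]
  · exact MeasurableSet.iInter fun v => fin_meas _ fun n => cn_meas0 _ _ _

theorem AV_prob : 0 < mu (Sym2 (VT × ℤ)) pp pp_le AV := by
  rw [← pull_prob inc inc_inj pp pp_le AV_meas]
  have h1 : ENNReal.ofReal (1 / 8) ≤ PP (SvI NK) := SvI_prob NK_good
  have h2 : PP (SvI NK) ≤ PP (pull inc AV) := by
    apply measure_mono_ae
    filter_upwards [fin_ae] with ω hfin hω
    have hω' : ω ∈ SvI NK := hω
    show (fun e => ω (Sym2.map inc e)) ∈ AV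
    have hpush : ∀ x y : VT × ℤ, (fun e => ω (Sym2.map inc e)) ∈ cn HT x y ↔
        ω ∈ cn (PG NK) (inc x) (inc y) := by
      intro x y
      rw [← cn_push]
      rfl
    refine ⟨?_, ?_⟩
    · intro k
      have h3 : ω ∈ Sv NK k 0 [] 0 := Set.mem_iInter.1 hω' k
      obtain ⟨c, hc, j, hr⟩ := Sv_reach NK_pos k 0 [] 0 rfl trivial h3
      rw [Nat.zero_add] at hc
      have hval : vv NK ((c, 0) : List ℕ × ℕ) := by
        have : (((c, 0), j) : WW) ∈ {z : WW | vv NK z.1} := by
          refine reach_closed hr _ ⟨trivial, cl_pos NK NK_pos _⟩ ?_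
          intro a b _ hab
          rw [openGraph_adj] at hab
          exact hab.1.2.1
        exact this
      exact ⟨⟨(c, 0), hval⟩, j, hc, (hpush _ _).2 hr⟩
    · intro v
      have h4 := hfin v.1 v.2
      convert h4 using 1
      ext n
      exact hpush (o0, 0) (v, n)
  refine lt_of_lt_of_le ?_ (h1.trans h2)
  simp

theorem AV_cluster {ω : Sym2 (VT × ℤ) → Bool} (hω : ω ∈ AV) :
    ∃ C : (openGraph HT ω).ConnectedComponent, C.supp.Infinite ∧
      ∀ v : VT, {n : ℤ | (v, n) ∈ C.supp}.Finite := by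
  obtain ⟨h1, h2⟩ := hω
  refine ⟨(openGraph HT ω).connectedComponentMk (o0, 0), ?_, ?_⟩
  · intro hfin
    have h3 := hfin.image (fun x : VT × ℤ => x.1.1.1.length)
    apply Set.infinite_range_of_injective hd_inj
    refine h3.subset ?_
    rintro _ ⟨k, rfl⟩
    obtain ⟨c, j, hc, hr⟩ := h1 k
    refine ⟨(c, j), ?_, hc⟩
    rw [SimpleGraph.ConnectedComponent.mem_supp_iff, SimpleGraph.ConnectedComponent.eq]
    have hr' : (openGraph HT ω).Reachable (o0, 0) (c, j) := hr
    exact hr'.symm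
  · intro v
    convert h2 v using 1
    ext n
    simp only [Set.mem_setOf_eq]
    rw [SimpleGraph.ConnectedComponent.mem_supp_iff, SimpleGraph.ConnectedComponent.eq]
    exact ⟨fun h => h.symm, fun h => SimpleGraph.Reachable.symm h⟩

end Pool.Agent.Helper713.Fib
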