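import Mathlib

set_option linter.unusedSectionVars false
set_option autoImplicit false

namespace Pool.Agent.Helper713.TH9

open MeasureTheory Finset

/-- sign of `i` in `[0,M)` -/
def sg (M i : ℕ) : ℝ := if 2 * i < M then 1 else -1

/-- indicator of the cell `[i d, (i+1) d)` -/
noncomputable def Q (d : ℝ) (i : ℕ) (x : ℝ) : ℝ :=
  Set.indicator (Set.Ico ((i : ℝ) * d) (((i : ℝ) + 1) * d)) (fun _ => (1:ℝ)) x

theorem Q_nonneg (d : ℝ) (i : ℕ) (x : ℝ) : 0 ≤ Q d i x := by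
  unfold Q; exact Set.indicator_nonneg (fun _ _ => zero_le_one) _

theorem Q_le_one (d : ℝ) (i : ℕ) (x : ℝ) : Q d i x ≤ 1 := by
  unfold Q
  by_cases h : x ∈ Set.Ico ((i : ℝ) * d) (((i : ℝ) + 1) * d)
  · rw [Set.indicator_of_mem h]
  · rw [Set.indicator_of_notMem h]; exact zero_le_one

theorem Q_meas (d : ℝ) (i : ℕ) : Measurable (Q d i) := by
  unfold Q; exact measurable_const.indicator measurableSet_Ico

theorem Q_shift (d : ℝ) (i : ℕ) (x : ℝ) : Q d i (x + i * d) = Q d 0 x := by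
  unfold Q
  by_cases h : x ∈ Set.Ico (((0:ℕ) : ℝ) * d) ((((0:ℕ) : ℝ) + 1) * d)
  · rw [Set.indicator_of_mem h, Set.indicator_of_mem]
    simp only [Nat.cast_zero, zero_mul, zero_add, one_mul, Set.mem_Ico] at h
    simp only [Set.mem_Ico]
    constructor <;> nlinarith [h.1, h.2]
  · rw [Set.indicator_of_notMem h, Set.indicator_of_notMem]
    simp only [Nat.cast_zero, zero_mul, zero_add, one_mul, Set.mem_Ico] at h
    simp only [Set.mem_Ico]
    intro h2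
    apply h
    constructor <;> nlinarith [h2.1, h2.2]

/-- sum of consecutive cells -/
theorem sum_Q (d : ℝ) (hd : 0 < d) (a L : ℕ) (x : ℝ) :
    ∑ i ∈ range L, Q d (a + i) x
      = Set.indicator (Set.Ico ((a : ℝ) * d) (((a : ℝ) + L) * d)) (fun _ => (1:ℝ)) x := by
  induction L with
  | zero => simp
  | succ L ih =>
    rw [Finset.sum_range_succ, ih]
    unfold Q
    have hL : (0:ℝ) ≤ L * d := by positivity
    by_cases h1 : x ∈ Set.Ico ((a : ℝ) * d) (((a : ℝ) + L) * d)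
    · have h2 : x ∉ Set.Ico (((a + L : ℕ) : ℝ) * d) ((((a + L : ℕ) : ℝ) + 1) * d) := by
        intro h; push_cast at h; exact absurd h.1 (not_le.mpr h1.2)
      have h3 : x ∈ Set.Ico ((a : ℝ) * d) (((a : ℝ) + ((L + 1 : ℕ) : ℝ)) * d) := by
        push_cast
        exact ⟨h1.1, lt_of_lt_of_le h1.2 (by nlinarith)⟩
      rw [Set.indicator_of_mem h1, Set.indicator_of_notMem h2, Set.indicator_of_mem h3]; ring
    · by_cases h2 : x ∈ Set.Ico (((a + L : ℕ) : ℝ) * d) ((((a + L : ℕ) : ℝ) + 1) * d)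
      · have h3 : x ∈ Set.Ico ((a : ℝ) * d) (((a : ℝ) + ((L + 1 : ℕ) : ℝ)) * d) := by
          push_cast at h2 ⊢
          constructor
          · have := h2.1; nlinarith
          · have := h2.2; nlinarith
        rw [Set.indicator_of_notMem h1, Set.indicator_of_mem h2, Set.indicator_of_mem h3]; ring
      · have h3 : x ∉ Set.Ico ((a : ℝ) * d) (((a : ℝ) + ((L + 1 : ℕ) : ℝ)) * d) := by
          push_cast at h2 ⊢
          intro h
          by_cases hx : x < ((a:ℝ) + L) * d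
          · exact h1 ⟨h.1, hx⟩
          · exact h2 ⟨not_lt.mp hx, by have := h.2; nlinarith⟩
        rw [Set.indicator_of_notMem h1, Set.indicator_of_notMem h2, Set.indicator_of_notMem h3]; ring

/-- Haar function as a signed sum of cells -/
theorem haar_eq (d : ℝ) (hd : 0 < d) (a L : ℕ) (x : ℝ) :
    ∑ i ∈ range (2 * L), sg (2 * L) i * Q d (a * (2 * L) + i) x
      = Set.indicator (Set.Ico (((2 * L : ℕ) : ℝ) * d * a) (((2 * L : ℕ) : ℝ) * d * a + L * d)) (fun _ => (1:ℝ)) x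
        - Set.indicator (Set.Ico (((2 * L : ℕ) : ℝ) * d * a + L * d) (((2 * L : ℕ) : ℝ) * d * (a + 1))) (fun _ => (1:ℝ)) x := by
  have h2 : 2 * L = L + L := by ring
  have e1 : ∑ i ∈ range (2 * L), sg (2 * L) i * Q d (a * (2 * L) + i) x
      = ∑ i ∈ range L, Q d (a * (2 * L) + i) x - ∑ i ∈ range L, Q d ((a * (2 * L) + L) + i) x := by
    conv_lhs => rw [h2]
    rw [Finset.sum_range_add, sub_eq_add_neg, ← Finset.sum_neg_distrib]
    congr 1
    · refine Finset.sum_congr rfl fun i hi => ?_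
      have hi' := Finset.mem_range.mp hi
      have : sg (L + L) i = 1 := by
        unfold sg; rw [if_pos]; omega
      rw [this, one_mul, ← h2]
    · refine Finset.sum_congr rfl fun i hi => ?_
      have hi' := Finset.mem_range.mp hi
      have : sg (L + L) (L + i) = -1 := by
        unfold sg; rw [if_neg]; omega
      rw [this, ← h2, ← add_assoc]; ring
  rw [e1, sum_Q d hd, sum_Q d hd]
  have a1 : ((a * (2 * L) : ℕ) : ℝ) * d = ((2 * L : ℕ) : ℝ) * d * a := by push_cast; ring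
  have a2 : (((a * (2 * L) : ℕ) : ℝ) + L) * d = ((2 * L : ℕ) : ℝ) * d * a + L * d := by push_cast; ring
  have a3 : ((a * (2 * L) + L : ℕ) : ℝ) * d = ((2 * L : ℕ) : ℝ) * d * a + L * d := by push_cast; ring
  have a4 : (((a * (2 * L) + L : ℕ) : ℝ) + L) * d = ((2 * L : ℕ) : ℝ) * d * (a + 1) := by push_cast; ring
  rw [a1, a2, a3, a4]

/-- cell in space -/
noncomputable def cell (d : ℝ) (i j l : ℕ) (p : ℝ × ℝ × ℝ) : ℝ :=
  Q d i p.1 * Q d j p.2.1 * Q d l p.2.2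

theorem cell_meas (d : ℝ) (i j l : ℕ) : Measurable (cell d i j l) := by
  unfold cell
  exact (((Q_meas d i).comp measurable_fst).mul ((Q_meas d j).comp (measurable_fst.comp measurable_snd))).mul
    ((Q_meas d l).comp (measurable_snd.comp measurable_snd))

theorem cell_nonneg (d : ℝ) (i j l : ℕ) (p : ℝ × ℝ × ℝ) : 0 ≤ cell d i j l p := by
  unfold cell
  exact mul_nonneg (mul_nonneg (Q_nonneg _ _ _) (Q_nonneg _ _ _)) (Q_nonneg _ _ _)

theorem cell_le_one (d : ℝ) (i j l : ℕ) (p : ℝ × ℝ × ℝ) : cell d i j l p ≤ 1 := by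
  unfold cell
  have h1 := Q_le_one d i p.1
  have h2 := Q_le_one d j p.2.1
  have h3 := Q_le_one d l p.2.2
  have g1 := Q_nonneg d i p.1
  have g2 := Q_nonneg d j p.2.1
  have g3 := Q_nonneg d l p.2.2
  have : Q d i p.1 * Q d j p.2.1 ≤ 1 := mul_le_one₀ h1 g2 h2
  exact mul_le_one₀ this g3 h3

theorem mp_add (g : ℝ × ℝ × ℝ) :
    MeasurePreserving (fun p => p + g) (volume : Measure (ℝ × ℝ × ℝ)) volume := by
  have h1 := measurePreserving_add_right (volume : Measure ℝ) g.1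
  have h2 := measurePreserving_add_right (volume : Measure (ℝ × ℝ)) g.2
  exact h1.prod h2

theorem integral_add_vec (F : ℝ × ℝ × ℝ → ℝ) (g : ℝ × ℝ × ℝ) : ∫ p, F (p + g) = ∫ p, F p :=
  (mp_add g).integral_comp (MeasurableEquiv.addRight g).measurableEmbedding F

/-- shift a cell to the origin -/
theorem shift (d : ℝ) (F : ℝ × ℝ × ℝ → ℝ) (i j l : ℕ) :
    ∫ p, F p * cell d i j l p
      = ∫ p, F (p + ((i:ℝ) * d, (j:ℝ) * d, (l:ℝ) * d)) * cell d 0 0 0 p := by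
  rw [← integral_add_vec (fun p => F p * cell d i j l p)
    (((i:ℝ) * d, (j:ℝ) * d, (l:ℝ) * d) : ℝ × ℝ × ℝ)]
  congr 1
  funext p
  congr 1
  unfold cell
  simp only [Prod.fst_add, Prod.snd_add, Q_shift]

theorem integ3 (F : ℝ × ℝ × ℝ → ℝ) (hF : Integrable F) :
    ∫ p, F p = ∫ x, ∫ y, ∫ z, F (x, y, z) := by
  rw [Measure.volume_eq_prod] at hF ⊢
  rw [integral_prod F hF]
  refine integral_congr_ae ?_
  filter_upwards [hF.prod_right_ae] with x hx
  rw [Measure.volume_eq_prod] at hx ⊢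
  exact integral_prod _ hx

/-- integrability against bounded functions -/
theorem integ_mul {Φ ψ : ℝ × ℝ × ℝ → ℝ} (hΦ : Integrable Φ) (hψ : Measurable ψ) (hb : ∀ p, |ψ p| ≤ 1) :
    Integrable (fun p => Φ p * ψ p) := by
  refine hΦ.mono (hΦ.aestronglyMeasurable.mul hψ.aestronglyMeasurable) (Filter.Eventually.of_forall fun p => ?_)
  rw [norm_mul]
  exact mul_le_of_le_one_right (norm_nonneg _) (hb p)

theorem int5 (s1 s2 s3 s4 s5 : Finset ℕ) (w : ℕ → ℕ → ℕ → ℕ → ℕ → ℝ)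
    (G : ℕ → ℕ → ℕ → ℕ → ℕ → ℝ × ℝ × ℝ → ℝ) (hG : ∀ a b i j l, Integrable (G a b i j l)) :
    Integrable (fun p => ∑ a ∈ s1, ∑ b ∈ s2, ∑ i ∈ s3, ∑ j ∈ s4, ∑ l ∈ s5,
      w a b i j l * G a b i j l p) ∧
    ∫ p, ∑ a ∈ s1, ∑ b ∈ s2, ∑ i ∈ s3, ∑ j ∈ s4, ∑ l ∈ s5, w a b i j l * G a b i j l p
      = ∑ a ∈ s1, ∑ b ∈ s2, ∑ i ∈ s3, ∑ j ∈ s4, ∑ l ∈ s5, w a b i j l * ∫ p, G a b i j l p := by
  have i5 : ∀ a b i j l, Integrable (fun p => w a b i j l * G a b i j l p) :=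
    fun a b i j l => (hG a b i j l).const_mul _
  have i4 : ∀ a b i j, Integrable (fun p => ∑ l ∈ s5, w a b i j l * G a b i j l p) :=
    fun a b i j => integrable_finsetSum _ fun l _ => i5 a b i j l
  have i3 : ∀ a b i, Integrable (fun p => ∑ j ∈ s4, ∑ l ∈ s5, w a b i j l * G a b i j l p) :=
    fun a b i => integrable_finsetSum _ fun j _ => i4 a b i j
  have i2 : ∀ a b, Integrable (fun p => ∑ i ∈ s3, ∑ j ∈ s4, ∑ l ∈ s5, w a b i j l * G a b i j l p) :=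
    fun a b => integrable_finsetSum _ fun i _ => i3 a b i
  have i1 : ∀ a, Integrable (fun p => ∑ b ∈ s2, ∑ i ∈ s3, ∑ j ∈ s4, ∑ l ∈ s5,
      w a b i j l * G a b i j l p) :=
    fun a => integrable_finsetSum _ fun b _ => i2 a b
  refine ⟨integrable_finsetSum _ fun a _ => i1 a, ?_⟩
  rw [integral_finsetSum _ fun a _ => i1 a]
  refine Finset.sum_congr rfl fun a _ => ?_
  rw [integral_finsetSum _ fun b _ => i2 a b]
  refine Finset.sum_congr rfl fun b _ => ?_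
  rw [integral_finsetSum _ fun i _ => i3 a b i]
  refine Finset.sum_congr rfl fun i _ => ?_
  rw [integral_finsetSum _ fun j _ => i4 a b i j]
  refine Finset.sum_congr rfl fun j _ => ?_
  rw [integral_finsetSum _ fun l _ => i5 a b i j l]
  refine Finset.sum_congr rfl fun l _ => ?_
  rw [integral_const_mul]

/-- the Haar function in the form used by the frozen statement -/
noncomputable def chi (k : ℤ) (a : ℕ) (x : ℝ) : ℝ :=
  Set.indicator (Set.Ico ((2:ℝ) ^ k * (a : ℝ)) ((2:ℝ) ^ k * (a : ℝ) + (2:ℝ) ^ (k - 1))) (fun _ => (1:ℝ)) x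
    - Set.indicator (Set.Ico ((2:ℝ) ^ k * (a : ℝ) + (2:ℝ) ^ (k - 1))
      ((2:ℝ) ^ k * ((a : ℝ) + 1))) (fun _ => (1:ℝ)) x

theorem chi_eq (k : ℤ) (d : ℝ) (hd : 0 < d) (L : ℕ) (hk : ((2 * L : ℕ) : ℝ) * d = (2:ℝ) ^ k)
    (a : ℕ) (x : ℝ) :
    chi k a x = ∑ i ∈ range (2 * L), sg (2 * L) i * Q d (a * (2 * L) + i) x := by
  have h2 : (L : ℝ) * d = (2:ℝ) ^ (k - 1) := by
    rw [zpow_sub_one₀ (by norm_num), ← hk]; push_cast; ring
  rw [haar_eq d hd]
  unfold chi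
  rw [← hk, ← h2]

/-- the integrand -/
def Phi (f g h : ℝ × ℝ → ℝ) (p : ℝ × ℝ × ℝ) : ℝ :=
  f (p.1, p.2.1) * g (p.2.1, p.2.2) * h (p.2.2, p.1)

noncomputable def T (f g h : ℝ × ℝ → ℝ) (k : ℤ) (a b : ℕ) : ℝ :=
  ∫ x : ℝ, ∫ y : ℝ, ∫ z : ℝ, f (x, y) * g (y, z) * h (z, x) * chi k a x * chi k b y
    * chi k (a ^^^ b) z

theorem exp3 (s : Finset ℕ) (X : ℝ) (A B C : ℕ → ℝ) :
    X * (∑ i ∈ s, A i) * (∑ j ∈ s, B j) * (∑ l ∈ s, C l)
      = ∑ i ∈ s, ∑ j ∈ s, ∑ l ∈ s, X * A i * B j * C l := by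
  generalize hB : ∑ j ∈ s, B j = SB
  generalize hC : ∑ l ∈ s, C l = SC
  rw [Finset.mul_sum, Finset.sum_mul, Finset.sum_mul]
  refine Finset.sum_congr rfl fun i _ => ?_
  rw [← hB, Finset.mul_sum, Finset.sum_mul]
  refine Finset.sum_congr rfl fun j _ => ?_
  rw [← hC, Finset.mul_sum]

theorem T_eq (f g h : ℝ × ℝ → ℝ) (hΦ : Integrable (Phi f g h)) (k : ℤ) (d : ℝ) (hd : 0 < d) (L : ℕ)
    (hk : ((2 * L : ℕ) : ℝ) * d = (2:ℝ) ^ k) (a b : ℕ) :
    T f g h k a b = ∑ i ∈ range (2 * L), ∑ j ∈ range (2 * L), ∑ l ∈ range (2 * L),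
      sg (2 * L) i * sg (2 * L) j * sg (2 * L) l *
        ∫ p, Phi f g h p * cell d (a * (2 * L) + i) (b * (2 * L) + j) ((a ^^^ b) * (2 * L) + l) p := by
  have hexp : ∀ p : ℝ × ℝ × ℝ, Phi f g h p * chi k a p.1 * chi k b p.2.1 * chi k (a ^^^ b) p.2.2
      = ∑ _a ∈ range 1, ∑ _b ∈ range 1, ∑ i ∈ range (2 * L), ∑ j ∈ range (2 * L), ∑ l ∈ range (2 * L),
        (sg (2 * L) i * sg (2 * L) j * sg (2 * L) l) *
        (Phi f g h p * cell d (a * (2 * L) + i) (b * (2 * L) + j) ((a ^^^ b) * (2 * L) + l) p) := by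
    intro p
    rw [chi_eq k d hd L hk a, chi_eq k d hd L hk b, chi_eq k d hd L hk (a ^^^ b)]
    simp only [Finset.sum_range_one]
    rw [exp3]
    refine Finset.sum_congr rfl fun i _ => Finset.sum_congr rfl fun j _ =>
      Finset.sum_congr rfl fun l _ => ?_
    unfold cell
    ring
  have hG : ∀ _a _b i j l : ℕ, Integrable (fun p => Phi f g h p *
      cell d (a * (2 * L) + i) (b * (2 * L) + j) ((a ^^^ b) * (2 * L) + l) p) := fun _ _ i j l =>
    integ_mul hΦ (cell_meas _ _ _ _) fun p => by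
      rw [abs_of_nonneg (cell_nonneg _ _ _ _ _)]; exact cell_le_one _ _ _ _ _
  obtain ⟨hI, hE⟩ := int5 (range 1) (range 1) (range (2 * L)) (range (2 * L)) (range (2 * L))
    (fun _ _ i j l => sg (2 * L) i * sg (2 * L) j * sg (2 * L) l)
    (fun _ _ i j l p => Phi f g h p * cell d (a * (2 * L) + i) (b * (2 * L) + j) ((a ^^^ b) * (2 * L) + l) p) hG
  simp only [← hexp] at hI hE
  unfold T
  have h3 := integ3 _ hI
  unfold Phi at h3
  simp only at h3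
  rw [← h3]
  have hE' := hE
  unfold Phi at hE'
  rw [hE']
  simp only [Finset.sum_range_one]
  rfl

/-- the finite form: level `s` of the tree of depth `n` -/
noncomputable def Lam (n s : ℕ) (f g h : ℕ → ℕ → ℝ) : ℝ :=
  (1/4:ℝ)^s * (1/8:ℝ)^(n-s) * ∑ p ∈ range (2^s), ∑ q ∈ range (2^s),
    ∑ i ∈ range (2^(n-s)), ∑ j ∈ range (2^(n-s)), ∑ k ∈ range (2^(n-s)),
      sg (2^(n-s)) i * sg (2^(n-s)) j * sg (2^(n-s)) k *
      (f (p*2^(n-s)+i) (q*2^(n-s)+j) * g (q*2^(n-s)+j) ((p ^^^ q)*2^(n-s)+k)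
        * h ((p ^^^ q)*2^(n-s)+k) (p*2^(n-s)+i))

/-- normalised sum of cubes -/
noncomputable def a3 (n : ℕ) (f : ℕ → ℕ → ℝ) : ℝ :=
  (1/4:ℝ)^n * ∑ i ∈ range (2^n), ∑ j ∈ range (2^n), |f i j|^3

/-- samples -/
def smf (d : ℝ) (f : ℝ × ℝ → ℝ) (p : ℝ × ℝ × ℝ) (i j : ℕ) : ℝ := f (p.1 + (i:ℝ) * d, p.2.1 + (j:ℝ) * d)
def smg (d : ℝ) (g : ℝ × ℝ → ℝ) (p : ℝ × ℝ × ℝ) (j l : ℕ) : ℝ := g (p.2.1 + (j:ℝ) * d, p.2.2 + (l:ℝ) * d)
def smh (d : ℝ) (h : ℝ × ℝ → ℝ) (p : ℝ × ℝ × ℝ) (l i : ℕ) : ℝ := h (p.2.2 + (l:ℝ) * d, p.1 + (i:ℝ) * d)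

theorem Phi_shift (f g h : ℝ × ℝ → ℝ) (d : ℝ) (p : ℝ × ℝ × ℝ) (i j l : ℕ) :
    Phi f g h (p + ((i:ℝ) * d, (j:ℝ) * d, (l:ℝ) * d)) = smf d f p i j * smg d g p j l * smh d h p l i := by
  rfl

/-- one scale as an integral over the small cube of the finite form -/
theorem level (f g h : ℝ × ℝ → ℝ) (hΦ : Integrable (Phi f g h)) (k : ℤ) (n s : ℕ) (hs : s < n)
    (d : ℝ) (hd : 0 < d) (hk : ((2 ^ (n - s) : ℕ) : ℝ) * d = (2:ℝ) ^ k) :
    Integrable (fun p => Lam n s (smf d f p) (smg d g p) (smh d h p) * cell d 0 0 0 p) ∧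
    ∑ a ∈ range (2^s), ∑ b ∈ range (2^s), T f g h k a b
      = (4:ℝ)^s * (8:ℝ)^(n-s) * ∫ p, Lam n s (smf d f p) (smg d g p) (smh d h p) * cell d 0 0 0 p := by
  obtain ⟨m, hm⟩ : ∃ m, n - s = m + 1 := ⟨n - s - 1, by omega⟩
  have hM : 2 ^ (n - s) = 2 * 2 ^ m := by rw [hm, pow_succ]; ring
  set M := 2 ^ (n - s) with hMdef
  set G : ℕ → ℕ → ℕ → ℕ → ℕ → ℝ × ℝ × ℝ → ℝ := fun a b i j l p =>
    (smf d f p (a * M + i) (b * M + j) * smg d g p (b * M + j) ((a ^^^ b) * M + l)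
      * smh d h p ((a ^^^ b) * M + l) (a * M + i)) * cell d 0 0 0 p with hG
  have hGI : ∀ a b i j l, Integrable (G a b i j l) := by
    intro a b i j l
    have h1 : Integrable (fun p => Phi f g h (p + (((a * M + i : ℕ):ℝ) * d, ((b * M + j : ℕ):ℝ) * d,
        (((a ^^^ b) * M + l : ℕ):ℝ) * d))) :=
      ((mp_add _).integrable_comp_emb (MeasurableEquiv.addRight _).measurableEmbedding).mpr hΦ
    exact integ_mul h1 (cell_meas _ _ _ _) fun p => by
      rw [abs_of_nonneg (cell_nonneg _ _ _ _ _)]; exact cell_le_one _ _ _ _ _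
  obtain ⟨hI, hE⟩ := int5 (range (2^s)) (range (2^s)) (range M) (range M) (range M)
    (fun _ _ i j l => sg M i * sg M j * sg M l) G hGI
  have hLam : ∀ p, Lam n s (smf d f p) (smg d g p) (smh d h p) * cell d 0 0 0 p
      = ((1/4:ℝ)^s * (1/8:ℝ)^(n-s)) * ∑ a ∈ range (2^s), ∑ b ∈ range (2^s), ∑ i ∈ range M,
        ∑ j ∈ range M, ∑ l ∈ range M, (sg M i * sg M j * sg M l) * G a b i j l p := by
    intro p
    unfold Lam
    rw [← hMdef, mul_assoc]
    congr 1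
    simp only [Finset.sum_mul]
    refine Finset.sum_congr rfl fun a _ => Finset.sum_congr rfl fun b _ =>
      Finset.sum_congr rfl fun i _ => Finset.sum_congr rfl fun j _ => Finset.sum_congr rfl fun l _ => ?_
    simp only [hG]
    ring
  refine ⟨?_, ?_⟩
  · simp only [hLam]
    exact hI.const_mul _
  · simp only [hLam]
    rw [integral_const_mul, hE]
    have hc : (4:ℝ)^s * (8:ℝ)^(n-s) * (((1/4:ℝ)^s * (1/8:ℝ)^(n-s)) * ∑ a ∈ range (2^s), ∑ b ∈ range (2^s), ∑ i ∈ range M,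
        ∑ j ∈ range M, ∑ l ∈ range M, (sg M i * sg M j * sg M l) * ∫ p, G a b i j l p)
        = ∑ a ∈ range (2^s), ∑ b ∈ range (2^s), ∑ i ∈ range M,
        ∑ j ∈ range M, ∑ l ∈ range M, (sg M i * sg M j * sg M l) * ∫ p, G a b i j l p := by
      rw [← mul_assoc]
      have : (4:ℝ)^s * (8:ℝ)^(n-s) * ((1/4:ℝ)^s * (1/8:ℝ)^(n-s)) = 1 := by
        rw [show (4:ℝ)^s * (8:ℝ)^(n-s) * ((1/4:ℝ)^s * (1/8:ℝ)^(n-s))
          = ((4:ℝ) * (1/4))^s * ((8:ℝ)*(1/8))^(n-s) by rw [mul_pow, mul_pow]; ring]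
        norm_num
      rw [this, one_mul]
    rw [hc]
    refine Finset.sum_congr rfl fun a _ => Finset.sum_congr rfl fun b _ => ?_
    have hT := T_eq f g h hΦ k d hd (2 ^ m) (by rw [← hM]; exact hk) a b
    rw [← hM] at hT
    rw [hT]
    refine Finset.sum_congr rfl fun i _ => Finset.sum_congr rfl fun j _ => Finset.sum_congr rfl fun l _ => ?_
    rw [shift]
    rfl

/-- cyclic shift of the coordinates -/
def tau : (ℝ × ℝ × ℝ) ≃ᵐ (ℝ × ℝ × ℝ) := MeasurableEquiv.prodAssoc.symm.trans MeasurableEquiv.prodComm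

theorem tau_apply (p : ℝ × ℝ × ℝ) : tau p = (p.2.2, p.1, p.2.1) := rfl

theorem tau_mp : MeasurePreserving tau (volume : Measure (ℝ × ℝ × ℝ)) volume := by
  have h1 : MeasurePreserving (MeasurableEquiv.prodAssoc : (ℝ × ℝ) × ℝ ≃ᵐ ℝ × ℝ × ℝ)
      (((volume : Measure ℝ).prod (volume : Measure ℝ)).prod (volume : Measure ℝ))
      ((volume : Measure ℝ).prod ((volume : Measure ℝ).prod (volume : Measure ℝ))) :=
    measurePreserving_prodAssoc _ _ _
  have h2 : MeasurePreserving (Prod.swap : (ℝ × ℝ) × ℝ → ℝ × (ℝ × ℝ))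
      (((volume : Measure ℝ).prod (volume : Measure ℝ)).prod (volume : Measure ℝ))
      ((volume : Measure ℝ).prod ((volume : Measure ℝ).prod (volume : Measure ℝ))) :=
    Measure.measurePreserving_swap
  exact h2.comp (MeasurePreserving.symm _ h1)

theorem Q_integrable (d : ℝ) (i : ℕ) : Integrable (Q d i) := by
  unfold Q
  exact (integrable_indicator_iff measurableSet_Ico).mpr (by
    refine integrableOn_const ?_ ?_ <;> simp)

theorem Q_integral (d : ℝ) (hd : 0 < d) : ∫ x, Q d 0 x = d := by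
  unfold Q
  rw [integral_indicator measurableSet_Ico]
  simp [hd.le]

theorem base (d : ℝ) (hd : 0 < d) (G : ℝ × ℝ → ℝ) (hG : Integrable G) :
    Integrable (fun p : ℝ × ℝ × ℝ => Q d 0 p.1 * G p.2) ∧
    ∫ p : ℝ × ℝ × ℝ, Q d 0 p.1 * G p.2 = d * ∫ q, G q := by
  constructor
  · exact (Q_integrable d 0).mul_prod hG
  · have h := integral_prod_mul (μ := (volume : Measure ℝ)) (ν := (volume : Measure (ℝ × ℝ))) (Q d 0) G
    rw [Q_integral d hd] at h
    exact h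

theorem caseF (d : ℝ) (hd : 0 < d) (G : ℝ × ℝ → ℝ) (hG : Integrable G) :
    Integrable (fun p : ℝ × ℝ × ℝ => Q d 0 p.2.2 * G (p.1, p.2.1)) ∧
    ∫ p : ℝ × ℝ × ℝ, Q d 0 p.2.2 * G (p.1, p.2.1) = d * ∫ q, G q := by
  obtain ⟨h1, h2⟩ := base d hd G hG
  constructor
  · exact (tau_mp.integrable_comp_emb tau.measurableEmbedding).mpr h1
  · rw [← h2]
    exact tau_mp.integral_comp tau.measurableEmbedding (fun p : ℝ × ℝ × ℝ => Q d 0 p.1 * G p.2)

theorem caseH (d : ℝ) (hd : 0 < d) (G : ℝ × ℝ → ℝ) (hG : Integrable G) :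
    Integrable (fun p : ℝ × ℝ × ℝ => Q d 0 p.2.1 * G (p.2.2, p.1)) ∧
    ∫ p : ℝ × ℝ × ℝ, Q d 0 p.2.1 * G (p.2.2, p.1) = d * ∫ q, G q := by
  obtain ⟨h1, h2⟩ := caseF d hd G hG
  constructor
  · exact (tau_mp.integrable_comp_emb tau.measurableEmbedding).mpr h1
  · rw [← h2]
    exact tau_mp.integral_comp tau.measurableEmbedding (fun p : ℝ × ℝ × ℝ => Q d 0 p.2.2 * G (p.1, p.2.1))

theorem a3gen (n : ℕ) (d : ℝ) (F q : ℝ × ℝ × ℝ → ℝ) (hF0 : ∀ p, 0 ≤ F p) (hFm : Measurable F)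
    (hFq : Integrable (fun p => q p * F p)) (e : ℕ → ℕ → ℕ × ℕ × ℕ)
    (hle1 : ∀ i j p, cell d (e i j).1 (e i j).2.1 (e i j).2.2 p ≤ q p)
    (hle : ∀ p, ∑ i ∈ range (2^n), ∑ j ∈ range (2^n), cell d (e i j).1 (e i j).2.1 (e i j).2.2 p ≤ q p)
    (sm : ℝ × ℝ × ℝ → ℕ → ℕ → ℝ)
    (hsm : ∀ p i j, |sm p i j| ^ 3 = F (p + (((e i j).1 : ℝ) * d, ((e i j).2.1 : ℝ) * d, ((e i j).2.2 : ℝ) * d))) :
    Integrable (fun p => a3 n (sm p) * cell d 0 0 0 p) ∧
    ∫ p, a3 n (sm p) * cell d 0 0 0 p ≤ (1/4:ℝ)^n * ∫ p, q p * F p := by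
  have hI : ∀ i j, Integrable (fun p => F p * cell d (e i j).1 (e i j).2.1 (e i j).2.2 p) := by
    intro i j
    refine hFq.mono (hFm.mul (cell_meas _ _ _ _)).aestronglyMeasurable (Filter.Eventually.of_forall fun p => ?_)
    have hq : 0 ≤ q p := (cell_nonneg _ _ _ _ _).trans (hle1 i j p)
    rw [Real.norm_of_nonneg (mul_nonneg (hF0 p) (cell_nonneg _ _ _ _ _)),
      Real.norm_of_nonneg (mul_nonneg hq (hF0 p)), mul_comm (q p)]
    exact mul_le_mul_of_nonneg_left (hle1 i j p) (hF0 p)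
  have hI2 : ∀ i j, Integrable (fun p => |sm p i j| ^ 3 * cell d 0 0 0 p) := by
    intro i j
    have := ((mp_add (((e i j).1 : ℝ) * d, ((e i j).2.1 : ℝ) * d, ((e i j).2.2 : ℝ) * d)).integrable_comp_emb
      (MeasurableEquiv.addRight _).measurableEmbedding).mpr (hI i j)
    refine this.congr (Filter.Eventually.of_forall fun p => ?_)
    simp only [Function.comp, hsm]
    congr 1
    unfold cell
    simp only [Prod.fst_add, Prod.snd_add, Q_shift]
  have hexp : ∀ p, a3 n (sm p) * cell d 0 0 0 p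
      = (1/4:ℝ)^n * ∑ i ∈ range (2^n), ∑ j ∈ range (2^n), |sm p i j| ^ 3 * cell d 0 0 0 p := by
    intro p
    unfold a3
    rw [mul_assoc]
    congr 1
    rw [Finset.sum_mul]
    refine Finset.sum_congr rfl fun i _ => ?_
    rw [Finset.sum_mul]
  have hI3 : ∀ i, Integrable (fun p => ∑ j ∈ range (2^n), |sm p i j| ^ 3 * cell d 0 0 0 p) :=
    fun i => integrable_finsetSum _ fun j _ => hI2 i j
  have hI4 : Integrable (fun p => ∑ i ∈ range (2^n), ∑ j ∈ range (2^n), |sm p i j| ^ 3 * cell d 0 0 0 p) :=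
    integrable_finsetSum _ fun i _ => hI3 i
  simp only [hexp]
  refine ⟨hI4.const_mul _, ?_⟩
  rw [integral_const_mul]
  refine mul_le_mul_of_nonneg_left ?_ (by positivity)
  rw [integral_finsetSum _ fun i _ => hI3 i]
  have e1 : ∀ i, ∫ p, ∑ j ∈ range (2^n), |sm p i j| ^ 3 * cell d 0 0 0 p
      = ∑ j ∈ range (2^n), ∫ p, F p * cell d (e i j).1 (e i j).2.1 (e i j).2.2 p := by
    intro i
    rw [integral_finsetSum _ fun j _ => hI2 i j]
    refine Finset.sum_congr rfl fun j _ => ?_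
    rw [shift d F (e i j).1 (e i j).2.1 (e i j).2.2]
    simp only [hsm]
  simp only [e1]
  have hI5 : ∀ i, Integrable (fun p => ∑ j ∈ range (2^n), F p * cell d (e i j).1 (e i j).2.1 (e i j).2.2 p) :=
    fun i => integrable_finsetSum _ fun j _ => hI i j
  have e2 : ∑ i ∈ range (2^n), ∑ j ∈ range (2^n), ∫ p, F p * cell d (e i j).1 (e i j).2.1 (e i j).2.2 p
      = ∫ p, ∑ i ∈ range (2^n), ∑ j ∈ range (2^n), F p * cell d (e i j).1 (e i j).2.1 (e i j).2.2 p := by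
    rw [integral_finsetSum _ fun i _ => hI5 i]
    refine Finset.sum_congr rfl fun i _ => ?_
    rw [integral_finsetSum _ fun j _ => hI i j]
  rw [e2]
  refine integral_mono (integrable_finsetSum _ fun i _ => hI5 i) hFq fun p => ?_
  simp only [← Finset.mul_sum]
  rw [mul_comm (q p)]
  exact mul_le_mul_of_nonneg_left (hle p) (hF0 p)

theorem sumQ_le_one (n : ℕ) (d : ℝ) (hd : 0 < d) (x : ℝ) : ∑ i ∈ range n, Q d i x ≤ 1 := by
  have := sum_Q d hd 0 n x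
  simp only [zero_add] at this
  rw [this]
  by_cases h : x ∈ Set.Ico (((0:ℕ):ℝ) * d) ((((0:ℕ):ℝ) + n) * d)
  · rw [Set.indicator_of_mem h]
  · rw [Set.indicator_of_notMem h]; exact zero_le_one

theorem sumQ_nonneg (n : ℕ) (d : ℝ) (x : ℝ) : 0 ≤ ∑ i ∈ range n, Q d i x :=
  Finset.sum_nonneg fun _ _ => Q_nonneg _ _ _

theorem a3f (n : ℕ) (d : ℝ) (hd : 0 < d) (f : ℝ × ℝ → ℝ) (hf : Measurable f)
    (hI : Integrable (fun q => |f q| ^ 3)) :
    Integrable (fun p => a3 n (smf d f p) * cell d 0 0 0 p) ∧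
    ∫ p, a3 n (smf d f p) * cell d 0 0 0 p ≤ (1/4:ℝ)^n * (d * ∫ q, |f q| ^ 3) := by
  obtain ⟨h1, h2⟩ := caseF d hd _ hI
  rw [← h2]
  refine a3gen n d (fun p => |f (p.1, p.2.1)| ^ 3) (fun p => Q d 0 p.2.2) (fun p => by positivity) ?_ h1
    (fun i j => (i, j, 0)) ?_ ?_ (smf d f) ?_
  · exact ((hf.comp (measurable_fst.prodMk (measurable_fst.comp measurable_snd))).abs.pow_const 3)
  · intro i j p
    unfold cell
    have h := mul_le_one₀ (Q_le_one d i p.1) (Q_nonneg d j p.2.1) (Q_le_one d j p.2.1)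
    simpa using mul_le_mul_of_nonneg_right h (Q_nonneg d 0 p.2.2)
  · intro p
    unfold cell
    simp only [← Finset.sum_mul, ← Finset.mul_sum]
    have h := mul_le_one₀ (sumQ_le_one (2^n) d hd p.1) (sumQ_nonneg (2^n) d p.2.1) (sumQ_le_one (2^n) d hd p.2.1)
    simpa using mul_le_mul_of_nonneg_right h (Q_nonneg d 0 p.2.2)
  · intro p i j
    rfl

theorem a3g (n : ℕ) (d : ℝ) (hd : 0 < d) (f : ℝ × ℝ → ℝ) (hf : Measurable f)
    (hI : Integrable (fun q => |f q| ^ 3)) :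
    Integrable (fun p => a3 n (smg d f p) * cell d 0 0 0 p) ∧
    ∫ p, a3 n (smg d f p) * cell d 0 0 0 p ≤ (1/4:ℝ)^n * (d * ∫ q, |f q| ^ 3) := by
  obtain ⟨h1, h2⟩ := base d hd _ hI
  rw [← h2]
  refine a3gen n d (fun p => |f p.2| ^ 3) (fun p => Q d 0 p.1) (fun p => by positivity) ?_ h1
    (fun i j => (0, i, j)) ?_ ?_ (smg d f) ?_
  · exact ((hf.comp measurable_snd).abs.pow_const 3)
  · intro i j p
    unfold cell
    have h := mul_le_one₀ (Q_le_one d i p.2.1) (Q_nonneg d j p.2.2) (Q_le_one d j p.2.2)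
    have := mul_le_mul_of_nonneg_left h (Q_nonneg d 0 p.1)
    rw [mul_assoc]
    simpa using this
  · intro p
    unfold cell
    have h := mul_le_one₀ (sumQ_le_one (2^n) d hd p.2.1) (sumQ_nonneg (2^n) d p.2.2) (sumQ_le_one (2^n) d hd p.2.2)
    have h3 := mul_le_mul_of_nonneg_left h (Q_nonneg d 0 p.1)
    have h4 : ∑ i ∈ range (2^n), ∑ j ∈ range (2^n), Q d 0 p.1 * Q d i p.2.1 * Q d j p.2.2
        = Q d 0 p.1 * ((∑ i ∈ range (2^n), Q d i p.2.1) * ∑ j ∈ range (2^n), Q d j p.2.2) := by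
      rw [Finset.sum_mul, Finset.mul_sum]
      refine Finset.sum_congr rfl fun i _ => ?_
      rw [Finset.mul_sum, Finset.mul_sum]
      refine Finset.sum_congr rfl fun j _ => ?_
      ring
    rw [h4]
    simpa using h3
  · intro p i j
    rfl

theorem a3h (n : ℕ) (d : ℝ) (hd : 0 < d) (f : ℝ × ℝ → ℝ) (hf : Measurable f)
    (hI : Integrable (fun q => |f q| ^ 3)) :
    Integrable (fun p => a3 n (smh d f p) * cell d 0 0 0 p) ∧
    ∫ p, a3 n (smh d f p) * cell d 0 0 0 p ≤ (1/4:ℝ)^n * (d * ∫ q, |f q| ^ 3) := by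
  obtain ⟨h1, h2⟩ := caseH d hd _ hI
  rw [← h2]
  refine a3gen n d (fun p => |f (p.2.2, p.1)| ^ 3) (fun p => Q d 0 p.2.1) (fun p => by positivity) ?_ h1
    (fun l i => (i, 0, l)) ?_ ?_ (smh d f) ?_
  · exact ((hf.comp ((measurable_snd.comp measurable_snd).prodMk measurable_fst)).abs.pow_const 3)
  · intro l i p
    unfold cell
    have h := mul_le_one₀ (Q_le_one d i p.1) (Q_nonneg d l p.2.2) (Q_le_one d l p.2.2)
    have := mul_le_mul_of_nonneg_left h (Q_nonneg d 0 p.2.1)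
    calc Q d i p.1 * Q d 0 p.2.1 * Q d l p.2.2 = Q d 0 p.2.1 * (Q d i p.1 * Q d l p.2.2) := by ring
      _ ≤ Q d 0 p.2.1 * 1 := this
      _ = Q d 0 p.2.1 := mul_one _
  · intro p
    unfold cell
    have h := mul_le_one₀ (sumQ_le_one (2^n) d hd p.2.2) (sumQ_nonneg (2^n) d p.1) (sumQ_le_one (2^n) d hd p.1)
    have h3 := mul_le_mul_of_nonneg_left h (Q_nonneg d 0 p.2.1)
    have h4 : ∑ l ∈ range (2^n), ∑ i ∈ range (2^n), Q d i p.1 * Q d 0 p.2.1 * Q d l p.2.2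
        = Q d 0 p.2.1 * ((∑ l ∈ range (2^n), Q d l p.2.2) * ∑ i ∈ range (2^n), Q d i p.1) := by
      rw [Finset.sum_mul, Finset.mul_sum]
      refine Finset.sum_congr rfl fun i _ => ?_
      rw [Finset.mul_sum, Finset.mul_sum]
      refine Finset.sum_congr rfl fun j _ => ?_
      ring
    show ∑ l ∈ range (2^n), ∑ i ∈ range (2^n), Q d i p.1 * Q d 0 p.2.1 * Q d l p.2.2 ≤ Q d 0 p.2.1
    rw [h4]
    simpa using h3
  · intro p i j
    rfl

theorem chi_zero (k : ℤ) (a : ℕ) (x : ℝ) (hx : x < (2:ℝ) ^ k * a) : chi k a x = 0 := by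
  unfold chi
  have h2 : (0:ℝ) < (2:ℝ) ^ (k - 1) := by positivity
  rw [Set.indicator_of_notMem, Set.indicator_of_notMem, sub_zero]
  · intro h; linarith [h.1]
  · intro h; linarith [h.1]

theorem T_zero (f g h : ℝ × ℝ → ℝ) (N : ℕ) (k : ℤ) (s : ℕ) (hks : (2:ℝ) ^ k * (2:ℝ) ^ s = (2:ℝ) ^ N)
    (hsupp : ∀ x y, (2:ℝ)^N ≤ x ∨ (2:ℝ)^N ≤ y → f (x, y) = 0) (a b : ℕ)
    (hab : 2 ^ s ≤ a ∨ 2 ^ s ≤ b) : T f g h k a b = 0 := by
  have key : ∀ c : ℕ, 2 ^ s ≤ c → (2:ℝ) ^ N ≤ (2:ℝ) ^ k * c := by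
    intro c hc
    rw [← hks]
    have : ((2:ℝ) ^ s) ≤ c := by exact_mod_cast hc
    exact mul_le_mul_of_nonneg_left this (by positivity)
  have h0 : ∀ x y z : ℝ, f (x, y) * g (y, z) * h (z, x) * chi k a x * chi k b y * chi k (a ^^^ b) z = 0 := by
    intro x y z
    by_cases hf : f (x, y) = 0
    · rw [hf]; ring
    · have hx : x < (2:ℝ)^N := by
        by_contra hc; exact hf (hsupp x y (Or.inl (not_lt.mp hc)))
      have hy : y < (2:ℝ)^N := by
        by_contra hc; exact hf (hsupp x y (Or.inr (not_lt.mp hc)))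
      rcases hab with ha | hb
      · rw [chi_zero k a x (lt_of_lt_of_le hx (key a ha))]; ring
      · rw [chi_zero k b y (lt_of_lt_of_le hy (key b hb))]; ring
  unfold T
  simp only [h0, integral_zero]

theorem main_ineq (C : ℝ) (hC : ∀ (n : ℕ) (f g h : ℕ → ℕ → ℝ),
      ∑ s ∈ range n, |Lam n s f g h| ≤ C * (a3 n f + a3 n g + a3 n h))
    (S : Finset ℤ) (ε : ℤ → ℝ) (hε : ∀ k, |ε k| ≤ 1) (f g h : ℝ × ℝ → ℝ)
    (hf : Measurable f) (hg : Measurable g) (hh : Measurable h)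
    (hΦ : Integrable (Phi f g h)) (hfI : Integrable (fun q => |f q| ^ 3))
    (hgI : Integrable (fun q => |g q| ^ 3)) (hhI : Integrable (fun q => |h q| ^ 3))
    (N : ℕ) (hN : ∀ k ∈ S, k ≤ N)
    (hsupp : ∀ x y, (2:ℝ)^N ≤ x ∨ (2:ℝ)^N ≤ y → f (x, y) = 0) :
    |∑ k ∈ S, (2:ℝ) ^ (-k) * ε k * ∑' ab : ℕ × ℕ, T f g h k ab.1 ab.2|
      ≤ C * ((∫ q, |f q| ^ 3) + (∫ q, |g q| ^ 3) + ∫ q, |h q| ^ 3) := by
  set n : ℕ := S.sup (fun k => ((N:ℤ) - k).toNat) + 1 with hn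
  set sk : ℤ → ℕ := fun k => ((N:ℤ) - k).toNat with hsk
  have hsn : ∀ k ∈ S, sk k < n := by
    intro k hk
    have : sk k ≤ S.sup (fun k => ((N:ℤ) - k).toNat) := Finset.le_sup (f := fun k => ((N:ℤ) - k).toNat) hk
    omega
  have hskz : ∀ k ∈ S, (sk k : ℤ) = N - k := by
    intro k hk
    have := hN k hk
    simp only [hsk]
    omega
  set d : ℝ := (2:ℝ)^N / (2:ℝ)^n with hd
  have hdpos : 0 < d := by positivity
  have hks : ∀ k ∈ S, (2:ℝ) ^ k * (2:ℝ) ^ (sk k) = (2:ℝ) ^ N := by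
    intro k hk
    rw [← zpow_natCast, ← zpow_natCast, ← zpow_add₀ (by norm_num), hskz k hk]
    congr 1; ring
  have hkd : ∀ k ∈ S, ((2 ^ (n - sk k) : ℕ) : ℝ) * d = (2:ℝ) ^ k := by
    intro k hk
    have h1 := hks k hk
    have h2 : (2:ℝ) ^ (n - sk k) * (2:ℝ) ^ (sk k) = (2:ℝ) ^ n := by
      rw [← pow_add]; congr 1; have := hsn k hk; omega
    rw [hd, ← h1, ← h2]
    push_cast
    have h3 : (2:ℝ) ^ (n - sk k) ≠ 0 := by positivity
    have h4 : (2:ℝ) ^ (sk k) ≠ 0 := by positivity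
    field_simp
  set κ : ℝ := (8:ℝ)^n / (2:ℝ)^N with hκ
  have hcoef : ∀ k ∈ S, (2:ℝ) ^ (-k) * ((4:ℝ)^(sk k) * (8:ℝ)^(n - sk k)) = κ := by
    intro k hk
    have h1 := hks k hk
    have h2 : (8:ℝ) ^ (n - sk k) * (8:ℝ) ^ (sk k) = (8:ℝ) ^ n := by
      rw [← pow_add]; congr 1; have := hsn k hk; omega
    have h3 : (8:ℝ) ^ (sk k) = (4:ℝ)^(sk k) * (2:ℝ)^(sk k) := by rw [← mul_pow]; norm_num
    rw [hκ, ← h1, ← h2, h3, zpow_neg]
    have h4 : (2:ℝ) ^ k ≠ 0 := by positivity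
    have h5 : (2:ℝ) ^ (sk k) ≠ 0 := by positivity
    field_simp
  -- the small integrals
  set Lp : ℤ → ℝ × ℝ × ℝ → ℝ := fun k p => Lam n (sk k) (smf d f p) (smg d g p) (smh d h p) with hLp
  have hlev : ∀ k ∈ S, Integrable (fun p => Lp k p * cell d 0 0 0 p) ∧
      ∑' ab : ℕ × ℕ, T f g h k ab.1 ab.2 = (4:ℝ)^(sk k) * (8:ℝ)^(n - sk k) * ∫ p, Lp k p * cell d 0 0 0 p := by
    intro k hk
    obtain ⟨l1, l2⟩ := level f g h hΦ k n (sk k) (hsn k hk) d hdpos (hkd k hk)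
    refine ⟨l1, ?_⟩
    rw [← l2, tsum_eq_sum (s := range (2 ^ sk k) ×ˢ range (2 ^ sk k)), Finset.sum_product]
    intro ab hab
    apply T_zero f g h N k (sk k) (hks k hk) hsupp
    simp only [Finset.mem_product, Finset.mem_range, not_and_or, not_lt] at hab
    exact hab
  have htot : ∑ k ∈ S, (2:ℝ) ^ (-k) * ε k * ∑' ab : ℕ × ℕ, T f g h k ab.1 ab.2
      = ∑ k ∈ S, κ * (ε k * ∫ p, Lp k p * cell d 0 0 0 p) := by
    refine Finset.sum_congr rfl fun k hk => ?_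
    rw [(hlev k hk).2, ← hcoef k hk]; ring
  rw [htot, ← Finset.mul_sum, abs_mul]
  have hκ0 : 0 < κ := by positivity
  rw [abs_of_pos hκ0]
  have habs : ∀ k ∈ S, Integrable (fun p => |Lp k p| * cell d 0 0 0 p) := by
    intro k hk
    refine ((hlev k hk).1.abs).congr (Filter.Eventually.of_forall fun p => ?_)
    simp only
    rw [abs_mul, abs_of_nonneg (cell_nonneg _ _ _ _ _)]
  have hb1 : |∑ k ∈ S, ε k * ∫ p, Lp k p * cell d 0 0 0 p| ≤ ∑ k ∈ S, ∫ p, |Lp k p| * cell d 0 0 0 p := by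
    refine (Finset.abs_sum_le_sum_abs _ _).trans (Finset.sum_le_sum fun k hk => ?_)
    rw [abs_mul]
    have h1 : |∫ p, Lp k p * cell d 0 0 0 p| ≤ ∫ p, |Lp k p| * cell d 0 0 0 p := by
      refine (abs_integral_le_integral_abs).trans (le_of_eq ?_)
      refine integral_congr_ae (Filter.Eventually.of_forall fun p => ?_)
      simp only
      rw [abs_mul, abs_of_nonneg (cell_nonneg _ _ _ _ _)]
    calc |ε k| * |∫ p, Lp k p * cell d 0 0 0 p| ≤ 1 * |∫ p, Lp k p * cell d 0 0 0 p| :=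
          mul_le_mul_of_nonneg_right (hε k) (abs_nonneg _)
      _ ≤ _ := by rw [one_mul]; exact h1
  obtain ⟨f1, f2⟩ := a3f n d hdpos f hf hfI
  obtain ⟨g1, g2⟩ := a3g n d hdpos g hg hgI
  obtain ⟨h1, h2⟩ := a3h n d hdpos h hh hhI
  have hC0 : 0 ≤ C := by
    have := hC 0 (fun _ _ => 1) (fun _ _ => 1) (fun _ _ => 1)
    simp [a3] at this
    linarith
  have hb2 : ∑ k ∈ S, ∫ p, |Lp k p| * cell d 0 0 0 p
      ≤ C * ((∫ p, a3 n (smf d f p) * cell d 0 0 0 p) + (∫ p, a3 n (smg d g p) * cell d 0 0 0 p)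
        + ∫ p, a3 n (smh d h p) * cell d 0 0 0 p) := by
    have fg1 : Integrable (fun p => a3 n (smf d f p) * cell d 0 0 0 p + a3 n (smg d g p) * cell d 0 0 0 p) :=
      f1.add g1
    have fgh1 : Integrable (fun p => a3 n (smf d f p) * cell d 0 0 0 p + a3 n (smg d g p) * cell d 0 0 0 p
        + a3 n (smh d h p) * cell d 0 0 0 p) := fg1.add h1
    rw [← integral_finsetSum _ habs, ← integral_add f1 g1, ← integral_add fg1 h1,
      ← integral_const_mul]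
    refine integral_mono (integrable_finsetSum _ habs) (fgh1.const_mul C) fun p => ?_
    simp only
    rw [← Finset.sum_mul]
    have hinj : ∑ k ∈ S, |Lp k p| ≤ ∑ s ∈ range n, |Lam n s (smf d f p) (smg d g p) (smh d h p)| := by
      have hij : Set.InjOn sk (S : Set ℤ) := by
        intro k hk k' hk' hkk
        have e1 := hskz k hk
        have e2 := hskz k' hk'
        rw [hkk] at e1
        omega
      rw [← Finset.sum_image (f := fun s => |Lam n s (smf d f p) (smg d g p) (smh d h p)|) hij]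
      refine Finset.sum_le_sum_of_subset_of_nonneg ?_ fun _ _ _ => abs_nonneg _
      intro s hs
      obtain ⟨k, hk, rfl⟩ := Finset.mem_image.mp hs
      exact Finset.mem_range.mpr (hsn k hk)
    calc (∑ k ∈ S, |Lp k p|) * cell d 0 0 0 p
        ≤ (C * (a3 n (smf d f p) + a3 n (smg d g p) + a3 n (smh d h p))) * cell d 0 0 0 p :=
          mul_le_mul_of_nonneg_right (hinj.trans (hC n _ _ _)) (cell_nonneg _ _ _ _ _)
      _ = _ := by ring
  have hfin : κ * (C * ((∫ p, a3 n (smf d f p) * cell d 0 0 0 p) + (∫ p, a3 n (smg d g p) * cell d 0 0 0 p)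
        + ∫ p, a3 n (smh d h p) * cell d 0 0 0 p))
      ≤ C * ((∫ q, |f q| ^ 3) + (∫ q, |g q| ^ 3) + ∫ q, |h q| ^ 3) := by
    have e : κ * ((1/4:ℝ)^n * d) = 1 := by
      rw [hκ, hd]
      have : (8:ℝ)^n * (1/4:ℝ)^n = (2:ℝ)^n := by rw [← mul_pow]; norm_num
      have h2n : (2:ℝ)^n ≠ 0 := by positivity
      have h2N : (2:ℝ)^N ≠ 0 := by positivity
      calc (8:ℝ)^n / (2:ℝ)^N * ((1/4:ℝ)^n * ((2:ℝ)^N / (2:ℝ)^n))
          = ((8:ℝ)^n * (1/4:ℝ)^n) * ((2:ℝ)^N / (2:ℝ)^N) / (2:ℝ)^n := by ring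
        _ = 1 := by rw [this, div_self h2N, mul_one, div_self h2n]
    have hsum : (∫ p, a3 n (smf d f p) * cell d 0 0 0 p) + (∫ p, a3 n (smg d g p) * cell d 0 0 0 p)
        + (∫ p, a3 n (smh d h p) * cell d 0 0 0 p)
        ≤ ((1/4:ℝ)^n * d) * ((∫ q, |f q| ^ 3) + (∫ q, |g q| ^ 3) + ∫ q, |h q| ^ 3) := by
      nlinarith [f2, g2, h2]
    calc κ * (C * ((∫ p, a3 n (smf d f p) * cell d 0 0 0 p) + (∫ p, a3 n (smg d g p) * cell d 0 0 0 p)
        + ∫ p, a3 n (smh d h p) * cell d 0 0 0 p))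
        ≤ κ * (C * (((1/4:ℝ)^n * d) * ((∫ q, |f q| ^ 3) + (∫ q, |g q| ^ 3) + ∫ q, |h q| ^ 3))) :=
          mul_le_mul_of_nonneg_left (mul_le_mul_of_nonneg_left hsum hC0) hκ0.le
      _ = (κ * ((1/4:ℝ)^n * d)) * (C * ((∫ q, |f q| ^ 3) + (∫ q, |g q| ^ 3) + ∫ q, |h q| ^ 3)) := by ring
      _ = _ := by rw [e, one_mul]
  exact (mul_le_mul_of_nonneg_left (hb1.trans hb2) hκ0.le).trans hfin

/-! ### The frozen form -/

noncomputable def I1 (R : ℝ) (x : ℝ) : ℝ := Set.indicator (Set.Icc (-R) R) (fun _ => (1:ℝ)) x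

theorem I1_int (R : ℝ) : Integrable (I1 R) := by
  unfold I1
  exact (integrable_indicator_iff measurableSet_Icc).mpr (by
    refine integrableOn_const ?_ ?_ <;> simp)

theorem I1_one (R x : ℝ) (h : |x| ≤ R) : I1 R x = 1 := by
  unfold I1
  rw [Set.indicator_of_mem]
  exact abs_le.mp h

theorem I1_nonneg (R x : ℝ) : 0 ≤ I1 R x := Set.indicator_nonneg (fun _ _ => zero_le_one) _

theorem int2 (F : ℝ × ℝ → ℝ) (hm : Measurable F) (B : ℝ) (hB : ∀ q, |F q| ≤ B) (R : ℝ)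
    (hR : ∀ x y, R < |x| ∨ R < |y| → F (x, y) = 0) : Integrable F := by
  have h2 : Integrable (fun q : ℝ × ℝ => I1 R q.1 * I1 R q.2) := (I1_int R).mul_prod (I1_int R)
  have hB0 : 0 ≤ B := (abs_nonneg _).trans (hB (0, 0))
  refine Integrable.mono' (h2.const_mul B) hm.aestronglyMeasurable (Filter.Eventually.of_forall fun q => ?_)
  obtain ⟨x, y⟩ := q
  rw [Real.norm_eq_abs]
  by_cases hx : |x| ≤ R
  · by_cases hy : |y| ≤ R
    · simp only [I1_one R x hx, I1_one R y hy, mul_one]; exact hB _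
    · rw [hR x y (Or.inr (not_le.mp hy)), abs_zero]
      exact mul_nonneg hB0 (mul_nonneg (I1_nonneg _ _) (I1_nonneg _ _))
  · rw [hR x y (Or.inl (not_le.mp hx)), abs_zero]
    exact mul_nonneg hB0 (mul_nonneg (I1_nonneg _ _) (I1_nonneg _ _))

theorem int3 (F : ℝ × ℝ × ℝ → ℝ) (hm : Measurable F) (B : ℝ) (hB : ∀ q, |F q| ≤ B) (R : ℝ)
    (hR : ∀ x y z, R < |x| ∨ R < |y| ∨ R < |z| → F (x, y, z) = 0) : Integrable F := by
  have h2 : Integrable (fun q : ℝ × ℝ => I1 R q.1 * I1 R q.2) := (I1_int R).mul_prod (I1_int R)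
  have h3 : Integrable (fun p : ℝ × ℝ × ℝ => I1 R p.1 * (I1 R p.2.1 * I1 R p.2.2)) := (I1_int R).mul_prod h2
  have hB0 : 0 ≤ B := (abs_nonneg _).trans (hB (0, 0, 0))
  refine Integrable.mono' (h3.const_mul B) hm.aestronglyMeasurable (Filter.Eventually.of_forall fun q => ?_)
  obtain ⟨x, y, z⟩ := q
  rw [Real.norm_eq_abs]
  have hnn : 0 ≤ B * (I1 R x * (I1 R y * I1 R z)) :=
    mul_nonneg hB0 (mul_nonneg (I1_nonneg _ _) (mul_nonneg (I1_nonneg _ _) (I1_nonneg _ _)))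
  by_cases hx : |x| ≤ R
  · by_cases hy : |y| ≤ R
    · by_cases hz : |z| ≤ R
      · simp only [I1_one R x hx, I1_one R y hy, I1_one R z hz, mul_one]; exact hB _
      · rw [hR x y z (Or.inr (Or.inr (not_le.mp hz))), abs_zero]; exact hnn
    · rw [hR x y z (Or.inr (Or.inl (not_le.mp hy))), abs_zero]; exact hnn
  · rw [hR x y z (Or.inl (not_le.mp hx)), abs_zero]; exact hnn

theorem supp_bound (F : ℝ × ℝ → ℝ) (hF : HasCompactSupport F) :
    ∃ R : ℝ, 0 < R ∧ ∀ x y, R < |x| ∨ R < |y| → F (x, y) = 0 := by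
  obtain ⟨R, hR⟩ := hF.isCompact.isBounded.subset_closedBall (0 : ℝ × ℝ)
  refine ⟨max R 1, lt_of_lt_of_le one_pos (le_max_right _ _), fun x y h => ?_⟩
  by_contra hne
  have hmem : (x, y) ∈ Metric.closedBall (0 : ℝ × ℝ) R := hR (subset_closure hne)
  rw [mem_closedBall_zero_iff, Prod.norm_def, max_le_iff] at hmem
  simp only [Real.norm_eq_abs] at hmem
  rcases h with h | h
  · exact absurd (lt_of_le_of_lt (le_max_left R 1) h) (not_lt.mpr hmem.1)
  · exact absurd (lt_of_le_of_lt (le_max_left R 1) h) (not_lt.mpr hmem.2)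

theorem norm_cube (F : ℝ × ℝ → ℝ) (hm : Measurable F) (hI : Integrable (fun q => |F q| ^ 3)) :
    (eLpNorm F 3 volume).toReal ^ 3 = ∫ q, |F q| ^ 3 := by
  have h3 : (3 : ENNReal).toReal = (3:ℝ) := by simp
  have hcast : ∀ q, ‖F q‖ ^ ((3 : ENNReal).toReal) = |F q| ^ 3 := by
    intro q
    rw [h3, Real.norm_eq_abs]
    exact_mod_cast Real.rpow_natCast (|F q|) 3
  have hLp : MemLp F 3 volume := by
    rw [← integrable_norm_rpow_iff hm.aestronglyMeasurable (by norm_num) (by norm_num)]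
    simp only [hcast]
    exact hI
  rw [hLp.eLpNorm_eq_integral_rpow_norm (by norm_num) (by norm_num)]
  simp only [hcast]
  have hnn : 0 ≤ ∫ q, |F q| ^ 3 := integral_nonneg fun q => by positivity
  rw [ENNReal.toReal_ofReal (Real.rpow_nonneg hnn _), h3, ← Real.rpow_natCast, ← Real.rpow_mul hnn]
  norm_num

theorem T_smul (a b c : ℝ) (f g h : ℝ × ℝ → ℝ) (k : ℤ) (i j : ℕ) :
    T (fun q => a * f q) (fun q => b * g q) (fun q => c * h q) k i j = (a * b * c) * T f g h k i j := by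
  unfold T
  have : ∀ x y z : ℝ, a * f (x, y) * (b * g (y, z)) * (c * h (z, x)) * chi k i x * chi k j y * chi k (i ^^^ j) z
      = (a * b * c) * (f (x, y) * g (y, z) * h (z, x) * chi k i x * chi k j y * chi k (i ^^^ j) z) := by
    intro x y z; ring
  simp only [this, integral_const_mul]

theorem frozen_form (hFS : ∃ C : ℝ, ∀ (n : ℕ) (f g h : ℕ → ℕ → ℝ),
      ∑ s ∈ range n, |Lam n s f g h| ≤ C * (a3 n f + a3 n g + a3 n h)) :
    ∃ C : ℝ, ∀ (S : Finset ℤ) (ε : ℤ → ℝ), (∀ k, |ε k| ≤ 1) →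
      ∀ f g h : ℝ × ℝ → ℝ,
        Measurable f → Measurable g → Measurable h →
        HasCompactSupport f → HasCompactSupport g → HasCompactSupport h →
        (∃ M : ℝ, ∀ p, |f p| ≤ M) → (∃ M : ℝ, ∀ p, |g p| ≤ M) → (∃ M : ℝ, ∀ p, |h p| ≤ M) →
        |∑ k ∈ S, (2:ℝ) ^ (-k) * ε k *
            ∑' ab : ℕ × ℕ, ∫ x : ℝ, ∫ y : ℝ, ∫ z : ℝ,
              f (x, y) * g (y, z) * h (z, x) *
              (Set.indicator (Set.Ico ((2:ℝ) ^ k * (ab.1 : ℝ))
                  ((2:ℝ) ^ k * (ab.1 : ℝ) + (2:ℝ) ^ (k - 1))) (fun _ => (1:ℝ)) x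
                - Set.indicator (Set.Ico ((2:ℝ) ^ k * (ab.1 : ℝ) + (2:ℝ) ^ (k - 1))
                  ((2:ℝ) ^ k * ((ab.1 : ℝ) + 1))) (fun _ => (1:ℝ)) x) *
              (Set.indicator (Set.Ico ((2:ℝ) ^ k * (ab.2 : ℝ))
                  ((2:ℝ) ^ k * (ab.2 : ℝ) + (2:ℝ) ^ (k - 1))) (fun _ => (1:ℝ)) y
                - Set.indicator (Set.Ico ((2:ℝ) ^ k * (ab.2 : ℝ) + (2:ℝ) ^ (k - 1))
                  ((2:ℝ) ^ k * ((ab.2 : ℝ) + 1))) (fun _ => (1:ℝ)) y) *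
              (Set.indicator (Set.Ico ((2:ℝ) ^ k * ((ab.1 ^^^ ab.2 : ℕ) : ℝ))
                  ((2:ℝ) ^ k * ((ab.1 ^^^ ab.2 : ℕ) : ℝ) + (2:ℝ) ^ (k - 1))) (fun _ => (1:ℝ)) z
                - Set.indicator (Set.Ico ((2:ℝ) ^ k * ((ab.1 ^^^ ab.2 : ℕ) : ℝ) + (2:ℝ) ^ (k - 1))
                  ((2:ℝ) ^ k * (((ab.1 ^^^ ab.2 : ℕ) : ℝ) + 1))) (fun _ => (1:ℝ)) z)|
          ≤ C * (eLpNorm f 3 volume).toReal * (eLpNorm g 3 volume).toReal
              * (eLpNorm h 3 volume).toReal := by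
  obtain ⟨C, hC⟩ := hFS
  have hC0 : 0 ≤ C := by
    have := hC 0 (fun _ _ => 1) (fun _ _ => 1) (fun _ _ => 1)
    simp [a3] at this
    linarith
  refine ⟨3 * C, ?_⟩
  intro S ε hε f g h hf hg hh cf cg ch bf bg bh
  show |∑ k ∈ S, (2:ℝ) ^ (-k) * ε k * ∑' ab : ℕ × ℕ, T f g h k ab.1 ab.2| ≤ _
  obtain ⟨Rf, hRf0, hRf⟩ := supp_bound f cf
  obtain ⟨Rg, hRg0, hRg⟩ := supp_bound g cg
  obtain ⟨Rh, hRh0, hRh⟩ := supp_bound h ch
  obtain ⟨Mf, hMf⟩ := bf
  obtain ⟨Mg, hMg⟩ := bg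
  obtain ⟨Mh, hMh⟩ := bh
  have hMf0 : 0 ≤ Mf := (abs_nonneg _).trans (hMf (0, 0))
  have hMg0 : 0 ≤ Mg := (abs_nonneg _).trans (hMg (0, 0))
  have hMh0 : 0 ≤ Mh := (abs_nonneg _).trans (hMh (0, 0))
  -- integrability of cubes
  have cube : ∀ (F : ℝ × ℝ → ℝ), Measurable F → ∀ M R : ℝ, (∀ q, |F q| ≤ M) →
      (∀ x y, R < |x| ∨ R < |y| → F (x, y) = 0) → Integrable (fun q => |F q| ^ 3) := by
    intro F hm M R hM hR
    refine int2 _ (hm.abs.pow_const 3) (M ^ 3) (fun q => ?_) R (fun x y hxy => ?_)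
    · rw [abs_of_nonneg (by positivity)]
      exact pow_le_pow_left₀ (abs_nonneg _) (hM q) 3
    · simp only [hR x y hxy]; norm_num
  have If := cube f hf Mf Rf hMf hRf
  have Ig := cube g hg Mg Rg hMg hRg
  have Ih := cube h hh Mh Rh hMh hRh
  -- support and scale
  obtain ⟨N0, hN0⟩ : ∃ N0 : ℕ, Rf < (2:ℝ) ^ N0 := pow_unbounded_of_one_lt Rf (by norm_num)
  set N : ℕ := max N0 (S.sup (fun k => k.toNat)) with hNdef
  have hN : ∀ k ∈ S, k ≤ (N:ℤ) := by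
    intro k hk
    have h1 : k.toNat ≤ S.sup (fun k => k.toNat) := Finset.le_sup (f := fun k : ℤ => k.toNat) hk
    have h2 : k ≤ (k.toNat : ℤ) := Int.self_le_toNat k
    have h3 : S.sup (fun k => k.toNat) ≤ N := le_max_right _ _
    omega
  have hRN : Rf < (2:ℝ) ^ N := lt_of_lt_of_le hN0 (pow_le_pow_right₀ (by norm_num) (le_max_left _ _))
  have hsupp : ∀ x y, (2:ℝ)^N ≤ x ∨ (2:ℝ)^N ≤ y → f (x, y) = 0 := by
    intro x y hxy
    apply hRf
    rcases hxy with hx | hy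
    · exact Or.inl (lt_of_lt_of_le (lt_of_lt_of_le hRN hx) (le_abs_self x))
    · exact Or.inr (lt_of_lt_of_le (lt_of_lt_of_le hRN hy) (le_abs_self y))
  have hPhiI : Integrable (Phi f g h) := by
    refine int3 _ ?_ (Mf * Mg * Mh) (fun p => ?_) (max Rf Rg) ?_
    · unfold Phi
      exact ((hf.comp (measurable_fst.prodMk (measurable_fst.comp measurable_snd))).mul
        (hg.comp measurable_snd)).mul
        (hh.comp ((measurable_snd.comp measurable_snd).prodMk measurable_fst))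
    · unfold Phi
      rw [abs_mul, abs_mul]
      exact mul_le_mul (mul_le_mul (hMf _) (hMg _) (abs_nonneg _) hMf0) (hMh _) (abs_nonneg _)
        (mul_nonneg hMf0 hMg0)
    · intro x y z hxyz
      show f (x, y) * g (y, z) * h (z, x) = 0
      rcases hxyz with h1 | h1 | h1
      · rw [hRf x y (Or.inl (lt_of_le_of_lt (le_max_left _ _) h1))]; ring
      · rw [hRf x y (Or.inr (lt_of_le_of_lt (le_max_left _ _) h1))]; ring
      · rw [hRg y z (Or.inr (lt_of_le_of_lt (le_max_right _ _) h1))]; ring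
  set A := (eLpNorm f 3 volume).toReal with hA
  set B := (eLpNorm g 3 volume).toReal with hB
  set D := (eLpNorm h 3 volume).toReal with hD
  have hA0 : 0 ≤ A := ENNReal.toReal_nonneg
  have hB0 : 0 ≤ B := ENNReal.toReal_nonneg
  have hD0 : 0 ≤ D := ENNReal.toReal_nonneg
  have hA3 : A ^ 3 = ∫ q, |f q| ^ 3 := norm_cube f hf If
  have hB3 : B ^ 3 = ∫ q, |g q| ^ 3 := norm_cube g hg Ig
  have hD3 : D ^ 3 = ∫ q, |h q| ^ 3 := norm_cube h hh Ih
  set Λ := ∑ k ∈ S, (2:ℝ) ^ (-k) * ε k * ∑' ab : ℕ × ℕ, T f g h k ab.1 ab.2 with hΛ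
  have key : ∀ η : ℝ, 0 < η → |Λ| ≤ 3 * C * (A + η) * (B + η) * (D + η) := by
    intro η hη
    have a0 : 0 < A + η := by linarith
    have b0 : 0 < B + η := by linarith
    have d0 : 0 < D + η := by linarith
    have hsc : ∀ (F : ℝ × ℝ → ℝ) (t : ℝ), 0 < t → ∀ q, |t⁻¹ * F q| ^ 3 = (t⁻¹) ^ 3 * |F q| ^ 3 := by
      intro F t ht q
      rw [abs_mul, mul_pow, abs_of_pos (inv_pos.mpr ht)]
    have hm := main_ineq C hC S ε hε (fun q => (A + η)⁻¹ * f q) (fun q => (B + η)⁻¹ * g q)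
      (fun q => (D + η)⁻¹ * h q) (hf.const_mul _) (hg.const_mul _) (hh.const_mul _)
      (by
        refine (hPhiI.const_mul ((A + η)⁻¹ * (B + η)⁻¹ * (D + η)⁻¹)).congr
          (Filter.Eventually.of_forall fun p => ?_)
        unfold Phi; simp only; ring)
      (by simp only [hsc f _ a0]; exact If.const_mul _)
      (by simp only [hsc g _ b0]; exact Ig.const_mul _)
      (by simp only [hsc h _ d0]; exact Ih.const_mul _) N hN
      (by intro x y hxy; simp only [hsupp x y hxy, mul_zero])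
    simp only [T_smul, hsc f _ a0, hsc g _ b0, hsc h _ d0, integral_const_mul, tsum_mul_left,
      ← hA3, ← hB3, ← hD3] at hm
    have e1 : ∑ k ∈ S, (2:ℝ) ^ (-k) * ε k * ((A + η)⁻¹ * (B + η)⁻¹ * (D + η)⁻¹ *
        ∑' ab : ℕ × ℕ, T f g h k ab.1 ab.2) = ((A + η)⁻¹ * (B + η)⁻¹ * (D + η)⁻¹) * Λ := by
      rw [hΛ, Finset.mul_sum]
      refine Finset.sum_congr rfl fun k _ => ?_
      ring
    rw [e1, abs_mul, abs_of_pos (by positivity)] at hm
    have le1 : ∀ X : ℝ, 0 ≤ X → ((X + η)⁻¹) ^ 3 * X ^ 3 ≤ 1 := by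
      intro X hX
      rw [← mul_pow]
      refine pow_le_one₀ (by positivity) ?_
      rw [inv_mul_le_iff₀ (by linarith)]
      linarith
    have hm2 : (A + η)⁻¹ * (B + η)⁻¹ * (D + η)⁻¹ * |Λ| ≤ 3 * C := by
      refine hm.trans ?_
      have := mul_le_mul_of_nonneg_left (add_le_add (add_le_add (le1 A hA0) (le1 B hB0)) (le1 D hD0)) hC0
      linarith
    have e2 : |Λ| = ((A + η) * (B + η) * (D + η)) * ((A + η)⁻¹ * (B + η)⁻¹ * (D + η)⁻¹ * |Λ|) := by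
      field_simp
    rw [e2]
    calc ((A + η) * (B + η) * (D + η)) * ((A + η)⁻¹ * (B + η)⁻¹ * (D + η)⁻¹ * |Λ|)
        ≤ ((A + η) * (B + η) * (D + η)) * (3 * C) := mul_le_mul_of_nonneg_left hm2 (by positivity)
      _ = _ := by ring
  have hlim : Filter.Tendsto (fun η : ℝ => 3 * C * (A + η) * (B + η) * (D + η)) (nhdsWithin 0 (Set.Ioi 0))
      (nhds (3 * C * (A + 0) * (B + 0) * (D + 0))) := by
    refine tendsto_nhdsWithin_of_tendsto_nhds ?_
    exact (Continuous.tendsto (by fun_prop) 0)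
  have := ge_of_tendsto hlim (eventually_nhdsWithin_of_forall fun η hη => key η hη)
  simpa using this

end Pool.Agent.Helper713.TH9
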